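import Mathlib

/-!
# A monolithic compactum whose function space does not condense into a Sigma-product (I)

The tree of nodes, and the one-point compactification of its interval topology.
-/

set_option autoImplicit false

namespace Pool.Agent.Helper436.CpTree

open Set

section Basic

variable {W K L : Type} [LinearOrder W] [LinearOrder K]

/-- Initial segments of a well-order `W` are of the form `{l | l < m}` with `m : WithTop W`. -/
lemma exists_bound [WellFoundedLT W] (D : Set W) (hD : IsLowerSet D) :
    ∃ m : WithTop W, ∀ l : W, l ∈ D ↔ (l : WithTop W) < m := by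
  by_cases h : ∃ l, l ∉ D
  · let m := WellFounded.min (wellFounded_lt : WellFounded ((· < ·) : W → W → Prop)) {l | l ∉ D} h
    refine ⟨m, fun l => ?_⟩
    rw [WithTop.coe_lt_coe]
    constructor
    · intro hl
      by_contra hc
      exact WellFounded.min_mem _ _ h (hD (not_lt.mp hc) hl)
    · intro hl
      by_contra hc
      exact WellFounded.not_lt_min _ (s := {l | l ∉ D}) hc hl
  · push Not at h
    exact ⟨⊤, fun l => ⟨fun _ => WithTop.coe_lt_top l, fun _ => h l⟩⟩

/-- Restriction of a partial sequence (undefined values are `⊤`) to the indices below `m`. -/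
def cut (x : W → WithTop K) (m : WithTop W) : W → WithTop K :=
  fun l => if (l : WithTop W) < m then x l else ⊤

omit [LinearOrder K] in
lemma cut_of_lt {x : W → WithTop K} {m : WithTop W} {l : W} (h : (l : WithTop W) < m) :
    cut x m l = x l := if_pos h

omit [LinearOrder K] in
lemma cut_of_not_lt {x : W → WithTop K} {m : WithTop W} {l : W} (h : ¬ (l : WithTop W) < m) :
    cut x m l = ⊤ := if_neg h

omit [LinearOrder K] in
lemma lt_of_cut_ne {x : W → WithTop K} {m : WithTop W} {l : W} (h : cut x m l ≠ ⊤) :
    (l : WithTop W) < m := by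
  by_contra hc
  exact h (cut_of_not_lt hc)

/-- Limit lengths. -/
def IsLim (m : WithTop W) : Prop :=
  (∃ l : W, (l : WithTop W) < m) ∧
    ∀ l : W, (l : WithTop W) < m → ∃ l' : W, l < l' ∧ (l' : WithTop W) < m

/-- A node: a label together with a partial strictly increasing sequence, whose restrictions to
limit lengths have the codes prescribed by the label. -/
structure Node (E : (W → WithTop K) → L) where
  lab : WithTop W → L
  x : W → WithTop K
  seq : ∀ l m, l < m → x l < x m ∨ x m = ⊤
  coh : ∀ m, IsLim m → (∀ l : W, (l : WithTop W) < m → x l ≠ ⊤) → E (cut x m) = lab m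

variable {E : (W → WithTop K) → L}

lemma Node.ext' {r s : Node E} (h1 : r.lab = s.lab) (h2 : r.x = s.x) : r = s := by
  cases r; cases s; simp only at h1 h2; subst h1; subst h2; rfl

lemma Node.down (r : Node E) {l m : W} (h : l ≤ m) (hm : r.x m ≠ ⊤) : r.x l ≠ ⊤ := by
  rcases h.lt_or_eq with h | h
  · rcases r.seq l m h with h' | h'
    · exact h'.ne_top
    · exact absurd h' hm
  · rw [h]; exact hm

instance : PartialOrder (Node E) where
  le r s := r.lab = s.lab ∧ ∀ l, r.x l ≠ ⊤ → s.x l = r.x l
  le_refl r := ⟨rfl, fun _ _ => rfl⟩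
  le_trans r s t h1 h2 := ⟨h1.1.trans h2.1, fun l hl => by
    have := h1.2 l hl
    rw [← this]
    exact h2.2 l (by rw [this]; exact hl)⟩
  le_antisymm r s h1 h2 := Node.ext' h1.1 (by
    funext l
    by_cases hr : r.x l = ⊤
    · by_contra hne
      have hs : s.x l ≠ ⊤ := fun h => hne (by rw [hr, h])
      exact hne (h2.2 l hs)
    · exact (h1.2 l hr).symm)

lemma le_def {r s : Node E} : r ≤ s ↔ r.lab = s.lab ∧ ∀ l, r.x l ≠ ⊤ → s.x l = r.x l := Iff.rfl

/-- Restriction of a node. -/
def cutNode (r : Node E) (m : WithTop W) : Node E where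
  lab := r.lab
  x := cut r.x m
  seq := by
    intro l l' h
    by_cases hm : (l' : WithTop W) < m
    · have hl : (l : WithTop W) < m := lt_trans (WithTop.coe_lt_coe.mpr h) hm
      rw [cut_of_lt hm, cut_of_lt hl]
      exact r.seq l l' h
    · right; exact cut_of_not_lt hm
  coh := by
    intro m' hm' h
    have : cut (cut r.x m) m' = cut r.x m' := by
      funext l
      by_cases hl : (l : WithTop W) < m'
      · rw [cut_of_lt hl, cut_of_lt hl, cut_of_lt (lt_of_cut_ne (h l hl))]
      · rw [cut_of_not_lt hl, cut_of_not_lt hl]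
    rw [this]
    refine r.coh m' hm' fun l hl => ?_
    have h1 := h l hl
    rwa [cut_of_lt (lt_of_cut_ne h1)] at h1

lemma cutNode_le (r : Node E) (m : WithTop W) : cutNode r m ≤ r :=
  ⟨rfl, fun l hl => (cut_of_lt (lt_of_cut_ne hl)).symm⟩

/-- If two nodes have a common lower bound (hence equal labels), they have a meet. -/
lemma exists_meet [WellFoundedLT W] (r s : Node E) (h : r.lab = s.lab) :
    ∃ w, w ≤ r ∧ w ≤ s ∧ ∀ v, v ≤ r → v ≤ s → v ≤ w := by
  obtain ⟨m, hm⟩ := exists_bound {l : W | ∀ l' ≤ l, r.x l' = s.x l'}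
    (fun a b hab ha l' hl' => ha l' (hl'.trans hab))
  refine ⟨cutNode r m, cutNode_le r m, ⟨h, fun l hl => ?_⟩, fun v h1 h2 => ⟨h1.1, fun l hl => ?_⟩⟩
  · have hl1 := lt_of_cut_ne hl
    show s.x l = cut r.x m l
    rw [cut_of_lt hl1]
    exact ((hm l).2 hl1 l le_rfl).symm
  · have hl1 : (l : WithTop W) < m := by
      rw [← hm l]
      intro l' hl'
      have := v.down hl' hl
      rw [h1.2 l' this, h2.2 l' this]
    show cut r.x m l = v.x l
    rw [cut_of_lt hl1]
    exact h1.2 l hl

lemma exists_len [WellFoundedLT W] (r : Node E) :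
    ∃ m : WithTop W, ∀ l : W, r.x l ≠ ⊤ ↔ (l : WithTop W) < m :=
  exists_bound {l : W | r.x l ≠ ⊤} (fun _ _ hab ha => r.down hab ha)

/-- The length of a node. -/
noncomputable def len [WellFoundedLT W] (r : Node E) : WithTop W := (exists_len r).choose

lemma lt_len [WellFoundedLT W] (r : Node E) (l : W) :
    (l : WithTop W) < len r ↔ r.x l ≠ ⊤ := ((exists_len r).choose_spec l).symm

lemma len_mono [WellFoundedLT W] {r s : Node E} (h : r ≤ s) : len r ≤ len s := by
  by_contra hc
  push Not at hc
  obtain ⟨l, hl⟩ := WithTop.ne_top_iff_exists.mp hc.ne_top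
  rw [← hl, lt_len] at hc
  have h1 := h.2 l hc
  have h2 : s.x l ≠ ⊤ := by rw [h1]; exact hc
  rw [← lt_len, ← hl] at h2
  exact lt_irrefl _ h2

lemma eq_of_le_of_len [WellFoundedLT W] {r s : Node E} (h : r ≤ s) (h' : len r = len s) :
    r = s := by
  refine le_antisymm h ⟨h.1.symm, fun l hl => ?_⟩
  rw [← lt_len, ← h', lt_len] at hl
  exact (h.2 l hl).symm

lemma len_strictMono [WellFoundedLT W] {r s : Node E} (h : r < s) : len r < len s :=
  lt_of_le_of_ne (len_mono h.le) (fun h' => h.ne (eq_of_le_of_len h.le h'))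

instance [WellFoundedLT W] : WellFoundedLT (Node E) :=
  ⟨Subrelation.wf (fun h => len_strictMono h) (InvImage.wf len (wellFounded_lt (α := WithTop W)))⟩

/-- If `r < t` there is an index in the domain of `t` above the whole domain of `r`. -/
lemma exists_gap {r t : Node E} (h : r < t) : ∃ l, t.x l ≠ ⊤ ∧ r.x l = ⊤ := by
  by_contra hc
  push Not at hc
  refine h.ne (le_antisymm h.le ⟨h.le.1.symm, fun l hl => ?_⟩)
  exact (h.le.2 l (hc l hl)).symm

end Basic

section Space

variable {W K L : Type} [LinearOrder W] [LinearOrder K] (E : (W → WithTop K) → L)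

open Classical in
/-- The point of the compactum given by a node `s`: the clopen sets `[0,t]` containing `s`. -/
noncomputable def pt {E : (W → WithTop K) → L} (s : Node E) : Node E → Bool :=
  fun t => decide (s ≤ t)

lemma pt_apply {E : (W → WithTop K) → L} (s t : Node E) : pt s t = true ↔ s ≤ t := by
  simp [pt]

lemma pt_apply_false {E : (W → WithTop K) → L} (s t : Node E) : pt s t = false ↔ ¬ s ≤ t := by
  simp [pt]

lemma pt_injective {E : (W → WithTop K) → L} : Function.Injective (pt (E := E)) := by
  intro s t h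
  apply le_antisymm
  · rw [← pt_apply, h, pt_apply]
  · rw [← pt_apply, ← h, pt_apply]

/-- The underlying set of the compactum. -/
def carrier : Set (Node E → Bool) := {u | (∃ s, u = pt s) ∨ u = fun _ => false}

lemma agree_of_mem_closure {T : Type} {S : Set (T → Bool)} {u : T → Bool} (hu : u ∈ closure S)
    (F : Finset T) : ∃ v ∈ S, ∀ t ∈ F, v t = u t := by
  have hopen : IsOpen {v : T → Bool | ∀ t ∈ F, v t = u t} := by
    have : {v : T → Bool | ∀ t ∈ F, v t = u t} = ⋂ t ∈ F, (fun v : T → Bool => v t) ⁻¹' {u t} := by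
      ext v; simp
    rw [this]
    exact isOpen_biInter_finset fun t _ => (isOpen_discrete _).preimage (continuous_apply t)
  obtain ⟨v, hv1, hv2⟩ := mem_closure_iff.mp hu _ hopen (fun t _ => rfl)
  exact ⟨v, hv2, hv1⟩

lemma isClosed_carrier [WellFoundedLT W] : IsClosed (carrier E) := by
  classical
  rw [← closure_subset_iff_isClosed]
  intro u hu
  by_cases h0 : ∃ t, u t = true
  · left
    let s0 := WellFounded.min (wellFounded_lt : WellFounded ((· < ·) : Node E → Node E → Prop))
      {t | u t = true} h0
    have hs0 : u s0 = true := WellFounded.min_mem _ {t | u t = true} h0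
    have hmin : ∀ w, u w = true → ¬ w < s0 := fun w hw =>
      WellFounded.not_lt_min _ (s := {t | u t = true}) hw
    -- approximations
    have key : ∀ F : Finset (Node E), s0 ∈ F → ∃ s, ∀ t ∈ F, pt s t = u t := by
      intro F hF
      obtain ⟨v, hv, hv2⟩ := agree_of_mem_closure hu F
      rcases hv with ⟨s, rfl⟩ | rfl
      · exact ⟨s, hv2⟩
      · exfalso
        have := hv2 s0 hF
        rw [hs0] at this
        exact Bool.false_ne_true this
    refine ⟨s0, ?_⟩
    funext t'
    rw [Bool.eq_iff_iff, pt_apply]
    constructor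
    · intro ht'
      obtain ⟨s, hs⟩ := key {s0, t'} (by simp)
      have h1 : s ≤ s0 := by
        rw [← pt_apply, hs s0 (by simp), hs0]
      have h2 : s ≤ t' := by
        rw [← pt_apply, hs t' (by simp), ht']
      obtain ⟨w, hw1, hw2, hw3⟩ := exists_meet s0 t' (h1.1.symm.trans h2.1)
      obtain ⟨s', hs'⟩ := key {s0, t', w} (by simp)
      have h3 : s' ≤ s0 := by
        rw [← pt_apply, hs' s0 (by simp), hs0]
      have h4 : s' ≤ t' := by
        rw [← pt_apply, hs' t' (by simp), ht']
      have h5 : u w = true := by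
        rw [← hs' w (by simp), pt_apply]
        exact hw3 s' h3 h4
      have h6 : w = s0 := by
        by_contra hne
        exact hmin w h5 (lt_of_le_of_ne hw1 hne)
      rw [← h6]
      exact hw2
    · intro ht'
      obtain ⟨s, hs⟩ := key {s0, t'} (by simp)
      have h1 : s ≤ s0 := by
        rw [← pt_apply, hs s0 (by simp), hs0]
      rw [← hs t' (by simp), pt_apply]
      exact h1.trans ht'
  · right
    push Not at h0
    funext t
    simpa using h0 t

/-- The compactum. -/
abbrev Sp : Type := carrier E

instance [WellFoundedLT W] : CompactSpace (Sp E) :=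
  isCompact_iff_compactSpace.mp (isClosed_carrier E).isCompact

instance : T2Space (Sp E) := inferInstance

variable {E}

/-- The point of the compactum given by a node. -/
noncomputable def P (s : Node E) : Sp E := ⟨pt s, Or.inl ⟨s, rfl⟩⟩

lemma P_injective : Function.Injective (P (E := E)) := fun _ _ h =>
  pt_injective (congrArg Subtype.val h)

variable (E) in
/-- The point at infinity. -/
def inf : Sp E := ⟨fun _ => false, Or.inr rfl⟩

lemma eq_P_or_inf (u : Sp E) : (∃ s, u = P s) ∨ u = inf E := by
  obtain ⟨u, hu⟩ := u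
  rcases hu with ⟨s, rfl⟩ | rfl
  · exact Or.inl ⟨s, rfl⟩
  · exact Or.inr rfl

/-- The indicator function of the clopen set `[0,s]`. -/
noncomputable def f (s : Node E) : {h : Sp E → ℝ // Continuous h} :=
  ⟨fun u => if u.1 s = true then 1 else 0, by
    have h1 : Continuous (fun b : Bool => if b = true then (1 : ℝ) else 0) :=
      continuous_of_discreteTopology
    exact h1.comp ((continuous_apply s).comp continuous_subtype_val)⟩

lemma f_P_of_le {s t : Node E} (h : t ≤ s) : (f s).1 (P t) = 1 :=
  if_pos ((pt_apply t s).2 h)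

lemma f_P_of_not_le {s t : Node E} (h : ¬ t ≤ s) : (f s).1 (P t) = 0 :=
  if_neg (fun h' => h ((pt_apply t s).1 h'))

lemma f_inf (s : Node E) : (f s).1 (inf E) = 0 := by
  show (if (fun _ => false : Node E → Bool) s = true then (1 : ℝ) else 0) = 0
  simp

end Space

end Pool.Agent.Helper436.CpTree
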