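import Pool.Agent.Helper436.CpTreeInj

/-!
# A monolithic compactum whose function space does not condense into a Sigma-product (IV)

Instantiation at the ordinals `ω₁` and `(2^ℵ₁)⁺`.
-/

set_option autoImplicit false

namespace Pool.Agent.Helper436.CpTree

open Set Cardinal

/-- The index order `ω₁`. -/
abbrev W1 : Type := (Cardinal.aleph 1).ord.ToType

/-- The cardinal `2^ℵ₁`. -/
noncomputable def kap : Cardinal.{0} := #(Set W1)

/-- The order `(2^ℵ₁)⁺` -/
abbrev K1 : Type := (Order.succ kap).ord.ToType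

lemma mk_W1 : #W1 = Cardinal.aleph 1 := Cardinal.mk_ord_toType _

lemma kap_eq : kap = 2 ^ (Cardinal.aleph 1) := by
  rw [kap, Cardinal.mk_set, mk_W1]

lemma aleph0_le_kap : ℵ₀ ≤ kap := by
  rw [kap_eq]
  exact (Cardinal.aleph0_le_aleph 1).trans (Cardinal.cantor _).le

lemma mk_W1_le : #W1 ≤ kap := by
  rw [kap_eq, mk_W1]
  exact (Cardinal.cantor _).le

lemma kap_power (c : Cardinal.{0}) (hc : c ≤ Cardinal.aleph 1) : kap ^ c ≤ kap := by
  rw [kap_eq, ← Cardinal.power_mul]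
  apply Cardinal.power_le_power_left two_ne_zero
  exact (mul_le_mul' le_rfl hc).trans_eq (Cardinal.mul_eq_self (Cardinal.aleph0_le_aleph 1))

lemma not_countable_W1 : ¬ Countable W1 := by
  intro h
  have h1 : #W1 ≤ ℵ₀ := Cardinal.mk_le_aleph0_iff.mpr h
  rw [mk_W1] at h1
  exact absurd h1 (not_le.mpr Cardinal.aleph0_lt_aleph_one)

lemma mk_Iio_lt_aux {c : Cardinal.{0}} (i : c.ord.ToType) : #(Set.Iio i) < c := by
  simpa using Cardinal.mk_Iio_lt i

lemma countable_Iio_W1 (k : W1) : (Set.Iio k).Countable := by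
  have h := mk_Iio_lt_aux k
  have h2 : #(Set.Iio k) < Order.succ ℵ₀ := by
    rw [Cardinal.succ_aleph0]
    exact h
  exact Cardinal.le_aleph0_iff_set_countable.mp (Order.lt_succ_iff.mp h2)

lemma mk_withTop_le {κ : Cardinal.{0}} (hκ : ℵ₀ ≤ κ) (S : Type) (hS : #S ≤ κ) :
    #(WithTop S) ≤ κ := by
  show #(Option S) ≤ κ
  rw [Cardinal.mk_option]
  exact (add_le_add hS (Cardinal.one_le_aleph0.trans hκ)).trans_eq (Cardinal.add_eq_self hκ)

lemma mk_lab_le : #(WithTop W1 → Set W1) ≤ kap := by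
  rw [← Cardinal.power_def]
  exact kap_power _ (mk_withTop_le (Cardinal.aleph0_le_aleph 1) _ mk_W1.le)

lemma mk_seq_le (B : Set K1) (hB : #B ≤ kap) : #(W1 → WithTop B) ≤ kap := by
  rw [← Cardinal.power_def]
  exact (Cardinal.power_le_power_right (mk_withTop_le aleph0_le_kap _ hB)).trans
    (kap_power _ mk_W1.le)

lemma bdd_K1 (B : Set K1) (hB : #B ≤ kap) : ∃ γ, ∀ a ∈ B, a < γ := by
  by_contra hc
  push Not at hc
  have h1 : IsCofinal B := hc
  have h2 := Order.cof_le h1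
  rw [Ordinal.cof_toType, (Cardinal.isRegular_succ aleph0_le_kap).cof_ord] at h2
  exact absurd (h2.trans hB) (not_le.mpr (Order.lt_succ _))

lemma mk_values_le (x : W1 → WithTop K1) : #{a : K1 | ∃ l, x l = a} ≤ kap := by
  refine le_trans ?_ mk_W1_le
  refine Cardinal.mk_le_of_injective (f := fun a : {a : K1 | ∃ l, x l = a} => a.2.choose) ?_
  intro a b h
  have h1 := a.2.choose_spec
  have h2 := b.2.choose_spec
  simp only at h
  rw [h, h2] at h1
  exact Subtype.ext (WithTop.coe_injective h1).symm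

lemma exists_sp (x : W1 → WithTop K1) : ∃ γ : K1, (∀ (l : W1) (a : K1), x l = a → a < γ) ∧
    ∀ q : K1, q < γ → ∃ (l : W1) (a : K1), x l = a ∧ q ≤ a := by
  obtain ⟨γ0, h0⟩ := bdd_K1 _ (mk_values_le x)
  have hne : ∃ γ, ∀ (l : W1) (a : K1), x l = a → a < γ := ⟨γ0, fun l a h => h0 a ⟨l, h⟩⟩
  let γ := WellFounded.min (wellFounded_lt : WellFounded ((· < ·) : K1 → K1 → Prop))
    {γ | ∀ (l : W1) (a : K1), x l = a → a < γ} hne
  refine ⟨γ, WellFounded.min_mem _ {γ | ∀ (l : W1) (a : K1), x l = a → a < γ} hne, ?_⟩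
  intro q hq
  by_contra hc
  push Not at hc
  exact WellFounded.not_lt_min (wellFounded_lt : WellFounded ((· < ·) : K1 → K1 → Prop))
    (s := {γ | ∀ (l : W1) (a : K1), x l = a → a < γ}) hc hq

/-- The least strict upper bound of the values of a sequence. -/
noncomputable def sp1 (x : W1 → WithTop K1) : K1 := (exists_sp x).choose

lemma isSp1 : IsSp sp1 :=
  ⟨fun x => (exists_sp x).choose_spec.1, fun x => (exists_sp x).choose_spec.2⟩

lemma exists_E : ∃ E : (W1 → WithTop K1) → Set W1, ∀ x y, E x = E y → sp1 x = sp1 y → x = y := by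
  classical
  have h1 : ∀ γ : K1, ∃ e : (W1 → WithTop (Set.Iio γ)) → Set W1, Function.Injective e := by
    intro γ
    have h2 : #(Set.Iio γ) ≤ kap := Order.lt_succ_iff.mp (mk_Iio_lt_aux γ)
    have h3 : #(W1 → WithTop (Set.Iio γ)) ≤ #(Set W1) := mk_seq_le _ h2
    exact ⟨_, (Cardinal.le_def _ _ |>.mp h3).some.injective⟩
  choose e he using h1
  have h4 : ∀ x : W1 → WithTop K1, ∃ y : W1 → WithTop (Set.Iio (sp1 x)),
      ∀ l, WithTop.map Subtype.val (y l) = x l := by
    intro x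
    have : ∀ l, ∃ z : WithTop (Set.Iio (sp1 x)), WithTop.map Subtype.val z = x l := by
      intro l
      by_cases h : x l = ⊤
      · exact ⟨⊤, by rw [h]; rfl⟩
      · obtain ⟨a, ha⟩ := WithTop.ne_top_iff_exists.mp h
        exact ⟨((⟨a, isSp1.lt x l a ha.symm⟩ : Set.Iio (sp1 x)) : WithTop (Set.Iio (sp1 x))), ha⟩
    exact ⟨fun l => (this l).choose, fun l => (this l).choose_spec⟩
  choose y hy using h4
  refine ⟨fun x => e (sp1 x) (y x), ?_⟩
  intro x x' h hs
  have h5 : ∀ (γ : K1) (z : W1 → WithTop (Set.Iio γ)), sp1 x = γ →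
      e (sp1 x) (y x) = e γ z → ∀ l, WithTop.map Subtype.val (z l) = x l := by
    rintro γ z rfl h6 l
    rw [← he _ h6, hy]
  funext l
  rw [← h5 (sp1 x') (y x') hs h l, hy]

/-- The main result. -/
theorem main : ∃ (X : Type) (_ : TopologicalSpace X) (_ : CompactSpace X) (_ : T2Space X),
    (∀ A : Set X, ∃ N : Set (Set X),
          (∀ n ∈ N, n ⊆ closure A) ∧
          (∀ x ∈ closure A, ∀ U : Set X, IsOpen U → x ∈ U → ∃ n ∈ N, x ∈ n ∧ n ⊆ U) ∧
          Cardinal.mk N ≤ max (Cardinal.mk A) Cardinal.aleph0) ∧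
      ¬ ∃ (ι : Type) (f : {h : X → ℝ // Continuous h} → (ι → ℝ)),
        Continuous f ∧ Function.Injective f ∧
        ∀ g : {h : X → ℝ // Continuous h}, Set.Countable {i : ι | f g i ≠ 0} := by
  obtain ⟨E, hE⟩ := exists_E
  exact ⟨Sp E, inferInstance, inferInstance, inferInstance, monolithic isSp1 hE,
    no_inj not_countable_W1 countable_Iio_W1 kap aleph0_le_kap mk_W1_le mk_lab_le mk_seq_le
      bdd_K1⟩

end Pool.Agent.Helper436.CpTree
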