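import Pool.Agent.Helper436.CpTreeMono

/-!
# A monolithic compactum whose function space does not condense into a Sigma-product (III)

There is no continuous injection of the function space into a Sigma-product.
-/

set_option autoImplicit false

namespace Pool.Agent.Helper436.CpTree

open Set Cardinal

section Small

variable {K : Type} {κ : Cardinal.{0}}

lemma small_biUnion {I : Type} (hκ : ℵ₀ ≤ κ) (S : Set I) (hS : #S ≤ κ) (t : I → Set K)
    (ht : ∀ i ∈ S, #(t i) ≤ κ) : #(⋃ i ∈ S, t i : Set K) ≤ κ := by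
  rw [Set.biUnion_eq_iUnion]
  refine (Cardinal.mk_iUnion_le _).trans ?_
  refine (mul_le_mul' hS (ciSup_le' fun i : S => ht i.1 i.2)).trans_eq (Cardinal.mul_eq_self hκ)

lemma small_union (hκ : ℵ₀ ≤ κ) (S T : Set K) (hS : #S ≤ κ) (hT : #T ≤ κ) :
    #(S ∪ T : Set K) ≤ κ :=
  (Cardinal.mk_union_le _ _).trans ((add_le_add hS hT).trans_eq (Cardinal.add_eq_self hκ))

lemma small_countable {I : Type} (hκ : ℵ₀ ≤ κ) (S : Set I) (hS : S.Countable) : #S ≤ κ :=
  (Cardinal.le_aleph0_iff_set_countable.mpr hS).trans hκ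

end Small

variable {W K L : Type} [LinearOrder W] [WellFoundedLT W] [LinearOrder K] [WellFoundedLT K]
  {E : (W → WithTop K) → L}

/-- The values of a node. -/
def vals (r : Node E) : Set K := {a | ∃ l, r.x l = (a : WithTop K)}

omit [WellFoundedLT W] [WellFoundedLT K] in
lemma mk_vals_le (r : Node E) : #(vals r) ≤ #W := by
  refine Cardinal.mk_le_of_injective (f := fun a : vals r => a.2.choose) ?_
  intro a b h
  have h1 := a.2.choose_spec
  have h2 := b.2.choose_spec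
  simp only at h
  rw [h, h2] at h1
  exact Subtype.ext (WithTop.coe_injective h1).symm

omit [WellFoundedLT W] [WellFoundedLT K] in
lemma mk_nodes_le {κ : Cardinal.{0}} (hκ : ℵ₀ ≤ κ) (B : Set K) (hLab : #(WithTop W → L) ≤ κ)
    (hseq : #(W → WithTop B) ≤ κ) : #{r : Node E | vals r ⊆ B} ≤ κ := by
  have hy : ∀ r : {r : Node E | vals r ⊆ B}, ∃ y : W → WithTop B,
      ∀ l, WithTop.map Subtype.val (y l) = r.1.x l := by
    intro r
    have : ∀ l, ∃ z : WithTop B, WithTop.map Subtype.val z = r.1.x l := by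
      intro l
      by_cases h : r.1.x l = ⊤
      · exact ⟨⊤, by rw [h]; rfl⟩
      · obtain ⟨a, ha⟩ := WithTop.ne_top_iff_exists.mp h
        have hr : vals r.1 ⊆ B := r.2
        exact ⟨((⟨a, hr ⟨l, ha.symm⟩⟩ : B) : WithTop B), ha⟩
    exact ⟨fun l => (this l).choose, fun l => (this l).choose_spec⟩
  choose y hy using hy
  refine (Cardinal.mk_le_of_injective (f := fun r => (r.1.lab, y r)) ?_).trans ?_
  · intro r s h
    simp only [Prod.mk.injEq] at h
    apply Subtype.ext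
    refine Node.ext' h.1 ?_
    funext l
    rw [← hy r l, ← hy s l, h.2]
  · rw [Cardinal.mk_prod, Cardinal.lift_id, Cardinal.lift_id]
    exact (mul_le_mul' hLab hseq).trans_eq (Cardinal.mul_eq_self hκ)

/-- `s` is an immediate successor of `r`. -/
def Cov (r s : Node E) : Prop := r < s ∧ ∀ t, t ≤ s → t ≤ r ∨ t = s

section Phi

variable {ι : Type} {φ : {h : Sp E → ℝ // Continuous h} → (ι → ℝ)}

omit [WellFoundedLT W] [WellFoundedLT K] in
lemma exists_finset (hφ : Continuous φ) (s : Node E) (j : ι) (O : Set ℝ) (hO : IsOpen O)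
    (hs : φ (f s) j ∈ O) :
    ∃ F : Finset (Node E), ∀ r, (∀ t ∈ F, (t ≤ r ↔ t ≤ s)) → φ (f r) j ∈ O := by
  classical
  have h1 : IsOpen {g | φ g j ∈ O} := hO.preimage ((continuous_apply j).comp hφ)
  obtain ⟨V, hV, hV2⟩ := isOpen_induced_iff.mp h1
  have hsV : (f s).1 ∈ V := by
    have : f s ∈ Subtype.val ⁻¹' V := by rw [hV2]; exact hs
    exact this
  obtain ⟨I, u, hu, hIu⟩ := isOpen_pi_iff.mp hV _ hsV
  refine ⟨I.preimage P P_injective.injOn, fun r hr => ?_⟩
  have h2 : (f r).1 ∈ V := by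
    apply hIu
    intro i hi
    have h3 : (f r).1 i = (f s).1 i := by
      rcases eq_P_or_inf i with ⟨t, rfl⟩ | rfl
      · have ht := hr t (Finset.mem_preimage.mpr hi)
        by_cases h : t ≤ s
        · rw [f_P_of_le h, f_P_of_le (ht.2 h)]
        · rw [f_P_of_not_le h, f_P_of_not_le (fun h' => h (ht.1 h'))]
      · rw [f_inf, f_inf]
    rw [h3]
    exact (hu i hi).2
  have h4 : f r ∈ Subtype.val ⁻¹' V := h2
  rw [hV2] at h4
  exact h4

omit [WellFoundedLT W] [WellFoundedLT K] in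
lemma countable_bad (hφ : Continuous φ) (r : Node E) (j : ι) :
    {s | Cov r s ∧ φ (f s) j ≠ φ (f r) j}.Countable := by
  have h1 : ∀ n : ℕ, ∃ F : Finset (Node E), ∀ s, (∀ t ∈ F, (t ≤ s ↔ t ≤ r)) →
      φ (f s) j ∈ Metric.ball (φ (f r) j) (1 / ((n : ℝ) + 1)) := fun n =>
    exists_finset hφ r j _ Metric.isOpen_ball (Metric.mem_ball_self (by positivity))
  choose F hF using h1
  refine (Set.countable_iUnion fun n => (F n).countable_toSet).mono ?_
  rintro s ⟨hs, hne⟩
  by_contra hc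
  apply hne
  have h2 : ∀ n : ℕ, dist (φ (f s) j) (φ (f r) j) < 1 / ((n : ℝ) + 1) := by
    intro n
    refine hF n s fun t ht => ⟨fun hts => ?_, fun htr => htr.trans hs.1.le⟩
    rcases hs.2 t hts with h | h
    · exact h
    · exact absurd (Set.mem_iUnion.mpr ⟨n, by rw [← h]; exact ht⟩) hc
  by_contra hne'
  have hpos : 0 < dist (φ (f s) j) (φ (f r) j) := dist_pos.mpr hne'
  obtain ⟨n, hn⟩ := exists_nat_one_div_lt hpos
  exact absurd (h2 n) (not_lt.mpr hn.le)

omit [WellFoundedLT W] [WellFoundedLT K] in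
lemma countable_G (hφ : Continuous φ) (hc : ∀ g, Set.Countable {i | φ g i ≠ 0}) (r : Node E) :
    {s | Cov r s ∧ ∃ j, φ (f r) j ≠ 0 ∧ φ (f s) j ≠ φ (f r) j}.Countable := by
  refine ((hc (f r)).biUnion fun j _ => countable_bad hφ r j).mono ?_
  rintro s ⟨hs, j, hj, hne⟩
  exact Set.mem_biUnion hj ⟨hs, hne⟩

omit [WellFoundedLT W] [WellFoundedLT K] in
lemma exists_H (hφ : Continuous φ) (hinj : Function.Injective φ) (r s : Node E) (hrs : Cov r s)
    (hG : ¬ ∃ j, φ (f r) j ≠ 0 ∧ φ (f s) j ≠ φ (f r) j) :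
    ∃ (j : ι) (F : Finset (Node E)), φ (f r) j = 0 ∧
      ∀ r', (∀ t ∈ F, (t ≤ r' ↔ t ≤ s)) → φ (f r') j ≠ 0 := by
  have hne : f s ≠ f r := by
    intro h
    have h1 : (f s).1 (P s) = (f r).1 (P s) := by rw [h]
    rw [f_P_of_le le_rfl, f_P_of_not_le (fun h' => absurd hrs.1 (not_lt_of_ge h'))] at h1
    exact one_ne_zero h1
  have hne' : φ (f s) ≠ φ (f r) := fun h => hne (hinj h)
  obtain ⟨j, hj⟩ := Function.ne_iff.mp hne'
  have h0 : φ (f r) j = 0 := by
    by_contra h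
    exact hG ⟨j, h, hj⟩
  obtain ⟨F, hF⟩ := exists_finset hφ s j {y | y ≠ 0} isOpen_ne (by rw [h0] at hj; exact hj)
  exact ⟨j, F, h0, hF⟩

end Phi

omit [WellFoundedLT K] in
/-- There is no continuous injection into a Sigma-product. -/
theorem no_inj (hW : ¬ Countable W) (hWi : ∀ k : W, (Set.Iio k).Countable)
    (κ : Cardinal.{0}) (hκ : ℵ₀ ≤ κ) (hWκ : #W ≤ κ) (hLab : #(WithTop W → L) ≤ κ)
    (hseq : ∀ B : Set K, #B ≤ κ → #(W → WithTop B) ≤ κ)
    (hbdd : ∀ B : Set K, #B ≤ κ → ∃ γ, ∀ a ∈ B, a < γ) :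
    ¬ ∃ (ι : Type) (φ : {h : Sp E → ℝ // Continuous h} → (ι → ℝ)),
      Continuous φ ∧ Function.Injective φ ∧ ∀ g, Set.Countable {i | φ g i ≠ 0} := by
  classical
  rintro ⟨ι, φ, hφ, hinj, hcount⟩
  -- choose the witnesses
  have hH : ∀ r s : Node E, ∃ (jF : Option ι × Finset (Node E)), Cov r s →
      (¬ ∃ j, φ (f r) j ≠ 0 ∧ φ (f s) j ≠ φ (f r) j) → ∃ j, jF.1 = some j ∧ φ (f r) j = 0 ∧
        ∀ r', (∀ t ∈ jF.2, (t ≤ r' ↔ t ≤ s)) → φ (f r') j ≠ 0 := by
    intro r s
    by_cases h : Cov r s ∧ ¬ ∃ j, φ (f r) j ≠ 0 ∧ φ (f s) j ≠ φ (f r) j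
    · obtain ⟨j, F, h1, h2⟩ := exists_H hφ hinj r s h.1 h.2
      exact ⟨(some j, F), fun _ _ => ⟨j, rfl, h1, h2⟩⟩
    · exact ⟨(none, ∅), fun h1 h2 => absurd ⟨h1, h2⟩ h⟩
  choose jH hjH using hH
  let G : Node E → Set (Node E) :=
    fun r => {s | Cov r s ∧ ∃ j, φ (f r) j ≠ 0 ∧ φ (f s) j ≠ φ (f r) j}
  have hG : ∀ r, (G r).Countable := fun r => countable_G hφ hcount r
  let N : Set K → Set (Node E) := fun B => {r | vals r ⊆ B}
  let Bad : Set K → Set K := fun B =>
    (B ∪ ⋃ r ∈ N B, ⋃ s ∈ G r, vals s) ∪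
      ⋃ r ∈ N B, ⋃ s ∈ N B, ⋃ t ∈ ((jH r s).2 : Set (Node E)), vals t
  have hBad : ∀ B : Set K, #B ≤ κ → #(Bad B) ≤ κ := by
    intro B hB
    have hN : #(N B) ≤ κ := mk_nodes_le hκ B hLab (hseq B hB)
    have hv : ∀ t : Node E, #(vals t) ≤ κ := fun t => (mk_vals_le t).trans hWκ
    refine small_union hκ _ _ (small_union hκ _ _ hB ?_) ?_
    · exact small_biUnion hκ _ hN _ fun r _ =>
        small_biUnion hκ _ (small_countable hκ _ (hG r)) _ fun s _ => hv s
    · exact small_biUnion hκ _ hN _ fun r _ => small_biUnion hκ _ hN _ fun s _ =>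
        small_biUnion hκ _ (small_countable hκ _ (Finset.countable_toSet _)) _ fun t _ => hv t
  have hFex : ∃ F : Set K → K, ∀ B : Set K, #B ≤ κ → ∀ a ∈ Bad B, a < F B := by
    have : ∀ B : Set K, ∃ γ : K, #B ≤ κ → ∀ a ∈ Bad B, a < γ := by
      intro B
      by_cases hB : #B ≤ κ
      · obtain ⟨γ, hγ⟩ := hbdd _ (hBad B hB)
        exact ⟨γ, fun _ => hγ⟩
      · obtain ⟨γ, -⟩ := hbdd ∅ (by simp)
        exact ⟨γ, fun h => absurd h hB⟩
    choose F hF using this
    exact ⟨F, hF⟩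
  obtain ⟨F, hF⟩ := hFex
  -- the fast growing sequence
  obtain ⟨x, hx⟩ : ∃ x : W → K, ∀ k, x k = F (x '' Set.Iio k) := by
    let x : W → K := (wellFounded_lt : WellFounded ((· < ·) : W → W → Prop)).fix
      (fun k ih => F {a | ∃ l, ∃ h : l < k, ih l h = a})
    refine ⟨x, fun k => ?_⟩
    have h1 : x k = F {a | ∃ l, ∃ _ : l < k, x l = a} :=
      (wellFounded_lt : WellFounded ((· < ·) : W → W → Prop)).fix_eq _ k
    rw [h1]
    congr 1
    ext a
    simp only [Set.mem_image, Set.mem_Iio, exists_prop, Set.mem_ofPred_eq]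
  have hsm : ∀ k, #(x '' Set.Iio k) ≤ κ := fun k =>
    small_countable hκ _ ((hWi k).image x)
  have hx2 : ∀ k, ∀ a ∈ Bad (x '' Set.Iio k), a < x k := by
    intro k a ha
    rw [hx k]
    exact hF _ (hsm k) a ha
  have hxmono : StrictMono x := fun l k hlk =>
    hx2 k _ (Or.inl (Or.inl ⟨l, hlk, rfl⟩))
  -- the full node
  let η : Node E :=
    { lab := fun m => E (cut (fun l => (x l : WithTop K)) m)
      x := fun l => (x l : WithTop K)
      seq := fun l m h => Or.inl (WithTop.coe_lt_coe.mpr (hxmono h))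
      coh := fun m _ _ => rfl }
  have hηx : ∀ l, η.x l = (x l : WithTop K) := fun _ => rfl
  have hsc : ∀ k : W, ∃ m : WithTop W, ∀ l : W, (l : WithTop W) < m ↔ l ≤ k := by
    intro k
    obtain ⟨m, hm⟩ := exists_bound (Set.Iic k) (isLowerSet_Iic k)
    exact ⟨m, fun l => (hm l).symm⟩
  choose sc hsc using hsc
  have hksc : ∀ k : W, (k : WithTop W) ≤ sc k := fun k => ((hsc k k).2 le_rfl).le
  have hcutx : ∀ (m : WithTop W) (l : W), (cutNode η m).x l ≠ ⊤ →
      (l : WithTop W) < m ∧ (cutNode η m).x l = (x l : WithTop K) := by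
    intro m l h
    have h1 := lt_of_cut_ne h
    exact ⟨h1, cut_of_lt h1⟩
  have hcutx' : ∀ (m : WithTop W) (l : W), (l : WithTop W) < m →
      (cutNode η m).x l = (x l : WithTop K) := fun m l h => cut_of_lt h
  have hcutle : ∀ m m' : WithTop W, m ≤ m' → cutNode η m ≤ cutNode η m' := by
    intro m m' h
    refine ⟨rfl, fun l hl => ?_⟩
    obtain ⟨h1, h2⟩ := hcutx m l hl
    rw [h2, hcutx' m' l (h1.trans_le h)]
  -- immediate successors
  have hcov : ∀ k : W, Cov (cutNode η k) (cutNode η (sc k)) := by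
    intro k
    have hk1 : (cutNode η (sc k)).x k = (x k : WithTop K) := hcutx' _ _ ((hsc k k).2 le_rfl)
    refine ⟨lt_of_le_of_ne (hcutle _ _ (hksc k)) ?_, ?_⟩
    · intro h
      have h1 : (cutNode η (k : WithTop W)).x k = ⊤ := cut_of_not_lt (lt_irrefl _)
      rw [h, hk1] at h1
      exact WithTop.coe_ne_top h1
    · intro t ht
      by_cases htk : t.x k = ⊤
      · left
        refine ⟨ht.1, fun l hl => ?_⟩
        have hlk : l < k := by
          by_contra hc
          exact t.down (not_lt.mp hc) hl htk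
        rw [hcutx' _ l (WithTop.coe_lt_coe.mpr hlk), ← ht.2 l hl,
          hcutx' _ l ((hsc k l).2 hlk.le)]
      · right
        refine le_antisymm ht ⟨ht.1.symm, fun l hl => ?_⟩
        have h1 := (hsc k l).1 (hcutx _ l hl).1
        exact (ht.2 l (t.down h1 htk)).symm
  have hvals1 : ∀ k l : W, k ≤ l → vals (cutNode η k) ⊆ x '' Set.Iio l := by
    rintro k l hkl a ⟨i, hi⟩
    obtain ⟨h1, h2⟩ := hcutx k i (by rw [hi]; exact WithTop.coe_ne_top)
    rw [hi] at h2
    exact ⟨i, (WithTop.coe_lt_coe.mp h1).trans_le hkl, (WithTop.coe_injective h2).symm⟩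
  have hvals2 : ∀ k l : W, k < l → vals (cutNode η (sc k)) ⊆ x '' Set.Iio l := by
    rintro k l hkl a ⟨i, hi⟩
    obtain ⟨h1, h2⟩ := hcutx (sc k) i (by rw [hi]; exact WithTop.coe_ne_top)
    rw [hi] at h2
    exact ⟨i, ((hsc k i).1 h1).trans_lt hkl, (WithTop.coe_injective h2).symm⟩
  have hnG : ∀ k : W, ¬ ∃ j, φ (f (cutNode η k)) j ≠ 0 ∧
      φ (f (cutNode η (sc k))) j ≠ φ (f (cutNode η k)) j := by
    intro k h
    refine lt_irrefl (x k) (hx2 k (x k) (Or.inl (Or.inr ?_)))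
    refine Set.mem_biUnion (hvals1 k k le_rfl : cutNode η k ∈ N (x '' Set.Iio k)) ?_
    refine Set.mem_biUnion (⟨hcov k, h⟩ : cutNode η (sc k) ∈ G (cutNode η k)) ?_
    exact ⟨k, hcutx' _ _ ((hsc k k).2 le_rfl)⟩
  have hj := fun k : W => hjH _ _ (hcov k) (hnG k)
  choose j hj1 hj2 hj3 using hj
  have hj4 : ∀ (k : W) (m : WithTop W), sc k ≤ m → φ (f (cutNode η m)) (j k) ≠ 0 := by
    intro k m hm
    apply hj3
    intro t ht
    refine ⟨fun htm => ?_, fun hts => hts.trans (hcutle _ _ hm)⟩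
    refine ⟨htm.1, fun l hl => ?_⟩
    have h1 : (cutNode η m).x l = t.x l := htm.2 l hl
    obtain ⟨h2, h3⟩ := hcutx m l (by rw [h1]; exact hl)
    by_cases hlk : l ≤ k
    · rw [← h1, h3, hcutx' _ l ((hsc k l).2 hlk)]
    · exfalso
      have hkl : k < l := not_le.mp hlk
      refine lt_irrefl (x l) (hx2 l (x l) (Or.inr ?_))
      refine Set.mem_biUnion (hvals1 k l hkl.le : cutNode η k ∈ N (x '' Set.Iio l)) ?_
      refine Set.mem_biUnion (hvals2 k l hkl : cutNode η (sc k) ∈ N (x '' Set.Iio l)) ?_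
      refine Set.mem_biUnion (Finset.mem_coe.mpr ht) ?_
      exact ⟨l, by rw [← h1, h3]⟩
  have hjinj : ∀ k l : W, k < l → j k ≠ j l := by
    intro k l hkl h
    have h1 : sc k ≤ (l : WithTop W) := by
      by_contra hc
      exact absurd ((hsc k l).1 (not_le.mp hc)) (not_le.mpr hkl)
    have h2 := hj4 k l h1
    rw [h] at h2
    exact h2 (hj2 l)
  have hjinj' : Function.Injective j := by
    intro k l h
    rcases lt_trichotomy k l with h1 | h1 | h1
    · exact absurd h (hjinj k l h1)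
    · exact h1
    · exact absurd h.symm (hjinj l k h1)
  apply hW
  have hcnt := hcount (f (cutNode η ⊤))
  have : Countable {i | φ (f (cutNode η ⊤)) i ≠ 0} := hcnt.to_subtype
  exact Function.Injective.countable
    (f := fun k : W => (⟨j k, hj4 k ⊤ le_top⟩ : {i | φ (f (cutNode η ⊤)) i ≠ 0}))
    (fun a b h => hjinj' (congrArg Subtype.val h))

end Pool.Agent.Helper436.CpTree
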