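import Pool.Agent.Helper436.CpTree

/-!
# A monolithic compactum whose function space does not condense into a Sigma-product (II)

The compactum is monolithic.
-/

set_option autoImplicit false

namespace Pool.Agent.Helper436.CpTree

open Set

/-- Limit points of a subset of a well-order are encoded by `Option` of the subset. -/
lemma exists_code {Q : Type} [LinearOrder Q] [WellFoundedLT Q] (S : Set Q) :
    ∃ c : Q → Option S, ∀ p p' : Q, (∀ q < p', ∃ s ∈ S, q ≤ s ∧ s < p') →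
      c p = c p' → ¬ p < p' := by
  classical
  have h : ∀ p : Q, ∃ o : Option S,
      (∃ s : S, o = some s ∧ p ≤ s ∧ ∀ s' ∈ S, p ≤ s' → s ≤ s') ∨
      (o = none ∧ ∀ s ∈ S, ¬ p ≤ s) := by
    intro p
    by_cases h : ∃ s, s ∈ S ∧ p ≤ s
    · let m := WellFounded.min (wellFounded_lt : WellFounded ((· < ·) : Q → Q → Prop))
        {s | s ∈ S ∧ p ≤ s} h
      have hm : m ∈ S ∧ p ≤ m := WellFounded.min_mem _ {s | s ∈ S ∧ p ≤ s} h
      exact ⟨some ⟨m, hm.1⟩, Or.inl ⟨⟨m, hm.1⟩, rfl, hm.2, fun s' hs' hp =>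
        not_lt.mp (WellFounded.not_lt_min
          (wellFounded_lt : WellFounded ((· < ·) : Q → Q → Prop))
          (s := {s | s ∈ S ∧ p ≤ s}) ⟨hs', hp⟩)⟩⟩
    · push Not at h
      exact ⟨none, Or.inr ⟨rfl, fun s hs => not_le.mpr (h s hs)⟩⟩
  choose c hc using h
  refine ⟨c, fun p p' hp' heq hlt => ?_⟩
  obtain ⟨s, hs, h1, h2⟩ := hp' p hlt
  rcases hc p with ⟨s1, e1, h3, h4⟩ | ⟨e1, h3⟩
  · rcases hc p' with ⟨s2, e2, h5, h6⟩ | ⟨e2, h5⟩
    · rw [e1, e2] at heq
      have h7 : s1 = s2 := Option.some.inj heq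
      have h8 := h4 s hs h1
      rw [h7] at h8
      exact absurd (lt_of_le_of_lt (h5.trans h8) h2) (lt_irrefl _)
    · rw [e1, e2] at heq
      exact absurd heq (by simp)
  · exact h3 s hs h1

variable {W K L : Type} [LinearOrder W] [WellFoundedLT W] [LinearOrder K] [WellFoundedLT K]
  {E : (W → WithTop K) → L}

omit [WellFoundedLT W] [WellFoundedLT K] in
lemma isOpen_coord (t : Node E) (b : Bool) : IsOpen {u : Sp E | u.1 t = b} := by
  have h1 : Continuous (fun u : Sp E => u.1 t) := (continuous_apply t).comp continuous_subtype_val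
  exact (isOpen_discrete ({b} : Set Bool)).preimage h1

omit [WellFoundedLT W] [WellFoundedLT K] in
lemma closure_aux {A : Set (Sp E)} {t : Node E} (ht : P t ∈ closure A) (htA : P t ∉ A)
    (r : Node E) (hr : ¬ t ≤ r) : ∃ s, P s ∈ A ∧ s < t ∧ ¬ s ≤ r := by
  have hopen : IsOpen {u : Sp E | u.1 t = true ∧ u.1 r = false} := by
    exact (isOpen_coord t true).inter (isOpen_coord r false)
  obtain ⟨u, ⟨hu1, hu2⟩, huA⟩ := mem_closure_iff.mp ht _ hopen
    ⟨(pt_apply t t).2 le_rfl, (pt_apply_false t r).2 hr⟩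
  rcases eq_P_or_inf u with ⟨s, rfl⟩ | rfl
  · refine ⟨s, huA, lt_of_le_of_ne ((pt_apply s t).1 hu1) ?_, (pt_apply_false s r).1 hu2⟩
    rintro rfl
    exact htA huA
  · exact absurd hu1 (by simp [inf])

omit [WellFoundedLT W] [WellFoundedLT K] in
lemma closure_aux0 {A : Set (Sp E)} {t : Node E} (ht : P t ∈ closure A) (htA : P t ∉ A) :
    ∃ s, P s ∈ A ∧ s < t := by
  have hopen : IsOpen {u : Sp E | u.1 t = true} := isOpen_coord t true
  obtain ⟨u, hu1, huA⟩ := mem_closure_iff.mp ht _ hopen ((pt_apply t t).2 le_rfl)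
  rcases eq_P_or_inf u with ⟨s, rfl⟩ | rfl
  · refine ⟨s, huA, lt_of_le_of_ne ((pt_apply s t).1 hu1) ?_⟩
    rintro rfl
    exact htA huA
  · exact absurd hu1 (by simp [inf])

omit [WellFoundedLT W] [WellFoundedLT K] in
lemma closure_main {A : Set (Sp E)} {t : Node E} (ht : P t ∈ closure A) (htA : P t ∉ A)
    (l : W) (hl : t.x l ≠ ⊤) : ∃ s, P s ∈ A ∧ s < t ∧ s.x l ≠ ⊤ := by
  have hr : ¬ t ≤ cutNode t l := by
    intro h
    have h1 : cut t.x l l = t.x l := h.2 l hl
    rw [cut_of_not_lt (lt_irrefl _)] at h1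
    exact hl h1.symm
  obtain ⟨s, hsA, hst, hsr⟩ := closure_aux ht htA _ hr
  refine ⟨s, hsA, hst, ?_⟩
  intro hsl
  apply hsr
  refine ⟨hst.le.1, fun l' hl' => ?_⟩
  have hlt : l' < l := by
    by_contra hc
    exact (s.down (not_lt.mp hc) hl') hsl
  show cut t.x l l' = s.x l'
  rw [cut_of_lt (WithTop.coe_lt_coe.mpr hlt)]
  exact hst.le.2 l' hl'

omit [WellFoundedLT K] in
lemma isLim_len {A : Set (Sp E)} {t : Node E} (ht : P t ∈ closure A) (htA : P t ∉ A) :
    IsLim (len t) := by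
  constructor
  · obtain ⟨s, -, hst⟩ := closure_aux0 ht htA
    obtain ⟨l, hl, -⟩ := exists_gap hst
    exact ⟨l, (lt_len t l).2 hl⟩
  · intro l hl
    rw [lt_len] at hl
    obtain ⟨s, -, hst, hsl⟩ := closure_main ht htA l hl
    obtain ⟨l', hl', hsl'⟩ := exists_gap hst
    refine ⟨l', ?_, (lt_len t l').2 hl'⟩
    by_contra hc
    exact s.down (not_lt.mp hc) hsl hsl'

omit [WellFoundedLT K] in
lemma limit_len {A : Set (Sp E)} {t : Node E} (ht : P t ∈ closure A) (htA : P t ∉ A) :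
    ∀ q < len t, ∃ s ∈ len '' {s : Node E | P s ∈ A}, q ≤ s ∧ s < len t := by
  intro q hq
  obtain ⟨l, rfl⟩ := WithTop.ne_top_iff_exists.mp hq.ne_top
  rw [lt_len] at hq
  obtain ⟨s, hsA, hst, hsl⟩ := closure_main ht htA l hq
  exact ⟨len s, ⟨s, hsA, rfl⟩, ((lt_len s l).2 hsl).le, len_strictMono hst⟩

/-- `sp` is the least strict upper bound of the values of a partial sequence. -/
structure IsSp (sp : (W → WithTop K) → K) : Prop where
  lt : ∀ (x : W → WithTop K) (l : W) (a : K), x l = a → a < sp x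
  exists_of_lt : ∀ (x : W → WithTop K) (q : K), q < sp x → ∃ (l : W) (a : K), x l = a ∧ q ≤ a

variable {sp : (W → WithTop K) → K}

omit [WellFoundedLT W] [WellFoundedLT K] in
lemma limit_sp (hsp : IsSp sp) {A : Set (Sp E)} {t : Node E} (ht : P t ∈ closure A)
    (htA : P t ∉ A) :
    ∀ q < sp t.x, ∃ s ∈ (fun s : Node E => sp s.x) '' {s : Node E | P s ∈ A},
      q ≤ s ∧ s < sp t.x := by
  intro q hq
  obtain ⟨l, a, hla, hqa⟩ := hsp.exists_of_lt _ _ hq
  have hl : t.x l ≠ ⊤ := by rw [hla]; exact WithTop.coe_ne_top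
  obtain ⟨s, hsA, hst, hsl⟩ := closure_main ht htA l hl
  refine ⟨sp s.x, ⟨s, hsA, rfl⟩, ?_, ?_⟩
  · have h1 : s.x l = a := by rw [← hst.le.2 l hsl, hla]
    exact hqa.trans (hsp.lt _ _ _ h1).le
  · by_contra hc
    obtain ⟨l', hl', hsl'⟩ := exists_gap hst
    obtain ⟨a', ha'⟩ := WithTop.ne_top_iff_exists.mp hl'
    have h1 := (hsp.lt _ _ _ ha'.symm).trans_le (not_lt.mp hc)
    obtain ⟨l'', a'', hl'', h2⟩ := hsp.exists_of_lt _ _ h1
    have h3 : s.x l'' ≠ ⊤ := by rw [hl'']; exact WithTop.coe_ne_top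
    have h4 : l'' < l' := by
      by_contra hc'
      exact s.down (not_lt.mp hc') h3 hsl'
    have h5 : t.x l'' = a'' := by rw [hst.le.2 l'' h3, hl'']
    rcases t.seq l'' l' h4 with h6 | h6
    · rw [h5, ← ha', WithTop.coe_lt_coe] at h6
      exact absurd h2 (not_le.mpr h6)
    · exact hl' h6

omit [WellFoundedLT K] in
lemma node_unique (hE : ∀ x y, E x = E y → sp x = sp y → x = y) {t t' : Node E}
    (ht : IsLim (len t)) (hlab : t.lab = t'.lab) (hlen : len t = len t')
    (hs : sp t.x = sp t'.x) : t = t' := by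
  have hcut : ∀ t : Node E, cut t.x (len t) = t.x := by
    intro t
    funext l
    by_cases h : (l : WithTop W) < len t
    · rw [cut_of_lt h]
    · rw [cut_of_not_lt h]
      rw [lt_len, not_not] at h
      exact h.symm
  have h1 := t.coh (len t) ht fun l hl => (lt_len t l).1 hl
  have h2 := t'.coh (len t') (hlen ▸ ht) fun l hl => (lt_len t' l).1 hl
  rw [hcut] at h1 h2
  exact Node.ext' hlab (hE _ _ (by rw [h1, h2, hlab, hlen]) hs)

/-- The compactum is monolithic (even: `|closure A| ≤ max |A| ℵ₀`). -/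
theorem mk_closure_le (hsp : IsSp sp) (hE : ∀ x y, E x = E y → sp x = sp y → x = y)
    (A : Set (Sp E)) : Cardinal.mk (closure A) ≤ max (Cardinal.mk A) Cardinal.aleph0 := by
  classical
  set c : Cardinal := max (Cardinal.mk A) Cardinal.aleph0 with hc
  have hc0 : Cardinal.aleph0 ≤ c := le_max_right _ _
  set A' : Set (Node E) := {s | P s ∈ A} with hA'
  have hA'c : Cardinal.mk A' ≤ c := by
    refine le_trans ?_ (le_max_left _ _)
    exact Cardinal.mk_le_of_injective (f := fun s : A' => (⟨P s.1, s.2⟩ : A))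
      (fun a b h => Subtype.ext (P_injective (congrArg Subtype.val h)))
  let Lim : Set (Node E) := {t | P t ∈ closure A ∧ P t ∉ A}
  obtain ⟨c1, hc1⟩ := exists_code (len '' A')
  obtain ⟨c2, hc2⟩ := exists_code ((fun s : Node E => sp s.x) '' A')
  have hlow : ∀ t : Lim, ∃ s : A', s.1 < t.1 := by
    intro t
    obtain ⟨s, hs, hst⟩ := closure_aux0 t.2.1 t.2.2
    exact ⟨⟨s, hs⟩, hst⟩
  choose g hg using hlow
  have hopt : ∀ S : Type, Cardinal.mk S ≤ c → Cardinal.mk (Option S) ≤ c := by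
    intro S hS
    rw [Cardinal.mk_option]
    exact (add_le_add hS (Cardinal.one_le_aleph0.trans hc0)).trans_eq (Cardinal.add_eq_self hc0)
  have hprod : ∀ S T : Type, Cardinal.mk S ≤ c → Cardinal.mk T ≤ c →
      Cardinal.mk (S × T) ≤ c := by
    intro S T hS hT
    rw [Cardinal.mk_prod, Cardinal.lift_id, Cardinal.lift_id]
    exact (mul_le_mul' hS hT).trans_eq (Cardinal.mul_eq_self hc0)
  have hLim : Cardinal.mk Lim ≤ c := by
    refine le_trans (Cardinal.mk_le_of_injective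
      (f := fun t : Lim => (g t, c1 (len t.1), c2 (sp t.1.x))) ?_)
      (hprod _ _ hA'c (hprod _ _ (hopt _ (Cardinal.mk_image_le.trans hA'c))
        (hopt _ (Cardinal.mk_image_le.trans hA'c))))
    intro t t' h
    simp only [Prod.mk.injEq] at h
    obtain ⟨h1, h2, h3⟩ := h
    apply Subtype.ext
    have e1 : len t.1 = len t'.1 := by
      rcases lt_trichotomy (len t.1) (len t'.1) with h4 | h4 | h4
      · exact absurd h4 (hc1 _ _ (limit_len t'.2.1 t'.2.2) h2)
      · exact h4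
      · exact absurd h4 (hc1 _ _ (limit_len t.2.1 t.2.2) h2.symm)
    have e2 : sp t.1.x = sp t'.1.x := by
      rcases lt_trichotomy (sp t.1.x) (sp t'.1.x) with h4 | h4 | h4
      · exact absurd h4 (hc2 _ _ (limit_sp hsp t'.2.1 t'.2.2) h3)
      · exact h4
      · exact absurd h4 (hc2 _ _ (limit_sp hsp t.2.1 t.2.2) h3.symm)
    have e3 : t.1.lab = t'.1.lab := by
      rw [← (hg t).le.1, ← (hg t').le.1, h1]
    exact node_unique hE (isLim_len t.2.1 t.2.2) e3 e1 e2
  have hsub : closure A ⊆ (A ∪ {inf E}) ∪ P '' Lim := by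
    intro u hu
    by_cases huA : u ∈ A
    · exact Or.inl (Or.inl huA)
    · rcases eq_P_or_inf u with ⟨s, rfl⟩ | rfl
      · exact Or.inr ⟨s, ⟨hu, huA⟩, rfl⟩
      · exact Or.inl (Or.inr rfl)
  calc Cardinal.mk (closure A) ≤ Cardinal.mk ((A ∪ {inf E}) ∪ P '' Lim : Set (Sp E)) :=
        Cardinal.mk_le_mk_of_subset hsub
    _ ≤ Cardinal.mk (A ∪ {inf E} : Set (Sp E)) + Cardinal.mk (P '' Lim) := Cardinal.mk_union_le _ _
    _ ≤ (Cardinal.mk A + Cardinal.mk ({inf E} : Set (Sp E))) + Cardinal.mk Lim :=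
        add_le_add (Cardinal.mk_union_le _ _) Cardinal.mk_image_le
    _ ≤ (c + c) + c := by
        refine add_le_add (add_le_add (le_max_left _ _) ?_) hLim
        rw [Cardinal.mk_singleton]
        exact Cardinal.one_le_aleph0.trans hc0
    _ = c := by rw [Cardinal.add_eq_self hc0, Cardinal.add_eq_self hc0]

/-- Monolithicity in the form of the problem statement. -/
theorem monolithic (hsp : IsSp sp) (hE : ∀ x y, E x = E y → sp x = sp y → x = y)
    (A : Set (Sp E)) : ∃ N : Set (Set (Sp E)),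
      (∀ n ∈ N, n ⊆ closure A) ∧
      (∀ x ∈ closure A, ∀ U : Set (Sp E), IsOpen U → x ∈ U → ∃ n ∈ N, x ∈ n ∧ n ⊆ U) ∧
      Cardinal.mk N ≤ max (Cardinal.mk A) Cardinal.aleph0 := by
  refine ⟨(fun x => {x}) '' closure A, ?_, ?_, ?_⟩
  · rintro n ⟨x, hx, rfl⟩
    exact Set.singleton_subset_iff.mpr hx
  · intro x hx U _ hxU
    exact ⟨{x}, ⟨x, hx, rfl⟩, rfl, Set.singleton_subset_iff.mpr hxU⟩
  · exact Cardinal.mk_image_le.trans (mk_closure_le hsp hE A)

end Pool.Agent.Helper436.CpTree
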