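import Mathlib

set_option autoImplicit false

open scoped Manifold ContDiff InnerProductSpace
open Bundle

namespace Pool.Agent.Helper436.Curvature

variable {V : Type} [NormedAddCommGroup V] [NormedSpace ℝ V] {d : ℕ}

/-- The derivative `∂_i f` at `x` in the direction of the basis vector `b i`. -/
noncomputable def pd (b : Module.Basis (Fin d) ℝ V) (i : Fin d) (f : V → ℝ) (x : V) : ℝ :=
  fderiv ℝ f x (b i)

/-- Christoffel symbols `Γ^k_{ij}` of the metric with coefficient matrix `g`. -/
noncomputable def christoffel (b : Module.Basis (Fin d) ℝ V) (g : V → Matrix (Fin d) (Fin d) ℝ)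
    (k i j : Fin d) (x : V) : ℝ :=
  (1 / 2) * ∑ l, (g x)⁻¹ k l *
    (pd b i (fun y => g y j l) x + pd b j (fun y => g y i l) x - pd b l (fun y => g y i j) x)

/-- `R^m_{ijk}`, where `R(∂_i, ∂_j) ∂_k = ∑_m R^m_{ijk} ∂_m`. -/
noncomputable def riemannUp (b : Module.Basis (Fin d) ℝ V) (g : V → Matrix (Fin d) (Fin d) ℝ)
    (i j k m : Fin d) (x : V) : ℝ :=
  pd b i (christoffel b g m j k) x - pd b j (christoffel b g m i k) x
    + ∑ a, (christoffel b g m i a x * christoffel b g a j k x
        - christoffel b g m j a x * christoffel b g a i k x)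

/-- `R_{ijkl} = ⟨R(∂_i, ∂_j) ∂_k, ∂_l⟩`. -/
noncomputable def riemann (b : Module.Basis (Fin d) ℝ V) (g : V → Matrix (Fin d) (Fin d) ℝ)
    (i j k l : Fin d) (x : V) : ℝ :=
  ∑ m, g x l m * riemannUp b g i j k m x

/-- `⟨R(u, v) w, z⟩` for tangent vectors given by their coordinates. -/
noncomputable def curv (b : Module.Basis (Fin d) ℝ V) (g : V → Matrix (Fin d) (Fin d) ℝ) (x : V)
    (u v w z : Fin d → ℝ) : ℝ :=
  ∑ i, ∑ j, ∑ k, ∑ l, riemann b g i j k l x * u i * v j * w k * z l

/-- The inner product `g(u, v)` of tangent vectors given by their coordinates. -/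
noncomputable def ip (g : V → Matrix (Fin d) (Fin d) ℝ) (x : V)
    (u v : Fin d → ℝ) : ℝ :=
  ∑ i, ∑ j, g x i j * u i * v j

/-- The sectional curvature of the plane spanned by `u, v`. -/
noncomputable def sec (b : Module.Basis (Fin d) ℝ V) (g : V → Matrix (Fin d) (Fin d) ℝ) (x : V)
    (u v : Fin d → ℝ) : ℝ :=
  curv b g x u v v u / (ip g x u u * ip g x v v - ip g x u v ^ 2)

/-- `R*(om, om)` for the 2-vector `om = ∑_{i<j} om_{ij} ∂_i ∧ ∂_j` given by the skew matrix `om`. -/
noncomputable def curvOp (b : Module.Basis (Fin d) ℝ V) (g : V → Matrix (Fin d) (Fin d) ℝ) (x : V)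
    (om : Matrix (Fin d) (Fin d) ℝ) : ℝ :=
  (1 / 4) * ∑ i, ∑ j, ∑ k, ∑ l, riemann b g i j k l x * om i j * om l k

section Manifold

variable (b : Module.Basis (Fin d) ℝ V) {M : Type} [TopologicalSpace M] [ChartedSpace V M]

/-- The derivative at `y` of the inverse of the preferred chart at `p`. Its values are tangent
vectors of `M` at the point with coordinates `y` (in Mathlib every tangent space is a copy of the
model space `V`). -/
noncomputable def chartDeriv (p : M) (y : V) : V →L[ℝ] V :=
  mfderiv 𝓘(ℝ, V) 𝓘(ℝ, V) (chartAt V p).symm y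

/-- The coordinate vector `∂_i` at the point with coordinates `y` in the preferred chart at `p`. -/
noncomputable def coordVec (p : M) (y : V) (i : Fin d) :
    TangentSpace 𝓘(ℝ, V) ((chartAt V p).symm y) :=
  chartDeriv p y (b i)

/-- The coefficients `g_{ij}` at the point `y` of the preferred chart at `p`:
inner products of the coordinate vectors `∂_i, ∂_j`. -/
noncomputable def chartMetric [RiemannianBundle (fun x : M => TangentSpace 𝓘(ℝ, V) x)]
    (p : M) (y : V) : Matrix (Fin d) (Fin d) ℝ :=
  Matrix.of fun i j => ⟪coordVec b p y i, coordVec b p y j⟫_ℝ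

variable (M)

/-- `M` is pointwise `δ`-pinched. -/
def PointwisePinched [RiemannianBundle (fun x : M => TangentSpace 𝓘(ℝ, V) x)] (δ : ℝ) : Prop :=
  ∀ p : M,
    (∀ u v : Fin d → ℝ, LinearIndependent ℝ ![u, v] →
      0 < sec b (chartMetric b p) (chartAt V p p) u v) ∧
    (∀ u v u' v' : Fin d → ℝ, LinearIndependent ℝ ![u, v] → LinearIndependent ℝ ![u', v'] →
      δ * sec b (chartMetric b p) (chartAt V p p) u' v' ≤
        sec b (chartMetric b p) (chartAt V p p) u v)

/-- The curvature operator of `M` is positive at every point. -/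
def PositiveCurvatureOperator [RiemannianBundle (fun x : M => TangentSpace 𝓘(ℝ, V) x)] : Prop :=
  ∀ (p : M) (om : Matrix (Fin d) (Fin d) ℝ), om.transpose = -om → om ≠ 0 →
    0 < curvOp b (chartMetric b p) (chartAt V p p) om

/-- Every pointwise `δ`-pinched Riemannian manifold modelled on `V` has positive curvature
operator. -/
def ForcesPositivity (δ : ℝ) : Prop :=
  ∀ (M : Type) [TopologicalSpace M] [T2Space M] [SecondCountableTopology M] [ChartedSpace V M]
    [IsManifold 𝓘(ℝ, V) ∞ M] [RiemannianBundle (fun x : M => TangentSpace 𝓘(ℝ, V) x)]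
    [IsContMDiffRiemannianBundle 𝓘(ℝ, V) ∞ V (fun x : M => TangentSpace 𝓘(ℝ, V) x)],
    PointwisePinched b M δ → PositiveCurvatureOperator b M

end Manifold

/-- The pinching constants `δ ∈ (0, 1]` that force a positive curvature operator in dimension
`d`. -/
def pinchingSet (d : ℕ) : Set ℝ :=
  {δ | 0 < δ ∧ δ ≤ 1 ∧ ForcesPositivity (EuclideanSpace.basisFun (Fin d) ℝ).toBasis δ}

end Pool.Agent.Helper436.Curvature
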