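import Mathlib

namespace Pool.Agent.Helper436.MC

open Set Filter Topology Metric
open scoped InnerProductSpace RealInnerProductSpace Gradient ContDiff

variable {E : Type*} [NormedAddCommGroup E] [InnerProductSpace ℝ E] [FiniteDimensional ℝ E]

/-- `ρ` is a defining function of the open set `X` on the open neighbourhood `U` of the
boundary point `p`: it is of class `C²` on `U` without critical points there, and inside `U` the
set `X` is where `ρ > 0` and its boundary is where `ρ = 0`. -/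
structure LocalDefining (X : Set E) (p : E) (U : Set E) (ρ : E → ℝ) : Prop where
  isOpen : IsOpen U
  mem : p ∈ U
  smooth : ContDiffOn ℝ 2 ρ U
  regular : ∀ x ∈ U, gradient ρ x ≠ 0
  inside : ∀ x ∈ U, (x ∈ X ↔ 0 < ρ x)
  boundary : ∀ x ∈ U, (x ∈ frontier X ↔ ρ x = 0)

/-- The unit normal `∇ρ / |∇ρ|` (it points into `X` for a defining function `ρ` of `X`). -/
noncomputable def normal (ρ : E → ℝ) (p : E) : E := ‖gradient ρ p‖⁻¹ • gradient ρ p

/-- The second fundamental form of the level set of `ρ` through `p` with respect to the unit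
normal `∇ρ / |∇ρ|`. -/
noncomputable def secondForm (ρ : E → ℝ) (p v w : E) : ℝ :=
  -(fderiv ℝ (fderiv ℝ ρ) p v w) / ‖gradient ρ p‖

/-- The trace of the second fundamental form over the tangent hyperplane `(∇ρ)ᗮ`, i.e. the sum of
the principal curvatures. -/
noncomputable def meanCurvOf (ρ : E → ℝ) (p : E) : ℝ :=
  ∑ i, secondForm ρ p (stdOrthonormalBasis ℝ (ℝ ∙ gradient ρ p)ᗮ i : E)
    (stdOrthonormalBasis ℝ (ℝ ∙ gradient ρ p)ᗮ i : E)

open Classical in
/-- The mean curvature of `∂X` at `p` with respect to the normal pointing into `X`. -/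
noncomputable def meanCurv (X : Set E) (p : E) : ℝ :=
  if h : ∃ Uρ : Set E × (E → ℝ), LocalDefining X p Uρ.1 Uρ.2 then meanCurvOf h.choose.2 p else 0

/-- connected open set whose boundary is an embedded hypersurface -/
def IsSmoothDomain (X : Set E) : Prop :=
  IsOpen X ∧ IsConnected X ∧ ∀ p ∈ frontier X, ∃ U ρ, LocalDefining X p U ρ

section calculus

variable {X : Set E} {p : E} {U : Set E} {ρ : E → ℝ}

theorem LocalDefining.contDiffAt (h : LocalDefining X p U ρ) {x : E} (hx : x ∈ U) :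
    ContDiffAt ℝ 2 ρ x := h.smooth.contDiffAt (h.isOpen.mem_nhds hx)

theorem LocalDefining.zero (h : LocalDefining X p U ρ) (hp : p ∈ frontier X) : ρ p = 0 :=
  (h.boundary p h.mem).1 hp

/-- the curve `s ↦ p + s w + τ s² ν` -/
noncomputable def curve (p w ν : E) (τ : ℝ) (s : ℝ) : E := p + s • w + (τ * s ^ 2) • ν

theorem curve_zero (p w ν : E) (τ : ℝ) : curve p w ν τ 0 = p := by simp [curve]

theorem continuous_curve (p w ν : E) (τ : ℝ) : Continuous (curve p w ν τ) := by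
  unfold curve; fun_prop

theorem hasDerivAt_curve (p w ν : E) (τ s : ℝ) :
    HasDerivAt (curve p w ν τ) (w + (2 * τ * s) • ν) s := by
  unfold curve
  have h1 : HasDerivAt (fun s : ℝ => s • w) ((1:ℝ) • w) s := (hasDerivAt_id s).smul_const w
  have h2 : HasDerivAt (fun s : ℝ => (τ * s ^ 2) • ν) ((τ * ((2:ℕ) * s ^ (2 - 1))) • ν) s :=
    ((hasDerivAt_pow 2 s).const_mul τ).smul_const ν
  have h3 := (h1.const_add p).add h2
  refine h3.congr_deriv ?_
  simp only [one_smul, Nat.cast_ofNat, Nat.add_one_sub_one, pow_one]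
  congr 2
  ring

/-- first and second derivative of `ρ` along the curve -/
theorem deriv_curve (hc : ContDiffAt ℝ 2 ρ p) (w ν : E) (τ : ℝ) :
    (∀ᶠ s in 𝓝 (0:ℝ), HasDerivAt (fun s => ρ (curve p w ν τ s))
      (fderiv ℝ ρ (curve p w ν τ s) (w + (2 * τ * s) • ν)) s) ∧
    HasDerivAt (fun s => fderiv ℝ ρ (curve p w ν τ s) (w + (2 * τ * s) • ν))
      (fderiv ℝ (fderiv ℝ ρ) p w w + 2 * τ * fderiv ℝ ρ p ν) 0 := by
  constructor
  · have h1 : ∀ᶠ x in 𝓝 p, DifferentiableAt ℝ ρ x := by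
      have := hc.eventually (by simp)
      filter_upwards [this] with x hx
      exact hx.differentiableAt (by norm_num)
    have h2 : Tendsto (curve p w ν τ) (𝓝 0) (𝓝 p) := by
      have := (continuous_curve p w ν τ).tendsto 0
      rwa [curve_zero] at this
    filter_upwards [h2.eventually h1] with s hs
    exact hs.hasFDerivAt.comp_hasDerivAt s (hasDerivAt_curve p w ν τ s)
  · have h1 : DifferentiableAt ℝ (fderiv ℝ ρ) p := by
      have : ContDiffAt ℝ 1 (fderiv ℝ ρ) p := hc.fderiv_right (by norm_num)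
      exact this.differentiableAt (by norm_num)
    have h2 : HasDerivAt (fun s => fderiv ℝ ρ (curve p w ν τ s))
        (fderiv ℝ (fderiv ℝ ρ) p (w + (2 * τ * 0) • ν)) 0 := by
      have h3 : HasFDerivAt (fderiv ℝ ρ) (fderiv ℝ (fderiv ℝ ρ) p) (curve p w ν τ 0) := by
        rw [curve_zero]; exact h1.hasFDerivAt
      exact h3.comp_hasDerivAt (0:ℝ) (hasDerivAt_curve p w ν τ 0)
    have h4 : HasDerivAt (fun s : ℝ => w + (2 * τ * s) • ν) ((2 * τ * 1) • ν) 0 :=
      (((hasDerivAt_id (0:ℝ)).const_mul (2 * τ)).smul_const ν).const_add w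
    have h5 := h2.clm_apply h4
    refine h5.congr_deriv ?_
    simp [curve_zero]

end calculus


section second

/-- strict second derivative test on the line -/
theorem pos_of_second {f g : ℝ → ℝ} {c : ℝ} (hf0 : f 0 = 0) (hg0 : g 0 = 0)
    (hfg : ∀ᶠ s in 𝓝 (0:ℝ), HasDerivAt f (g s) s) (hg : HasDerivAt g c 0) (hc : 0 < c) :
    ∀ᶠ s in 𝓝[≠] (0:ℝ), 0 < f s := by
  set h : ℝ → ℝ := fun s => f s - c / 4 * s ^ 2 with hh
  have h1 : ∀ᶠ s in 𝓝 (0:ℝ), HasDerivAt h (g s - c / 2 * s) s := by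
    filter_upwards [hfg] with s hs
    have h2 := hs.sub ((hasDerivAt_pow 2 s).const_mul (c / 4))
    refine h2.congr_deriv ?_
    simp only [Nat.cast_ofNat, Nat.add_one_sub_one, pow_one]
    ring
  have h2 : deriv h =ᶠ[𝓝 0] fun s => g s - c / 2 * s := by
    filter_upwards [h1] with s hs
    exact hs.deriv
  have h3 : HasDerivAt (fun s => g s - c / 2 * s) (c - c / 2 * 1) 0 :=
    hg.sub ((hasDerivAt_id (0:ℝ)).const_mul (c / 2))
  have h4 : deriv (deriv h) 0 = c - c / 2 * 1 := by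
    rw [h2.deriv_eq]; exact h3.deriv
  have h5 : IsLocalMin h 0 := by
    apply isLocalMin_of_deriv_deriv_pos
    · rw [h4]; linarith
    · rw [h2.eq_of_nhds, hg0]; simp
    · exact h1.self_of_nhds.continuousAt
  have h6 : ∀ᶠ s in 𝓝[≠] (0:ℝ), h 0 ≤ h s := h5.filter_mono nhdsWithin_le_nhds
  filter_upwards [h6, self_mem_nhdsWithin] with s hs hs0
  have hs0' : s ≠ 0 := hs0
  have : 0 < s ^ 2 := by positivity
  simp only [hh, hf0] at hs
  have h7 : 0 < c / 4 * s ^ 2 := by positivity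
  simp at hs
  linarith

theorem nonpos_of_second {f g : ℝ → ℝ} {c : ℝ} (hf0 : f 0 = 0) (hg0 : g 0 = 0)
    (hfg : ∀ᶠ s in 𝓝 (0:ℝ), HasDerivAt f (g s) s) (hg : HasDerivAt g c 0) (hc : c < 0) :
    ∀ᶠ s in 𝓝 (0:ℝ), f s ≤ 0 := by
  have h := pos_of_second (f := fun s => - f s) (g := fun s => - g s) (c := -c)
    (by simp [hf0]) (by simp [hg0]) (by filter_upwards [hfg] with s hs; exact hs.neg) hg.neg
    (by linarith)
  rw [eventually_nhdsWithin_iff] at h
  filter_upwards [h] with s hs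
  by_cases h0 : s = 0
  · rw [h0, hf0]
  · have := hs h0
    linarith

variable {X : Set E} {p : E} {U : Set E} {ρ : E → ℝ}

theorem normal_norm (hg : gradient ρ p ≠ 0) : ‖normal ρ p‖ = 1 := by
  rw [normal, norm_smul, norm_inv, norm_norm, inv_mul_cancel₀ (norm_ne_zero_iff.2 hg)]

theorem fderiv_normal (hg : gradient ρ p ≠ 0) : fderiv ℝ ρ p (normal ρ p) = ‖gradient ρ p‖ := by
  have h : fderiv ℝ ρ p (normal ρ p) = ⟪gradient ρ p, normal ρ p⟫ := by
    rw [gradient, InnerProductSpace.toDual_symm_apply]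
  rw [h, normal, real_inner_smul_right, real_inner_self_eq_norm_sq]
  field_simp [norm_ne_zero_iff.2 hg]

theorem LocalDefining.curve_mem (h : LocalDefining X p U ρ) (hp : p ∈ frontier X) {w : E}
    (hw : ⟪gradient ρ p, w⟫ = 0) {τ : ℝ} (hτ : secondForm ρ p w w < 2 * τ) :
    ∀ᶠ s in 𝓝[≠] (0:ℝ), curve p w (normal ρ p) τ s ∈ X := by
  obtain ⟨h1, h2⟩ := deriv_curve (h.contDiffAt h.mem) w (normal ρ p) τ
  have hg := h.regular p h.mem
  have hgpos : 0 < ‖gradient ρ p‖ := norm_pos_iff.2 hg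
  have hw' : fderiv ℝ ρ p w = 0 := by
    have : fderiv ℝ ρ p w = ⟪gradient ρ p, w⟫ := by
      rw [gradient, InnerProductSpace.toDual_symm_apply]
    rw [this, hw]
  have hc : 0 < fderiv ℝ (fderiv ℝ ρ) p w w + 2 * τ * fderiv ℝ ρ p (normal ρ p) := by
    rw [fderiv_normal hg]
    rw [secondForm, div_lt_iff₀ hgpos] at hτ
    linarith
  have h3 := pos_of_second (by rw [curve_zero]; exact h.zero hp)
    (by rw [curve_zero]; simp [hw']) h1 h2 hc
  have h4 : ∀ᶠ s in 𝓝[≠] (0:ℝ), curve p w (normal ρ p) τ s ∈ U := by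
    have : Tendsto (curve p w (normal ρ p) τ) (𝓝 0) (𝓝 p) := by
      have := (continuous_curve p w (normal ρ p) τ).tendsto 0
      rwa [curve_zero] at this
    exact (this.eventually (h.isOpen.mem_nhds h.mem)).filter_mono nhdsWithin_le_nhds
  filter_upwards [h3, h4] with s hs hs'
  exact (h.inside _ hs').2 hs

theorem LocalDefining.curve_notMem (h : LocalDefining X p U ρ) (hp : p ∈ frontier X) {w : E}
    (hw : ⟪gradient ρ p, w⟫ = 0) {τ : ℝ} (hτ : 2 * τ < secondForm ρ p w w) :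
    ∀ᶠ s in 𝓝 (0:ℝ), curve p w (normal ρ p) τ s ∉ X := by
  obtain ⟨h1, h2⟩ := deriv_curve (h.contDiffAt h.mem) w (normal ρ p) τ
  have hg := h.regular p h.mem
  have hgpos : 0 < ‖gradient ρ p‖ := norm_pos_iff.2 hg
  have hw' : fderiv ℝ ρ p w = 0 := by
    have : fderiv ℝ ρ p w = ⟪gradient ρ p, w⟫ := by
      rw [gradient, InnerProductSpace.toDual_symm_apply]
    rw [this, hw]
  have hc : fderiv ℝ (fderiv ℝ ρ) p w w + 2 * τ * fderiv ℝ ρ p (normal ρ p) < 0 := by
    rw [fderiv_normal hg]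
    rw [secondForm, lt_div_iff₀ hgpos] at hτ
    linarith
  have h3 := nonpos_of_second (by rw [curve_zero]; exact h.zero hp)
    (by rw [curve_zero]; simp [hw']) h1 h2 hc
  have h4 : ∀ᶠ s in 𝓝 (0:ℝ), curve p w (normal ρ p) τ s ∈ U := by
    have : Tendsto (curve p w (normal ρ p) τ) (𝓝 0) (𝓝 p) := by
      have := (continuous_curve p w (normal ρ p) τ).tendsto 0
      rwa [curve_zero] at this
    exact this.eventually (h.isOpen.mem_nhds h.mem)
  filter_upwards [h3, h4] with s hs hs' hX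
  have := (h.inside _ hs').1 hX
  linarith

/-- moving in a direction with positive scalar product with the gradient enters `X` -/
theorem LocalDefining.line_mem (h : LocalDefining X p U ρ) (hp : p ∈ frontier X) {v : E}
    (hv : 0 < ⟪gradient ρ p, v⟫) : ∀ᶠ s in 𝓝[>] (0:ℝ), p + s • v ∈ X := by
  have hd : HasFDerivAt ρ (fderiv ℝ ρ p) (p + (0:ℝ) • v) := by
    rw [zero_smul, add_zero]
    exact ((h.contDiffAt h.mem).differentiableAt (by norm_num)).hasFDerivAt
  have h1 : HasDerivAt (fun s : ℝ => p + s • v) v 0 := by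
    have := ((hasDerivAt_id (0:ℝ)).smul_const v).const_add p
    simpa using this
  have h2 : HasDerivAt (fun s : ℝ => ρ (p + s • v)) (fderiv ℝ ρ p v) 0 :=
    hd.comp_hasDerivAt (0:ℝ) h1
  have hv' : 0 < fderiv ℝ ρ p v := by
    have : fderiv ℝ ρ p v = ⟪gradient ρ p, v⟫ := by
      rw [gradient, InnerProductSpace.toDual_symm_apply]
    rw [this]; exact hv
  have h3 : ∀ᶠ s in 𝓝[>] (0:ℝ), 0 < ρ (p + s • v) := by
    have h4 := hasDerivAt_iff_tendsto_slope.1 h2
    have h5 : ∀ᶠ s in 𝓝[≠] (0:ℝ), 0 < slope (fun s : ℝ => ρ (p + s • v)) 0 s :=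
      h4.eventually (lt_mem_nhds hv')
    have h6 : ∀ᶠ s in 𝓝[>] (0:ℝ), 0 < slope (fun s : ℝ => ρ (p + s • v)) 0 s :=
      h5.filter_mono (nhdsWithin_mono _ (fun x hx => ne_of_gt hx))
    filter_upwards [h6, self_mem_nhdsWithin] with s hs hs0
    have hs0' : 0 < s := hs0
    rw [slope_def_field] at hs
    simp only [zero_smul, add_zero, sub_zero] at hs
    rw [h.zero hp, sub_zero] at hs
    have := mul_pos hs hs0'
    rwa [div_mul_cancel₀ _ hs0'.ne'] at this
  have h4 : ∀ᶠ s in 𝓝[>] (0:ℝ), p + s • v ∈ U := by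
    have : Tendsto (fun s : ℝ => p + s • v) (𝓝 0) (𝓝 p) := by
      have := h1.continuousAt.tendsto
      simpa using this
    exact (this.eventually (h.isOpen.mem_nhds h.mem)).filter_mono nhdsWithin_le_nhds
  filter_upwards [h3, h4] with s hs hs'
  exact (h.inside _ hs').2 hs

theorem LocalDefining.line_notMem (h : LocalDefining X p U ρ) (hp : p ∈ frontier X) {v : E}
    (hv : ⟪gradient ρ p, v⟫ < 0) : ∀ᶠ s in 𝓝[>] (0:ℝ), p + s • v ∉ X := by
  have hd : HasFDerivAt ρ (fderiv ℝ ρ p) (p + (0:ℝ) • v) := by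
    rw [zero_smul, add_zero]
    exact ((h.contDiffAt h.mem).differentiableAt (by norm_num)).hasFDerivAt
  have h1 : HasDerivAt (fun s : ℝ => p + s • v) v 0 := by
    have := ((hasDerivAt_id (0:ℝ)).smul_const v).const_add p
    simpa using this
  have h2 : HasDerivAt (fun s : ℝ => ρ (p + s • v)) (fderiv ℝ ρ p v) 0 :=
    hd.comp_hasDerivAt (0:ℝ) h1
  have hv' : fderiv ℝ ρ p v < 0 := by
    have : fderiv ℝ ρ p v = ⟪gradient ρ p, v⟫ := by
      rw [gradient, InnerProductSpace.toDual_symm_apply]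
    rw [this]; exact hv
  have h3 : ∀ᶠ s in 𝓝[>] (0:ℝ), ρ (p + s • v) < 0 := by
    have h4 := hasDerivAt_iff_tendsto_slope.1 h2
    have h5 : ∀ᶠ s in 𝓝[≠] (0:ℝ), slope (fun s : ℝ => ρ (p + s • v)) 0 s < 0 :=
      h4.eventually (gt_mem_nhds hv')
    have h6 : ∀ᶠ s in 𝓝[>] (0:ℝ), slope (fun s : ℝ => ρ (p + s • v)) 0 s < 0 :=
      h5.filter_mono (nhdsWithin_mono _ (fun x hx => ne_of_gt hx))
    filter_upwards [h6, self_mem_nhdsWithin] with s hs hs0
    have hs0' : 0 < s := hs0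
    rw [slope_def_field] at hs
    simp only [zero_smul, add_zero, sub_zero] at hs
    rw [h.zero hp, sub_zero] at hs
    have := mul_neg_of_neg_of_pos hs hs0'
    rwa [div_mul_cancel₀ _ hs0'.ne'] at this
  have h4 : ∀ᶠ s in 𝓝[>] (0:ℝ), p + s • v ∈ U := by
    have : Tendsto (fun s : ℝ => p + s • v) (𝓝 0) (𝓝 p) := by
      have := h1.continuousAt.tendsto
      simpa using this
    exact (this.eventually (h.isOpen.mem_nhds h.mem)).filter_mono nhdsWithin_le_nhds
  filter_upwards [h3, h4] with s hs hs' hX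
  have := (h.inside _ hs').1 hX
  linarith

/-- two defining functions have the same unit normal -/
theorem normal_unique {U₁ U₂ : Set E} {ρ₁ ρ₂ : E → ℝ} (h₁ : LocalDefining X p U₁ ρ₁)
    (h₂ : LocalDefining X p U₂ ρ₂) (hp : p ∈ frontier X) : normal ρ₁ p = normal ρ₂ p := by
  by_contra hne
  set n₁ := normal ρ₁ p with hn₁
  set n₂ := normal ρ₂ p with hn₂
  have e₁ : ‖n₁‖ = 1 := normal_norm (h₁.regular p h₁.mem)
  have e₂ : ‖n₂‖ = 1 := normal_norm (h₂.regular p h₂.mem)
  have hlt : ⟪n₁, n₂⟫ < 1 := (inner_lt_one_iff_real_of_norm_eq_one e₁ e₂).2 hne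
  have g₁ : 0 < ‖gradient ρ₁ p‖ := norm_pos_iff.2 (h₁.regular p h₁.mem)
  have g₂ : 0 < ‖gradient ρ₂ p‖ := norm_pos_iff.2 (h₂.regular p h₂.mem)
  have r₁ : gradient ρ₁ p = ‖gradient ρ₁ p‖ • n₁ := by
    rw [hn₁, normal, smul_smul, mul_inv_cancel₀ g₁.ne', one_smul]
  have r₂ : gradient ρ₂ p = ‖gradient ρ₂ p‖ • n₂ := by
    rw [hn₂, normal, smul_smul, mul_inv_cancel₀ g₂.ne', one_smul]
  have k₁ : 0 < ⟪gradient ρ₁ p, n₁ - n₂⟫ := by
    rw [r₁, real_inner_smul_left, inner_sub_right, real_inner_self_eq_norm_sq, e₁]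
    apply mul_pos g₁; norm_num; linarith
  have k₂ : ⟪gradient ρ₂ p, n₁ - n₂⟫ < 0 := by
    rw [r₂, real_inner_smul_left, inner_sub_right, real_inner_self_eq_norm_sq, e₂,
      real_inner_comm]
    apply mul_neg_of_pos_of_neg g₂; norm_num; linarith
  obtain ⟨s, hs1, hs2⟩ := ((h₁.line_mem hp k₁).and (h₂.line_notMem hp k₂)).exists
  exact hs2 hs1

theorem gradient_eq_smul_normal (hg : gradient ρ p ≠ 0) :
    gradient ρ p = ‖gradient ρ p‖ • normal ρ p := by
  rw [normal, smul_smul, mul_inv_cancel₀ (norm_ne_zero_iff.2 hg), one_smul]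

/-- two defining functions have the same second fundamental form on tangent vectors -/
theorem secondForm_le {U₁ U₂ : Set E} {ρ₁ ρ₂ : E → ℝ} (h₁ : LocalDefining X p U₁ ρ₁)
    (h₂ : LocalDefining X p U₂ ρ₂) (hp : p ∈ frontier X) {w : E} (hw : ⟪normal ρ₁ p, w⟫ = 0) :
    secondForm ρ₂ p w w ≤ secondForm ρ₁ p w w := by
  by_contra hlt
  push Not at hlt
  obtain ⟨c, hc1, hc2⟩ := exists_between hlt
  have hw1 : ⟪gradient ρ₁ p, w⟫ = 0 := by
    rw [gradient_eq_smul_normal (h₁.regular p h₁.mem), real_inner_smul_left, hw, mul_zero]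
  have hw2 : ⟪gradient ρ₂ p, w⟫ = 0 := by
    rw [gradient_eq_smul_normal (h₂.regular p h₂.mem), real_inner_smul_left,
      ← normal_unique h₁ h₂ hp, hw, mul_zero]
  have a1 := h₁.curve_mem hp hw1 (τ := c / 2) (by linarith)
  have a2 := (h₂.curve_notMem hp hw2 (τ := c / 2) (by linarith)).filter_mono
    (nhdsWithin_le_nhds (s := {0}ᶜ))
  rw [← normal_unique h₁ h₂ hp] at a2
  obtain ⟨s, hs1, hs2⟩ := (a1.and a2).exists
  exact hs2 hs1

theorem secondForm_unique {U₁ U₂ : Set E} {ρ₁ ρ₂ : E → ℝ} (h₁ : LocalDefining X p U₁ ρ₁)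
    (h₂ : LocalDefining X p U₂ ρ₂) (hp : p ∈ frontier X) {w : E} (hw : ⟪normal ρ₁ p, w⟫ = 0) :
    secondForm ρ₁ p w w = secondForm ρ₂ p w w :=
  le_antisymm (secondForm_le h₂ h₁ hp (by rw [← normal_unique h₁ h₂ hp]; exact hw))
    (secondForm_le h₁ h₂ hp hw)

end second

section trace

variable {ρ : E → ℝ} {p : E} {X : Set E} {U : Set E}

omit [FiniteDimensional ℝ E] in
theorem trace_basis (K : Submodule ℝ E) (B : E →L[ℝ] E →L[ℝ] ℝ) {ι ι' : Type*} [Fintype ι]
    [Fintype ι'] (b : OrthonormalBasis ι ℝ K) (b' : OrthonormalBasis ι' ℝ K) :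
    ∑ i, B (b i : E) (b i : E) = ∑ j, B (b' j : E) (b' j : E) := by
  classical
  have hb : ∀ i, (b i : E) = ∑ j, ⟪b' j, b i⟫ • (b' j : E) := by
    intro i
    have := b'.sum_repr' (b i)
    have h2 := congrArg (fun x : K => (x : E)) this
    simp only [Submodule.coe_sum, Submodule.coe_smul] at h2
    exact h2.symm
  have h1 : ∀ i, B (b i : E) (b i : E) =
      ∑ j, ∑ k, (⟪b' j, b i⟫ * ⟪b i, b' k⟫) * B (b' j : E) (b' k : E) := by
    intro i
    conv_lhs => rw [hb i]
    simp only [map_sum, map_smul, _root_.sum_apply, _root_.smul_apply,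
      smul_eq_mul, Finset.mul_sum]
    rw [Finset.sum_comm]
    refine Finset.sum_congr rfl fun j _ => Finset.sum_congr rfl fun k _ => ?_
    rw [real_inner_comm (b i) (b' k)]
    ring
  simp only [h1]
  rw [Finset.sum_comm]
  refine Finset.sum_congr rfl fun j _ => ?_
  rw [Finset.sum_comm]
  have h2 : ∀ k, ∑ i, (⟪b' j, b i⟫ * ⟪b i, b' k⟫) * B (b' j : E) (b' k : E)
      = ⟪b' j, b' k⟫ * B (b' j : E) (b' k : E) := by
    intro k
    rw [← Finset.sum_mul, b.sum_inner_mul_inner]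
  simp only [h2]
  rw [Finset.sum_eq_single j]
  · rw [real_inner_self_eq_norm_sq, b'.norm_eq_one]; simp
  · intro k _ hk
    rw [b'.inner_eq_zero (Ne.symm hk)]; simp
  · simp

theorem span_normal (hg : gradient ρ p ≠ 0) :
    (ℝ ∙ normal ρ p) = (ℝ ∙ gradient ρ p) := by
  rw [normal]
  apply Submodule.span_singleton_smul_eq
  exact (inv_ne_zero (norm_ne_zero_iff.2 hg)).isUnit

theorem sum_secondForm (K K' : Submodule ℝ E) (hK : K = K') {ι ι' : Type*} [Fintype ι]
    [Fintype ι'] (b : OrthonormalBasis ι ℝ K) (b' : OrthonormalBasis ι' ℝ K') :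
    ∑ i, secondForm ρ p (b i : E) (b i : E) = ∑ j, secondForm ρ p (b' j : E) (b' j : E) := by
  subst hK
  simp only [secondForm]
  rw [← Finset.sum_div, ← Finset.sum_div, Finset.sum_neg_distrib, Finset.sum_neg_distrib,
    trace_basis K (fderiv ℝ (fderiv ℝ ρ) p) b b']

theorem meanCurvOf_eq (hg : gradient ρ p ≠ 0) {ι : Type*} [Fintype ι]
    (b : OrthonormalBasis ι ℝ (ℝ ∙ normal ρ p)ᗮ) :
    meanCurvOf ρ p = ∑ i, secondForm ρ p (b i : E) (b i : E) :=
  sum_secondForm _ _ (by rw [span_normal hg]) _ _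

/-- the mean curvature does not depend on the defining function nor on the orthonormal basis of
the tangent hyperplane -/
theorem meanCurv_eq_sum (h : LocalDefining X p U ρ) (hp : p ∈ frontier X) {ι : Type*} [Fintype ι]
    (b : OrthonormalBasis ι ℝ (ℝ ∙ normal ρ p)ᗮ) :
    meanCurv X p = ∑ i, secondForm ρ p (b i : E) (b i : E) := by
  have hex : ∃ Uρ : Set E × (E → ℝ), LocalDefining X p Uρ.1 Uρ.2 := ⟨(U, ρ), h⟩
  rw [meanCurv, dif_pos hex]
  set ρ₀ := hex.choose.2 with hρ₀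
  have h₀ : LocalDefining X p hex.choose.1 ρ₀ := hex.choose_spec
  have hn := normal_unique h₀ h hp
  have hK : (ℝ ∙ gradient ρ₀ p)ᗮ = (ℝ ∙ normal ρ p)ᗮ := by
    rw [← span_normal (h₀.regular p h₀.mem), hn]
  rw [meanCurvOf, sum_secondForm _ _ hK _ b]
  refine Finset.sum_congr rfl fun i _ => ?_
  apply secondForm_unique h₀ h hp
  rw [hn]
  exact Submodule.mem_orthogonal_singleton_iff_inner_right.1 (b i).2

theorem meanCurv_eq (h : LocalDefining X p U ρ) (hp : p ∈ frontier X) :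
    meanCurv X p = meanCurvOf ρ p := by
  rw [meanCurv_eq_sum h hp (stdOrthonormalBasis ℝ _), ← meanCurvOf_eq (h.regular p h.mem)]

end trace

end Pool.Agent.Helper436.MC
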