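import Mathlib
import Pool.Agent.Helper436.MCBasic

namespace Pool.Agent.Helper436.MC

open Set Filter Topology Metric
open scoped InnerProductSpace RealInnerProductSpace Gradient ContDiff

variable {E : Type*} [NormedAddCommGroup E] [InnerProductSpace ℝ E]

/-- a proper smooth weight with small derivatives -/
noncomputable def phi (x : E) : ℝ := √(1 + ‖x‖ ^ 2)

theorem phi_sq (x : E) : phi x ^ 2 = 1 + ‖x‖ ^ 2 := Real.sq_sqrt (by positivity)

theorem one_le_phi (x : E) : 1 ≤ phi x := by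
  rw [phi]; apply Real.one_le_sqrt.2; nlinarith [sq_nonneg ‖x‖]

theorem norm_le_phi (x : E) : ‖x‖ ≤ phi x := by
  rw [phi]; apply Real.le_sqrt_of_sq_le; linarith

theorem phi_le_add (x y : E) : phi y ≤ phi x + ‖y - x‖ := by
  have h1 := phi_sq x
  have h2 := norm_le_phi x
  have h3 := one_le_phi x
  have h4 : ‖y‖ ≤ ‖x‖ + ‖y - x‖ := by
    calc ‖y‖ = ‖x + (y - x)‖ := by congr 1; abel
      _ ≤ _ := norm_add_le _ _
  have h5 : 0 ≤ ‖y - x‖ := norm_nonneg _
  have h6 : 0 ≤ ‖y‖ := norm_nonneg _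
  have h7 : 0 ≤ ‖x‖ := norm_nonneg _
  conv_lhs => rw [phi]
  rw [Real.sqrt_le_left (by linarith)]
  nlinarith [mul_le_mul_of_nonneg_right h2 h5, mul_self_le_mul_self h6 h4]

theorem phi_le_taylor (x y : E) : phi y ≤ phi x + (‖y‖ ^ 2 - ‖x‖ ^ 2) / (2 * phi x) := by
  have h1 := phi_sq x
  have h2 := phi_sq y
  have h3 := one_le_phi x
  have h4 : 0 < 2 * phi x := by linarith
  rw [← sub_le_iff_le_add', le_div_iff₀ h4]
  nlinarith [sq_nonneg (phi y - phi x)]

theorem continuous_phi : Continuous (phi : E → ℝ) := by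
  unfold phi; fun_prop

/-- the functional -/
noncomputable def F (ε : ℝ) (z : E × E) : ℝ := dist z.1 z.2 + ε * phi z.1

theorem continuous_F (ε : ℝ) : Continuous (F ε : E × E → ℝ) := by
  unfold F
  have := continuous_phi (E := E)
  fun_prop

/-- pairs of boundary points joined inside the closure of `X` -/
def Q (X A B : Set E) : Set (E × E) :=
  {z | z.1 ∈ A ∧ z.2 ∈ B ∧ ∀ t ∈ Icc (0:ℝ) 1, z.1 + t • (z.2 - z.1) ∈ closure X}

theorem isClosed_Q {X A B : Set E} (hA : IsClosed A) (hB : IsClosed B) : IsClosed (Q X A B) := by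
  have h1 : IsClosed {z : E × E | z.1 ∈ A} := hA.preimage continuous_fst
  have h2 : IsClosed {z : E × E | z.2 ∈ B} := hB.preimage continuous_snd
  have h3 : IsClosed {z : E × E | ∀ t ∈ Icc (0:ℝ) 1, z.1 + t • (z.2 - z.1) ∈ closure X} := by
    simp only [setOf_forall]
    refine isClosed_iInter fun t => isClosed_iInter fun _ => ?_
    exact isClosed_closure.preimage (by fun_prop)
  exact h1.inter (h2.inter h3)

theorem exists_min [FiniteDimensional ℝ E] {X A B : Set E} (hA : IsClosed A) (hB : IsClosed B)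
    (hQ : (Q X A B).Nonempty) {ε : ℝ} (hε : 0 < ε) :
    ∃ z ∈ Q X A B, ∀ z' ∈ Q X A B, F ε z ≤ F ε z' := by
  obtain ⟨z₀, hz₀⟩ := hQ
  set M := F ε z₀ with hM
  have hM0 : 0 ≤ M := by
    have := one_le_phi z₀.1
    rw [hM, F]; positivity
  set R := M / ε + M with hR
  have key : ∀ z ∈ Q X A B, F ε z ≤ M → z ∈ closedBall (0 : E × E) R := by
    intro z _ hz
    have h1 : ε * ‖z.1‖ ≤ M := by
      have h2 : ε * ‖z.1‖ ≤ ε * phi z.1 := mul_le_mul_of_nonneg_left (norm_le_phi _) hε.le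
      have h3 : 0 ≤ dist z.1 z.2 := dist_nonneg
      rw [F] at hz; linarith
    have h2 : ‖z.1‖ ≤ M / ε := by rw [le_div_iff₀ hε]; linarith
    have h3 : dist z.1 z.2 ≤ M := by
      have h4 : 0 ≤ ε * phi z.1 := by
        have := one_le_phi z.1
        positivity
      rw [F] at hz; linarith
    have h4 : ‖z.2‖ ≤ M / ε + M := by
      calc ‖z.2‖ = ‖z.1 - (z.1 - z.2)‖ := by congr 1; abel
        _ ≤ ‖z.1‖ + ‖z.1 - z.2‖ := norm_sub_le _ _
        _ ≤ _ := by rw [← dist_eq_norm]; linarith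
    rw [mem_closedBall_zero_iff, Prod.norm_def]
    exact max_le (by linarith) h4
  have hcomp : IsCompact (Q X A B ∩ closedBall (0 : E × E) R) :=
    (isCompact_closedBall _ _).inter_left (isClosed_Q hA hB)
  obtain ⟨z, hz, hmin⟩ := hcomp.exists_isMinOn ⟨z₀, hz₀, key z₀ hz₀ le_rfl⟩
    (continuous_F ε).continuousOn
  refine ⟨z, hz.1, fun z' hz' => ?_⟩
  by_cases h : F ε z' ≤ M
  · exact hmin ⟨hz', key z' hz' h⟩
  · push Not at h
    exact (hmin ⟨hz₀, key z₀ hz₀ le_rfl⟩ : F ε z ≤ F ε z₀).trans h.le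

theorem mem_ball_subset {X : Set E} (hX : IsOpen X) {q : E} (hq : q ∈ X) {s : Set E}
    (hs : IsPreconnected s) (hqs : q ∈ s) (hf : ∀ x ∈ s, x ∉ frontier X) : s ⊆ X := by
  apply hs.subset_of_closure_inter_subset hX ⟨q, hqs, hq⟩
  rintro x ⟨hx1, hx2⟩
  by_contra hx3
  exact hf x hx2 ⟨hx1, by rwa [hX.interior_eq]⟩

theorem Q_nonempty [FiniteDimensional ℝ E] {X A B : Set E} (hX : IsOpen X)
    (hXc : IsPreconnected X) (hA : IsClosed A) (hB : IsClosed B) (hAB : Disjoint A B)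
    (hf : A ∪ B = frontier X) (hAn : A.Nonempty) (hBn : B.Nonempty) : (Q X A B).Nonempty := by
  set f : E → ℝ := fun q => infDist q A - infDist q B with hf'
  have hfc : Continuous f := (continuous_infDist_pt A).sub (continuous_infDist_pt B)
  have key : ∀ a ∈ frontier X, ∀ O : Set E, IsOpen O → a ∈ O → ∃ q ∈ X, q ∈ O := by
    intro a ha O hO haO
    obtain ⟨q, hq1, hq2⟩ := mem_closure_iff.1 ha.1 O hO haO
    exact ⟨q, hq2, hq1⟩
  obtain ⟨a, ha⟩ := hAn
  obtain ⟨b, hb⟩ := hBn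
  have hfa : f a < 0 := by
    have h1 : infDist a A = 0 := infDist_zero_of_mem ha
    have h2 : 0 < infDist a B := (hB.notMem_iff_infDist_pos ⟨b, hb⟩).1
      (fun h => disjoint_left.1 hAB ha h)
    simp only [hf', h1]; linarith
  have hfb : 0 < f b := by
    have h1 : infDist b B = 0 := infDist_zero_of_mem hb
    have h2 : 0 < infDist b A := (hA.notMem_iff_infDist_pos ⟨a, ha⟩).1
      (fun h => disjoint_left.1 hAB h hb)
    simp only [hf', h1]; linarith
  obtain ⟨q₁, hq₁X, hq₁⟩ := key a (hf ▸ Or.inl ha) {x | f x < 0} (isOpen_lt hfc continuous_const) hfa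
  obtain ⟨q₂, hq₂X, hq₂⟩ := key b (hf ▸ Or.inr hb) {x | 0 < f x} (isOpen_lt continuous_const hfc) hfb
  obtain ⟨q, hqX, hq0⟩ := hXc.intermediate_value₂ hq₁X hq₂X hfc.continuousOn
    (continuousOn_const (c := (0:ℝ))) (le_of_lt hq₁) (le_of_lt hq₂)
  have hqf : q ∉ frontier X := fun h => h.2 (by rwa [hX.interior_eq])
  have hqA : q ∉ A := fun h => hqf (hf ▸ Or.inl h)
  set r := infDist q A with hr
  have hr0 : 0 < r := (hA.notMem_iff_infDist_pos ⟨a, ha⟩).1 hqA
  have hrB : infDist q B = r := by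
    simp only [hf'] at hq0; linarith
  obtain ⟨x, hxA, hx⟩ := hA.exists_infDist_eq_dist ⟨a, ha⟩ q
  obtain ⟨y, hyB, hy⟩ := hB.exists_infDist_eq_dist ⟨b, hb⟩ q
  have hball : ball q r ⊆ X := by
    apply mem_ball_subset hX hqX (convex_ball q r).isPreconnected (mem_ball_self hr0)
    intro z hz hzf
    rw [← hf] at hzf
    rw [mem_ball, dist_comm] at hz
    rcases hzf with h | h
    · have := infDist_le_dist_of_mem h (x := q); linarith
    · have := infDist_le_dist_of_mem h (x := q); linarith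
  have hcb : closedBall q r ⊆ closure X := by
    rw [← closure_ball q hr0.ne']
    exact closure_mono hball
  refine ⟨(x, y), hxA, hyB, fun t ht => hcb ?_⟩
  have h1 : x ∈ closedBall q r := by rw [mem_closedBall, dist_comm, ← hx]
  have h2 : y ∈ closedBall q r := by rw [mem_closedBall, dist_comm, ← hy, hrB]
  have h3 : x + t • (y - x) ∈ segment ℝ x y := by
    rw [segment_eq_image']; exact ⟨t, ht, rfl⟩
  exact (convex_closedBall q r).segment_subset h1 h2 h3

section minimizer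

variable {X A B : Set E} {ε : ℝ} {z : E × E}

theorem F_le_of_sub {x y : E} {s t : ℝ} (hε0 : 0 ≤ ε) (hε : ε ≤ 1) (hs : 0 ≤ s) (hst : s ≤ t)
    (ht : t ≤ 1) : F ε (x + s • (y - x), x + t • (y - x)) ≤
      F ε (x, y) - (1 - ε) * (s * dist x y) - (1 - t) * dist x y := by
  have h1 : dist (x + s • (y - x)) (x + t • (y - x)) = (t - s) * dist x y := by
    rw [dist_eq_norm, dist_eq_norm]
    have : x + s • (y - x) - (x + t • (y - x)) = (t - s) • (x - y) := by module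
    rw [this, norm_smul, Real.norm_eq_abs, abs_of_nonneg (by linarith)]
  have h2 : phi (x + s • (y - x)) ≤ phi x + s * dist x y := by
    have h3 := phi_le_add x (x + s • (y - x))
    have h4 : ‖x + s • (y - x) - x‖ = s * dist x y := by
      rw [add_sub_cancel_left, norm_smul, Real.norm_eq_abs, abs_of_nonneg hs, dist_comm,
        dist_eq_norm]
    rwa [h4] at h3
  have h5 := mul_le_mul_of_nonneg_left h2 hε0
  simp only [F, h1]
  nlinarith

theorem min_open (hA : IsClosed A) (hX : IsOpen X) (hAB : Disjoint A B)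
    (hf : A ∪ B = frontier X) (hε0 : 0 ≤ ε) (hε : ε < 1) (hz : z ∈ Q X A B)
    (hmin : ∀ z' ∈ Q X A B, F ε z ≤ F ε z') {t : ℝ} (ht0 : 0 < t) (ht1 : t < 1) :
    z.1 + t • (z.2 - z.1) ∈ X := by
  obtain ⟨hz1, hz2, hz3⟩ := hz
  have hd : 0 < dist z.1 z.2 := dist_pos.2 (fun h => disjoint_left.1 hAB hz1 (h ▸ hz2))
  have hcl := hz3 t ⟨ht0.le, ht1.le⟩
  by_contra hnX
  have hfr : z.1 + t • (z.2 - z.1) ∈ frontier X := ⟨hcl, by rwa [hX.interior_eq]⟩
  rw [← hf] at hfr
  rcases hfr with h | h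
  · have hQ : (z.1 + t • (z.2 - z.1), z.2) ∈ Q X A B := by
      refine ⟨h, hz2, fun u hu => ?_⟩
      have h1 : z.1 + t • (z.2 - z.1) + u • (z.2 - (z.1 + t • (z.2 - z.1)))
          = z.1 + (t + u * (1 - t)) • (z.2 - z.1) := by module
      simp only [h1]
      apply hz3
      constructor
      · have := mul_nonneg hu.1 (by linarith : (0:ℝ) ≤ 1 - t); linarith
      · have := mul_le_mul_of_nonneg_right hu.2 (by linarith : (0:ℝ) ≤ 1 - t); linarith
    have h2 := hmin _ hQ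
    have h3 := F_le_of_sub (x := z.1) (y := z.2) hε0 hε.le ht0.le ht1.le le_rfl
    have h4 : z.1 + (1:ℝ) • (z.2 - z.1) = z.2 := by module
    rw [h4] at h3
    have h5 : 0 < (1 - ε) * (t * dist z.1 z.2) := by
      apply mul_pos (by linarith) (mul_pos ht0 hd)
    have h6 : F ε (z.1, z.2) = F ε z := rfl
    rw [h6] at h3
    linarith
  · have hQ : (z.1, z.1 + t • (z.2 - z.1)) ∈ Q X A B := by
      refine ⟨hz1, h, fun u hu => ?_⟩
      have h1 : z.1 + u • (z.1 + t • (z.2 - z.1) - z.1)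
          = z.1 + (u * t) • (z.2 - z.1) := by module
      simp only [h1]
      apply hz3
      constructor
      · exact mul_nonneg hu.1 ht0.le
      · have := mul_le_mul hu.2 ht1.le ht0.le zero_le_one; linarith
    have h2 := hmin _ hQ
    have h3 := F_le_of_sub (x := z.1) (y := z.2) hε0 hε.le le_rfl ht0.le ht1.le
    have h4 : z.1 + (0:ℝ) • (z.2 - z.1) = z.1 := by module
    rw [h4] at h3
    have h5 : 0 < (1 - t) * dist z.1 z.2 := mul_pos (by linarith) hd
    have h6 : F ε (z.1, z.2) = F ε z := rfl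
    rw [h6] at h3
    linarith

/-- at a minimiser, `F` is minimal among nearby pairs of points outside `X` -/
theorem local_min (hA : IsClosed A) (hB : IsClosed B) (hX : IsOpen X) (hAB : Disjoint A B)
    (hf : A ∪ B = frontier X) (hε0 : 0 ≤ ε) (hε : ε < 1) (hz : z ∈ Q X A B)
    (hmin : ∀ z' ∈ Q X A B, F ε z ≤ F ε z') :
    ∀ᶠ z' in 𝓝 z, z'.1 ∉ X → z'.2 ∉ X → F ε z ≤ F ε z' := by
  have hopen : ∀ t : ℝ, 0 < t → t < 1 → z.1 + t • (z.2 - z.1) ∈ X := fun t h0 h1 =>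
    min_open hA hX hAB hf hε0 hε hz hmin h0 h1
  have hXA : ∀ x ∈ X, x ∉ A := fun x hx hxA =>
    ((hf ▸ Or.inl hxA : x ∈ frontier X)).2 (by rwa [hX.interior_eq])
  have hXB : ∀ x ∈ X, x ∉ B := fun x hx hxB =>
    ((hf ▸ Or.inr hxB : x ∈ frontier X)).2 (by rwa [hX.interior_eq])
  obtain ⟨hz1, hz2, hz3⟩ := hz
  have hcont : ∀ t₀ : ℝ, Tendsto (fun y : (E × E) × ℝ => y.1.1 + y.2 • (y.1.2 - y.1.1))
      (𝓝 (z, t₀)) (𝓝 (z.1 + t₀ • (z.2 - z.1))) := by
    intro t₀
    have : Continuous (fun y : (E × E) × ℝ => y.1.1 + y.2 • (y.1.2 - y.1.1)) := by fun_prop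
    exact this.tendsto (z, t₀)
  have h1 : ∀ᶠ z' : E × E in 𝓝 z, ∀ t ∈ Icc (0:ℝ) (1/2), z'.1 + t • (z'.2 - z'.1) ∉ B := by
    apply isCompact_Icc.eventually_forall_of_forall_eventually
    intro t ht
    have hnB : z.1 + t • (z.2 - z.1) ∈ Bᶜ := by
      rcases eq_or_lt_of_le ht.1 with h | h
      · rw [← h, zero_smul, add_zero]
        exact fun h' => disjoint_left.1 hAB hz1 h'
      · exact hXB _ (hopen t h (by linarith [ht.2]))
    exact (hcont t).eventually (hB.isOpen_compl.mem_nhds hnB)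
  have h2 : ∀ᶠ z' : E × E in 𝓝 z, ∀ t ∈ Icc (1/2:ℝ) 1, z'.1 + t • (z'.2 - z'.1) ∉ A := by
    apply isCompact_Icc.eventually_forall_of_forall_eventually
    intro t ht
    have hnA : z.1 + t • (z.2 - z.1) ∈ Aᶜ := by
      rcases eq_or_lt_of_le ht.2 with h | h
      · rw [h, one_smul, add_sub_cancel]
        exact fun h' => disjoint_left.1 hAB h' hz2
      · exact hXA _ (hopen t (by linarith [ht.1]) h)
    exact (hcont t).eventually (hA.isOpen_compl.mem_nhds hnA)
  have h3 : ∀ᶠ z' : E × E in 𝓝 z, z'.1 + (1/2:ℝ) • (z'.2 - z'.1) ∈ X := by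
    have : Tendsto (fun y : E × E => y.1 + (1/2:ℝ) • (y.2 - y.1)) (𝓝 z)
        (𝓝 (z.1 + (1/2:ℝ) • (z.2 - z.1))) := by
      have : Continuous (fun y : E × E => y.1 + (1/2:ℝ) • (y.2 - y.1)) := by fun_prop
      exact this.tendsto z
    exact this.eventually (hX.mem_nhds (hopen _ (by norm_num) (by norm_num)))
  filter_upwards [h1, h2, h3] with z' k1 k2 k3 hn1 hn2
  set γ : ℝ → E := fun t => z'.1 + t • (z'.2 - z'.1) with hγ
  have hγc : Continuous γ := by rw [hγ]; fun_prop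
  -- last exit on the left half
  have hS : IsCompact {t ∈ Icc (0:ℝ) (1/2) | γ t ∉ X} :=
    isCompact_Icc.inter_right (hX.isClosed_compl.preimage hγc)
  obtain ⟨t₀, ⟨ht₀, ht₀X⟩, ht₀max⟩ := hS.exists_isGreatest ⟨0, ⟨by norm_num, by norm_num⟩, by
    simpa [hγ] using hn1⟩
  have hT : IsCompact {t ∈ Icc (1/2:ℝ) 1 | γ t ∉ X} :=
    isCompact_Icc.inter_right (hX.isClosed_compl.preimage hγc)
  obtain ⟨t₁, ⟨ht₁, ht₁X⟩, ht₁min⟩ := hT.exists_isLeast ⟨1, ⟨by norm_num, by norm_num⟩, by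
    simpa [hγ] using hn2⟩
  have ht₀' : t₀ < 1/2 := lt_of_le_of_ne ht₀.2 (fun h => ht₀X (by rw [h]; exact k3))
  have ht₁' : 1/2 < t₁ := lt_of_le_of_ne ht₁.1 (fun h => ht₁X (by rw [← h]; exact k3))
  have hin : ∀ t ∈ Ioo t₀ t₁, γ t ∈ X := by
    intro t ht
    by_contra hnot
    rcases le_total t (1/2) with h | h
    · have := ht₀max (⟨⟨ht₀.1.trans ht.1.le, h⟩, hnot⟩ : t ∈ {t ∈ Icc (0:ℝ) (1/2) | γ t ∉ X})
      linarith [ht.1]
    · have := ht₁min (⟨⟨h, ht.2.le.trans ht₁.2⟩, hnot⟩ : t ∈ {t ∈ Icc (1/2:ℝ) 1 | γ t ∉ X})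
      linarith [ht.2]
  have hcl : ∀ t ∈ Icc t₀ t₁, γ t ∈ closure X := by
    intro t ht
    have h5 : t ∈ closure (Ioo t₀ t₁) := by rw [closure_Ioo (by linarith)]; exact ht
    have h6 : MapsTo γ (Ioo t₀ t₁) X := hin
    exact h6.closure hγc h5
  have ha : γ t₀ ∈ A := by
    have : γ t₀ ∈ frontier X := ⟨hcl _ ⟨le_rfl, by linarith⟩, by rwa [hX.interior_eq]⟩
    rw [← hf] at this
    exact this.resolve_right (k1 t₀ ht₀)
  have hb : γ t₁ ∈ B := by
    have : γ t₁ ∈ frontier X := ⟨hcl _ ⟨by linarith, le_rfl⟩, by rwa [hX.interior_eq]⟩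
    rw [← hf] at this
    exact this.resolve_left (k2 t₁ ht₁)
  have hQ : (γ t₀, γ t₁) ∈ Q X A B := by
    refine ⟨ha, hb, fun u hu => ?_⟩
    have h7 : γ t₀ + u • (γ t₁ - γ t₀) = γ (t₀ + u * (t₁ - t₀)) := by
      simp only [hγ]; module
    simp only [h7]
    apply hcl
    constructor
    · have := mul_nonneg hu.1 (by linarith : (0:ℝ) ≤ t₁ - t₀); linarith
    · have := mul_le_mul_of_nonneg_right hu.2 (by linarith : (0:ℝ) ≤ t₁ - t₀); linarith
  have h8 := hmin _ hQ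
  have h9 := F_le_of_sub (x := z'.1) (y := z'.2) hε0 hε.le ht₀.1 (by linarith : t₀ ≤ t₁) ht₁.2
  have h10 : 0 ≤ (1 - ε) * (t₀ * dist z'.1 z'.2) :=
    mul_nonneg (by linarith) (mul_nonneg ht₀.1 dist_nonneg)
  have h11 : 0 ≤ (1 - t₁) * dist z'.1 z'.2 := mul_nonneg (by linarith [ht₁.2]) dist_nonneg
  have h12 : F ε (z'.1, z'.2) = F ε z' := rfl
  rw [h12] at h9
  linarith

end minimizer

end Pool.Agent.Helper436.MC
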