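import Mathlib
import Pool.Agent.Helper436.MCMin

namespace Pool.Agent.Helper436.MC

open Set Filter Topology Metric
open scoped InnerProductSpace RealInnerProductSpace Gradient ContDiff

variable {E : Type*} [NormedAddCommGroup E] [InnerProductSpace ℝ E] [FiniteDimensional ℝ E]

theorem poly_lemma {a b c d : ℝ}
    (h : ∀ᶠ s in 𝓝 (0:ℝ), 0 ≤ s * a + s ^ 2 * b + s ^ 3 * c + s ^ 4 * d) : a = 0 ∧ 0 ≤ b := by
  have ha : a = 0 := by
    have h1 : IsLocalMin (fun s : ℝ => s * a + s ^ 2 * b + s ^ 3 * c + s ^ 4 * d) 0 := by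
      filter_upwards [h] with s hs
      simpa using hs
    have h2 : HasDerivAt (fun s : ℝ => s * a + s ^ 2 * b + s ^ 3 * c + s ^ 4 * d) a 0 := by
      have e1 := (hasDerivAt_id (0:ℝ)).mul_const a
      have e2 := (hasDerivAt_pow 2 (0:ℝ)).mul_const b
      have e3 := (hasDerivAt_pow 3 (0:ℝ)).mul_const c
      have e4 := (hasDerivAt_pow 4 (0:ℝ)).mul_const d
      have e5 := ((e1.add e2).add e3).add e4
      refine e5.congr_deriv ?_
      simp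
    exact h1.hasDerivAt_eq_zero h2
  refine ⟨ha, ?_⟩
  subst ha
  have h3 : ∀ᶠ s in 𝓝[≠] (0:ℝ), 0 ≤ b + s * c + s ^ 2 * d := by
    filter_upwards [h.filter_mono nhdsWithin_le_nhds, self_mem_nhdsWithin] with s hs hs0
    have hs0' : s ≠ 0 := hs0
    have h4 : 0 < s ^ 2 := by positivity
    have h5 : s * 0 + s ^ 2 * b + s ^ 3 * c + s ^ 4 * d = s ^ 2 * (b + s * c + s ^ 2 * d) := by
      ring
    rw [h5] at hs
    exact nonneg_of_mul_nonneg_right hs h4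
  have h6 : Tendsto (fun s : ℝ => b + s * c + s ^ 2 * d) (𝓝[≠] 0) (𝓝 b) := by
    have : Continuous (fun s : ℝ => b + s * c + s ^ 2 * d) := by fun_prop
    have h7 := this.tendsto 0
    simp only [zero_mul, add_zero, ne_eq, OfNat.ofNat_ne_zero, not_false_eq_true, zero_pow] at h7
    exact h7.mono_left nhdsWithin_le_nhds
  exact ge_of_tendsto h6 h3

/-- upper expansion of `F` along two curves -/
theorem F_curve_le {ε : ℝ} (hε : 0 ≤ ε) {x y w v ν ν' : E} (hxy : x ≠ y) (hν : ‖ν‖ = 1)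
    (hw : ⟪ν, w⟫ = 0) (τ τ' s : ℝ) :
    F ε (curve x w ν τ s, curve y v ν' τ' s) ≤ F ε (x, y) +
      (s * (⟪y - x, v - w⟫ / ‖y - x‖ + ε * (⟪x, w⟫ / phi x))
        + s ^ 2 * ((‖v - w‖ ^ 2 + 2 * ⟪y - x, τ' • ν' - τ • ν⟫) / (2 * ‖y - x‖)
          + ε * ((‖w‖ ^ 2 + 2 * τ * ⟪x, ν⟫) / (2 * phi x)))
        + s ^ 3 * (⟪v - w, τ' • ν' - τ • ν⟫ / ‖y - x‖)
        + s ^ 4 * (‖τ' • ν' - τ • ν‖ ^ 2 / (2 * ‖y - x‖) + ε * (τ ^ 2 / (2 * phi x)))) := by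
  have hℓ : 0 < ‖y - x‖ := norm_pos_iff.2 (sub_ne_zero.2 (Ne.symm hxy))
  have hφ : 0 < phi x := lt_of_lt_of_le one_pos (one_le_phi x)
  set R := τ' • ν' - τ • ν with hR
  set d := y - x with hd
  have h1 : dist (curve x w ν τ s) (curve y v ν' τ' s) = ‖d + s • (v - w) + s ^ 2 • R‖ := by
    rw [dist_comm, dist_eq_norm, curve, curve, hR, hd]
    congr 1
    module
  have h2 : ‖d + s • (v - w) + s ^ 2 • R‖ ^ 2 = ‖d‖ ^ 2 + 2 * s * ⟪d, v - w⟫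
      + s ^ 2 * (‖v - w‖ ^ 2 + 2 * ⟪d, R⟫) + 2 * s ^ 3 * ⟪v - w, R⟫ + s ^ 4 * ‖R‖ ^ 2 := by
    rw [norm_add_sq_real, norm_add_sq_real, norm_smul, norm_smul, inner_add_left,
      real_inner_smul_right, real_inner_smul_right, real_inner_smul_left, real_inner_smul_right,
      mul_pow, mul_pow, Real.norm_eq_abs, Real.norm_eq_abs, sq_abs, sq_abs]
    ring
  have h3 : ‖d + s • (v - w) + s ^ 2 • R‖ ≤ ‖d‖ +
      (‖d + s • (v - w) + s ^ 2 • R‖ ^ 2 - ‖d‖ ^ 2) / (2 * ‖d‖) := by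
    rw [← sub_le_iff_le_add', le_div_iff₀ (by positivity)]
    nlinarith [sq_nonneg (‖d + s • (v - w) + s ^ 2 • R‖ - ‖d‖)]
  have h4 := phi_le_taylor x (curve x w ν τ s)
  have h5 : ‖curve x w ν τ s‖ ^ 2 - ‖x‖ ^ 2 = 2 * s * ⟪x, w⟫ + s ^ 2 * (‖w‖ ^ 2 + 2 * τ * ⟪x, ν⟫)
      + s ^ 4 * τ ^ 2 := by
    rw [curve, norm_add_sq_real, norm_add_sq_real, norm_smul, norm_smul, inner_add_left,
      real_inner_smul_right, real_inner_smul_right, real_inner_smul_left, real_inner_smul_right,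
      mul_pow, mul_pow, Real.norm_eq_abs, Real.norm_eq_abs, sq_abs, sq_abs, hν,
      real_inner_comm ν w, hw]
    ring
  rw [h2] at h3
  rw [h5] at h4
  have h6 := mul_le_mul_of_nonneg_left h4 hε
  have e1 : (‖d‖ ^ 2 + 2 * s * ⟪d, v - w⟫ + s ^ 2 * (‖v - w‖ ^ 2 + 2 * ⟪d, R⟫)
      + 2 * s ^ 3 * ⟪v - w, R⟫ + s ^ 4 * ‖R‖ ^ 2 - ‖d‖ ^ 2) / (2 * ‖d‖)
      = s * (⟪d, v - w⟫ / ‖d‖) + s ^ 2 * ((‖v - w‖ ^ 2 + 2 * ⟪d, R⟫) / (2 * ‖d‖))
        + s ^ 3 * (⟪v - w, R⟫ / ‖d‖) + s ^ 4 * (‖R‖ ^ 2 / (2 * ‖d‖)) := by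
    field_simp
    ring
  have e2 : (2 * s * ⟪x, w⟫ + s ^ 2 * (‖w‖ ^ 2 + 2 * τ * ⟪x, ν⟫) + s ^ 4 * τ ^ 2) / (2 * phi x)
      = s * (⟪x, w⟫ / phi x) + s ^ 2 * ((‖w‖ ^ 2 + 2 * τ * ⟪x, ν⟫) / (2 * phi x))
        + s ^ 4 * (τ ^ 2 / (2 * phi x)) := by
    field_simp
  rw [e1] at h3
  rw [e2] at h6
  have e3 : dist x y = ‖d‖ := by rw [hd, dist_comm, dist_eq_norm]
  simp only [F, h1, e3]
  linarith

theorem exists_basis_map (Rf : E ≃ₗᵢ[ℝ] E) {ν ν' : E} (h : Rf ν = ν') {ι : Type*} [Fintype ι]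
    (b : OrthonormalBasis ι ℝ (ℝ ∙ ν)ᗮ) :
    ∃ b' : OrthonormalBasis ι ℝ (ℝ ∙ ν')ᗮ, ∀ i, (b' i : E) = Rf (b i) := by
  have hK : (ℝ ∙ ν')ᗮ = (ℝ ∙ ν)ᗮ.map (Rf.toLinearEquiv : E →ₗ[ℝ] E) := by
    ext x
    rw [Submodule.mem_orthogonal_singleton_iff_inner_right, Submodule.mem_map]
    constructor
    · intro hx
      refine ⟨Rf.symm x, ?_, by simp⟩
      rw [Submodule.mem_orthogonal_singleton_iff_inner_right]
      rw [← h] at hx
      rw [← Rf.inner_map_map]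
      simpa using hx
    · rintro ⟨y, hy, rfl⟩
      rw [Submodule.mem_orthogonal_singleton_iff_inner_right] at hy
      rw [← h]
      have := Rf.inner_map_map ν y
      simpa [hy] using this
  have gen : ∀ K' : Submodule ℝ E, K' = (ℝ ∙ ν)ᗮ.map (Rf.toLinearEquiv : E →ₗ[ℝ] E) →
      ∃ b' : OrthonormalBasis ι ℝ K', ∀ i, (b' i : E) = Rf (b i) := by
    rintro K' rfl
    exact ⟨b.map (Rf.submoduleMap _), fun i => rfl⟩
  exact gen _ hK


theorem variation {X : Set E} {ε : ℝ} (hε0 : 0 < ε) {x y : E} (hxy : x ≠ y) {U U' : Set E}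
    {ρ ρ' : E → ℝ} (h : LocalDefining X x U ρ) (h' : LocalDefining X y U' ρ')
    (hx : x ∈ frontier X) (hy : y ∈ frontier X)
    (hloc : ∀ᶠ z' in 𝓝 (x, y), z'.1 ∉ X → z'.2 ∉ X → F ε (x, y) ≤ F ε z')
    {w v : E} (hw : ⟪gradient ρ x, w⟫ = 0) (hv : ⟪gradient ρ' y, v⟫ = 0) :
    ⟪y - x, v - w⟫ / ‖y - x‖ + ε * (⟪x, w⟫ / phi x) = 0 ∧
    0 ≤ (‖v - w‖ ^ 2 + secondForm ρ' y v v * ⟪y - x, normal ρ' y⟫
        - secondForm ρ x w w * ⟪y - x, normal ρ x⟫) / (2 * ‖y - x‖)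
      + ε * ((‖w‖ ^ 2 + secondForm ρ x w w * ⟪x, normal ρ x⟫) / (2 * phi x)) := by
  have hν : ‖normal ρ x‖ = 1 := normal_norm (h.regular x h.mem)
  have hwn : ⟪normal ρ x, w⟫ = 0 := by
    rw [normal, real_inner_smul_left, hw, mul_zero]
  set κ := secondForm ρ x w w with hκ
  set κ' := secondForm ρ' y v v with hκ'
  have key : ∀ η : ℝ, 0 < η →
      ⟪y - x, v - w⟫ / ‖y - x‖ + ε * (⟪x, w⟫ / phi x) = 0 ∧
      0 ≤ (‖v - w‖ ^ 2 + 2 * ⟪y - x, ((κ' - η) / 2) • normal ρ' y - ((κ - η) / 2) • normal ρ x⟫)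
          / (2 * ‖y - x‖)
        + ε * ((‖w‖ ^ 2 + 2 * ((κ - η) / 2) * ⟪x, normal ρ x⟫) / (2 * phi x)) := by
    intro η hη
    have a1 := h.curve_notMem hx hw (τ := (κ - η) / 2) (by linarith)
    have a2 := h'.curve_notMem hy hv (τ := (κ' - η) / 2) (by linarith)
    have a3 : Tendsto (fun s => (curve x w (normal ρ x) ((κ - η) / 2) s,
        curve y v (normal ρ' y) ((κ' - η) / 2) s)) (𝓝 0) (𝓝 (x, y)) := by
      have c1 := (continuous_curve x w (normal ρ x) ((κ - η) / 2)).tendsto 0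
      have c2 := (continuous_curve y v (normal ρ' y) ((κ' - η) / 2)).tendsto 0
      rw [curve_zero] at c1 c2
      exact c1.prodMk_nhds c2
    apply poly_lemma (c := ⟪v - w, ((κ' - η) / 2) • normal ρ' y - ((κ - η) / 2) • normal ρ x⟫
        / ‖y - x‖) (d := ‖((κ' - η) / 2) • normal ρ' y - ((κ - η) / 2) • normal ρ x‖ ^ 2
          / (2 * ‖y - x‖) + ε * (((κ - η) / 2) ^ 2 / (2 * phi x)))
    filter_upwards [a1, a2, a3.eventually hloc] with s b1 b2 b3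
    have b4 := b3 b1 b2
    have b5 := F_curve_le hε0.le hxy hν hwn ((κ - η) / 2) ((κ' - η) / 2) s (v := v)
      (ν' := normal ρ' y)
    linarith
  refine ⟨(key 1 one_pos).1, ?_⟩
  set cc := (⟪y - x, normal ρ x⟫ - ⟪y - x, normal ρ' y⟫) / (2 * ‖y - x‖)
    - ε * (⟪x, normal ρ x⟫ / (2 * phi x)) with hcc
  set b₀ := (‖v - w‖ ^ 2 + κ' * ⟪y - x, normal ρ' y⟫
        - κ * ⟪y - x, normal ρ x⟫) / (2 * ‖y - x‖)
      + ε * ((‖w‖ ^ 2 + κ * ⟪x, normal ρ x⟫) / (2 * phi x)) with hb₀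
  have h1 : ∀ η : ℝ, 0 < η → 0 ≤ b₀ + η * cc := by
    intro η hη
    have h2 := (key η hη).2
    have h3 : (‖v - w‖ ^ 2 + 2 * ⟪y - x, ((κ' - η) / 2) • normal ρ' y
          - ((κ - η) / 2) • normal ρ x⟫) / (2 * ‖y - x‖)
        + ε * ((‖w‖ ^ 2 + 2 * ((κ - η) / 2) * ⟪x, normal ρ x⟫) / (2 * phi x)) = b₀ + η * cc := by
      rw [inner_sub_right, real_inner_smul_right, real_inner_smul_right, hb₀, hcc]
      ring
    rwa [h3] at h2
  have h4 : Tendsto (fun η : ℝ => b₀ + η * cc) (𝓝[>] 0) (𝓝 b₀) := by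
    have : Continuous (fun η : ℝ => b₀ + η * cc) := by fun_prop
    have h5 := this.tendsto 0
    simp only [zero_mul, add_zero] at h5
    exact h5.mono_left nhdsWithin_le_nhds
  exact ge_of_tendsto h4 (by filter_upwards [self_mem_nhdsWithin] with η hη using h1 η hη)

theorem key_ineq {X : Set E} {ε : ℝ} (hε0 : 0 < ε) {x y : E} (hxy : x ≠ y)
    {U U' : Set E} {ρ ρ' : E → ℝ} (h : LocalDefining X x U ρ) (h' : LocalDefining X y U' ρ')
    (hx : x ∈ frontier X) (hy : y ∈ frontier X)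
    (hloc : ∀ᶠ z' in 𝓝 (x, y), z'.1 ∉ X → z'.2 ∉ X → F ε (x, y) ≤ F ε z')
    (hseg : ∀ t : ℝ, 0 < t → t < 1 → x + t • (y - x) ∈ X) (hH : 0 ≤ meanCurv X x) :
    meanCurv X y + (1 - ε ^ 2 - ε) * meanCurv X x ≤
      (Module.finrank ℝ E : ℝ) * (2 * ε ^ 2 / ‖y - x‖ + ε) := by
  have hℓ : 0 < ‖y - x‖ := norm_pos_iff.2 (sub_ne_zero.2 (Ne.symm hxy))
  have hφ1 := one_le_phi x
  have hφ : 0 < phi x := lt_of_lt_of_le one_pos hφ1
  have hνn : ‖normal ρ x‖ = 1 := normal_norm (h.regular x h.mem)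
  have hνn' : ‖normal ρ' y‖ = 1 := normal_norm (h'.regular y h'.mem)
  have hg : 0 < ‖gradient ρ x‖ := norm_pos_iff.2 (h.regular x h.mem)
  have hg' : 0 < ‖gradient ρ' y‖ := norm_pos_iff.2 (h'.regular y h'.mem)
  have tan : ∀ w : E, ⟪normal ρ x, w⟫ = 0 → ⟪gradient ρ x, w⟫ = 0 := by
    intro w hw
    rw [gradient_eq_smul_normal (h.regular x h.mem), real_inner_smul_left, hw, mul_zero]
  have tan' : ∀ w : E, ⟪normal ρ' y, w⟫ = 0 → ⟪gradient ρ' y, w⟫ = 0 := by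
    intro w hw
    rw [gradient_eq_smul_normal (h'.regular y h'.mem), real_inner_smul_left, hw, mul_zero]
  set ν := normal ρ x with hν
  set ν' := normal ρ' y with hν'
  set d := y - x with hd
  set ℓ := ‖d‖ with hℓd
  have hsame : ⟪ν, ν⟫ = 1 := by rw [real_inner_self_eq_norm_sq, hνn]; norm_num
  have hsame' : ⟪ν', ν'⟫ = 1 := by rw [real_inner_self_eq_norm_sq, hνn']; norm_num
  have hdd : ⟪d, d⟫ = ℓ ^ 2 := real_inner_self_eq_norm_sq d
  -- the direction at `y`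
  have hd1 : ∀ v : E, ⟪ν', v⟫ = 0 → ⟪d, v⟫ = 0 := by
    intro v hv
    have := (variation hε0 hxy h h' hx hy hloc (w := 0) (v := v) (by simp) (tan' v hv)).1
    simp only [sub_zero, inner_zero_right, zero_div, mul_zero, add_zero] at this
    rcases div_eq_zero_iff.1 this with h1 | h1
    · exact h1
    · exact absurd h1 hℓ.ne'
  have hsign' : ⟪ν', d⟫ ≤ 0 := by
    by_contra hpos
    push Not at hpos
    have h1 : ⟪gradient ρ' y, -d⟫ < 0 := by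
      rw [gradient_eq_smul_normal (h'.regular y h'.mem), real_inner_smul_left, inner_neg_right]
      have := mul_pos hg' hpos
      linarith
    have h2 := h'.line_notMem hy h1
    have h3 : ∀ᶠ s : ℝ in 𝓝[>] 0, s < 1 := by
      have : ∀ᶠ s : ℝ in 𝓝 0, s < 1 := gt_mem_nhds one_pos
      exact this.filter_mono nhdsWithin_le_nhds
    obtain ⟨s, ⟨hs1, hs2⟩, hs3⟩ := ((h2.and h3).and self_mem_nhdsWithin).exists
    have hs3' : (0:ℝ) < s := hs3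
    apply hs1
    have h4 := hseg (1 - s) (by linarith) (by linarith)
    have h5 : x + (1 - s) • (y - x) = y + s • -d := by rw [hd]; module
    rwa [h5] at h4
  have hsign : 0 ≤ ⟪ν, d⟫ := by
    by_contra hneg
    push Not at hneg
    have h1 : ⟪gradient ρ x, d⟫ < 0 := by
      rw [gradient_eq_smul_normal (h.regular x h.mem), real_inner_smul_left]
      exact mul_neg_of_pos_of_neg hg hneg
    have h2 := h.line_notMem hx h1
    have h3 : ∀ᶠ s : ℝ in 𝓝[>] 0, s < 1 := by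
      have : ∀ᶠ s : ℝ in 𝓝 0, s < 1 := gt_mem_nhds one_pos
      exact this.filter_mono nhdsWithin_le_nhds
    obtain ⟨s, ⟨hs1, hs2⟩, hs3⟩ := ((h2.and h3).and self_mem_nhdsWithin).exists
    exact hs1 (hseg s hs3 hs2)
  have hd2 : d = -ℓ • ν' := by
    set v₀ := d - ⟪ν', d⟫ • ν' with hv₀
    have h1 : ⟪ν', v₀⟫ = 0 := by
      rw [hv₀, inner_sub_right, real_inner_smul_right, hsame']; ring
    have h2 := hd1 v₀ h1
    have h3 : ⟪v₀, v₀⟫ = 0 := by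
      have : ⟪v₀, v₀⟫ = ⟪d, v₀⟫ - ⟪ν', d⟫ * ⟪ν', v₀⟫ := by
        conv_lhs => rw [hv₀]
        rw [inner_sub_left, real_inner_smul_left, ← hv₀]
      rw [this, h2, h1]; ring
    have h4 : v₀ = 0 := inner_self_eq_zero.1 h3
    have h5 : d = ⟪ν', d⟫ • ν' := sub_eq_zero.1 h4
    have h6 : ℓ = -⟪ν', d⟫ := by
      rw [hℓd]
      conv_lhs => rw [h5]
      rw [norm_smul, hνn', mul_one, Real.norm_eq_abs, abs_of_nonpos hsign']
    rw [h6, neg_neg]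
    exact h5
  have hdν' : ⟪d, ν'⟫ = -ℓ := by
    rw [hd2, real_inner_smul_left, hsame', mul_one]
  -- the direction at `x`
  have hd3 : ∀ w : E, ⟪ν, w⟫ = 0 → ⟪d, w⟫ = ε * ℓ * (⟪x, w⟫ / phi x) := by
    intro w hw
    have := (variation hε0 hxy h h' hx hy hloc (w := w) (v := 0) (tan w hw) (by simp)).1
    simp only [zero_sub, inner_neg_right] at this
    rw [neg_div] at this
    have h2 : ⟪y - x, w⟫ / ‖y - x‖ = ε * (⟪x, w⟫ / phi x) := by linarith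
    rw [div_eq_iff hℓ.ne'] at h2
    rw [← hd] at h2
    rw [h2]; ring
  have hxφ : ∀ w : E, |⟪x, w⟫ / phi x| ≤ ‖w‖ := by
    intro w
    rw [abs_div, abs_of_pos hφ, div_le_iff₀ hφ]
    calc |⟪x, w⟫| ≤ ‖x‖ * ‖w‖ := abs_real_inner_le_norm x w
      _ ≤ phi x * ‖w‖ := mul_le_mul_of_nonneg_right (norm_le_phi x) (norm_nonneg _)
      _ = ‖w‖ * phi x := mul_comm _ _
  set c := ⟪ν, d⟫ / ℓ with hc
  have hc0 : 0 ≤ c := div_nonneg hsign hℓ.le
  have hcd : ⟪d, ν⟫ = c * ℓ := by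
    rw [real_inner_comm, hc, div_mul_cancel₀ _ hℓ.ne']
  have hcle : c ≤ 1 := by
    rw [hc, div_le_one hℓ]
    calc ⟪ν, d⟫ ≤ ‖ν‖ * ‖d‖ := real_inner_le_norm _ _
      _ = ℓ := by rw [hνn, one_mul]
  have hc2 : 1 - ε ^ 2 ≤ c := by
    set w₀ := d - (c * ℓ) • ν with hw₀
    have h1 : ⟪ν, w₀⟫ = 0 := by
      rw [hw₀, inner_sub_right, real_inner_smul_right, hsame, real_inner_comm, hcd]; ring
    have h2 := hd3 w₀ h1
    have h3 : ⟪d, w₀⟫ = ℓ ^ 2 * (1 - c ^ 2) := by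
      rw [hw₀, inner_sub_right, real_inner_smul_right, hdd, hcd]; ring
    have h4 : ‖w₀‖ ^ 2 = ℓ ^ 2 * (1 - c ^ 2) := by
      rw [← h3, ← real_inner_self_eq_norm_sq]
      conv_lhs => rw [hw₀]
      rw [inner_sub_left, real_inner_smul_left, ← hw₀, h1]; ring
    have h5 : ‖w₀‖ ^ 2 ≤ ε * ℓ * ‖w₀‖ := by
      rw [h4, ← h3, h2]
      exact mul_le_mul_of_nonneg_left ((le_abs_self _).trans (hxφ w₀)) (by positivity)
    have h6 : ‖w₀‖ ≤ ε * ℓ := by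
      rcases eq_or_lt_of_le (norm_nonneg w₀) with h0 | h0
      · rw [← h0]; positivity
      · rw [sq] at h5
        exact le_of_mul_le_mul_right h5 h0
    have h7 : ℓ ^ 2 * (1 - c ^ 2) ≤ ℓ ^ 2 * ε ^ 2 := by
      rw [← h4]
      have := mul_self_le_mul_self (norm_nonneg w₀) h6
      nlinarith
    have h8 : 1 - c ^ 2 ≤ ε ^ 2 := le_of_mul_le_mul_left h7 (by positivity)
    nlinarith
  -- the reflection
  set Rf : E ≃ₗᵢ[ℝ] E := (ℝ ∙ (ν - ν'))ᗮ.reflection with hRf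
  have hRν : Rf ν = ν' := Submodule.reflection_sub (by rw [hνn, hνn'])
  have hνν' : ⟪ν, ν'⟫ = -c := by
    have h1 : ⟪d, ν⟫ = -ℓ * ⟪ν', ν⟫ := by rw [hd2, real_inner_smul_left]
    rw [hcd] at h1
    rw [real_inner_comm ν' ν]
    have h2 : ℓ * (c + ⟪ν', ν⟫) = 0 := by linarith
    rcases mul_eq_zero.1 h2 with h3 | h3
    · exact absurd h3 hℓ.ne'
    · linarith
  have hu : ‖ν - ν'‖ ^ 2 = 2 + 2 * c := by
    rw [norm_sub_sq_real, hνn, hνn', hνν']; ring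
  have hRw : ∀ w : E, ⟪ν, w⟫ = 0 → ‖w‖ = 1 → ‖Rf w - w‖ ^ 2 ≤ 2 * ε ^ 2 := by
    intro w hw hw1
    have h1 : Rf w - w = -(2 * (⟪ν - ν', w⟫ / ‖ν - ν'‖ ^ 2)) • (ν - ν') := by
      rw [hRf, Submodule.reflection_orthogonal_apply, Submodule.reflection_singleton_apply]
      simp only [RCLike.ofReal_real_eq_id, id_eq]
      module
    rw [h1, norm_smul, mul_pow, Real.norm_eq_abs, sq_abs, hu]
    have h2 : ⟪ν - ν', w⟫ = ε * (⟪x, w⟫ / phi x) := by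
      rw [inner_sub_left, hw]
      have h3 := hd3 w hw
      rw [hd2, real_inner_smul_left] at h3
      have h4 : ℓ * (-⟪ν', w⟫) = ℓ * (ε * (⟪x, w⟫ / phi x)) := by linarith
      have h5 := mul_left_cancel₀ hℓ.ne' h4
      linarith
    rw [h2]
    have h3 := hxφ w
    rw [hw1] at h3
    have h4 : (⟪x, w⟫ / phi x) ^ 2 ≤ 1 := by
      rw [← sq_abs]; nlinarith [abs_nonneg (⟪x, w⟫ / phi x)]
    have h5 : (-(2 * (ε * (⟪x, w⟫ / phi x) / (2 + 2 * c)))) ^ 2 * (2 + 2 * c)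
        = 2 * ε ^ 2 * ((⟪x, w⟫ / phi x) ^ 2 / (1 + c)) := by
      have : (1 + c) ≠ 0 := by linarith
      have : (2 + 2 * c) ≠ 0 := by linarith
      field_simp
    rw [h5]
    have h6 : (⟪x, w⟫ / phi x) ^ 2 / (1 + c) ≤ 1 := by
      rw [div_le_one (by linarith)]; linarith
    have h7 : 0 ≤ 2 * ε ^ 2 := by positivity
    calc 2 * ε ^ 2 * ((⟪x, w⟫ / phi x) ^ 2 / (1 + c)) ≤ 2 * ε ^ 2 * 1 :=
          mul_le_mul_of_nonneg_left h6 h7
      _ = 2 * ε ^ 2 := mul_one _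
  -- sum over an orthonormal basis
  set b := stdOrthonormalBasis ℝ (ℝ ∙ ν)ᗮ with hb
  obtain ⟨b', hb'⟩ := exists_basis_map Rf hRν b
  have hH1 := meanCurv_eq_sum h hx b
  have hH2 := meanCurv_eq_sum h' hy b'
  have each : ∀ i, secondForm ρ' y (b' i : E) (b' i : E)
      + (c - ε * (⟪x, ν⟫ / phi x)) * secondForm ρ x (b i : E) (b i : E)
      ≤ 2 * ε ^ 2 / ℓ + ε := by
    intro i
    have hbi : ⟪ν, (b i : E)⟫ = 0 :=
      Submodule.mem_orthogonal_singleton_iff_inner_right.1 (b i).2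
    have hbi' : ⟪ν', (b' i : E)⟫ = 0 :=
      Submodule.mem_orthogonal_singleton_iff_inner_right.1 (b' i).2
    have hn1 : ‖(b i : E)‖ = 1 := b.norm_eq_one i
    have h1 := (variation hε0 hxy h h' hx hy hloc (tan _ hbi) (tan' _ hbi')).2
    rw [← hd, ← hν, ← hν', hdν', hcd, hn1, hb' i] at h1
    have h2 := hRw _ hbi hn1
    rw [hb' i]
    set κ := secondForm ρ x (b i : E) (b i : E)
    set κ' := secondForm ρ' y (Rf (b i : E)) (Rf (b i : E))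
    set q := ‖Rf (b i : E) - (b i : E)‖ ^ 2
    have h3 : (q + κ' * -ℓ - κ * (c * ℓ)) / (2 * ℓ) + ε * ((1 ^ 2 + κ * ⟪x, ν⟫) / (2 * phi x))
        = (q / ℓ - κ' - c * κ + ε / phi x + ε * (⟪x, ν⟫ / phi x) * κ) / 2 := by
      field_simp
      ring
    rw [h3] at h1
    have h4 : q / ℓ ≤ 2 * ε ^ 2 / ℓ := div_le_div_of_nonneg_right h2 hℓ.le
    have h5 : ε / phi x ≤ ε := div_le_self hε0.le hφ1
    linarith
  have hsum := Finset.sum_le_sum (fun i (_ : i ∈ Finset.univ) => each i)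
  rw [Finset.sum_add_distrib, ← Finset.mul_sum, ← hH1, ← hH2, Finset.sum_const,
    Finset.card_univ, Fintype.card_fin, nsmul_eq_mul] at hsum
  have hfr : (Module.finrank ℝ (ℝ ∙ ν)ᗮ : ℝ) ≤ (Module.finrank ℝ E : ℝ) := by
    exact_mod_cast Submodule.finrank_le _
  have hpos : 0 ≤ 2 * ε ^ 2 / ℓ + ε := by positivity
  have h6 : (c - ε * (⟪x, ν⟫ / phi x)) ≥ 1 - ε ^ 2 - ε := by
    have h7 := hxφ ν
    rw [hνn] at h7
    have h8 : ⟪x, ν⟫ / phi x ≤ 1 := (le_abs_self _).trans h7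
    have h9 := mul_le_mul_of_nonneg_left h8 hε0.le
    linarith
  have h7 := mul_le_mul_of_nonneg_right h6 hH
  have h8 := mul_le_mul_of_nonneg_right hfr hpos
  linarith

end Pool.Agent.Helper436.MC
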