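import Mathlib
import Pool.Agent.Helper436.MCVar

namespace Pool.Agent.Helper436.MC

open Set Filter Topology Metric
open scoped InnerProductSpace RealInnerProductSpace Gradient ContDiff

variable {E : Type*} [NormedAddCommGroup E] [InnerProductSpace ℝ E] [FiniteDimensional ℝ E]

theorem local_conn {X : Set E} {x : E} {U : Set E} {ρ : E → ℝ} (h : LocalDefining X x U ρ)
    (hx : x ∈ frontier X) :
    ∃ S : Set E, IsPreconnected S ∧ S ⊆ frontier X ∧ ∃ V ∈ 𝓝 x, frontier X ∩ V ⊆ S := by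
  have hg := h.regular x h.mem
  have hρ0 : ρ x = 0 := h.zero hx
  have hs : HasStrictFDerivAt ρ (fderiv ℝ ρ x) x :=
    (h.contDiffAt h.mem).hasStrictFDerivAt (by norm_num)
  have hr : (fderiv ℝ ρ x).range = ⊤ := by
    rw [LinearMap.range_eq_top]
    intro t
    refine ⟨(t / ‖gradient ρ x‖ ^ 2) • gradient ρ x, ?_⟩
    have h1 : fderiv ℝ ρ x (gradient ρ x) = ‖gradient ρ x‖ ^ 2 := by
      have : fderiv ℝ ρ x (gradient ρ x) = ⟪gradient ρ x, gradient ρ x⟫ := by
        conv_rhs => rw [gradient]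
        rw [InnerProductSpace.toDual_symm_apply]
        rfl
      rw [this, real_inner_self_eq_norm_sq]
    have h2 : ‖gradient ρ x‖ ^ 2 ≠ 0 := pow_ne_zero _ (norm_ne_zero_iff.2 hg)
    simp only [ContinuousLinearMap.coe_coe, map_smul, h1, smul_eq_mul]
    field_simp
  set Φ := hs.implicitToOpenPartialHomeomorph ρ (fderiv ℝ ρ x) hr with hΦ
  set G := hs.implicitFunction ρ (fderiv ℝ ρ x) hr with hG
  have hGΦ : ∀ z k, G z k = Φ.symm (z, k) := fun z k => rfl
  have hΦx : Φ x = (0, 0) := by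
    rw [hΦ, HasStrictFDerivAt.implicitToOpenPartialHomeomorph_self, hρ0]
  have htgt : ((0:ℝ), (0 : (fderiv ℝ ρ x).ker)) ∈ Φ.target := by
    have := hs.mem_implicitToOpenPartialHomeomorph_target hr
    rwa [hρ0] at this
  have e1 : ∀ᶠ k in 𝓝 (0 : (fderiv ℝ ρ x).ker), ((0:ℝ), k) ∈ Φ.target := by
    have : Tendsto (fun k : (fderiv ℝ ρ x).ker => ((0:ℝ), k)) (𝓝 0) (𝓝 (0, 0)) := by
      have : Continuous (fun k : (fderiv ℝ ρ x).ker => ((0:ℝ), k)) := by fun_prop
      exact this.tendsto 0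
    exact this.eventually (Φ.open_target.mem_nhds htgt)
  have hGc : Tendsto (fun k : (fderiv ℝ ρ x).ker => G 0 k) (𝓝 0) (𝓝 x) := by
    apply hs.tendsto_implicitFunction hr
    · rw [hρ0]; exact tendsto_const_nhds
    · exact tendsto_id
  have e2 : ∀ᶠ k in 𝓝 (0 : (fderiv ℝ ρ x).ker), G 0 k ∈ U :=
    hGc.eventually (h.isOpen.mem_nhds h.mem)
  have e3 : ∀ᶠ k in 𝓝 (0 : (fderiv ℝ ρ x).ker), ρ (G 0 k) = 0 := by
    have h3 := hs.map_implicitFunction_eq hr
    rw [hρ0] at h3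
    have : Tendsto (fun k : (fderiv ℝ ρ x).ker => ((0:ℝ), k)) (𝓝 0) (𝓝 (0, 0)) := by
      have : Continuous (fun k : (fderiv ℝ ρ x).ker => ((0:ℝ), k)) := by fun_prop
      exact this.tendsto 0
    exact this.eventually h3
  obtain ⟨r, hr0, hball⟩ := Metric.eventually_nhds_iff_ball.1 (e1.and (e2.and e3))
  refine ⟨(fun k => G 0 k) '' ball 0 r, ?_, ?_, ?_⟩
  · apply (convex_ball (0 : (fderiv ℝ ρ x).ker) r).isPreconnected.image
    have hc : ContinuousOn Φ.symm Φ.target := Φ.continuousOn_symm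
    have hc2 : ContinuousOn (fun k : (fderiv ℝ ρ x).ker => ((0:ℝ), k)) (ball 0 r) := by
      fun_prop
    exact hc.comp hc2 (fun k hk => (hball k hk).1)
  · rintro _ ⟨k, hk, rfl⟩
    exact (h.boundary _ (hball k hk).2.1).2 (hball k hk).2.2
  · have c1 : ∀ᶠ y in 𝓝 x, y ∈ U := h.isOpen.mem_nhds h.mem
    have c2 : ∀ᶠ y in 𝓝 x, (Φ y).2 ∈ ball (0 : (fderiv ℝ ρ x).ker) r := by
      have hct : Tendsto Φ (𝓝 x) (𝓝 (0, 0)) := by
        have := Φ.continuousAt (hs.mem_implicitToOpenPartialHomeomorph_source hr)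
        have h4 := this.tendsto
        rwa [hΦx] at h4
      have := (continuous_snd.tendsto ((0:ℝ), (0 : (fderiv ℝ ρ x).ker))).comp hct
      exact this.eventually (ball_mem_nhds _ hr0)
    have c3 := hs.eq_implicitFunction hr
    refine ⟨_, c1.and (c2.and c3), ?_⟩
    rintro y ⟨hyf, hyU, hyb, hyG⟩
    have hy0 : ρ y = 0 := (h.boundary y hyU).1 hyf
    refine ⟨(Φ y).2, hyb, ?_⟩
    rw [hy0] at hyG
    exact hyG

theorem isClosed_component {X : Set E} (hX : IsSmoothDomain X) (p : E) :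
    IsClosed (connectedComponentIn (frontier X) p) := by
  rw [← closure_subset_iff_isClosed]
  intro x hx
  have hxf : x ∈ frontier X := by
    have := closure_mono (connectedComponentIn_subset (frontier X) p) hx
    rwa [isClosed_frontier.closure_eq] at this
  obtain ⟨U, ρ, h⟩ := hX.2.2 x hxf
  obtain ⟨S, hS, hSf, V, hV, hVS⟩ := local_conn h hxf
  obtain ⟨a, haV, haA⟩ := mem_closure_iff_nhds.1 hx V hV
  have haS : a ∈ S := hVS ⟨connectedComponentIn_subset _ _ haA, haV⟩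
  have h1 : S ⊆ connectedComponentIn (frontier X) a := hS.subset_connectedComponentIn haS hSf
  rw [← connectedComponentIn_eq haA] at h1
  exact h1 (hVS ⟨hxf, mem_of_mem_nhds hV⟩)

theorem isClosed_others {X : Set E} (hX : IsSmoothDomain X) (p : E) :
    IsClosed (frontier X \ connectedComponentIn (frontier X) p) := by
  rw [← closure_subset_iff_isClosed]
  intro x hx
  have hxf : x ∈ frontier X := by
    have := closure_mono (diff_subset : frontier X \ connectedComponentIn (frontier X) p ⊆ _) hx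
    rwa [isClosed_frontier.closure_eq] at this
  refine ⟨hxf, fun hxA => ?_⟩
  obtain ⟨U, ρ, h⟩ := hX.2.2 x hxf
  obtain ⟨S, hS, hSf, V, hV, hVS⟩ := local_conn h hxf
  obtain ⟨a, haV, haA⟩ := mem_closure_iff_nhds.1 hx V hV
  have haS : a ∈ S := hVS ⟨haA.1, haV⟩
  have hxS : x ∈ S := hVS ⟨hxf, mem_of_mem_nhds hV⟩
  have h1 : S ⊆ connectedComponentIn (frontier X) x := hS.subset_connectedComponentIn hxS hSf
  rw [← connectedComponentIn_eq hxA] at h1
  exact haA.2 (h1 haS)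

/-- the main contradiction -/
theorem no_gap {X A B : Set E} (hX : IsSmoothDomain X) (hA : IsClosed A) (hB : IsClosed B)
    (hAB : Disjoint A B) (hf : A ∪ B = frontier X) (hAn : A.Nonempty) (hBn : B.Nonempty)
    {c₀ : ℝ} (hc₀ : 0 < c₀) (hHA : ∀ x ∈ A, c₀ ≤ meanCurv X x)
    (hHB : ∀ y ∈ B, 0 ≤ meanCurv X y) : False := by
  obtain ⟨hXo, hXc, hXs⟩ := hX
  have hQ := Q_nonempty hXo hXc.isPreconnected hA hB hAB hf hAn hBn
  set N : ℝ := (Module.finrank ℝ E : ℝ) with hN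
  have hN0 : 0 ≤ N := Nat.cast_nonneg _
  set δ : ℝ := c₀ / (8 * (N + 1)) with hδ
  have hδ0 : 0 < δ := by positivity
  set ε₀ : ℝ := min (1/4) δ with hε₀
  have hε₀0 : 0 < ε₀ := lt_min (by norm_num) hδ0
  -- every minimiser is short
  have short : ∀ ε : ℝ, 0 < ε → ε ≤ ε₀ → ∀ z ∈ Q X A B, (∀ z' ∈ Q X A B, F ε z ≤ F ε z') →
      dist z.1 z.2 * δ < 2 * ε ^ 2 := by
    intro ε hε0 hεle z hz hmin
    have hε1 : ε ≤ 1/4 := hεle.trans (min_le_left _ _)
    have hεδ : ε ≤ δ := hεle.trans (min_le_right _ _)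
    have hxf : z.1 ∈ frontier X := hf ▸ Or.inl hz.1
    have hyf : z.2 ∈ frontier X := hf ▸ Or.inr hz.2.1
    have hxy : z.1 ≠ z.2 := fun h => disjoint_left.1 hAB hz.1 (h ▸ hz.2.1)
    obtain ⟨U, ρ, h⟩ := hXs z.1 hxf
    obtain ⟨U', ρ', h'⟩ := hXs z.2 hyf
    have hloc := local_min hA hB hXo hAB hf hε0.le (by linarith) hz hmin
    have hseg : ∀ t : ℝ, 0 < t → t < 1 → z.1 + t • (z.2 - z.1) ∈ X := fun t h0 h1 =>
      min_open hA hXo hAB hf hε0.le (by linarith) hz hmin h0 h1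
    have hHx := hHA z.1 hz.1
    have hHy := hHB z.2 hz.2.1
    have key := key_ineq hε0 hxy h h' hxf hyf hloc hseg (hc₀.le.trans hHx)
    by_contra hcon
    push Not at hcon
    have hd : 0 < dist z.1 z.2 := dist_pos.2 hxy
    have e0 : ‖z.2 - z.1‖ = dist z.1 z.2 := by rw [dist_comm, dist_eq_norm]
    rw [e0] at key
    have e1 : 2 * ε ^ 2 / dist z.1 z.2 ≤ δ := by
      rw [div_le_iff₀ hd]; linarith
    have e2 : N * (2 * ε ^ 2 / dist z.1 z.2 + ε) ≤ N * (δ + δ) :=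
      mul_le_mul_of_nonneg_left (by linarith) hN0
    have e3 : N * (δ + δ) ≤ c₀ / 4 := by
      have : (N + 1) * (δ + δ) = c₀ / 4 := by
        rw [hδ]; field_simp; ring
      nlinarith
    have e4 : (1/2 : ℝ) ≤ 1 - ε ^ 2 - ε := by nlinarith
    have e5 : (1/2 : ℝ) * c₀ ≤ (1 - ε ^ 2 - ε) * meanCurv X z.1 :=
      mul_le_mul e4 hHx hc₀.le (by linarith)
    linarith
  -- dyadic minimisers
  have hεk0 : ∀ k : ℕ, 0 < ε₀ / 2 ^ k := fun k => by positivity
  have hεk1 : ∀ k : ℕ, ε₀ / 2 ^ k ≤ ε₀ := fun k => by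
    apply div_le_self hε₀0.le
    exact one_le_pow₀ (by norm_num)
  choose z hzQ hzmin using fun k : ℕ => exists_min hA hB hQ (hεk0 k)
  have hshort : ∀ k, dist (z k).1 (z k).2 * δ < 2 * (ε₀ / 2 ^ k) ^ 2 := fun k =>
    short _ (hεk0 k) (hεk1 k) _ (hzQ k) (hzmin k)
  have hstep : ∀ k, phi (z (k + 1)).1 ≤ phi (z k).1 + (4 * ε₀ / δ) / 2 ^ k := by
    intro k
    have h1 := hzmin (k + 1) (z k) (hzQ k)
    simp only [F] at h1
    have h2 : 0 ≤ dist (z (k + 1)).1 (z (k + 1)).2 := dist_nonneg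
    have h3 := hshort k
    set e : ℝ := ε₀ / 2 ^ k with he
    have he' : ε₀ / 2 ^ (k + 1) = e / 2 := by rw [he, pow_succ]; field_simp
    rw [he'] at h1
    have he0 : 0 < e := hεk0 k
    have h4 : dist (z k).1 (z k).2 < 2 * e ^ 2 / δ := by rw [lt_div_iff₀ hδ0]; exact h3
    have h5 : e / 2 * phi (z (k + 1)).1 ≤ e / 2 * (phi (z k).1 + 4 * e / δ) := by
      have : e / 2 * (phi (z k).1 + 4 * e / δ) = 2 * e ^ 2 / δ + e / 2 * phi (z k).1 := by
        field_simp; ring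
      rw [this]; linarith
    have h6 := le_of_mul_le_mul_left h5 (by positivity)
    have h7 : 4 * e / δ = (4 * ε₀ / δ) / 2 ^ k := by rw [he]; field_simp
    rwa [h7] at h6
  set M : ℝ := phi (z 0).1 + 2 * (4 * ε₀ / δ) with hM
  have hbound : ∀ k, phi (z k).1 ≤ phi (z 0).1 + (4 * ε₀ / δ) * (2 - 2 / 2 ^ k) := by
    intro k
    induction k with
    | zero => simp
    | succ k ih =>
      have h1 := hstep k
      have h2 : (4 * ε₀ / δ) * (2 - 2 / 2 ^ (k + 1)) =
          (4 * ε₀ / δ) * (2 - 2 / 2 ^ k) + (4 * ε₀ / δ) / 2 ^ k := by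
        rw [pow_succ]; field_simp; ring
      rw [h2]; linarith
  have hM' : ∀ k, ‖(z k).1‖ ≤ M := by
    intro k
    have h1 := hbound k
    have h2 := norm_le_phi (z k).1
    have h3 : 0 ≤ (4 * ε₀ / δ) * (2 / 2 ^ k) := by positivity
    have h4 : (4 * ε₀ / δ) * (2 - 2 / 2 ^ k) = 2 * (4 * ε₀ / δ) - (4 * ε₀ / δ) * (2 / 2 ^ k) := by
      ring
    linarith
  have hK : IsCompact (A ∩ closedBall 0 M) := (isCompact_closedBall _ _).inter_left hA
  have hKn : (A ∩ closedBall 0 M).Nonempty :=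
    ⟨(z 0).1, (hzQ 0).1, by rw [mem_closedBall_zero_iff]; exact hM' 0⟩
  obtain ⟨a, haK, hamin⟩ := hK.exists_isMinOn hKn (continuous_infDist_pt B).continuousOn
  have hpos : 0 < infDist a B :=
    (hB.notMem_iff_infDist_pos hBn).1 (fun h => disjoint_left.1 hAB haK.1 h)
  have hlow : ∀ k, infDist a B ≤ dist (z k).1 (z k).2 := by
    intro k
    have h1 : infDist a B ≤ infDist (z k).1 B :=
      hamin ⟨(hzQ k).1, by rw [mem_closedBall_zero_iff]; exact hM' k⟩
    exact h1.trans (infDist_le_dist_of_mem (hzQ k).2.1)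
  obtain ⟨k, hk⟩ := exists_pow_lt_of_lt_one (show (0:ℝ) < infDist a B * δ / (2 * ε₀ ^ 2) by
    positivity) (show (1/4 : ℝ) < 1 by norm_num)
  have h1 := hshort k
  have h2 := mul_le_mul_of_nonneg_right (hlow k) hδ0.le
  rw [lt_div_iff₀ (by positivity)] at hk
  have h3 : 2 * (ε₀ / 2 ^ k) ^ 2 = (1/4 : ℝ) ^ k * (2 * ε₀ ^ 2) := by
    have : (1/4 : ℝ) ^ k = (1 / 2 ^ k) ^ 2 := by
      rw [← one_div_pow, ← pow_mul, mul_comm, pow_mul]; norm_num
    rw [this]; ring
  linarith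

theorem main {X : Set E} (hX : IsSmoothDomain X) (hH : ∀ x ∈ frontier X, 0 ≤ meanCurv X x)
    (hdisc : ¬ IsPreconnected (frontier X)) {p : E} (hp : p ∈ frontier X) {c₀ : ℝ}
    (hc₀ : 0 < c₀) : ∃ x ∈ connectedComponentIn (frontier X) p, meanCurv X x < c₀ := by
  by_contra hcon
  push Not at hcon
  set A := connectedComponentIn (frontier X) p with hA
  have hAs : A ⊆ frontier X := connectedComponentIn_subset _ _
  have hBn : (frontier X \ A).Nonempty := by
    by_contra hne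
    rw [not_nonempty_iff_eq_empty, diff_eq_empty] at hne
    apply hdisc
    rw [← Subset.antisymm hAs hne]
    exact isPreconnected_connectedComponentIn
  exact no_gap hX (isClosed_component hX p) (isClosed_others hX p) disjoint_sdiff_right
    (union_diff_cancel hAs) ⟨p, mem_connectedComponentIn hp⟩ hBn hc₀ hcon
    (fun y hy => hH y hy.1)

end Pool.Agent.Helper436.MC
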