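import Mathlib

set_option autoImplicit false

namespace Pool.Agent.Helper436.Pinch

/-- Algebraic curvature form: quadrilinear with the symmetries of a curvature tensor. -/
structure CurvForm {V : Type*} [AddCommGroup V] [Module ℝ V] (F : V → V → V → V → ℝ) : Prop where
  add1 : ∀ x x' y z w, F (x + x') y z w = F x y z w + F x' y z w
  smul1 : ∀ (c : ℝ) x y z w, F (c • x) y z w = c * F x y z w
  add3 : ∀ x y z z' w, F x y (z + z') w = F x y z w + F x y z' w
  smul3 : ∀ (c : ℝ) x y z w, F x y (c • z) w = c * F x y z w
  anti12 : ∀ x y z w, F x y z w = - F y x z w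
  anti34 : ∀ x y z w, F x y z w = - F x y w z
  bianchi : ∀ x y z w, F x y z w + F y z x w + F z x y w = 0

namespace CurvForm

variable {V : Type*} [AddCommGroup V] [Module ℝ V] {F : V → V → V → V → ℝ}

lemma add2 (h : CurvForm F) (x y y' z w : V) : F x (y + y') z w = F x y z w + F x y' z w := by
  rw [h.anti12, h.add1, h.anti12 y, h.anti12 y']; ring

lemma add4 (h : CurvForm F) (x y z w w' : V) : F x y z (w + w') = F x y z w + F x y z w' := by
  rw [h.anti34, h.add3, h.anti34 x y w, h.anti34 x y w']; ring

lemma smul2 (h : CurvForm F) (c : ℝ) (x y z w : V) : F x (c • y) z w = c * F x y z w := by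
  rw [h.anti12, h.smul1, h.anti12 y]; ring

lemma smul4 (h : CurvForm F) (c : ℝ) (x y z w : V) : F x y z (c • w) = c * F x y z w := by
  rw [h.anti34, h.smul3, h.anti34 x y w]; ring

lemma neg1 (h : CurvForm F) (x y z w : V) : F (-x) y z w = - F x y z w := by
  have := h.smul1 (-1) x y z w; simpa using this
lemma neg2 (h : CurvForm F) (x y z w : V) : F x (-y) z w = - F x y z w := by
  have := h.smul2 (-1) x y z w; simpa using this
lemma neg3 (h : CurvForm F) (x y z w : V) : F x y (-z) w = - F x y z w := by
  have := h.smul3 (-1) x y z w; simpa using this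
lemma neg4 (h : CurvForm F) (x y z w : V) : F x y z (-w) = - F x y z w := by
  have := h.smul4 (-1) x y z w; simpa using this

lemma pair (h : CurvForm F) (x y z w : V) : F x y z w = F z w x y := by
  have b1 := h.bianchi x y z w
  have b2 := h.bianchi y z w x
  have b3 := h.bianchi z w x y
  have b4 := h.bianchi w x y z
  have e1 := h.anti34 y z x w
  have e2 := h.anti34 z x y w
  have e3 := h.anti34 x y z w
  have e4 := h.anti34 z w y x
  have e5 := h.anti12 z w x y
  have e6 := h.anti12 x w y z
  have e7 := h.anti12 w x y z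
  have e8 := h.anti34 w x z y
  have e9 := h.anti12 y w z x
  have e10 := h.anti34 w y z x
  have e11 := h.anti12 w y x z
  have e12 := h.anti12 x z w y
  have e13 := h.anti34 x z w y
  have e14 := h.anti34 z w x y
  have e15 := h.anti34 x y w z
  linarith

lemma self12 (h : CurvForm F) (x z w : V) : F x x z w = 0 := by
  have := h.anti12 x x z w; linarith

lemma self34 (h : CurvForm F) (x y z : V) : F x y z z = 0 := by
  have := h.anti34 x y z z; linarith

/-- Berger/Karcher polarisation. -/
lemma polar (h : CurvForm F) (a b c e : V) :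
    24 * F a b e c =
      (F (a+c) (b+e) (b+e) (a+c) - F (a-c) (b+e) (b+e) (a-c)
        - F (a+c) (b-e) (b-e) (a+c) + F (a-c) (b-e) (b-e) (a-c))
      - (F (b+c) (a+e) (a+e) (b+c) - F (b-c) (a+e) (a+e) (b-c)
        - F (b+c) (a-e) (a-e) (b+c) + F (b-c) (a-e) (a-e) (b-c)) := by
  simp only [sub_eq_add_neg, h.add1, h.add2, h.add3, h.add4, h.neg1, h.neg2, h.neg3, h.neg4]
  have p1 := h.pair a b e c
  have p2 := h.pair a e b c
  have p3 := h.pair a c b e
  have p4 := h.pair c b e a
  have p5 := h.pair c e b a
  have b1 := h.bianchi a b e c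
  have b2 := h.bianchi b a e c
  have q1 := h.anti12 a b e c
  have q2 := h.anti34 a b e c
  have q3 := h.anti12 a e b c
  have q4 := h.anti34 a e b c
  have q5 := h.anti12 c b e a
  have q6 := h.anti34 c b e a
  have q7 := h.anti12 c e b a
  have q8 := h.anti34 c e b a
  have q9 := h.anti12 b e a c
  have q10 := h.anti34 b e a c
  have q11 := h.anti12 c a b e
  have q12 := h.anti34 c a b e
  have q13 := h.pair b c a e
  have q14 := h.pair c b a e
  have q15 := h.anti34 c b a e
  have q16 := h.anti12 b c a e
  have q17 := h.anti12 b c e a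
  have q18 := h.anti34 b c a e
  have q19 := h.anti12 e a b c
  have q20 := h.anti34 e a b c
  have q21 := h.pair e a b c
  have q22 := h.pair c a e b
  have q23 := h.pair b a e c
  have q24 := h.pair b e a c
  have q25 := h.anti12 e c b a
  have q26 := h.anti12 e c a b
  have q27 := h.anti34 c e a b
  linarith

end CurvForm

end Pool.Agent.Helper436.Pinch
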