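import Mathlib
import Pool.Agent.Helper436.PinchBerger

set_option autoImplicit false

namespace Pool.Agent.Helper436.Pinch

open scoped BigOperators InnerProductSpace

variable {V : Type*} [NormedAddCommGroup V] [InnerProductSpace ℝ V]
  {F : V → V → V → V → ℝ}


theorem berger (h : CurvForm F) {lo hi : ℝ}
    (hlo : ∀ x y : V, lo * (⟪x, x⟫_ℝ * ⟪y, y⟫_ℝ - ⟪x, y⟫_ℝ ^ 2) ≤ F x y y x)
    (hhi : ∀ x y : V, F x y y x ≤ hi * (⟪x, x⟫_ℝ * ⟪y, y⟫_ℝ - ⟪x, y⟫_ℝ ^ 2))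
    {a b c e : V} (ha : ⟪a, a⟫_ℝ = 1) (hb : ⟪b, b⟫_ℝ = 1) (hc : ⟪c, c⟫_ℝ = 1) (he : ⟪e, e⟫_ℝ = 1)
    (hab : ⟪a, b⟫_ℝ = 0) (hac : ⟪a, c⟫_ℝ = 0) (hae : ⟪a, e⟫_ℝ = 0) (hbc : ⟪b, c⟫_ℝ = 0)
    (hbe : ⟪b, e⟫_ℝ = 0) (hce : ⟪c, e⟫_ℝ = 0) :
    |F a b e c| ≤ 2 / 3 * (hi - lo) := by
  have hba : ⟪b, a⟫_ℝ = 0 := by rw [real_inner_comm]; exact hab
  have hca : ⟪c, a⟫_ℝ = 0 := by rw [real_inner_comm]; exact hac
  have hea : ⟪e, a⟫_ℝ = 0 := by rw [real_inner_comm]; exact hae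
  have hcb : ⟪c, b⟫_ℝ = 0 := by rw [real_inner_comm]; exact hbc
  have heb : ⟪e, b⟫_ℝ = 0 := by rw [real_inner_comm]; exact hbe
  have hec : ⟪e, c⟫_ℝ = 0 := by rw [real_inner_comm]; exact hce
  have key := h.polar a b c e
  have e1 : ⟪a + c, a + c⟫_ℝ = 2 := by
    simp only [inner_add_left, inner_add_right, ha, hac, hca, hc]; norm_num
  have e2 : ⟪a - c, a - c⟫_ℝ = 2 := by
    simp only [inner_sub_left, inner_sub_right, ha, hac, hca, hc]; norm_num
  have e3 : ⟪b + e, b + e⟫_ℝ = 2 := by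
    simp only [inner_add_left, inner_add_right, hb, hbe, heb, he]; norm_num
  have e4 : ⟪b - e, b - e⟫_ℝ = 2 := by
    simp only [inner_sub_left, inner_sub_right, hb, hbe, heb, he]; norm_num
  have e5 : ⟪b + c, b + c⟫_ℝ = 2 := by
    simp only [inner_add_left, inner_add_right, hb, hbc, hcb, hc]; norm_num
  have e6 : ⟪b - c, b - c⟫_ℝ = 2 := by
    simp only [inner_sub_left, inner_sub_right, hb, hbc, hcb, hc]; norm_num
  have e7 : ⟪a + e, a + e⟫_ℝ = 2 := by
    simp only [inner_add_left, inner_add_right, ha, hae, hea, he]; norm_num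
  have e8 : ⟪a - e, a - e⟫_ℝ = 2 := by
    simp only [inner_sub_left, inner_sub_right, ha, hae, hea, he]; norm_num
  have i1 : ⟪a + c, b + e⟫_ℝ = 0 := by
    simp only [inner_add_left, inner_add_right, hab, hae, hcb, hce]; norm_num
  have i2 : ⟪a - c, b + e⟫_ℝ = 0 := by
    simp only [inner_add_right, inner_sub_left, hab, hae, hcb, hce]; norm_num
  have i3 : ⟪a + c, b - e⟫_ℝ = 0 := by
    simp only [inner_add_left, inner_sub_right, hab, hae, hcb, hce]; norm_num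
  have i4 : ⟪a - c, b - e⟫_ℝ = 0 := by
    simp only [inner_sub_left, inner_sub_right, hab, hae, hcb, hce]; norm_num
  have i5 : ⟪b + c, a + e⟫_ℝ = 0 := by
    simp only [inner_add_left, inner_add_right, hba, hbe, hca, hce]; norm_num
  have i6 : ⟪b - c, a + e⟫_ℝ = 0 := by
    simp only [inner_add_right, inner_sub_left, hba, hbe, hca, hce]; norm_num
  have i7 : ⟪b + c, a - e⟫_ℝ = 0 := by
    simp only [inner_add_left, inner_sub_right, hba, hbe, hca, hce]; norm_num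
  have i8 : ⟪b - c, a - e⟫_ℝ = 0 := by
    simp only [inner_sub_left, inner_sub_right, hba, hbe, hca, hce]; norm_num
  have l1 := hlo (a+c) (b+e); have u1 := hhi (a+c) (b+e)
  have l2 := hlo (a-c) (b+e); have u2 := hhi (a-c) (b+e)
  have l3 := hlo (a+c) (b-e); have u3 := hhi (a+c) (b-e)
  have l4 := hlo (a-c) (b-e); have u4 := hhi (a-c) (b-e)
  have l5 := hlo (b+c) (a+e); have u5 := hhi (b+c) (a+e)
  have l6 := hlo (b-c) (a+e); have u6 := hhi (b-c) (a+e)
  have l7 := hlo (b+c) (a-e); have u7 := hhi (b+c) (a-e)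
  have l8 := hlo (b-c) (a-e); have u8 := hhi (b-c) (a-e)
  rw [e1, e3, i1] at l1 u1
  rw [e2, e3, i2] at l2 u2
  rw [e1, e4, i3] at l3 u3
  rw [e2, e4, i4] at l4 u4
  rw [e5, e7, i5] at l5 u5
  rw [e6, e7, i6] at l6 u6
  rw [e5, e8, i7] at l7 u7
  rw [e6, e8, i8] at l8 u8
  rw [abs_le]
  constructor <;> linarith

theorem sum_lower (h : CurvForm F) {lo hi : ℝ} (hlohi : lo ≤ hi)
    (hlo : ∀ x y : V, lo * (⟪x, x⟫_ℝ * ⟪y, y⟫_ℝ - ⟪x, y⟫_ℝ ^ 2) ≤ F x y y x)
    (hhi : ∀ x y : V, F x y y x ≤ hi * (⟪x, x⟫_ℝ * ⟪y, y⟫_ℝ - ⟪x, y⟫_ℝ ^ 2))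
    {ι : Type*} [Fintype ι] {u v : ι → V} {lam : ι → ℝ}
    (ho : Orthonormal ℝ (Sum.elim u v)) :
    (lo - 2 / 3 * (hi - lo) * ((Fintype.card ι : ℝ) - 1)) * ∑ a, lam a ^ 2 ≤
      ∑ a, ∑ b, lam a * lam b * F (u a) (v a) (v b) (u b) := by
  classical
  have huu : ∀ a b, ⟪u a, u b⟫_ℝ = if a = b then 1 else 0 := by
    intro a b
    have := (orthonormal_iff_ite.mp ho) (Sum.inl a) (Sum.inl b)
    simpa using this
  have hvv : ∀ a b, ⟪v a, v b⟫_ℝ = if a = b then 1 else 0 := by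
    intro a b
    have := (orthonormal_iff_ite.mp ho) (Sum.inr a) (Sum.inr b)
    simpa using this
  have huv : ∀ a b, ⟪u a, v b⟫_ℝ = 0 := by
    intro a b
    have := (orthonormal_iff_ite.mp ho) (Sum.inl a) (Sum.inr b)
    simpa using this
  have hvu : ∀ a b, ⟪v a, u b⟫_ℝ = 0 := by
    intro a b; rw [real_inner_comm]; exact huv b a
  set B := 2 / 3 * (hi - lo) with hB
  have hB0 : 0 ≤ B := by rw [hB]; nlinarith
  have hterm : ∀ a b, (if a = b then lo * lam a ^ 2 + B * lam a ^ 2 else 0) - B * (|lam a| * |lam b|) ≤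
      lam a * lam b * F (u a) (v a) (v b) (u b) := by
    intro a b
    by_cases hab : a = b
    · subst hab
      rw [if_pos rfl]
      have h1 := hlo (u a) (v a)
      rw [huu, hvv, huv] at h1
      simp only [if_true] at h1
      have h2 : |lam a| * |lam a| = lam a ^ 2 := by rw [← sq, sq_abs]
      rw [h2]
      have h3 : lam a * lam a * F (u a) (v a) (v a) (u a) = lam a ^ 2 * F (u a) (v a) (v a) (u a) := by ring
      rw [h3]
      nlinarith [sq_nonneg (lam a)]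
    · rw [if_neg hab]
      have hb := berger h hlo hhi (a := u a) (b := v a) (c := u b) (e := v b)
        (by rw [huu]; simp) (by rw [hvv]; simp) (by rw [huu]; simp) (by rw [hvv]; simp)
        (huv a a) (by rw [huu]; simp [hab]) (huv a b) (hvu a b) (by rw [hvv]; simp [hab]) (huv b b)
      have h1 : |lam a * lam b * F (u a) (v a) (v b) (u b)| ≤ B * (|lam a| * |lam b|) := by
        rw [abs_mul, abs_mul]
        have : |lam a| * |lam b| * |F (u a) (v a) (v b) (u b)| ≤ |lam a| * |lam b| * B :=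
          mul_le_mul_of_nonneg_left hb (by positivity)
        linarith
      have h2 := neg_abs_le (lam a * lam b * F (u a) (v a) (v b) (u b))
      linarith
  have hsum : ∑ a, ∑ b, ((if a = b then lo * lam a ^ 2 + B * lam a ^ 2 else 0) - B * (|lam a| * |lam b|)) ≤
      ∑ a, ∑ b, lam a * lam b * F (u a) (v a) (v b) (u b) :=
    Finset.sum_le_sum fun a _ => Finset.sum_le_sum fun b _ => hterm a b
  refine le_trans ?_ hsum
  have hcs : (∑ a, |lam a|) ^ 2 ≤ (Fintype.card ι : ℝ) * ∑ a, lam a ^ 2 := by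
    have := @sq_sum_le_card_mul_sum_sq ι ℝ _ _ _ _ Finset.univ (fun a => |lam a|)
    simpa [sq_abs] using this
  have hcalc : ∑ a, ∑ b, ((if a = b then lo * lam a ^ 2 + B * lam a ^ 2 else 0) - B * (|lam a| * |lam b|))
      = (lo + B) * ∑ a, lam a ^ 2 - B * (∑ a, |lam a|) ^ 2 := by
    simp only [Finset.sum_sub_distrib, Finset.sum_ite_eq, Finset.mem_univ, if_true]
    rw [sq (∑ a, |lam a|), Finset.sum_mul_sum, Finset.mul_sum, Finset.mul_sum]
    congr 1
    · exact Finset.sum_congr rfl fun a _ => by ring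
    · exact Finset.sum_congr rfl fun a _ => by rw [Finset.mul_sum]
  rw [hcalc]
  nlinarith

end Pool.Agent.Helper436.Pinch
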