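import Mathlib

set_option autoImplicit false

namespace Pool.Agent.Helper436.Pinch

open scoped BigOperators InnerProductSpace

section
variable {V : Type*} [NormedAddCommGroup V] [InnerProductSpace ℝ V] [FiniteDimensional ℝ V]

lemma skew_pair (A : V →ₗ[ℝ] V) (hA : ∀ x y, ⟪A x, y⟫_ℝ = - ⟪x, A y⟫_ℝ) (h0 : A ≠ 0) :
    ∃ (e f : V) (l : ℝ), ⟪e, e⟫_ℝ = 1 ∧ ⟪f, f⟫_ℝ = 1 ∧ ⟪e, f⟫_ℝ = 0 ∧ l ≠ 0 ∧
      A e = l • f ∧ A f = - l • e := by
  classical
  have hS : (A ∘ₗ A).IsSymmetric := by
    intro x y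
    simp only [LinearMap.comp_apply]
    rw [hA, hA]
    simp
  have hnorm : ∀ x, ⟪A x, A x⟫_ℝ = - ⟪x, A (A x)⟫_ℝ := fun x => by rw [hA]
  set b := hS.eigenvectorBasis rfl with hb
  have hex : ∃ i, hS.eigenvalues rfl i ≠ 0 := by
    by_contra hcon
    push Not at hcon
    apply h0
    have hz : ∀ x, (A ∘ₗ A) x = 0 := by
      have : (A ∘ₗ A) = 0 := by
        apply b.toBasis.ext
        intro i
        have := hS.apply_eigenvectorBasis rfl i
        rw [hcon i] at this
        have h2 : (A ∘ₗ A) (b.toBasis i) = 0 := by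
          rw [OrthonormalBasis.coe_toBasis, hb, this]; simp
        rw [h2]; rfl
      intro x; rw [this]; rfl
    ext x
    have h1 := hnorm x
    have h2 : A (A x) = 0 := hz x
    rw [h2, inner_zero_right, neg_zero] at h1
    exact inner_self_eq_zero.mp h1
  obtain ⟨i, hi⟩ := hex
  set e := b i with he
  have hAe : A (A e) = (hS.eigenvalues rfl i) • e := by
    have := hS.apply_eigenvectorBasis rfl i
    exact this
  have hee : ⟪e, e⟫_ℝ = 1 := by
    rw [real_inner_self_eq_norm_sq, he, b.norm_eq_one]; norm_num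
  set μ := hS.eigenvalues rfl i with hμ
  have hnn : ⟪A e, A e⟫_ℝ = - μ := by
    rw [hnorm, hAe, inner_smul_right, hee, mul_one]
  have hpos : 0 < -μ := by
    have : 0 ≤ ⟪A e, A e⟫_ℝ := real_inner_self_nonneg
    rw [hnn] at this
    rcases lt_or_eq_of_le this with h | h
    · exact h
    · exfalso; apply hi; linarith
  set l := Real.sqrt (-μ) with hl
  have hlpos : 0 < l := Real.sqrt_pos.mpr hpos
  have hll : l * l = -μ := Real.mul_self_sqrt hpos.le
  refine ⟨e, l⁻¹ • A e, l, hee, ?_, ?_, hlpos.ne', ?_, ?_⟩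
  · rw [inner_smul_left, inner_smul_right, hnn, ← hll]
    simp
    field_simp
  · rw [inner_smul_right]
    have h1 := hA e e
    rw [real_inner_comm] at h1
    have : ⟪e, A e⟫_ℝ = 0 := by linarith
    rw [this, mul_zero]
  · rw [smul_smul, mul_inv_cancel₀ hlpos.ne', one_smul]
  · rw [map_smul, hAe, smul_smul]
    congr 1
    have : μ = - (l * l) := by linarith
    rw [this]; field_simp

theorem skew_normal_aux (n : ℕ) : ∀ (A : V →ₗ[ℝ] V), (∀ x y, ⟪A x, y⟫_ℝ = - ⟪x, A y⟫_ℝ) →
    Module.finrank ℝ V - Module.finrank ℝ (LinearMap.ker A) ≤ n →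
    ∃ (ι : Type) (_ : Fintype ι) (u v : ι → V) (l : ι → ℝ),
      Orthonormal ℝ (Sum.elim u v) ∧
      (∀ x, A x = ∑ a, l a • (⟪u a, x⟫_ℝ • v a - ⟪v a, x⟫_ℝ • u a)) ∧
      (∀ x, A x = 0 → ∀ a, ⟪u a, x⟫_ℝ = 0 ∧ ⟪v a, x⟫_ℝ = 0) := by
  classical
  induction n with
  | zero =>
    intro A hA hn
    have hle : Module.finrank ℝ V ≤ Module.finrank ℝ (LinearMap.ker A) := by omega
    have htop : LinearMap.ker A = ⊤ := by
      apply Submodule.eq_top_of_finrank_eq
      exact le_antisymm (Submodule.finrank_le _) hle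
    have hA0 : A = 0 := LinearMap.ker_eq_top.mp htop
    refine ⟨Empty, inferInstance, fun x => x.elim, fun x => x.elim, fun x => x.elim, ?_, ?_, ?_⟩
    · rw [orthonormal_iff_ite]
      intro i
      rcases i with i | i <;> exact i.elim
    · intro x; rw [hA0]; simp
    · intro x _ a; exact a.elim
  | succ n ih =>
    intro A hA hn
    by_cases h0 : A = 0
    · refine ⟨Empty, inferInstance, fun x => x.elim, fun x => x.elim, fun x => x.elim, ?_, ?_, ?_⟩
      · rw [orthonormal_iff_ite]
        intro i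
        rcases i with i | i <;> exact i.elim
      · intro x; rw [h0]; simp
      · intro x _ a; exact a.elim
    obtain ⟨e, f, l, hee, hff, hef, hl, hAe, hAf⟩ := skew_pair A hA h0
    have hfe : ⟪f, e⟫_ℝ = 0 := by rw [real_inner_comm]; exact hef
    -- the deflated operator
    set D : V →ₗ[ℝ] V :=
      l • ((innerₗ V e).smulRight f - (innerₗ V f).smulRight e) with hD
    have hDx : ∀ x, D x = l • (⟪e, x⟫_ℝ • f - ⟪f, x⟫_ℝ • e) := by
      intro x; simp [hD]
    set A' := A - D with hA'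
    have hA'x : ∀ x, A' x = A x - l • (⟪e, x⟫_ℝ • f - ⟪f, x⟫_ℝ • e) := by
      intro x; rw [hA', LinearMap.sub_apply, hDx]
    have hskew' : ∀ x y, ⟪A' x, y⟫_ℝ = - ⟪x, A' y⟫_ℝ := by
      intro x y
      rw [hA'x, hA'x, inner_sub_left, inner_sub_right, hA x y]
      simp only [inner_smul_left, inner_smul_right, inner_sub_left, inner_sub_right]
      rw [real_inner_comm e x, real_inner_comm f x]
      simp
      ring
    have hker : ∀ x, A x = 0 → ⟪e, x⟫_ℝ = 0 ∧ ⟪f, x⟫_ℝ = 0 := by
      intro x hx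
      have h1 := hA e x
      rw [hx, inner_zero_right, hAe, inner_smul_left] at h1
      have h2 := hA f x
      rw [hx, inner_zero_right, hAf, inner_smul_left] at h2
      simp at h1 h2
      exact ⟨h2.resolve_left hl, h1.resolve_left hl⟩
    have hA'e : A' e = 0 := by
      rw [hA'x, hAe, hee, hfe]; simp
    have hA'f : A' f = 0 := by
      rw [hA'x, hAf, hff, hef]; simp
    have hlt : LinearMap.ker A < LinearMap.ker A' := by
      rw [SetLike.lt_iff_le_and_exists]
      refine ⟨?_, e, ?_, ?_⟩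
      · intro x hx
        rw [LinearMap.mem_ker] at hx ⊢
        obtain ⟨h1, h2⟩ := hker x hx
        rw [hA'x, hx, h1, h2]; simp
      · exact LinearMap.mem_ker.mpr hA'e
      · rw [LinearMap.mem_ker, hAe]
        intro hcon
        have : f ≠ 0 := by
          intro hf; rw [hf, inner_zero_left] at hff; exact zero_ne_one hff
        rcases smul_eq_zero.mp hcon with h | h
        · exact hl h
        · exact this h
    have hfr := Submodule.finrank_lt_finrank_of_lt hlt
    have hle2 := Submodule.finrank_le (LinearMap.ker A')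
    obtain ⟨ι, hι, u, v, lam, ho, hrep, hk⟩ := ih A' hskew' (by omega)
    have hue := hk e hA'e
    have huf := hk f hA'f
    have hoi := orthonormal_iff_ite.mp ho
    have huu : ∀ a b, ⟪u a, u b⟫_ℝ = if a = b then 1 else 0 := by
      intro a b
      have := hoi (Sum.inl a) (Sum.inl b)
      simpa using this
    have hvv : ∀ a b, ⟪v a, v b⟫_ℝ = if a = b then 1 else 0 := by
      intro a b
      have := hoi (Sum.inr a) (Sum.inr b)
      simpa using this
    have huv : ∀ a b, ⟪u a, v b⟫_ℝ = 0 := by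
      intro a b
      have := hoi (Sum.inl a) (Sum.inr b)
      simpa using this
    have hvu : ∀ a b, ⟪v a, u b⟫_ℝ = 0 := by
      intro a b; rw [real_inner_comm]; exact huv b a
    have heu : ∀ a, ⟪e, u a⟫_ℝ = 0 := fun a => by rw [real_inner_comm]; exact (hue a).1
    have hev : ∀ a, ⟪e, v a⟫_ℝ = 0 := fun a => by rw [real_inner_comm]; exact (hue a).2
    have hfu : ∀ a, ⟪f, u a⟫_ℝ = 0 := fun a => by rw [real_inner_comm]; exact (huf a).1
    have hfv : ∀ a, ⟪f, v a⟫_ℝ = 0 := fun a => by rw [real_inner_comm]; exact (huf a).2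
    have hne : ‖e‖ = 1 := by
      have := real_inner_self_eq_norm_sq e
      rw [hee] at this
      have h2 := norm_nonneg e
      nlinarith
    have hnf : ‖f‖ = 1 := by
      have := real_inner_self_eq_norm_sq f
      rw [hff] at this
      have h2 := norm_nonneg f
      nlinarith
    refine ⟨Option ι, inferInstance, fun o => o.elim e u, fun o => o.elim f v,
      fun o => o.elim l lam, ?_, ?_, ?_⟩
    · rw [orthonormal_iff_ite]
      rintro (i | i) (j | j)
      · rcases i with _ | i <;> rcases j with _ | j <;>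
          simp [hne, heu, huu, (hue _).1]
      · rcases i with _ | i <;> rcases j with _ | j <;>
          simp [hef, hev, (huf _).1, huv]
      · rcases i with _ | i <;> rcases j with _ | j <;>
          simp [hfe, hfu, (hue _).2, hvu]
      · rcases i with _ | i <;> rcases j with _ | j <;>
          simp [hnf, hfv, (huf _).2, hvv]
    · intro x
      rw [Fintype.sum_option]
      simp only [Option.elim]
      rw [← hrep x, hA'x]
      abel
    · intro x hx a
      obtain ⟨h1, h2⟩ := hker x hx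
      have hA'0 : A' x = 0 := by rw [hA'x, hx, h1, h2]; simp
      rcases a with _ | a
      · exact ⟨h1, h2⟩
      · exact hk x hA'0 a

theorem skew_normal (A : V →ₗ[ℝ] V) (hA : ∀ x y, ⟪A x, y⟫_ℝ = - ⟪x, A y⟫_ℝ) :
    ∃ (ι : Type) (_ : Fintype ι) (u v : ι → V) (l : ι → ℝ),
      Orthonormal ℝ (Sum.elim u v) ∧
      (∀ x, A x = ∑ a, l a • (⟪u a, x⟫_ℝ • v a - ⟪v a, x⟫_ℝ • u a)) := by
  obtain ⟨ι, hι, u, v, l, h1, h2, _⟩ := skew_normal_aux _ A hA le_rfl
  exact ⟨ι, hι, u, v, l, h1, h2⟩

lemma two_card_le {ι : Type} [Fintype ι] {u v : ι → V} (ho : Orthonormal ℝ (Sum.elim u v)) :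
    2 * Fintype.card ι ≤ Module.finrank ℝ V := by
  have := ho.linearIndependent.fintype_card_le_finrank
  rw [Fintype.card_sum] at this
  omega

end

/-- Normal form of a real skew-symmetric matrix. -/
theorem skew_matrix_normal {d : ℕ} (Ω : Matrix (Fin d) (Fin d) ℝ) (hΩ : ∀ i j, Ω i j = - Ω j i) :
    ∃ (ι : Type) (_ : Fintype ι) (u v : ι → EuclideanSpace ℝ (Fin d)) (l : ι → ℝ),
      Orthonormal ℝ (Sum.elim u v) ∧
      (∀ i j, Ω i j = ∑ a, l a * (u a i * v a j - v a i * u a j)) := by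
  classical
  set A : EuclideanSpace ℝ (Fin d) →ₗ[ℝ] EuclideanSpace ℝ (Fin d) := Matrix.toEuclideanLin Ω with hAdef
  have hAx : ∀ x i, A x i = ∑ j, Ω i j * x j := by
    intro x i
    simp [hAdef, Matrix.toEuclideanLin, Matrix.mulVec, dotProduct]
  have hin : ∀ x y : EuclideanSpace ℝ (Fin d), ⟪x, y⟫_ℝ = ∑ i, x i * y i := by
    intro x y
    rw [PiLp.inner_apply]
    exact Finset.sum_congr rfl fun i _ => by simp [mul_comm]
  have hskew : ∀ x y, ⟪A x, y⟫_ℝ = - ⟪x, A y⟫_ℝ := by
    intro x y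
    rw [hin, hin]
    simp only [hAx]
    simp only [Finset.sum_mul, Finset.mul_sum]
    rw [Finset.sum_comm, ← Finset.sum_neg_distrib]
    refine Finset.sum_congr rfl fun i _ => ?_
    rw [← Finset.sum_neg_distrib]
    refine Finset.sum_congr rfl fun j _ => ?_
    rw [hΩ j i]; ring
  obtain ⟨ι, hι, u, v, l, ho, hrep⟩ := skew_normal A hskew
  refine ⟨ι, hι, u, v, fun a => - l a, ho, ?_⟩
  intro i j
  have h1 : A (EuclideanSpace.single i 1) j = Ω j i := by
    rw [hAx]
    simp
  rw [hΩ i j, ← h1, hrep]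
  have : ∀ (w : EuclideanSpace ℝ (Fin d)), ⟪w, EuclideanSpace.single i 1⟫_ℝ = w i := by
    intro w; rw [hin]; simp
  simp only [this]
  have h2 : ∀ (f : ι → EuclideanSpace ℝ (Fin d)) (j : Fin d), (∑ a, f a) j = ∑ a, f a j := by
    intro f j
    simp
  rw [h2, ← Finset.sum_neg_distrib]
  refine Finset.sum_congr rfl fun a _ => ?_
  simp only [PiLp.smul_apply, PiLp.sub_apply, smul_eq_mul]
  ring

end Pool.Agent.Helper436.Pinch
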