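import Mathlib
import Pool.Agent.Helper436.PinchBerger2
import Pool.Agent.Helper436.PinchNormal

set_option autoImplicit false

namespace Pool.Agent.Helper436.Pinch

open scoped BigOperators InnerProductSpace Matrix

section Comp
variable {V W : Type*} [AddCommGroup V] [Module ℝ V] [AddCommGroup W] [Module ℝ W]

lemma CurvForm.comp {F : V → V → V → V → ℝ} (h : CurvForm F) (P : W →ₗ[ℝ] V) :
    CurvForm (fun x y z w => F (P x) (P y) (P z) (P w)) where
  add1 := by intro x x' y z w; simp only [map_add]; exact h.add1 _ _ _ _ _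
  smul1 := by intro c x y z w; simp only [map_smul]; exact h.smul1 _ _ _ _ _
  add3 := by intro x y z z' w; simp only [map_add]; exact h.add3 _ _ _ _ _
  smul3 := by intro c x y z w; simp only [map_smul]; exact h.smul3 _ _ _ _ _
  anti12 := by intro x y z w; exact h.anti12 _ _ _ _
  anti34 := by intro x y z w; exact h.anti34 _ _ _ _
  bianchi := by intro x y z w; exact h.bianchi _ _ _ _

end Comp

/-- The quadrilinear form with coefficients `R`. -/
def cf {d : ℕ} (R : Fin d → Fin d → Fin d → Fin d → ℝ) (u v w z : Fin d → ℝ) : ℝ :=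
  ∑ i, ∑ j, ∑ k, ∑ l, R i j k l * u i * v j * w k * z l

lemma cf_curvForm {d : ℕ} (R : Fin d → Fin d → Fin d → Fin d → ℝ)
    (h12 : ∀ i j k l, R i j k l = - R j i k l) (h34 : ∀ i j k l, R i j k l = - R i j l k)
    (hB : ∀ i j k l, R i j k l + R j k i l + R k i j l = 0) : CurvForm (cf R) where
  add1 := by
    intro x x' y z w
    simp only [cf, Pi.add_apply, mul_add, add_mul, Finset.sum_add_distrib]
  smul1 := by
    intro c x y z w
    simp only [cf, Pi.smul_apply, smul_eq_mul, Finset.mul_sum]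
    refine Finset.sum_congr rfl fun i _ => Finset.sum_congr rfl fun j _ =>
      Finset.sum_congr rfl fun k _ => Finset.sum_congr rfl fun l _ => by ring
  add3 := by
    intro x y z z' w
    simp only [cf, Pi.add_apply, mul_add, add_mul, Finset.sum_add_distrib]
  smul3 := by
    intro c x y z w
    simp only [cf, Pi.smul_apply, smul_eq_mul, Finset.mul_sum]
    refine Finset.sum_congr rfl fun i _ => Finset.sum_congr rfl fun j _ =>
      Finset.sum_congr rfl fun k _ => Finset.sum_congr rfl fun l _ => by ring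
  anti12 := by
    intro x y z w
    simp only [cf]
    rw [Finset.sum_comm]
    simp only [← Finset.sum_neg_distrib]
    refine Finset.sum_congr rfl fun i _ => Finset.sum_congr rfl fun j _ =>
      Finset.sum_congr rfl fun k _ => Finset.sum_congr rfl fun l _ => ?_
    rw [h12 j i k l]; ring
  anti34 := by
    intro x y z w
    simp only [cf]
    simp only [← Finset.sum_neg_distrib]
    refine Finset.sum_congr rfl fun i _ => Finset.sum_congr rfl fun j _ => ?_
    rw [Finset.sum_comm]
    refine Finset.sum_congr rfl fun k _ => Finset.sum_congr rfl fun l _ => ?_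
    rw [h34 i j l k]; ring
  bianchi := by
    intro x y z w
    have e2 : cf R y z x w = ∑ i, ∑ j, ∑ k, ∑ l, R j k i l * x i * y j * z k * w l := by
      simp only [cf]
      -- sum over (a,b,c) = (j,k,i)
      rw [show (∑ a, ∑ b, ∑ c, ∑ l, R a b c l * y a * z b * x c * w l)
        = ∑ a, ∑ c, ∑ b, ∑ l, R a b c l * y a * z b * x c * w l from
          Finset.sum_congr rfl fun a _ => Finset.sum_comm]
      rw [Finset.sum_comm]
      refine Finset.sum_congr rfl fun i _ => Finset.sum_congr rfl fun j _ =>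
        Finset.sum_congr rfl fun k _ => Finset.sum_congr rfl fun l _ => by ring
    have e3 : cf R z x y w = ∑ i, ∑ j, ∑ k, ∑ l, R k i j l * x i * y j * z k * w l := by
      simp only [cf]
      rw [Finset.sum_comm]
      refine Finset.sum_congr rfl fun i _ => ?_
      rw [Finset.sum_comm]
      refine Finset.sum_congr rfl fun j _ =>
        Finset.sum_congr rfl fun k _ => Finset.sum_congr rfl fun l _ => by ring
    rw [e2, e3]
    simp only [cf, ← Finset.sum_add_distrib]
    refine Finset.sum_eq_zero fun i _ => Finset.sum_eq_zero fun j _ =>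
      Finset.sum_eq_zero fun k _ => Finset.sum_eq_zero fun l _ => ?_
    have := hB i j k l
    linear_combination (x i * y j * z k * w l) * this

/-- The bilinear form on matrices. -/
noncomputable def Phi {d : ℕ} (R : Fin d → Fin d → Fin d → Fin d → ℝ) :
    Matrix (Fin d) (Fin d) ℝ →ₗ[ℝ] Matrix (Fin d) (Fin d) ℝ →ₗ[ℝ] ℝ :=
  LinearMap.mk₂ ℝ (fun A B => ∑ i, ∑ j, ∑ k, ∑ l, R i j k l * A i j * B l k)
    (by intro A A' B; simp only [Matrix.add_apply, mul_add, add_mul, Finset.sum_add_distrib])
    (by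
      intro c A B
      simp only [Matrix.smul_apply, smul_eq_mul, Finset.mul_sum]
      refine Finset.sum_congr rfl fun i _ => Finset.sum_congr rfl fun j _ =>
        Finset.sum_congr rfl fun k _ => Finset.sum_congr rfl fun l _ => by ring)
    (by intro A B B'; simp only [Matrix.add_apply, mul_add, Finset.sum_add_distrib])
    (by
      intro c A B
      simp only [Matrix.smul_apply, smul_eq_mul, Finset.mul_sum]
      refine Finset.sum_congr rfl fun i _ => Finset.sum_congr rfl fun j _ =>
        Finset.sum_congr rfl fun k _ => Finset.sum_congr rfl fun l _ => by ring)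

lemma Phi_apply {d : ℕ} (R : Fin d → Fin d → Fin d → Fin d → ℝ) (A B : Matrix (Fin d) (Fin d) ℝ) :
    Phi R A B = ∑ i, ∑ j, ∑ k, ∑ l, R i j k l * A i j * B l k := rfl

lemma Phi_vec {d : ℕ} (R : Fin d → Fin d → Fin d → Fin d → ℝ) (p q p' q' : Fin d → ℝ) :
    Phi R (Matrix.vecMulVec p q) (Matrix.vecMulVec p' q') = cf R p q q' p' := by
  rw [Phi_apply, cf]
  refine Finset.sum_congr rfl fun i _ => Finset.sum_congr rfl fun j _ =>
    Finset.sum_congr rfl fun k _ => Finset.sum_congr rfl fun l _ => ?_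
  simp only [Matrix.vecMulVec_apply]; ring

/-- The gram determinant of independent vectors is positive. -/
lemma gram_pos {V : Type*} [NormedAddCommGroup V] [InnerProductSpace ℝ V] {x y : V}
    (h : LinearIndependent ℝ ![x, y]) : 0 < ⟪x, x⟫_ℝ * ⟪y, y⟫_ℝ - ⟪x, y⟫_ℝ ^ 2 := by
  rw [LinearIndependent.pair_iff] at h
  have hx : x ≠ 0 := by
    rintro rfl
    have := h 1 0 (by simp)
    exact one_ne_zero this.1
  have hxx : 0 < ⟪x, x⟫_ℝ := real_inner_self_pos.mpr hx
  set w := ⟪x, x⟫_ℝ • y - ⟪x, y⟫_ℝ • x with hw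
  have hw0 : w ≠ 0 := by
    intro h0
    have h1 : (-⟪x, y⟫_ℝ) • x + ⟪x, x⟫_ℝ • y = 0 := by
      rw [← h0, hw, neg_smul]; abel
    have := h _ _ h1
    exact hxx.ne' this.2
  have hww : 0 < ⟪w, w⟫_ℝ := real_inner_self_pos.mpr hw0
  have : ⟪w, w⟫_ℝ = ⟪x, x⟫_ℝ * (⟪x, x⟫_ℝ * ⟪y, y⟫_ℝ - ⟪x, y⟫_ℝ ^ 2) := by
    rw [hw]
    simp only [inner_sub_left, inner_sub_right, inner_smul_left, inner_smul_right]
    rw [real_inner_comm x y]
    simp
    ring
  rw [this] at hww
  exact (mul_pos_iff_of_pos_left hxx).mp hww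

lemma dep_case {V : Type*} [NormedAddCommGroup V] [InnerProductSpace ℝ V] {F : V → V → V → V → ℝ}
    (hF : CurvForm F) {x y : V}
    (h : ¬ LinearIndependent ℝ ![x, y]) :
    F x y y x = 0 ∧ ⟪x, x⟫_ℝ * ⟪y, y⟫_ℝ - ⟪x, y⟫_ℝ ^ 2 = 0 := by
  rw [LinearIndependent.pair_iff] at h
  push Not at h
  obtain ⟨s, t, hst, hne⟩ := h
  by_cases hs : s = 0
  · have ht : t ≠ 0 := hne hs
    subst hs
    have hy : y = 0 := by
      have : t • y = 0 := by simpa using hst
      exact (smul_eq_zero.mp this).resolve_left ht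
    subst hy
    constructor
    · have := hF.smul2 0 x 0 0 x
      simpa using this
    · simp
  · have hx : x = (-(t / s)) • y := by
      have h1 : s • x = - (t • y) := eq_neg_of_add_eq_zero_left hst
      have h2 : x = s⁻¹ • (s • x) := by rw [smul_smul, inv_mul_cancel₀ hs, one_smul]
      rw [h2, h1, smul_neg, smul_smul, neg_smul]
      congr 2
      field_simp
    constructor
    · rw [hx, hF.smul1, hF.self12]; ring
    · rw [hx]
      simp only [inner_smul_left, inner_smul_right]
      simp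
      ring

open scoped MatrixOrder Matrix.Norms.L2Operator in
lemma exists_frame {d : ℕ} (G : Matrix (Fin d) (Fin d) ℝ) (hs : Gᵀ = G)
    (hp : ∀ u : Fin d → ℝ, u ≠ 0 → 0 < u ⬝ᵥ (G *ᵥ u)) :
    ∃ P : Matrix (Fin d) (Fin d) ℝ, IsUnit P ∧ Pᵀ * G * P = 1 := by
  have hpd : G.PosDef := by
    refine Matrix.PosDef.of_dotProduct_mulVec_pos ?_ ?_
    · rw [Matrix.IsHermitian, Matrix.conjTranspose_eq_transpose_of_trivial]; exact hs
    · intro x hx
      simpa using hp x hx
  obtain ⟨a, ha⟩ := CStarAlgebra.nonneg_iff_eq_star_mul_self.mp hpd.posSemidef.nonneg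
  have ha' : G = aᵀ * a := by
    rw [ha, Matrix.star_eq_conjTranspose, Matrix.conjTranspose_eq_transpose_of_trivial]
  have hdet : IsUnit a.det := by
    have h1 := hpd.det_pos
    rw [ha', Matrix.det_mul, Matrix.det_transpose] at h1
    refine isUnit_iff_ne_zero.mpr ?_
    intro h0; rw [h0] at h1; simp at h1
  refine ⟨a⁻¹, ?_, ?_⟩
  · rw [Matrix.isUnit_nonsing_inv_iff]
    exact (Matrix.isUnit_iff_isUnit_det a).mpr hdet
  · rw [ha', Matrix.transpose_nonsing_inv]
    rw [← Matrix.mul_assoc, Matrix.nonsing_inv_mul aᵀ (by rw [Matrix.det_transpose]; exact hdet)]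
    rw [Matrix.one_mul, Matrix.mul_nonsing_inv a hdet]

end Pool.Agent.Helper436.Pinch
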