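import Mathlib
import Pool.Agent.Helper436.PinchAlg

set_option autoImplicit false

namespace Pool.Agent.Helper436.Pinch

open scoped BigOperators InnerProductSpace Matrix

/-- bilinear form with coefficient matrix `G`. -/
def gip {d : ℕ} (G : Matrix (Fin d) (Fin d) ℝ) (u v : Fin d → ℝ) : ℝ :=
  ∑ i, ∑ j, G i j * u i * v j

lemma gip_eq {d : ℕ} (G : Matrix (Fin d) (Fin d) ℝ) (u v : Fin d → ℝ) :
    gip G u v = u ⬝ᵥ (G *ᵥ v) := by
  simp only [gip, dotProduct, Matrix.mulVec, Finset.mul_sum]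
  refine Finset.sum_congr rfl fun i _ => Finset.sum_congr rfl fun j _ => by ring

lemma gip_mulVec {d : ℕ} (G P : Matrix (Fin d) (Fin d) ℝ) (hP : Pᵀ * G * P = 1)
    (x y : Fin d → ℝ) : gip G (P *ᵥ x) (P *ᵥ y) = x ⬝ᵥ y := by
  rw [gip_eq, Matrix.mulVec_mulVec, Matrix.dotProduct_mulVec, Matrix.vecMul_mulVec, 
    ← Matrix.dotProduct_mulVec, ← Matrix.mul_assoc, hP, Matrix.one_mulVec]

theorem alg_main {d : ℕ} (hd : 2 ≤ d) (G : Matrix (Fin d) (Fin d) ℝ) (hs : Gᵀ = G)
    (hp : ∀ u : Fin d → ℝ, u ≠ 0 → 0 < gip G u u)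
    (R : Fin d → Fin d → Fin d → Fin d → ℝ)
    (h12 : ∀ i j k l, R i j k l = - R j i k l) (h34 : ∀ i j k l, R i j k l = - R i j l k)
    (hB : ∀ i j k l, R i j k l + R j k i l + R k i j l = 0)
    {δ : ℝ} (hδ0 : 0 < δ) (hδ1 : δ ≤ 1)
    (hδ : (2 * ((d / 2 : ℕ) : ℝ) - 2) / (2 * ((d / 2 : ℕ) : ℝ) + 1) < δ)
    (hpos : ∀ u v : Fin d → ℝ, LinearIndependent ℝ ![u, v] →
      0 < cf R u v v u / (gip G u u * gip G v v - gip G u v ^ 2))
    (hpin : ∀ u v u' v' : Fin d → ℝ, LinearIndependent ℝ ![u, v] → LinearIndependent ℝ ![u', v'] →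
      δ * (cf R u' v' v' u' / (gip G u' u' * gip G v' v' - gip G u' v' ^ 2)) ≤
        cf R u v v u / (gip G u u * gip G v v - gip G u v ^ 2))
    (om : Matrix (Fin d) (Fin d) ℝ) (hom : omᵀ = -om) (hne : om ≠ 0) :
    0 < Phi R om om := by
  classical
  obtain ⟨P, hPu, hP⟩ := exists_frame G hs (fun u hu => by rw [← gip_eq]; exact hp u hu)
  have hPdet : IsUnit P.det := (Matrix.isUnit_iff_isUnit_det P).mp hPu
  set L : EuclideanSpace ℝ (Fin d) →ₗ[ℝ] (Fin d → ℝ) :=
    P.mulVecLin ∘ₗ (WithLp.linearEquiv 2 ℝ (Fin d → ℝ)).toLinearMap with hL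
  have hLx : ∀ x, L x = P *ᵥ (fun i => x i) := by intro x; simp [hL]
  have hLip : ∀ x y, gip G (L x) (L y) = ⟪x, y⟫_ℝ := by
    intro x y
    rw [hLx, hLx, gip_mulVec G P hP]
    rw [PiLp.inner_apply]
    simp only [dotProduct]
    exact Finset.sum_congr rfl fun i _ => by simp [mul_comm]
  have hLinj : ∀ x, L x = 0 → x = 0 := by
    intro x hx
    have : ⟪x, x⟫_ℝ = 0 := by
      rw [← hLip, hx]; simp [gip]
    exact inner_self_eq_zero.mp this
  have hLI : ∀ x y : EuclideanSpace ℝ (Fin d), LinearIndependent ℝ ![x, y] →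
      LinearIndependent ℝ ![L x, L y] := by
    intro x y h
    rw [LinearIndependent.pair_iff] at h ⊢
    intro s t hst
    apply h
    apply hLinj
    rw [map_add, map_smul, map_smul]; exact hst
  have hC := cf_curvForm R h12 h34 hB
  have hF := hC.comp L
  -- the set of sectional curvatures
  set S : Set ℝ := {s | ∃ u v : Fin d → ℝ, LinearIndependent ℝ ![u, v] ∧
    s = cf R u v v u / (gip G u u * gip G v v - gip G u v ^ 2)} with hS
  have hSne : S.Nonempty := by
    refine ⟨_, (Pi.single ⟨0, by omega⟩ 1 : Fin d → ℝ), Pi.single ⟨1, by omega⟩ 1, ?_, rfl⟩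
    rw [LinearIndependent.pair_iff]
    intro s t hst
    constructor
    · have := congrFun hst ⟨0, by omega⟩
      simpa [Pi.single_apply] using this
    · have := congrFun hst ⟨1, by omega⟩
      simpa [Pi.single_apply] using this
  have hSbdd : BddBelow S := by
    refine ⟨0, ?_⟩
    rintro s ⟨u, v, h, rfl⟩
    exact (hpos u v h).le
  set lo := sInf S with hlo
  have hlo_le : ∀ s ∈ S, lo ≤ s := fun s hs => csInf_le hSbdd hs
  have hle_lo : ∀ s ∈ S, δ * s ≤ lo := by
    rintro s ⟨u', v', h', rfl⟩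
    refine le_csInf hSne ?_
    rintro t ⟨u, v, h, rfl⟩
    exact hpin u v u' v' h h'
  have hlopos : 0 < lo := by
    obtain ⟨s, hs⟩ := hSne
    have h1 := hle_lo s hs
    obtain ⟨u, v, h, rfl⟩ := hs
    exact lt_of_lt_of_le (mul_pos hδ0 (hpos u v h)) h1
  set hi := lo / δ with hhi
  have hδhi : δ * hi = lo := by rw [hhi]; field_simp
  have hlohi : lo ≤ hi := by
    rw [hhi, le_div_iff₀ hδ0]
    nlinarith
  have b1 : ∀ x y : EuclideanSpace ℝ (Fin d),
      lo * (⟪x, x⟫_ℝ * ⟪y, y⟫_ℝ - ⟪x, y⟫_ℝ ^ 2) ≤ cf R (L x) (L y) (L y) (L x) := by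
    intro x y
    by_cases h : LinearIndependent ℝ ![x, y]
    · have hg := gram_pos h
      have := hlo_le _ ⟨L x, L y, hLI x y h, rfl⟩
      rw [hLip, hLip, hLip, le_div_iff₀ hg] at this
      exact this
    · obtain ⟨h1, h2⟩ := dep_case hF h
      rw [h2, mul_zero]
      exact h1.symm.le
  have b2 : ∀ x y : EuclideanSpace ℝ (Fin d),
      cf R (L x) (L y) (L y) (L x) ≤ hi * (⟪x, x⟫_ℝ * ⟪y, y⟫_ℝ - ⟪x, y⟫_ℝ ^ 2) := by
    intro x y
    by_cases h : LinearIndependent ℝ ![x, y]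
    · have hg := gram_pos h
      have := hle_lo _ ⟨L x, L y, hLI x y h, rfl⟩
      rw [hLip, hLip, hLip] at this
      have h2 : cf R (L x) (L y) (L y) (L x) / (⟪x, x⟫_ℝ * ⟪y, y⟫_ℝ - ⟪x, y⟫_ℝ ^ 2) ≤ hi := by
        rw [hhi, le_div_iff₀ hδ0]; linarith
      rw [div_le_iff₀ hg] at h2
      exact h2
    · obtain ⟨h1, h2⟩ := dep_case hF h
      rw [h2, mul_zero]
      exact h1.le
  -- normal form
  set Om : Matrix (Fin d) (Fin d) ℝ := P⁻¹ * om * (P⁻¹)ᵀ with hOm
  have hOmskew : ∀ i j, Om i j = - Om j i := by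
    have : Omᵀ = - Om := by
      rw [hOm, Matrix.transpose_mul, Matrix.transpose_mul, Matrix.transpose_transpose, hom]
      simp [Matrix.mul_assoc]
    intro i j
    have h2 := congrFun (congrFun this j) i
    simpa using h2
  obtain ⟨ι, hι, u, v, l, ho, hrep⟩ := skew_matrix_normal Om hOmskew
  have hom2 : om = P * Om * Pᵀ := by
    rw [hOm]
    have e1 : P * (P⁻¹ * om * (P⁻¹)ᵀ) * Pᵀ = (P * P⁻¹) * om * ((P⁻¹)ᵀ * Pᵀ) := by
      simp only [Matrix.mul_assoc]
    rw [e1, ← Matrix.transpose_mul, Matrix.mul_nonsing_inv P hPdet]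
    simp
  have hOm3 : Om = ∑ a, l a • (Matrix.vecMulVec (u a) (v a) - Matrix.vecMulVec (v a) (u a)) := by
    ext i j
    rw [hrep, Matrix.sum_apply]
    refine Finset.sum_congr rfl fun a _ => ?_
    simp [Matrix.vecMulVec_apply]
  have hvv : ∀ x y : EuclideanSpace ℝ (Fin d), P * Matrix.vecMulVec x y * Pᵀ =
      Matrix.vecMulVec (L x) (L y) := by
    intro x y
    rw [hLx, hLx, Matrix.mul_vecMulVec, Matrix.vecMulVec_mul, Matrix.vecMul_transpose]
  have hom3 : om = ∑ a, l a • (Matrix.vecMulVec (L (u a)) (L (v a))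
      - Matrix.vecMulVec (L (v a)) (L (u a))) := by
    rw [hom2, hOm3, Finset.mul_sum, Finset.sum_mul]
    refine Finset.sum_congr rfl fun a _ => ?_
    rw [Matrix.mul_smul, Matrix.smul_mul, Matrix.mul_sub, Matrix.sub_mul, hvv, hvv]
  have hPhi : Phi R om om = 4 * ∑ a, ∑ b, l a * l b * cf R (L (u a)) (L (v a)) (L (v b)) (L (u b)) := by
    have hM : ∀ p q p' q' : Fin d → ℝ,
        Phi R (Matrix.vecMulVec p q - Matrix.vecMulVec q p)
          (Matrix.vecMulVec p' q' - Matrix.vecMulVec q' p') = 4 * cf R p q q' p' := by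
      intro p q p' q'
      simp only [map_sub, LinearMap.sub_apply, Phi_vec]
      have e1 := hC.anti12 q p q' p'
      have e2 := hC.anti34 p q p' q'
      have e3 := hC.anti12 q p p' q'
      linarith
    conv_lhs => rw [hom3]
    rw [map_sum]
    rw [show (4 * ∑ a, ∑ b, l a * l b * cf R (L (u a)) (L (v a)) (L (v b)) (L (u b))) =
        ∑ b, ∑ a, 4 * (l a * l b * cf R (L (u a)) (L (v a)) (L (v b)) (L (u b))) from by
          rw [Finset.sum_comm, Finset.mul_sum]
          exact Finset.sum_congr rfl fun b _ => by rw [Finset.mul_sum]]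
    refine Finset.sum_congr rfl fun b _ => ?_
    rw [map_smul, map_sum, LinearMap.sum_apply, Finset.smul_sum]
    refine Finset.sum_congr rfl fun a _ => ?_
    rw [map_smul, LinearMap.smul_apply, hM]
    simp only [smul_eq_mul]
    ring
  have hlow := sum_lower hF hlohi b1 b2 (lam := l) ho
  have hlne : 0 < ∑ a, l a ^ 2 := by
    have hnn : 0 ≤ ∑ a, l a ^ 2 := Finset.sum_nonneg fun a _ => sq_nonneg _
    rcases lt_or_eq_of_le hnn with h | h
    · exact h
    · exfalso
      apply hne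
      have h0 := (Finset.sum_eq_zero_iff_of_nonneg (fun a _ => sq_nonneg (l a))).mp h.symm
      rw [hom3]
      refine Finset.sum_eq_zero fun a ha => ?_
      have : l a = 0 := by simpa using h0 a ha
      rw [this, zero_smul]
  have hcard : Fintype.card ι ≤ d / 2 := by
    have := two_card_le ho
    rw [finrank_euclideanSpace, Fintype.card_fin] at this
    omega
  have hcardR : (Fintype.card ι : ℝ) ≤ ((d / 2 : ℕ) : ℝ) := by exact_mod_cast hcard
  set m : ℝ := ((d / 2 : ℕ) : ℝ) with hm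
  have hm0 : 0 ≤ m := by positivity
  have hδ2 : 2 * m - 2 < δ * (2 * m + 1) := by
    rw [div_lt_iff₀ (by positivity)] at hδ; exact hδ
  have hcoef : 0 < lo - 2 / 3 * (hi - lo) * ((Fintype.card ι : ℝ) - 1) := by
    have h1 : 0 < 3 * δ * (lo - 2 / 3 * (hi - lo) * ((Fintype.card ι : ℝ) - 1)) := by
      have h2 : 3 * δ * (lo - 2 / 3 * (hi - lo) * ((Fintype.card ι : ℝ) - 1)) =
          lo * (3 * δ - 2 * (1 - δ) * ((Fintype.card ι : ℝ) - 1)) := by
        have : δ * (hi - lo) = lo * (1 - δ) := by rw [mul_sub, hδhi]; ring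
        linear_combination (-2 * ((Fintype.card ι : ℝ) - 1)) * this
      rw [h2]
      apply mul_pos hlopos
      nlinarith
    exact (mul_pos_iff_of_pos_left (by positivity)).mp h1
  rw [hPhi]
  have := mul_pos hcoef hlne
  linarith

end Pool.Agent.Helper436.Pinch
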