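import Mathlib

set_option autoImplicit false

open scoped Manifold ContDiff InnerProductSpace
open Bundle

namespace Pool.Agent.Helper436.Pinch

/-- The model space `ℝ^d`. -/
abbrev E (d : ℕ) := EuclideanSpace ℝ (Fin d)

/-- The coordinate derivative `∂_i f` at `x`. -/
noncomputable def pd {d : ℕ} (i : Fin d) (f : E d → ℝ) (x : E d) : ℝ :=
  fderiv ℝ f x (EuclideanSpace.single i 1)

/-- Christoffel symbols `Γ^k_{ij}` of the metric with coefficient matrix `g`. -/
noncomputable def christoffel {d : ℕ} (g : E d → Matrix (Fin d) (Fin d) ℝ)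
    (k i j : Fin d) (x : E d) : ℝ :=
  (1 / 2) * ∑ l, (g x)⁻¹ k l *
    (pd i (fun y => g y j l) x + pd j (fun y => g y i l) x - pd l (fun y => g y i j) x)

/-- `R^m_{ijk}`, where `R(∂_i, ∂_j) ∂_k = ∑_m R^m_{ijk} ∂_m`. -/
noncomputable def riemannUp {d : ℕ} (g : E d → Matrix (Fin d) (Fin d) ℝ)
    (i j k m : Fin d) (x : E d) : ℝ :=
  pd i (christoffel g m j k) x - pd j (christoffel g m i k) x
    + ∑ a, (christoffel g m i a x * christoffel g a j k x
        - christoffel g m j a x * christoffel g a i k x)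

/-- `R_{ijkl} = ⟨R(∂_i, ∂_j) ∂_k, ∂_l⟩`. -/
noncomputable def riemann {d : ℕ} (g : E d → Matrix (Fin d) (Fin d) ℝ)
    (i j k l : Fin d) (x : E d) : ℝ :=
  ∑ m, g x l m * riemannUp g i j k m x

/-- `⟨R(u, v) w, z⟩` for tangent vectors given by their coordinates. -/
noncomputable def curv {d : ℕ} (g : E d → Matrix (Fin d) (Fin d) ℝ) (x : E d)
    (u v w z : Fin d → ℝ) : ℝ :=
  ∑ i, ∑ j, ∑ k, ∑ l, riemann g i j k l x * u i * v j * w k * z l

/-- The inner product `g(u, v)` of tangent vectors given by their coordinates. -/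
noncomputable def ip {d : ℕ} (g : E d → Matrix (Fin d) (Fin d) ℝ) (x : E d)
    (u v : Fin d → ℝ) : ℝ :=
  ∑ i, ∑ j, g x i j * u i * v j

/-- The sectional curvature of the plane spanned by `u, v`. -/
noncomputable def sec {d : ℕ} (g : E d → Matrix (Fin d) (Fin d) ℝ) (x : E d)
    (u v : Fin d → ℝ) : ℝ :=
  curv g x u v v u / (ip g x u u * ip g x v v - ip g x u v ^ 2)

/-- `R*(om, om)` for the 2-vector `om = ∑_{i<j} om_{ij} ∂_i ∧ ∂_j` given by the skew matrix `om`. -/
noncomputable def curvOp {d : ℕ} (g : E d → Matrix (Fin d) (Fin d) ℝ) (x : E d)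
    (om : Matrix (Fin d) (Fin d) ℝ) : ℝ :=
  (1 / 4) * ∑ i, ∑ j, ∑ k, ∑ l, riemann g i j k l x * om i j * om l k

/-- The coefficients `g_{ij}` at the point `y` of the preferred chart at `p`:
inner products of the coordinate vectors `∂_i, ∂_j`. -/
noncomputable def chartMetric {d : ℕ} {M : Type} [TopologicalSpace M] [ChartedSpace (E d) M]
    [RiemannianBundle (fun x : M => TangentSpace 𝓘(ℝ, E d) x)]
    (p : M) (y : E d) : Matrix (Fin d) (Fin d) ℝ :=
  Matrix.of fun i j =>
    ⟪mfderiv 𝓘(ℝ, E d) 𝓘(ℝ, E d) (chartAt (E d) p).symm y (EuclideanSpace.single i (1 : ℝ)),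
      mfderiv 𝓘(ℝ, E d) 𝓘(ℝ, E d) (chartAt (E d) p).symm y (EuclideanSpace.single j (1 : ℝ))⟫_ℝ

/-- `M` is pointwise `δ`-pinched. -/
def PointwisePinched (d : ℕ) (M : Type) [TopologicalSpace M] [ChartedSpace (E d) M]
    [RiemannianBundle (fun x : M => TangentSpace 𝓘(ℝ, E d) x)] (δ : ℝ) : Prop :=
  ∀ p : M,
    (∀ u v : Fin d → ℝ, LinearIndependent ℝ ![u, v] →
      0 < sec (chartMetric p) (chartAt (E d) p p) u v) ∧
    (∀ u v u' v' : Fin d → ℝ, LinearIndependent ℝ ![u, v] → LinearIndependent ℝ ![u', v'] →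
      δ * sec (chartMetric p) (chartAt (E d) p p) u' v' ≤
        sec (chartMetric p) (chartAt (E d) p p) u v)

/-- The curvature operator of `M` is positive at every point. -/
def PositiveCurvatureOperator (d : ℕ) (M : Type) [TopologicalSpace M] [ChartedSpace (E d) M]
    [RiemannianBundle (fun x : M => TangentSpace 𝓘(ℝ, E d) x)] : Prop :=
  ∀ (p : M) (om : Matrix (Fin d) (Fin d) ℝ), om.transpose = -om → om ≠ 0 →
    0 < curvOp (chartMetric p) (chartAt (E d) p p) om

/-- The pinching constants `δ ∈ (0, 1]` that force a positive curvature operator. -/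
def pinchingSet (d : ℕ) : Set ℝ :=
  {δ | 0 < δ ∧ δ ≤ 1 ∧ ∀ (M : Type) [TopologicalSpace M] [T2Space M]
    [SecondCountableTopology M] [ChartedSpace (E d) M] [IsManifold 𝓘(ℝ, E d) ∞ M]
    [RiemannianBundle (fun x : M => TangentSpace 𝓘(ℝ, E d) x)]
    [IsContMDiffRiemannianBundle 𝓘(ℝ, E d) ∞ (E d) (fun x : M => TangentSpace 𝓘(ℝ, E d) x)],
    PointwisePinched d M δ → PositiveCurvatureOperator d M}

end Pool.Agent.Helper436.Pinch
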