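import Mathlib
import Pool.Agent.Helper436.PinchDefs

set_option autoImplicit false

namespace Pool.Agent.Helper436.Pinch

open scoped BigOperators Topology ContDiff
open Filter

variable {d : ℕ}

lemma pd_contDiffAt {f : E d → ℝ} {x : E d} (hf : ContDiffAt ℝ ∞ f x) (i : Fin d) :
    ContDiffAt ℝ ∞ (pd i f) x := by
  have h1 : ContDiffAt ℝ ∞ (fderiv ℝ f) x := hf.fderiv_right (by simp)
  exact h1.clm_apply contDiffAt_const

lemma pd_congr {f g : E d → ℝ} {x : E d} (h : f =ᶠ[𝓝 x] g) (i : Fin d) :
    pd i f x = pd i g x := by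
  unfold pd; rw [h.fderiv_eq]

lemma pd_congr_ev {f g : E d → ℝ} {x : E d} (h : f =ᶠ[𝓝 x] g) (i : Fin d) :
    pd i f =ᶠ[𝓝 x] pd i g := by
  have := h.eventuallyEq_nhds
  filter_upwards [this] with y hy
  exact pd_congr hy i

lemma pd_comm {f : E d → ℝ} {x : E d} (hf : ContDiffAt ℝ ∞ f x) (i j : Fin d) :
    pd i (pd j f) x = pd j (pd i f) x := by
  have h1 : ContDiffAt ℝ ∞ (fderiv ℝ f) x := hf.fderiv_right (by simp)
  have h2 : DifferentiableAt ℝ (fderiv ℝ f) x := h1.differentiableAt (by simp)
  have h3 := hf.isSymmSndFDerivAt (by simp; exact ENat.LEInfty.out)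
  have key : ∀ i j : Fin d, pd i (pd j f) x =
      fderiv ℝ (fderiv ℝ f) x (EuclideanSpace.single i 1) (EuclideanSpace.single j 1) := by
    intro i j
    unfold pd
    rw [fderiv_clm_apply h2 (differentiableAt_const _)]
    simp
  rw [key, key]
  exact h3 _ _

lemma pd_add {f g : E d → ℝ} {x : E d} (hf : DifferentiableAt ℝ f x) (hg : DifferentiableAt ℝ g x)
    (i : Fin d) : pd i (fun y => f y + g y) x = pd i f x + pd i g x := by
  unfold pd; rw [fderiv_fun_add hf hg]; rfl

lemma pd_sub {f g : E d → ℝ} {x : E d} (hf : DifferentiableAt ℝ f x) (hg : DifferentiableAt ℝ g x)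
    (i : Fin d) : pd i (fun y => f y - g y) x = pd i f x - pd i g x := by
  unfold pd; rw [fderiv_fun_sub hf hg]; rfl

lemma pd_mul {f g : E d → ℝ} {x : E d} (hf : DifferentiableAt ℝ f x) (hg : DifferentiableAt ℝ g x)
    (i : Fin d) : pd i (fun y => f y * g y) x = f x * pd i g x + g x * pd i f x := by
  unfold pd; rw [fderiv_fun_mul hf hg]; simp

lemma pd_const_mul {f : E d → ℝ} {x : E d} (hf : DifferentiableAt ℝ f x) (c : ℝ)
    (i : Fin d) : pd i (fun y => c * f y) x = c * pd i f x := by
  unfold pd; rw [fderiv_const_mul hf]; simp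

lemma pd_sum {ι : Type*} (s : Finset ι) {f : ι → E d → ℝ} {x : E d}
    (hf : ∀ a ∈ s, DifferentiableAt ℝ (f a) x)
    (i : Fin d) : pd i (fun y => ∑ a ∈ s, f a y) x = ∑ a ∈ s, pd i (f a) x := by
  unfold pd; rw [fderiv_fun_sum hf]; simp

lemma det_contDiffAt {n : ℕ} {A : E d → Matrix (Fin n) (Fin n) ℝ} {x : E d}
    (h : ∀ i j, ContDiffAt ℝ ∞ (fun y => A y i j) x) : ContDiffAt ℝ ∞ (fun y => (A y).det) x := by
  simp only [Matrix.det_apply]
  refine ContDiffAt.sum fun σ _ => ?_
  refine ContDiffAt.const_smul _ ?_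
  exact contDiffAt_prod fun i _ => h _ _

lemma adjugate_contDiffAt {n : ℕ} {A : E d → Matrix (Fin n) (Fin n) ℝ} {x : E d}
    (h : ∀ i j, ContDiffAt ℝ ∞ (fun y => A y i j) x) (k l : Fin n) :
    ContDiffAt ℝ ∞ (fun y => (A y).adjugate k l) x := by
  simp only [Matrix.adjugate_apply]
  refine det_contDiffAt fun i j => ?_
  by_cases hi : i = l
  · subst hi
    simp only [Matrix.updateRow_self]
    exact contDiffAt_const
  · simp only [Matrix.updateRow_ne hi]
    exact h i j

lemma inv_contDiffAt {n : ℕ} {A : E d → Matrix (Fin n) (Fin n) ℝ} {x : E d}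
    (h : ∀ i j, ContDiffAt ℝ ∞ (fun y => A y i j) x) (hdet : (A x).det ≠ 0) (k l : Fin n) :
    ContDiffAt ℝ ∞ (fun y => (A y)⁻¹ k l) x := by
  have : (fun y => (A y)⁻¹ k l) = fun y => ((A y).det)⁻¹ * (A y).adjugate k l := by
    funext y
    rw [Matrix.inv_def, Ring.inverse_eq_inv']
    rfl
  rw [this]
  exact ((det_contDiffAt h).inv hdet).mul (adjugate_contDiffAt h k l)

/-- Standing hypotheses: `g` is a smooth symmetric nondegenerate matrix field near `x`. -/
structure GoodAt (g : E d → Matrix (Fin d) (Fin d) ℝ) (x : E d) : Prop where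
  symm : ∀ᶠ y in 𝓝 x, ∀ i j, g y i j = g y j i
  smooth : ∀ i j, ContDiffAt ℝ ∞ (fun y => g y i j) x
  det : (g x).det ≠ 0

/-- Christoffel symbols of the first kind. -/
noncomputable def chr1 (g : E d → Matrix (Fin d) (Fin d) ℝ) (l i j : Fin d) (x : E d) : ℝ :=
  (1 / 2) * (pd i (fun y => g y j l) x + pd j (fun y => g y i l) x - pd l (fun y => g y i j) x)

lemma christoffel_eq (g : E d → Matrix (Fin d) (Fin d) ℝ) (k i j : Fin d) (x : E d) :
    christoffel g k i j x = ∑ l, (g x)⁻¹ k l * chr1 g l i j x := by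
  unfold christoffel chr1
  rw [Finset.mul_sum]
  exact Finset.sum_congr rfl fun l _ => by ring

namespace GoodAt

variable {g : E d → Matrix (Fin d) (Fin d) ℝ} {x : E d}

lemma chr1_contDiffAt (h : GoodAt g x) (l i j : Fin d) : ContDiffAt ℝ ∞ (chr1 g l i j) x := by
  unfold chr1
  exact contDiffAt_const.mul (((pd_contDiffAt (h.smooth _ _) i).add
    (pd_contDiffAt (h.smooth _ _) j)).sub (pd_contDiffAt (h.smooth _ _) l))

lemma chr_contDiffAt (h : GoodAt g x) (k i j : Fin d) : ContDiffAt ℝ ∞ (christoffel g k i j) x := by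
  have : christoffel g k i j = fun y => ∑ l, (g y)⁻¹ k l * chr1 g l i j y := by
    funext y; exact christoffel_eq g k i j y
  rw [this]
  exact ContDiffAt.sum fun l _ => (inv_contDiffAt h.smooth h.det k l).mul (h.chr1_contDiffAt l i j)

lemma diff (h : GoodAt g x) (i j : Fin d) : DifferentiableAt ℝ (fun y => g y i j) x :=
  (h.smooth i j).differentiableAt (by simp)

lemma chr_diff (h : GoodAt g x) (k i j : Fin d) : DifferentiableAt ℝ (christoffel g k i j) x :=
  (h.chr_contDiffAt k i j).differentiableAt (by simp)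

lemma chr1_diff (h : GoodAt g x) (k i j : Fin d) : DifferentiableAt ℝ (chr1 g k i j) x :=
  (h.chr1_contDiffAt k i j).differentiableAt (by simp)

lemma pd_diff (h : GoodAt g x) (a i j : Fin d) : DifferentiableAt ℝ (pd a (fun y => g y i j)) x :=
  (pd_contDiffAt (h.smooth i j) a).differentiableAt (by simp)

lemma det_ev (h : GoodAt g x) : ∀ᶠ y in 𝓝 x, (g y).det ≠ 0 :=
  (det_contDiffAt h.smooth).continuousAt.eventually_ne h.det

lemma symm_ev (h : GoodAt g x) (i j : Fin d) : (fun y => g y i j) =ᶠ[𝓝 x] fun y => g y j i := by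
  filter_upwards [h.symm] with y hy using hy i j

lemma pd_symm (h : GoodAt g x) (a i j : Fin d) :
    pd a (fun y => g y i j) x = pd a (fun y => g y j i) x := pd_congr (h.symm_ev i j) a

lemma lower (h : GoodAt g x) (l j k : Fin d) :
    (fun y => ∑ m, g y l m * christoffel g m j k y) =ᶠ[𝓝 x] chr1 g l j k := by
  filter_upwards [h.det_ev] with y hy
  simp only [christoffel_eq]
  have h1 : ∀ n, ∑ m, g y l m * (g y)⁻¹ m n = if l = n then 1 else 0 := by
    intro n
    have := congrFun (congrFun (Matrix.mul_nonsing_inv (g y) (isUnit_iff_ne_zero.mpr hy)) l) n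
    rw [Matrix.mul_apply, Matrix.one_apply] at this
    exact this
  simp only [Finset.mul_sum]
  rw [Finset.sum_comm]
  have h2 : ∀ n, ∑ m, g y l m * ((g y)⁻¹ m n * chr1 g n j k y) =
      (if l = n then 1 else 0) * chr1 g n j k y := by
    intro n
    rw [← h1 n, Finset.sum_mul]
    exact Finset.sum_congr rfl fun m _ => by ring
  simp only [h2]
  simp

lemma compat (h : GoodAt g x) (i l m : Fin d) :
    pd i (fun y => g y l m) x = chr1 g l i m x + chr1 g m i l x := by
  unfold chr1
  rw [h.pd_symm i m l]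
  ring

lemma lower_deriv (h : GoodAt g x) (i l j k : Fin d) :
    ∑ m, g x l m * pd i (christoffel g m j k) x =
      pd i (chr1 g l j k) x - ∑ m, pd i (fun y => g y l m) x * christoffel g m j k x := by
  have h1 := pd_congr (h.lower l j k) i
  have hd : ∀ m ∈ (Finset.univ : Finset (Fin d)),
      DifferentiableAt ℝ (fun y => g y l m * christoffel g m j k y) x :=
    fun m _ => (h.diff l m).mul (h.chr_diff m j k)
  rw [pd_sum (f := fun m y => g y l m * christoffel g m j k y) Finset.univ hd] at h1
  have h2 : ∀ m, pd i (fun y => g y l m * christoffel g m j k y) x =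
      g x l m * pd i (christoffel g m j k) x + christoffel g m j k x * pd i (fun y => g y l m) x :=
    fun m => pd_mul (h.diff l m) (h.chr_diff m j k) i
  simp only [h2] at h1
  rw [← h1, Finset.sum_add_distrib, add_sub_assoc]
  rw [show (∑ m, christoffel g m j k x * pd i (fun y => g y l m) x) =
    ∑ m, pd i (fun y => g y l m) x * christoffel g m j k x from
      Finset.sum_congr rfl fun m _ => by ring]
  ring

/-- the quadratic expression in the first kind symbols. -/
noncomputable def _root_.Pool.Agent.Helper436.Pinch.qq (g : E d → Matrix (Fin d) (Fin d) ℝ)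
    (x : E d) (i l j k : Fin d) : ℝ := ∑ m, chr1 g m i l x * christoffel g m j k x

lemma riemann_formula1 (h : GoodAt g x) (i j k l : Fin d) :
    riemann g i j k l x = pd i (chr1 g l j k) x - pd j (chr1 g l i k) x
      - qq g x i l j k + qq g x j l i k := by
  have e1 := h.lower_deriv i l j k
  have e2 := h.lower_deriv j l i k
  have hx : ∀ j k, ∑ m, g x l m * christoffel g m j k x = chr1 g l j k x :=
    fun j k => (h.lower l j k).eq_of_nhds
  have e3 : ∑ m, g x l m * ∑ a, (christoffel g m i a x * christoffel g a j k x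
        - christoffel g m j a x * christoffel g a i k x) =
      ∑ a, (chr1 g l i a x * christoffel g a j k x - chr1 g l j a x * christoffel g a i k x) := by
    simp only [Finset.mul_sum]
    rw [Finset.sum_comm]
    refine Finset.sum_congr rfl fun a _ => ?_
    rw [← hx i a, ← hx j a, Finset.sum_mul, Finset.sum_mul, ← Finset.sum_sub_distrib]
    exact Finset.sum_congr rfl fun m _ => by ring
  unfold riemann riemannUp
  have e4 : ∀ m, g x l m * (pd i (christoffel g m j k) x - pd j (christoffel g m i k) x
    + ∑ a, (christoffel g m i a x * christoffel g a j k x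
        - christoffel g m j a x * christoffel g a i k x)) =
      g x l m * pd i (christoffel g m j k) x - g x l m * pd j (christoffel g m i k) x
      + g x l m * ∑ a, (christoffel g m i a x * christoffel g a j k x
        - christoffel g m j a x * christoffel g a i k x) := by intro m; ring
  rw [Finset.sum_congr rfl fun m _ => e4 m, Finset.sum_add_distrib, Finset.sum_sub_distrib]
  rw [e3, e1, e2]
  unfold qq
  simp only [h.compat, add_mul, Finset.sum_add_distrib, Finset.sum_sub_distrib]
  ring

lemma inv_symm (h : GoodAt g x) (i j : Fin d) : (g x)⁻¹ i j = (g x)⁻¹ j i := by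
  have h1 : (g x).transpose = g x := by
    ext a b
    exact (h.symm.self_of_nhds a b).symm
  have h2 : ((g x)⁻¹).transpose = (g x)⁻¹ := by
    rw [Matrix.transpose_nonsing_inv, h1]
  have := congrFun (congrFun h2 j) i
  rw [Matrix.transpose_apply] at this
  exact this

lemma chr1_symm (h : GoodAt g x) (l i j : Fin d) : chr1 g l i j x = chr1 g l j i x := by
  unfold chr1
  rw [h.pd_symm l i j]; ring

lemma qq_symm1 (h : GoodAt g x) (i l j k : Fin d) : qq g x i l j k = qq g x l i j k := by
  unfold qq
  exact Finset.sum_congr rfl fun m _ => by rw [h.chr1_symm]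

lemma qq_symm3 (h : GoodAt g x) (i l j k : Fin d) : qq g x i l j k = qq g x j k i l := by
  unfold qq
  simp only [christoffel_eq, Finset.mul_sum]
  rw [Finset.sum_comm]
  refine Finset.sum_congr rfl fun m _ => Finset.sum_congr rfl fun n _ => ?_
  rw [h.inv_symm m n]; ring

lemma qq_symm2 (h : GoodAt g x) (i l j k : Fin d) : qq g x i l j k = qq g x i l k j := by
  rw [h.qq_symm3, h.qq_symm1, h.qq_symm3]

lemma pd_chr1 (h : GoodAt g x) (a l i j : Fin d) :
    pd a (chr1 g l i j) x = (1 / 2) * (pd a (pd i (fun y => g y j l)) x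
      + pd a (pd j (fun y => g y i l)) x - pd a (pd l (fun y => g y i j)) x) := by
  have e : chr1 g l i j = fun y => (1 / 2) * (pd i (fun y => g y j l) y +
      pd j (fun y => g y i l) y - pd l (fun y => g y i j) y) := rfl
  have d1 := h.pd_diff i j l
  have d2 := h.pd_diff j i l
  have d3 := h.pd_diff l i j
  have d12 : DifferentiableAt ℝ (fun y => pd i (fun y => g y j l) y + pd j (fun y => g y i l) y) x :=
    d1.add d2
  have d123 : DifferentiableAt ℝ (fun y => pd i (fun y => g y j l) y + pd j (fun y => g y i l) y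
      - pd l (fun y => g y i j) y) x := d12.sub d3
  rw [e, pd_const_mul d123, pd_sub d12 d3, pd_add d1 d2]

/-- The curvature tensor in terms of second derivatives of the metric. -/
lemma riemann_formula (h : GoodAt g x) (i j k l : Fin d) :
    riemann g i j k l x = (1 / 2) * (pd i (pd k (fun y => g y j l)) x
      - pd i (pd l (fun y => g y j k)) x - pd j (pd k (fun y => g y i l)) x
      + pd j (pd l (fun y => g y i k)) x)
      - qq g x i l j k + qq g x j l i k := by
  rw [h.riemann_formula1, h.pd_chr1, h.pd_chr1, pd_comm (h.smooth k l) i j]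
  ring

lemma pd2_symm (h : GoodAt g x) (a b i j : Fin d) :
    pd a (pd b (fun y => g y i j)) x = pd a (pd b (fun y => g y j i)) x :=
  pd_congr (pd_congr_ev (h.symm_ev i j) b) a

lemma riemann_anti12 (h : GoodAt g x) (i j k l : Fin d) :
    riemann g i j k l x = - riemann g j i k l x := by
  rw [h.riemann_formula, h.riemann_formula]; ring

lemma riemann_anti34 (h : GoodAt g x) (i j k l : Fin d) :
    riemann g i j k l x = - riemann g i j l k x := by
  rw [h.riemann_formula, h.riemann_formula]
  rw [h.qq_symm3 i k j l, h.qq_symm3 j k i l]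
  ring

lemma riemann_bianchi (h : GoodAt g x) (i j k l : Fin d) :
    riemann g i j k l x + riemann g j k i l x + riemann g k i j l x = 0 := by
  rw [h.riemann_formula, h.riemann_formula, h.riemann_formula]
  rw [pd_comm (h.smooth j l) k i, pd_comm (h.smooth i l) k j, pd_comm (h.smooth k l) j i]
  rw [h.pd2_symm j l k i, h.pd2_symm k l j i, h.pd2_symm i l k j]
  rw [h.qq_symm2 j l k i, h.qq_symm2 k l j i, h.qq_symm2 i l k j]
  ring

end GoodAt

end Pool.Agent.Helper436.Pinch
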