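import Mathlib
import Pool.Agent.Helper436.PinchDefs
import Pool.Agent.Helper436.PinchCoord

set_option autoImplicit false

namespace Pool.Agent.Helper436.Pinch

open scoped BigOperators Topology ContDiff
open Filter

/-- combinatorial data of a complex structure on a `2m`-dimensional coordinate subspace -/
lemma exists_sigma (d : ℕ) : ∃ (σ : Fin d → Fin d) (s : Fin d → ℝ),
    (∀ i, σ (σ i) = i) ∧ (∀ i, s (σ i) = - s i) ∧ (∀ i, s i ^ 2 = 0 ∨ s i ^ 2 = 1) ∧
      ∑ i, s i ^ 2 = 2 * ((d / 2 : ℕ) : ℝ) := by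
  classical
  have hcard : Fintype.card (Fin d) = Fintype.card ((Fin (d / 2) × Bool) ⊕ Fin (d - 2 * (d / 2))) := by
    simp
    omega
  let e := Fintype.equivOfCardEq hcard
  let σ0 : (Fin (d / 2) × Bool) ⊕ Fin (d - 2 * (d / 2)) → (Fin (d / 2) × Bool) ⊕ Fin (d - 2 * (d / 2)) :=
    fun z => Sum.elim (fun p => Sum.inl (p.1, !p.2)) Sum.inr z
  let s0 : (Fin (d / 2) × Bool) ⊕ Fin (d - 2 * (d / 2)) → ℝ :=
    fun z => Sum.elim (fun p => if p.2 then 1 else -1) (fun _ => 0) z
  refine ⟨fun i => e.symm (σ0 (e i)), fun i => s0 (e i), ?_, ?_, ?_, ?_⟩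
  · intro i
    simp only [Equiv.apply_symm_apply]
    rw [Equiv.symm_apply_eq]
    rcases e i with p | r <;> simp [σ0]
  · intro i
    simp only [Equiv.apply_symm_apply]
    rcases e i with ⟨a, b⟩ | r
    · cases b <;> simp [σ0, s0]
    · simp [σ0, s0]
  · intro i
    show s0 (e i) ^ 2 = 0 ∨ s0 (e i) ^ 2 = 1
    generalize e i = z
    rcases z with ⟨a, b⟩ | r
    · right; cases b <;> simp [s0]
    · left; simp [s0]
  · rw [Equiv.sum_comp e (fun z => s0 z ^ 2), Fintype.sum_sum_type]
    have : ∀ p : Fin (d / 2) × Bool, s0 (Sum.inl p) ^ 2 = 1 := by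
      rintro ⟨a, b⟩; cases b <;> simp [s0]
    simp only [this]
    simp [s0]
    ring

/-- A skew matrix of norm at most one and with `J² = -Q`. -/
structure JData (d : ℕ) (J Q : Matrix (Fin d) (Fin d) ℝ) : Prop where
  skew : ∀ i j, J i j = - J j i
  colcol : ∀ a b, ∑ i, J i a * J i b = Q a b
  rowrow : ∀ a b, ∑ k, J a k * J b k = Q a b
  rowcol : ∀ a b, ∑ l, J a l * J l b = - Q a b
  qq : ∑ a, ∑ b, Q a b * Q a b = 2 * ((d / 2 : ℕ) : ℝ)
  jj : ∑ a, ∑ b, J a b * J a b = 2 * ((d / 2 : ℕ) : ℝ)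
  le : ∀ v : Fin d → ℝ, ∑ a, ∑ b, Q a b * v a * v b ≤ ∑ a, v a * v a

lemma exists_J (d : ℕ) : ∃ J Q : Matrix (Fin d) (Fin d) ℝ, JData d J Q := by
  classical
  obtain ⟨σ, s, hσ, hs, hs01, hsum⟩ := exists_sigma d
  have hs4 : ∀ i, s i ^ 2 * s i ^ 2 = s i ^ 2 := by
    intro i; rcases hs01 i with h | h <;> rw [h] <;> norm_num
  let J : Matrix (Fin d) (Fin d) ℝ := fun i j => if j = σ i then s i else 0
  let Q : Matrix (Fin d) (Fin d) ℝ := fun i j => if i = j then s i ^ 2 else 0
  have hskew : ∀ i j, J i j = - J j i := by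
    intro i j
    simp only [J]
    by_cases h : j = σ i
    · have h2 : i = σ j := by rw [h, hσ]
      rw [if_pos h, if_pos h2, h, hs]; ring
    · have h2 : ¬ i = σ j := by intro h3; apply h; rw [h3, hσ]
      rw [if_neg h, if_neg h2]; ring
  have hrr : ∀ a b, ∑ k, J a k * J b k = Q a b := by
    intro a b
    simp only [J, Q, ite_mul, zero_mul, Finset.sum_ite_eq', Finset.mem_univ, if_true]
    by_cases h : a = b
    · subst h; simp; ring
    · rw [if_neg h, if_neg, mul_zero]
      intro h2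
      apply h
      have := congrArg σ h2
      rwa [hσ, hσ] at this
  have hrc : ∀ a b, ∑ l, J a l * J l b = - Q a b := by
    intro a b
    rw [← hrr a b, ← Finset.sum_neg_distrib]
    exact Finset.sum_congr rfl fun l _ => by rw [hskew l b]; ring
  have hcc : ∀ a b, ∑ i, J i a * J i b = Q a b := by
    intro a b
    rw [← hrr a b]
    exact Finset.sum_congr rfl fun l _ => by rw [hskew l a, hskew l b]; ring
  refine ⟨J, Q, hskew, hcc, hrr, hrc, ?_, ?_, ?_⟩
  · rw [← hsum]
    refine Finset.sum_congr rfl fun a _ => ?_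
    simp only [Q, ite_mul, zero_mul]
    rw [Finset.sum_ite_eq]
    simp only [Finset.mem_univ, if_true]
    exact hs4 a
  · rw [← hsum]
    refine Finset.sum_congr rfl fun a _ => ?_
    rw [hrr]; simp [Q]
  · intro v
    refine Finset.sum_le_sum fun a _ => ?_
    simp only [Q, ite_mul, zero_mul]
    rw [Finset.sum_ite_eq]
    simp only [Finset.mem_univ, if_true]
    rcases hs01 a with h | h
    · rw [h]; nlinarith [mul_self_nonneg (v a)]
    · rw [h]; linarith

/-- the example metric -/
noncomputable def exG {d : ℕ} (J : Matrix (Fin d) (Fin d) ℝ) (c : ℝ) (x : E d) :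
    Matrix (Fin d) (Fin d) ℝ :=
  fun i j => (if i = j then 1 else 0) * (1 - c / 3 * ∑ a, x a * x a) + c / 3 * (x i * x j)
    + (∑ a, J i a * x a) * (∑ a, J j a * x a)

variable {d : ℕ}

lemma coord_contDiff (i : Fin d) : ContDiff ℝ ∞ (fun x : E d => x i) := by
  fun_prop

lemma exG_contDiff (J : Matrix (Fin d) (Fin d) ℝ) (c : ℝ) (i j : Fin d) :
    ContDiff ℝ ∞ (fun x => exG J c x i j) := by
  unfold exG
  fun_prop

lemma exG_symm (J : Matrix (Fin d) (Fin d) ℝ) (c : ℝ) (x : E d) (i j : Fin d) :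
    exG J c x i j = exG J c x j i := by
  unfold exG
  by_cases h : i = j
  · subst h; rfl
  · rw [if_neg h, if_neg (fun h2 => h h2.symm)]; ring

lemma exG_zero (J : Matrix (Fin d) (Fin d) ℝ) (c : ℝ) : exG J c 0 = 1 := by
  ext i j
  simp [exG, Matrix.one_apply]

lemma pd_coord (k i : Fin d) (x : E d) : pd k (fun y : E d => y i) x = if i = k then 1 else 0 := by
  unfold pd
  have : (fun y : E d => y i) = (EuclideanSpace.proj i : E d →L[ℝ] ℝ) := by
    ext y; rfl
  rw [this, ContinuousLinearMap.fderiv]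
  simp

/-- Kronecker delta -/
def kd {d : ℕ} (i j : Fin d) : ℝ := if i = j then 1 else 0

lemma kd_symm (i j : Fin d) : kd i j = kd j i := by
  unfold kd
  by_cases h : i = j
  · subst h; rfl
  · rw [if_neg h, if_neg (fun h2 => h h2.symm)]

lemma sum_kd (f : Fin d → ℝ) (k : Fin d) : ∑ a, f a * kd a k = f k := by
  unfold kd; simp

lemma pd_const (c : ℝ) (k : Fin d) (x : E d) : pd k (fun _ : E d => c) x = 0 := by
  unfold pd; simp

lemma pd_sq (k : Fin d) (x : E d) : pd k (fun y : E d => ∑ a, y a * y a) x = 2 * x k := by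
  rw [pd_sum (f := fun a (y : E d) => y a * y a) Finset.univ (fun a _ => by fun_prop)]
  have : ∀ a, pd k (fun y : E d => y a * y a) x = (2 * x a) * kd a k := by
    intro a
    rw [pd_mul (by fun_prop) (by fun_prop), pd_coord]
    unfold kd; ring
  simp only [this]
  exact sum_kd (fun a => 2 * x a) k

lemma pd_lin (v : Fin d → ℝ) (k : Fin d) (x : E d) : pd k (fun y : E d => ∑ a, v a * y a) x = v k := by
  rw [pd_sum (f := fun a (y : E d) => v a * y a) Finset.univ (fun a _ => by fun_prop)]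
  have : ∀ a, pd k (fun y : E d => v a * y a) x = v a * kd a k := by
    intro a
    rw [pd_const_mul (by fun_prop), pd_coord]
    rfl
  simp only [this]
  exact sum_kd v k

lemma exG_pd (J : Matrix (Fin d) (Fin d) ℝ) (c : ℝ) (k i j : Fin d) :
    pd k (fun y => exG J c y i j) = fun x => - (2 * c / 3) * kd i j * x k
      + c / 3 * (x i * kd j k + x j * kd i k)
      + (∑ a, J i a * x a) * J j k + (∑ a, J j a * x a) * J i k := by
  funext x
  have e : (fun y => exG J c y i j) = fun y : E d =>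
      (kd i j * (1 - c / 3 * ∑ a, y a * y a) + c / 3 * (y i * y j))
        + (∑ a, J i a * y a) * (∑ a, J j a * y a) := rfl
  have d0 : DifferentiableAt ℝ (fun y : E d => ∑ a, y a * y a) x := by fun_prop
  have d1 : DifferentiableAt ℝ (fun y : E d => 1 - c / 3 * ∑ a, y a * y a) x := by fun_prop
  have d2 : DifferentiableAt ℝ (fun y : E d => kd i j * (1 - c / 3 * ∑ a, y a * y a)) x := by fun_prop
  have d3 : DifferentiableAt ℝ (fun y : E d => y i * y j) x := by fun_prop
  have d4 : DifferentiableAt ℝ (fun y : E d => c / 3 * (y i * y j)) x := by fun_prop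
  have d5 : ∀ i, DifferentiableAt ℝ (fun y : E d => ∑ a, J i a * y a) x := by intro i; fun_prop
  have d6 : DifferentiableAt ℝ (fun y : E d => (∑ a, J i a * y a) * (∑ a, J j a * y a)) x := by
    fun_prop
  have d7 : DifferentiableAt ℝ (fun y : E d =>
    (kd i j * (1 - c / 3 * ∑ a, y a * y a) + c / 3 * (y i * y j))) x := by fun_prop
  rw [e, pd_add d7 d6, pd_add d2 d4, pd_const_mul d1, pd_const_mul d3,
    pd_sub (differentiableAt_const _) (d0.const_mul _), pd_const, pd_const_mul d0, pd_sq,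
    pd_mul (by fun_prop) (by fun_prop), pd_mul (d5 i) (d5 j), pd_lin, pd_lin, pd_coord, pd_coord]
  unfold kd
  ring

lemma exG_pd2 (J : Matrix (Fin d) (Fin d) ℝ) (c : ℝ) (l k i j : Fin d) (x : E d) :
    pd l (pd k (fun y => exG J c y i j)) x = - (2 * c / 3) * kd i j * kd k l
      + c / 3 * (kd i l * kd j k + kd j l * kd i k) + J i l * J j k + J j l * J i k := by
  rw [exG_pd]
  have d1 : DifferentiableAt ℝ (fun x : E d => - (2 * c / 3) * kd i j * x k) x := by fun_prop
  have d2 : DifferentiableAt ℝ (fun x : E d => x i * kd j k + x j * kd i k) x := by fun_prop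
  have d2' : DifferentiableAt ℝ (fun x : E d => c / 3 * (x i * kd j k + x j * kd i k)) x := by
    fun_prop
  have d3 : ∀ i, DifferentiableAt ℝ (fun y : E d => ∑ a, J i a * y a) x := by intro i; fun_prop
  have d4 : ∀ i j, DifferentiableAt ℝ (fun y : E d => (∑ a, J i a * y a) * J j k) x := by
    intro i j; fun_prop
  have d5 : DifferentiableAt ℝ (fun x : E d => - (2 * c / 3) * kd i j * x k
      + c / 3 * (x i * kd j k + x j * kd i k)) x := by fun_prop
  have d6 : DifferentiableAt ℝ (fun x : E d => - (2 * c / 3) * kd i j * x k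
      + c / 3 * (x i * kd j k + x j * kd i k) + (∑ a, J i a * x a) * J j k) x := by fun_prop
  rw [pd_add d6 (d4 j i), pd_add d5 (d4 i j), pd_add d1 d2', pd_const_mul (by fun_prop),
    pd_const_mul d2, pd_add (by fun_prop) (by fun_prop), pd_mul (by fun_prop) (by fun_prop),
    pd_mul (by fun_prop) (by fun_prop), pd_mul (d3 i) (by fun_prop), pd_mul (d3 j) (by fun_prop),
    pd_lin, pd_lin, pd_coord, pd_coord, pd_coord, pd_const, pd_const, pd_const, pd_const]
  unfold kd
  ring

lemma exG_good (J : Matrix (Fin d) (Fin d) ℝ) (c : ℝ) : GoodAt (exG J c) (0 : E d) where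
  symm := Filter.Eventually.of_forall fun y i j => exG_symm J c y i j
  smooth := fun i j => (exG_contDiff J c i j).contDiffAt
  det := by rw [exG_zero]; simp

/-- the curvature tensor of the example at the origin -/
lemma exG_riemann (J : Matrix (Fin d) (Fin d) ℝ) (hJ : ∀ i j, J i j = - J j i) (c : ℝ)
    (i j k l : Fin d) :
    riemann (exG J c) i j k l (0 : E d) = c * (kd j k * kd i l - kd j l * kd i k)
      + 2 * J i j * J k l + J i k * J j l - J i l * J j k := by
  rw [(exG_good J c).riemann_formula]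
  have hq : ∀ i l j k, qq (exG J c) (0 : E d) i l j k = 0 := by
    intro i l j k
    unfold qq chr1
    refine Finset.sum_eq_zero fun m _ => ?_
    rw [exG_pd, exG_pd, exG_pd]
    simp
  rw [hq, hq, exG_pd2, exG_pd2, exG_pd2, exG_pd2]
  rw [kd_symm j i, kd_symm l k, kd_symm l i, kd_symm k i, kd_symm l j, kd_symm k j,
    hJ j i, hJ l k, hJ l i, hJ k i, hJ l j, hJ k j]
  ring

end Pool.Agent.Helper436.Pinch
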