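import Mathlib
import Pool.Agent.Helper436.PinchDefs
import Pool.Agent.Helper436.PinchCoord
import Pool.Agent.Helper436.PinchExample
import Pool.Agent.Helper436.PinchAlgMain

set_option autoImplicit false

namespace Pool.Agent.Helper436.Pinch

open scoped BigOperators Topology ContDiff InnerProductSpace
open Filter

variable {d : ℕ}

lemma quad_sum1 (A B : Fin d → Fin d → ℝ) :
    ∑ i, ∑ j, ∑ k, ∑ l, A i j * B k l = (∑ i, ∑ j, A i j) * (∑ k, ∑ l, B k l) := by
  rw [Finset.sum_mul]
  refine Finset.sum_congr rfl fun i _ => ?_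
  rw [Finset.sum_mul]
  refine Finset.sum_congr rfl fun j _ => ?_
  rw [Finset.mul_sum]
  refine Finset.sum_congr rfl fun k _ => ?_
  rw [Finset.mul_sum]

lemma curvOp_example {J Q : Matrix (Fin d) (Fin d) ℝ} (h : JData d J Q) (c : ℝ) :
    curvOp (exG J c) (0 : E d) J =
      ((d / 2 : ℕ) : ℝ) * (c - 2 * ((d / 2 : ℕ) : ℝ) - 1) := by
  set N : ℝ := 2 * ((d / 2 : ℕ) : ℝ) with hN
  have hQ : ∀ a b, Q a b = Q b a := by
    intro a b
    rw [← h.rowrow a b, ← h.rowrow b a]
    exact Finset.sum_congr rfl fun k _ => by ring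
  have T1 : ∑ i, ∑ j, ∑ k, ∑ l, (kd j k * kd i l) * (J i j * J l k) = N := by
    rw [hN, ← h.jj]
    refine Finset.sum_congr rfl fun i _ => Finset.sum_congr rfl fun j _ => ?_
    have e1 : ∀ k, ∑ l, (kd j k * kd i l) * (J i j * J l k) = (J i j * J i k) * kd k j := by
      intro k
      have : ∀ l, (kd j k * kd i l) * (J i j * J l k) = (kd j k * J i j * J l k) * kd l i := by
        intro l; rw [kd_symm i l]; ring
      simp only [this]
      rw [sum_kd (fun l => kd j k * J i j * J l k) i, kd_symm j k]; ring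
    simp only [e1]
    exact sum_kd (fun k => J i j * J i k) j
  have T2 : ∑ i, ∑ j, ∑ k, ∑ l, (kd j l * kd i k) * (J i j * J l k) = - N := by
    rw [hN, ← h.jj, ← Finset.sum_neg_distrib]
    refine Finset.sum_congr rfl fun i _ => ?_
    rw [← Finset.sum_neg_distrib]
    refine Finset.sum_congr rfl fun j _ => ?_
    have e1 : ∀ k, ∑ l, (kd j l * kd i k) * (J i j * J l k) = (J i j * J j k) * kd k i := by
      intro k
      have : ∀ l, (kd j l * kd i k) * (J i j * J l k) = (kd i k * J i j * J l k) * kd l j := by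
        intro l; rw [kd_symm j l]; ring
      simp only [this]
      rw [sum_kd (fun l => kd i k * J i j * J l k) j, kd_symm i k]; ring
    simp only [e1]
    rw [sum_kd (fun k => J i j * J j k) i, h.skew j i]; ring
  have T3 : ∑ i, ∑ j, ∑ k, ∑ l, (J i j * J k l) * (J i j * J l k) = - N ^ 2 := by
    have e1 : ∀ i j k l, (J i j * J k l) * (J i j * J l k) = (J i j * J i j) * (-(J k l * J k l)) := by
      intro i j k l; rw [h.skew l k]; ring
    simp only [e1]
    rw [quad_sum1, h.jj]
    simp only [Finset.sum_neg_distrib]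
    rw [h.jj]; rw [hN]; ring
  have T4 : ∑ i, ∑ j, ∑ k, ∑ l, (J i k * J j l) * (J i j * J l k) = - N := by
    rw [Finset.sum_comm]
    rw [hN, ← h.qq, ← Finset.sum_neg_distrib]
    refine Finset.sum_congr rfl fun j _ => ?_
    rw [Finset.sum_comm, ← Finset.sum_neg_distrib]
    refine Finset.sum_congr rfl fun k _ => ?_
    have : ∀ i l, (J i k * J j l) * (J i j * J l k) = (J i k * J i j) * (J j l * J l k) := by
      intro i l; ring
    simp only [this]
    rw [← Finset.sum_mul_sum, h.colcol, h.rowcol, hQ k j]; ring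
  have T5 : ∑ i, ∑ j, ∑ k, ∑ l, (J i l * J j k) * (J i j * J l k) = N := by
    rw [Finset.sum_comm]
    rw [hN, ← h.qq]
    refine Finset.sum_congr rfl fun j _ => ?_
    have : ∀ i, ∑ k, ∑ l, (J i l * J j k) * (J i j * J l k) =
        ∑ l, ∑ k, (J i l * J i j) * (J j k * J l k) := by
      intro i
      rw [Finset.sum_comm]
      refine Finset.sum_congr rfl fun l _ => Finset.sum_congr rfl fun k _ => by ring
    simp only [this]
    rw [Finset.sum_comm]
    refine Finset.sum_congr rfl fun l _ => ?_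
    rw [← Finset.sum_mul_sum, h.colcol, h.rowrow, hQ l j]
  unfold curvOp
  have e : ∀ i j k l, riemann (exG J c) i j k l (0 : E d) * J i j * J l k =
      c * ((kd j k * kd i l) * (J i j * J l k)) - c * ((kd j l * kd i k) * (J i j * J l k))
      + 2 * ((J i j * J k l) * (J i j * J l k)) + (J i k * J j l) * (J i j * J l k)
      - (J i l * J j k) * (J i j * J l k) := by
    intro i j k l
    rw [exG_riemann J h.skew]; ring
  simp only [e, Finset.sum_add_distrib, Finset.sum_sub_distrib, ← Finset.mul_sum]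
  rw [T1, T2, T3, T4, T5, hN]
  ring

/-- bilinear form of the skew matrix -/
noncomputable def bJ (J : Matrix (Fin d) (Fin d) ℝ) (u v : Fin d → ℝ) : ℝ :=
  ∑ i, ∑ j, J i j * (u i * v j)

lemma bJ_skew {J : Matrix (Fin d) (Fin d) ℝ} (hJ : ∀ i j, J i j = - J j i) (u v : Fin d → ℝ) :
    bJ J v u = - bJ J u v := by
  unfold bJ
  rw [Finset.sum_comm, ← Finset.sum_neg_distrib]
  refine Finset.sum_congr rfl fun i _ => ?_
  rw [← Finset.sum_neg_distrib]
  refine Finset.sum_congr rfl fun j _ => ?_
  rw [hJ j i]; ring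

lemma bJ_sq_le {J Q : Matrix (Fin d) (Fin d) ℝ} (h : JData d J Q) (u v : Fin d → ℝ) :
    bJ J u v ^ 2 ≤ (∑ i, u i * u i) * (∑ i, v i * v i) := by
  have e1 : bJ J u v = ∑ i, u i * (∑ j, J i j * v j) := by
    unfold bJ
    refine Finset.sum_congr rfl fun i _ => ?_
    rw [Finset.mul_sum]
    exact Finset.sum_congr rfl fun j _ => by ring
  have e2 : ∑ i, (∑ j, J i j * v j) ^ 2 = ∑ a, ∑ b, Q a b * v a * v b := by
    have : ∀ i, (∑ j, J i j * v j) ^ 2 = ∑ a, ∑ b, (J i a * J i b) * (v a * v b) := by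
      intro i
      rw [sq, Finset.sum_mul_sum]
      refine Finset.sum_congr rfl fun a _ => Finset.sum_congr rfl fun b _ => by ring
    simp only [this]
    rw [Finset.sum_comm]
    refine Finset.sum_congr rfl fun a _ => ?_
    rw [Finset.sum_comm]
    refine Finset.sum_congr rfl fun b _ => ?_
    rw [← Finset.sum_mul, h.colcol]; ring
  have h1 := Finset.sum_mul_sq_le_sq_mul_sq Finset.univ u (fun i => ∑ j, J i j * v j)
  rw [← e1, e2] at h1
  have h2 := h.le v
  have h3 : 0 ≤ ∑ i, u i ^ 2 := Finset.sum_nonneg fun i _ => sq_nonneg _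
  have h4 : ∑ i, u i ^ 2 = ∑ i, u i * u i := Finset.sum_congr rfl fun i _ => by ring
  calc bJ J u v ^ 2 ≤ (∑ i, u i ^ 2) * ∑ a, ∑ b, Q a b * v a * v b := h1
    _ ≤ (∑ i, u i ^ 2) * ∑ i, v i * v i := mul_le_mul_of_nonneg_left h2 h3
    _ = _ := by rw [h4]

lemma curv_example {J : Matrix (Fin d) (Fin d) ℝ} (hJ : ∀ i j, J i j = - J j i) (c : ℝ)
    (u v : Fin d → ℝ) :
    curv (exG J c) (0 : E d) u v v u =
      c * ((∑ i, u i * u i) * (∑ i, v i * v i) - (∑ i, u i * v i) ^ 2) - 3 * bJ J u v ^ 2 := by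
  have S1 : ∑ i, ∑ j, ∑ k, ∑ l, (kd j k * kd i l) * (u i * v j * v k * u l)
      = (∑ i, u i * u i) * (∑ i, v i * v i) := by
    rw [Finset.sum_mul_sum]
    refine Finset.sum_congr rfl fun i _ => Finset.sum_congr rfl fun j _ => ?_
    have e1 : ∀ k, ∑ l, (kd j k * kd i l) * (u i * v j * v k * u l) = (u i * u i * v j * v k) * kd k j := by
      intro k
      have : ∀ l, (kd j k * kd i l) * (u i * v j * v k * u l) =
          (kd j k * u i * v j * v k * u l) * kd l i := by
        intro l; rw [kd_symm i l]; ring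
      simp only [this]
      rw [sum_kd (fun l => kd j k * u i * v j * v k * u l) i, kd_symm j k]; ring
    simp only [e1]
    rw [sum_kd (fun k => u i * u i * v j * v k) j]; ring
  have S2 : ∑ i, ∑ j, ∑ k, ∑ l, (kd j l * kd i k) * (u i * v j * v k * u l)
      = (∑ i, u i * v i) ^ 2 := by
    rw [sq, Finset.sum_mul_sum]
    refine Finset.sum_congr rfl fun i _ => Finset.sum_congr rfl fun j _ => ?_
    have e1 : ∀ k, ∑ l, (kd j l * kd i k) * (u i * v j * v k * u l) = (u i * v j * v k * u j) * kd k i := by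
      intro k
      have : ∀ l, (kd j l * kd i k) * (u i * v j * v k * u l) =
          (kd i k * u i * v j * v k * u l) * kd l j := by
        intro l; rw [kd_symm j l]; ring
      simp only [this]
      rw [sum_kd (fun l => kd i k * u i * v j * v k * u l) j, kd_symm i k]; ring
    simp only [e1]
    rw [sum_kd (fun k => u i * v j * v k * u j) i]; ring
  have S3 : ∑ i, ∑ j, ∑ k, ∑ l, (J i j * J k l) * (u i * v j * v k * u l)
      = bJ J u v * bJ J v u := by
    unfold bJ
    rw [← quad_sum1]
    refine Finset.sum_congr rfl fun i _ => Finset.sum_congr rfl fun j _ =>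
      Finset.sum_congr rfl fun k _ => Finset.sum_congr rfl fun l _ => by ring
  have S4 : ∑ i, ∑ j, ∑ k, ∑ l, (J i k * J j l) * (u i * v j * v k * u l)
      = bJ J u v * bJ J v u := by
    unfold bJ
    rw [← quad_sum1]
    refine Finset.sum_congr rfl fun i _ => ?_
    rw [Finset.sum_comm]
    refine Finset.sum_congr rfl fun j _ =>
      Finset.sum_congr rfl fun k _ => Finset.sum_congr rfl fun l _ => by ring
  have S5 : ∑ i, ∑ j, ∑ k, ∑ l, (J i l * J j k) * (u i * v j * v k * u l)
      = bJ J u u * bJ J v v := by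
    unfold bJ
    rw [← quad_sum1]
    refine Finset.sum_congr rfl fun i _ => ?_
    have : ∀ j, ∑ k, ∑ l, (J i l * J j k) * (u i * v j * v k * u l) =
        ∑ l, ∑ k, (J i l * J j k) * (u i * v j * v k * u l) := fun j => Finset.sum_comm
    simp only [this]
    rw [Finset.sum_comm]
    refine Finset.sum_congr rfl fun j _ =>
      Finset.sum_congr rfl fun k _ => Finset.sum_congr rfl fun l _ => by ring
  have huu : bJ J u u = 0 := by have := bJ_skew hJ u u; linarith
  have hvu := bJ_skew hJ u v
  unfold curv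
  have e : ∀ i j k l, riemann (exG J c) i j k l (0 : E d) * u i * v j * v k * u l =
      c * ((kd j k * kd i l) * (u i * v j * v k * u l)) - c * ((kd j l * kd i k) * (u i * v j * v k * u l))
      + 2 * ((J i j * J k l) * (u i * v j * v k * u l)) + (J i k * J j l) * (u i * v j * v k * u l)
      - (J i l * J j k) * (u i * v j * v k * u l) := by
    intro i j k l
    rw [exG_riemann J hJ]; ring
  simp only [e, Finset.sum_add_distrib, Finset.sum_sub_distrib, ← Finset.mul_sum]
  rw [S1, S2, S3, S4, S5, huu, hvu]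
  ring

end Pool.Agent.Helper436.Pinch
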