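import Mathlib
import Pool.Agent.Helper436.PinchExample2

set_option autoImplicit false

namespace Pool.Agent.Helper436.Pinch

open scoped BigOperators Topology ContDiff
open Filter

variable {d : ℕ}

lemma curv_eq_cf (g : E d → Matrix (Fin d) (Fin d) ℝ) (x : E d) :
    curv g x = cf (fun i j k l => riemann g i j k l x) := rfl

lemma ip_eq_gip (g : E d → Matrix (Fin d) (Fin d) ℝ) (x : E d) : ip g x = gip (g x) := rfl

lemma GoodAt.curvForm {g : E d → Matrix (Fin d) (Fin d) ℝ} {x : E d} (h : GoodAt g x) :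
    CurvForm (curv g x) := by
  rw [curv_eq_cf]
  exact cf_curvForm _ h.riemann_anti12 h.riemann_anti34 h.riemann_bianchi

lemma gip_add_left (G : Matrix (Fin d) (Fin d) ℝ) (u u' v : Fin d → ℝ) :
    gip G (u + u') v = gip G u v + gip G u' v := by
  simp only [gip, Pi.add_apply, mul_add, add_mul, Finset.sum_add_distrib]

lemma gip_smul_left (G : Matrix (Fin d) (Fin d) ℝ) (c : ℝ) (u v : Fin d → ℝ) :
    gip G (c • u) v = c * gip G u v := by
  simp only [gip, Pi.smul_apply, smul_eq_mul, Finset.mul_sum]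
  refine Finset.sum_congr rfl fun i _ => Finset.sum_congr rfl fun j _ => by ring

lemma gip_symm {G : Matrix (Fin d) (Fin d) ℝ} (hG : ∀ i j, G i j = G j i) (u v : Fin d → ℝ) :
    gip G u v = gip G v u := by
  unfold gip
  rw [Finset.sum_comm]
  refine Finset.sum_congr rfl fun i _ => Finset.sum_congr rfl fun j _ => ?_
  rw [hG j i]; ring

/-- The constant curvature form of `G`. -/
def gramF (G : Matrix (Fin d) (Fin d) ℝ) (x y z w : Fin d → ℝ) : ℝ :=
  gip G x w * gip G y z - gip G x z * gip G y w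

lemma gramF_curvForm {G : Matrix (Fin d) (Fin d) ℝ} (hG : ∀ i j, G i j = G j i) :
    CurvForm (gramF G) where
  add1 := by intro x x' y z w; simp only [gramF, gip_add_left]; ring
  smul1 := by intro c x y z w; simp only [gramF, gip_smul_left]; ring
  add3 := by
    intro x y z z' w
    simp only [gramF]
    rw [gip_symm hG y (z + z'), gip_symm hG x (z + z'), gip_add_left, gip_add_left,
      gip_symm hG z y, gip_symm hG z' y, gip_symm hG z x, gip_symm hG z' x]; ring
  smul3 := by
    intro c x y z w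
    simp only [gramF]
    rw [gip_symm hG y (c • z), gip_symm hG x (c • z), gip_smul_left, gip_smul_left,
      gip_symm hG z y, gip_symm hG z x]; ring
  anti12 := by intro x y z w; simp only [gramF]; ring
  anti34 := by intro x y z w; simp only [gramF]; ring
  bianchi := by
    intro x y z w
    simp only [gramF]
    rw [gip_symm hG y x, gip_symm hG z x, gip_symm hG z y]; ring

lemma gramF_self {G : Matrix (Fin d) (Fin d) ℝ} (hG : ∀ i j, G i j = G j i) (u v : Fin d → ℝ) :
    gramF G u v v u = gip G u u * gip G v v - gip G u v ^ 2 := by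
  simp only [gramF]
  rw [gip_symm hG v u]; ring

/-- orthonormal pairs for the standard dot product -/
def onPairs (d : ℕ) : Set ((Fin d → ℝ) × (Fin d → ℝ)) :=
  {p | ∑ i, p.1 i * p.1 i = 1 ∧ ∑ i, p.2 i * p.2 i = 1 ∧ ∑ i, p.1 i * p.2 i = 0}

lemma abs_le_one_of_sum {u : Fin d → ℝ} (h : ∑ i, u i * u i = 1) (i : Fin d) : |u i| ≤ 1 := by
  have h1 : u i * u i ≤ ∑ j, u j * u j :=
    Finset.single_le_sum (f := fun j => u j * u j) (fun j _ => mul_self_nonneg _) (Finset.mem_univ i)
  rw [h] at h1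
  rw [abs_le]; constructor <;> nlinarith

lemma onPairs_isCompact (d : ℕ) : IsCompact (onPairs d) := by
  apply Metric.isCompact_of_isClosed_isBounded
  · apply IsClosed.inter
    · exact isClosed_eq (by fun_prop) continuous_const
    · apply IsClosed.inter
      · exact isClosed_eq (by fun_prop) continuous_const
      · exact isClosed_eq (by fun_prop) continuous_const
  · refine (Metric.isBounded_closedBall (x := (0 : (Fin d → ℝ) × (Fin d → ℝ))) (r := 1)).subset ?_
    rintro ⟨u, v⟩ ⟨h1, h2, _⟩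
    rw [mem_closedBall_zero_iff, Prod.norm_def, max_le_iff]
    constructor
    · rw [pi_norm_le_iff_of_nonneg zero_le_one]
      intro i; exact abs_le_one_of_sum h1 i
    · rw [pi_norm_le_iff_of_nonneg zero_le_one]
      intro i; exact abs_le_one_of_sum h2 i

/-- reduction of an independent pair to an orthonormal pair -/
lemma reduce_pair {u v : Fin d → ℝ} (h : LinearIndependent ℝ ![u, v]) :
    ∃ p ∈ onPairs d, ∃ t : ℝ, 0 < t ∧ ∀ F : (Fin d → ℝ) → (Fin d → ℝ) → (Fin d → ℝ) → (Fin d → ℝ) → ℝ,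
      CurvForm F → F u v v u = t * F p.1 p.2 p.2 p.1 := by
  rw [LinearIndependent.pair_iff] at h
  have hu : u ≠ 0 := by
    rintro rfl
    have := h 1 0 (by simp)
    exact one_ne_zero this.1
  have dp : ∀ w : Fin d → ℝ, w ≠ 0 → 0 < ∑ i, w i * w i := by
    intro w hw
    have h0 : 0 ≤ ∑ i, w i * w i := Finset.sum_nonneg fun i _ => mul_self_nonneg _
    rcases lt_or_eq_of_le h0 with h | h
    · exact h
    · exfalso; apply hw
      have := (Finset.sum_eq_zero_iff_of_nonneg (fun i _ => mul_self_nonneg (w i))).mp h.symm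
      funext i
      simpa using this i (Finset.mem_univ i)
  set A := ∑ i, u i * u i with hA
  have hApos := dp u hu
  set a := Real.sqrt A with ha
  have hapos : 0 < a := Real.sqrt_pos.mpr hApos
  have haa : a * a = A := Real.mul_self_sqrt hApos.le
  set e : Fin d → ℝ := a⁻¹ • u with he
  have hue : u = a • e := by rw [he, smul_smul, mul_inv_cancel₀ hapos.ne', one_smul]
  have hee : ∑ i, e i * e i = 1 := by
    have : ∀ i, e i * e i = (a⁻¹ * a⁻¹) * (u i * u i) := by
      intro i; simp only [he, Pi.smul_apply, smul_eq_mul]; ring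
    simp only [this]
    rw [← Finset.mul_sum, ← hA, ← haa]; field_simp
  set γ := ∑ i, e i * v i with hγ
  set w : Fin d → ℝ := v - γ • e with hw
  have hw0 : w ≠ 0 := by
    intro h0
    have h1 : (-(γ * a⁻¹)) • u + (1 : ℝ) • v = 0 := by
      rw [one_smul, neg_smul, mul_smul, ← he, ← h0, hw]; abel
    have := h _ _ h1
    exact one_ne_zero this.2
  have hwpos := dp w hw0
  set B := ∑ i, w i * w i with hB
  set b := Real.sqrt B with hb
  have hbpos : 0 < b := Real.sqrt_pos.mpr hwpos
  have hbb : b * b = B := Real.mul_self_sqrt hwpos.le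
  set f : Fin d → ℝ := b⁻¹ • w with hf
  have hwf : w = b • f := by rw [hf, smul_smul, mul_inv_cancel₀ hbpos.ne', one_smul]
  have hff : ∑ i, f i * f i = 1 := by
    have : ∀ i, f i * f i = (b⁻¹ * b⁻¹) * (w i * w i) := by
      intro i; simp only [hf, Pi.smul_apply, smul_eq_mul]; ring
    simp only [this]
    rw [← Finset.mul_sum, ← hB, ← hbb]; field_simp
  have hew : ∑ i, e i * w i = 0 := by
    have : ∀ i, e i * w i = e i * v i - γ * (e i * e i) := by
      intro i; simp only [hw, Pi.sub_apply, Pi.smul_apply, smul_eq_mul]; ring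
    simp only [this, Finset.sum_sub_distrib, ← Finset.mul_sum]
    rw [hee, ← hγ]; ring
  have hef : ∑ i, e i * f i = 0 := by
    have : ∀ i, e i * f i = b⁻¹ * (e i * w i) := by
      intro i; simp only [hf, Pi.smul_apply, smul_eq_mul]; ring
    simp only [this, ← Finset.mul_sum, hew, mul_zero]
  have hv : v = γ • e + b • f := by rw [← hwf, hw]; abel
  refine ⟨(e, f), ⟨hee, hff, hef⟩, a * a * (b * b), by positivity, ?_⟩
  intro F hF
  show F u v v u = a * a * (b * b) * F e f f e
  rw [hue, hv]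
  simp only [hF.smul1, hF.smul2, hF.smul3, hF.smul4, hF.add2, hF.add3, hF.self12, hF.self34]
  ring

lemma riemann_continuousAt {g : E d → Matrix (Fin d) (Fin d) ℝ} {x : E d} (h : GoodAt g x)
    (i j k l : Fin d) : ContinuousAt (riemann g i j k l) x := by
  have h1 : ∀ a b i j, ContinuousAt (pd a (christoffel g b i j)) x := fun a b i j =>
    (pd_contDiffAt (h.chr_contDiffAt b i j) a).continuousAt
  have h2 : ∀ b i j, ContinuousAt (christoffel g b i j) x := fun b i j =>
    (h.chr_contDiffAt b i j).continuousAt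
  have h3 : ∀ i j, ContinuousAt (fun y => g y i j) x := fun i j => (h.smooth i j).continuousAt
  unfold riemann riemannUp
  refine tendsto_finsetSum _ fun m _ => ?_
  refine (h3 l m).mul ?_
  refine ((h1 _ _ _ _).sub (h1 _ _ _ _)).add ?_
  refine tendsto_finsetSum _ fun a _ => ?_
  exact ((h2 _ _ _).mul (h2 _ _ _)).sub ((h2 _ _ _).mul (h2 _ _ _))

lemma curv_continuousAt {g : E d → Matrix (Fin d) (Fin d) ℝ} {x : E d} (h : GoodAt g x)
    (u0 v0 : Fin d → ℝ) :
    ContinuousAt (fun z : E d × ((Fin d → ℝ) × (Fin d → ℝ)) => curv g z.1 z.2.1 z.2.2 z.2.2 z.2.1)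
      (x, (u0, v0)) := by
  unfold curv
  refine tendsto_finsetSum _ fun i _ => tendsto_finsetSum _ fun j _ =>
    tendsto_finsetSum _ fun k _ => tendsto_finsetSum _ fun l _ => ?_
  have h1 : ContinuousAt (fun z : E d × ((Fin d → ℝ) × (Fin d → ℝ)) => riemann g i j k l z.1)
      (x, (u0, v0)) := ContinuousAt.comp (g := riemann g i j k l) (f := Prod.fst)
        (x := (x, (u0, v0))) (riemann_continuousAt h i j k l) continuousAt_fst
  have c1 : ∀ i, ContinuousAt (fun z : E d × ((Fin d → ℝ) × (Fin d → ℝ)) => z.2.1 i)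
      (x, (u0, v0)) := fun i => by fun_prop
  have c2 : ∀ i, ContinuousAt (fun z : E d × ((Fin d → ℝ) × (Fin d → ℝ)) => z.2.2 i)
      (x, (u0, v0)) := fun i => by fun_prop
  exact (((h1.mul (c1 i)).mul (c2 j)).mul (c2 k)).mul (c1 l)

lemma gip_continuousAt {g : E d → Matrix (Fin d) (Fin d) ℝ} {x : E d} (h : GoodAt g x)
    {T : Type*} [TopologicalSpace T] {p q : T → (Fin d → ℝ)} (hp : Continuous p) (hq : Continuous q)
    (t0 : T) :
    ContinuousAt (fun z : E d × T => gip (g z.1) (p z.2) (q z.2)) (x, t0) := by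
  unfold gip
  refine tendsto_finsetSum _ fun i _ => tendsto_finsetSum _ fun j _ => ?_
  have h1 : ContinuousAt (fun z : E d × T => g z.1 i j) (x, t0) :=
    ContinuousAt.comp (g := fun y => g y i j) (f := Prod.fst) (h.smooth i j).continuousAt
      continuousAt_fst
  have c1 : ContinuousAt (fun z : E d × T => p z.2 i) (x, t0) := by
    have : Continuous (fun z : E d × T => p z.2 i) := by fun_prop
    exact this.continuousAt
  have c2 : ContinuousAt (fun z : E d × T => q z.2 j) (x, t0) := by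
    have : Continuous (fun z : E d × T => q z.2 j) := by fun_prop
    exact this.continuousAt
  exact (h1.mul c1).mul c2

lemma gram_continuousAt {g : E d → Matrix (Fin d) (Fin d) ℝ} {x : E d} (h : GoodAt g x)
    (u0 v0 : Fin d → ℝ) :
    ContinuousAt (fun z : E d × ((Fin d → ℝ) × (Fin d → ℝ)) => gramF (g z.1) z.2.1 z.2.2 z.2.2 z.2.1)
      (x, (u0, v0)) := by
  unfold gramF
  have a1 := gip_continuousAt h (p := fun t : (Fin d → ℝ) × (Fin d → ℝ) => t.1)
    (q := fun t => t.1) (by fun_prop) (by fun_prop) (u0, v0)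
  have a2 := gip_continuousAt h (p := fun t : (Fin d → ℝ) × (Fin d → ℝ) => t.2)
    (q := fun t => t.2) (by fun_prop) (by fun_prop) (u0, v0)
  have a3 := gip_continuousAt h (p := fun t : (Fin d → ℝ) × (Fin d → ℝ) => t.1)
    (q := fun t => t.2) (by fun_prop) (by fun_prop) (u0, v0)
  have a4 := gip_continuousAt h (p := fun t : (Fin d → ℝ) × (Fin d → ℝ) => t.2)
    (q := fun t => t.1) (by fun_prop) (by fun_prop) (u0, v0)
  exact (a1.mul a2).sub (a3.mul a4)

lemma gip_one (u v : Fin d → ℝ) : gip (1 : Matrix (Fin d) (Fin d) ℝ) u v = ∑ i, u i * v i := by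
  unfold gip
  refine Finset.sum_congr rfl fun i _ => ?_
  simp [Matrix.one_apply]

/-- Neighbourhood of the origin on which the example is a strictly pinched metric. -/
theorem example_nbhd {J Q : Matrix (Fin d) (Fin d) ℝ} (hJ : JData d J Q) {c δ : ℝ} (hc : 3 < c)
    (hδ0 : 0 < δ) (hδ : δ * c < c - 3) :
    ∀ᶠ x in 𝓝 (0 : E d), (exG J c x).det ≠ 0 ∧ (∀ u : Fin d → ℝ, u ≠ 0 → 0 < gip (exG J c x) u u) ∧
      (∀ u v : Fin d → ℝ, LinearIndependent ℝ ![u, v] → 0 < sec (exG J c) x u v) ∧
      (∀ u v u' v' : Fin d → ℝ, LinearIndependent ℝ ![u, v] → LinearIndependent ℝ ![u', v'] →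
        δ * sec (exG J c) x u' v' ≤ sec (exG J c) x u v) := by
  have hG := exG_good J c
  have hK : IsCompact (onPairs d ×ˢ onPairs d) := (onPairs_isCompact d).prod (onPairs_isCompact d)
  have hSph : IsCompact {u : Fin d → ℝ | ∑ i, u i * u i = 1} := by
    apply Metric.isCompact_of_isClosed_isBounded
    · exact isClosed_eq (by fun_prop) continuous_const
    · refine (Metric.isBounded_closedBall (x := (0 : Fin d → ℝ)) (r := 1)).subset ?_
      intro u hu
      rw [mem_closedBall_zero_iff, pi_norm_le_iff_of_nonneg zero_le_one]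
      intro i; exact abs_le_one_of_sum hu i
  have hpos : ∀ᶠ x in 𝓝 (0 : E d), ∀ u ∈ {u : Fin d → ℝ | ∑ i, u i * u i = 1},
      0 < gip (exG J c x) u u := by
    apply hSph.eventually_forall_of_forall_eventually
    intro u hu
    have hcont := gip_continuousAt hG (p := fun t : Fin d → ℝ => t) (q := fun t => t)
      (by fun_prop) (by fun_prop) u
    have hval : gip (exG J c 0) u u = 1 := by
      rw [exG_zero, gip_one]; exact hu
    refine hcont.eventually_const_lt ?_
    show 0 < gip (exG J c 0) u u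
    rw [hval]; norm_num
  have hmain : ∀ᶠ x in 𝓝 (0 : E d), ∀ q ∈ onPairs d ×ˢ onPairs d,
      0 < curv (exG J c) x q.1.1 q.1.2 q.1.2 q.1.1 ∧
      0 < gramF (exG J c x) q.1.1 q.1.2 q.1.2 q.1.1 ∧
      δ * (curv (exG J c) x q.2.1 q.2.2 q.2.2 q.2.1 * gramF (exG J c x) q.1.1 q.1.2 q.1.2 q.1.1) <
        curv (exG J c) x q.1.1 q.1.2 q.1.2 q.1.1 * gramF (exG J c x) q.2.1 q.2.2 q.2.2 q.2.1 := by
    apply hK.eventually_forall_of_forall_eventually
    rintro ⟨⟨u, v⟩, ⟨u', v'⟩⟩ ⟨⟨h1, h2, h3⟩, ⟨h4, h5, h6⟩⟩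
    simp only at h1 h2 h3 h4 h5 h6
    have m1 : Continuous (fun z : E d × (((Fin d → ℝ) × (Fin d → ℝ)) × ((Fin d → ℝ) × (Fin d → ℝ))) =>
      (z.1, z.2.1)) := by fun_prop
    have m2 : Continuous (fun z : E d × (((Fin d → ℝ) × (Fin d → ℝ)) × ((Fin d → ℝ) × (Fin d → ℝ))) =>
      (z.1, z.2.2)) := by fun_prop
    have k1 : ContinuousAt (fun z : E d × (((Fin d → ℝ) × (Fin d → ℝ)) × ((Fin d → ℝ) × (Fin d → ℝ))) =>
        curv (exG J c) z.1 z.2.1.1 z.2.1.2 z.2.1.2 z.2.1.1) (0, ((u, v), (u', v'))) :=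
      ContinuousAt.comp
        (g := fun z : E d × ((Fin d → ℝ) × (Fin d → ℝ)) => curv (exG J c) z.1 z.2.1 z.2.2 z.2.2 z.2.1)
        (f := fun z : E d × (((Fin d → ℝ) × (Fin d → ℝ)) × ((Fin d → ℝ) × (Fin d → ℝ))) =>
        (z.1, z.2.1)) (x := (0, ((u, v), (u', v')))) (curv_continuousAt hG u v) m1.continuousAt
    have k2 : ContinuousAt (fun z : E d × (((Fin d → ℝ) × (Fin d → ℝ)) × ((Fin d → ℝ) × (Fin d → ℝ))) =>
        curv (exG J c) z.1 z.2.2.1 z.2.2.2 z.2.2.2 z.2.2.1) (0, ((u, v), (u', v'))) :=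
      ContinuousAt.comp
        (g := fun z : E d × ((Fin d → ℝ) × (Fin d → ℝ)) => curv (exG J c) z.1 z.2.1 z.2.2 z.2.2 z.2.1)
        (f := fun z : E d × (((Fin d → ℝ) × (Fin d → ℝ)) × ((Fin d → ℝ) × (Fin d → ℝ))) =>
        (z.1, z.2.2)) (x := (0, ((u, v), (u', v')))) (curv_continuousAt hG u' v') m2.continuousAt
    have k3 : ContinuousAt (fun z : E d × (((Fin d → ℝ) × (Fin d → ℝ)) × ((Fin d → ℝ) × (Fin d → ℝ))) =>
        gramF (exG J c z.1) z.2.1.1 z.2.1.2 z.2.1.2 z.2.1.1) (0, ((u, v), (u', v'))) :=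
      ContinuousAt.comp
        (g := fun z : E d × ((Fin d → ℝ) × (Fin d → ℝ)) => gramF (exG J c z.1) z.2.1 z.2.2 z.2.2 z.2.1)
        (f := fun z : E d × (((Fin d → ℝ) × (Fin d → ℝ)) × ((Fin d → ℝ) × (Fin d → ℝ))) =>
        (z.1, z.2.1)) (x := (0, ((u, v), (u', v')))) (gram_continuousAt hG u v) m1.continuousAt
    have k4 : ContinuousAt (fun z : E d × (((Fin d → ℝ) × (Fin d → ℝ)) × ((Fin d → ℝ) × (Fin d → ℝ))) =>
        gramF (exG J c z.1) z.2.2.1 z.2.2.2 z.2.2.2 z.2.2.1) (0, ((u, v), (u', v'))) :=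
      ContinuousAt.comp
        (g := fun z : E d × ((Fin d → ℝ) × (Fin d → ℝ)) => gramF (exG J c z.1) z.2.1 z.2.2 z.2.2 z.2.1)
        (f := fun z : E d × (((Fin d → ℝ) × (Fin d → ℝ)) × ((Fin d → ℝ) × (Fin d → ℝ))) =>
        (z.1, z.2.2)) (x := (0, ((u, v), (u', v')))) (gram_continuousAt hG u' v') m2.continuousAt
    have v1 := curv_example hJ.skew c u v
    have v2 := curv_example hJ.skew c u' v'
    rw [h1, h2, h3] at v1
    rw [h4, h5, h6] at v2
    have b1 := bJ_sq_le hJ u v
    have b2 := bJ_sq_le hJ u' v'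
    rw [h1, h2] at b1
    rw [h4, h5] at b2
    have g1 : gramF (exG J c 0) u v v u = 1 := by
      rw [exG_zero, gramF_self (fun i j => by simp [Matrix.one_apply, eq_comm])]
      rw [gip_one, gip_one, gip_one, h1, h2, h3]; norm_num
    have g2 : gramF (exG J c 0) u' v' v' u' = 1 := by
      rw [exG_zero, gramF_self (fun i j => by simp [Matrix.one_apply, eq_comm])]
      rw [gip_one, gip_one, gip_one, h4, h5, h6]; norm_num
    refine (k1.eventually_const_lt ?_).and ((k3.eventually_const_lt ?_).and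
      (((k2.mul k3).const_mul δ).eventually_lt (k1.mul k4) ?_))
    · show 0 < curv (exG J c) 0 u v v u
      rw [v1]; nlinarith
    · show 0 < gramF (exG J c 0) u v v u
      rw [g1]; norm_num
    · show δ * (curv (exG J c) 0 u' v' v' u' * gramF (exG J c 0) u v v u) <
        curv (exG J c) 0 u v v u * gramF (exG J c 0) u' v' v' u'
      rw [g1, g2, v1, v2]
      nlinarith [sq_nonneg (bJ J u' v')]
  have hsymm : ∀ x i j, exG J c x i j = exG J c x j i := exG_symm J c
  filter_upwards [hG.det_ev, hpos, hmain] with x hdet hp hm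
  have hgood : GoodAt (exG J c) x :=
    ⟨Filter.Eventually.of_forall fun y i j => exG_symm J c y i j,
      fun i j => (exG_contDiff J c i j).contDiffAt, hdet⟩
  have hC := hgood.curvForm
  have hGr := gramF_curvForm (hsymm x)
  have hsec : ∀ u v : Fin d → ℝ, LinearIndependent ℝ ![u, v] → ∃ p ∈ onPairs d,
      sec (exG J c) x u v = curv (exG J c) x p.1 p.2 p.2 p.1 / gramF (exG J c x) p.1 p.2 p.2 p.1 := by
    intro u v h
    obtain ⟨p, hp, t, ht, hF⟩ := reduce_pair h
    refine ⟨p, hp, ?_⟩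
    unfold sec
    rw [ip_eq_gip, ← gramF_self (hsymm x), hF _ hC, hF _ hGr]
    exact mul_div_mul_left _ _ ht.ne'
  refine ⟨hdet, ?_, ?_, ?_⟩
  · intro u hu
    set A := ∑ i, u i * u i with hA
    have hApos : 0 < A := by
      have h0 : 0 ≤ ∑ i, u i * u i := Finset.sum_nonneg fun i _ => mul_self_nonneg _
      rcases lt_or_eq_of_le h0 with h | h
      · exact h
      · exfalso; apply hu
        have := (Finset.sum_eq_zero_iff_of_nonneg (fun i _ => mul_self_nonneg (u i))).mp h.symm
        funext i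
        simpa using this i (Finset.mem_univ i)
    set a := Real.sqrt A with ha
    have hapos : 0 < a := Real.sqrt_pos.mpr hApos
    have haa : a * a = A := Real.mul_self_sqrt hApos.le
    have hue : u = a • (a⁻¹ • u) := by rw [smul_smul, mul_inv_cancel₀ hapos.ne', one_smul]
    have hee : ∑ i, (a⁻¹ • u) i * (a⁻¹ • u) i = 1 := by
      have : ∀ i, (a⁻¹ • u) i * (a⁻¹ • u) i = (a⁻¹ * a⁻¹) * (u i * u i) := by
        intro i; simp only [Pi.smul_apply, smul_eq_mul]; ring
      simp only [this]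
      rw [← Finset.mul_sum, ← hA, ← haa]; field_simp
    have := hp _ hee
    rw [hue, gip_smul_left, gip_symm (hsymm x), gip_smul_left]
    positivity
  · intro u v h
    obtain ⟨p, hp, he⟩ := hsec u v h
    rw [he]
    have := hm (p, p) ⟨hp, hp⟩
    exact div_pos this.1 this.2.1
  · intro u v u' v' h h'
    obtain ⟨p, hp, he⟩ := hsec u v h
    obtain ⟨p', hp', he'⟩ := hsec u' v' h'
    rw [he, he']
    have h1 := hm (p, p') ⟨hp, hp'⟩
    have h2 := hm (p', p) ⟨hp', hp⟩
    rw [← mul_div_assoc, div_le_div_iff₀ h2.2.1 h1.2.1]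
    have := h1.2.2.le
    linarith

end Pool.Agent.Helper436.Pinch
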