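import Mathlib
import Pool.Agent.Helper436.PinchNbhd

set_option autoImplicit false

namespace Pool.Agent.Helper436.Pinch

open scoped BigOperators Topology ContDiff Manifold InnerProductSpace
open Filter Bundle

section upper

variable {d : ℕ} {M : Type} [TopologicalSpace M] [ChartedSpace (E d) M]
  [IsManifold 𝓘(ℝ, E d) ∞ M]

/-- standard basis -/
noncomputable abbrev sb (d : ℕ) : Module.Basis (Fin d) ℝ (E d) := (EuclideanSpace.basisFun (Fin d) ℝ).toBasis

lemma frame_eq (p : M) {y : E d} (hy : y ∈ (chartAt (E d) p).target) (i : Fin d) :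
    (trivializationAt (E d) (TangentSpace 𝓘(ℝ, E d)) p).localFrame (sb d) i
      ((chartAt (E d) p).symm y) =
      mfderiv 𝓘(ℝ, E d) 𝓘(ℝ, E d) (chartAt (E d) p).symm y (EuclideanSpace.single i (1 : ℝ)) := by
  have hq : (chartAt (E d) p).symm y ∈ (chartAt (E d) p).source :=
    (chartAt (E d) p).map_target hy
  have hq' : (chartAt (E d) p).symm y ∈
      (trivializationAt (E d) (TangentSpace 𝓘(ℝ, E d)) p).baseSet := by
    rw [TangentBundle.trivializationAt_baseSet]; exact hq
  rw [Trivialization.localFrame_apply_of_mem_baseSet _ _ hq']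
  have h1 := TangentBundle.symmL_trivializationAt (I := 𝓘(ℝ, E d)) (x₀ := p) hq
  have h2 : (extChartAt 𝓘(ℝ, E d) p) ((chartAt (E d) p).symm y) = y := by
    simp [mfld_simps, hy]
  have h3 : ⇑(extChartAt 𝓘(ℝ, E d) p).symm = (chartAt (E d) p).symm := by
    ext z; simp [mfld_simps]
  have h4 : (trivializationAt (E d) (TangentSpace 𝓘(ℝ, E d)) p).basisAt (sb d) hq' i =
      (trivializationAt (E d) (TangentSpace 𝓘(ℝ, E d)) p).symmL ℝ ((chartAt (E d) p).symm y)
        (EuclideanSpace.single i (1 : ℝ)) := by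
    rw [Trivialization.basisAt, Module.Basis.map_apply]
    have : sb d i = EuclideanSpace.single i (1 : ℝ) := by simp [sb]
    rw [this, Trivialization.linearEquivAt_symm_apply, Trivialization.symmL_apply _ hq']
  rw [h4, h1, h2, h3]
  simp only [modelWithCornersSelf_coe, Set.range_id, mfderivWithin_univ]
  rfl

variable [RiemannianBundle (fun x : M => TangentSpace 𝓘(ℝ, E d) x)]

lemma chartMetric_eq (p : M) {y : E d} (hy : y ∈ (chartAt (E d) p).target) (i j : Fin d) :
    chartMetric p y i j =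
      ⟪(trivializationAt (E d) (TangentSpace 𝓘(ℝ, E d)) p).localFrame (sb d) i
      ((chartAt (E d) p).symm y), (trivializationAt (E d) (TangentSpace 𝓘(ℝ, E d)) p).localFrame
        (sb d) j ((chartAt (E d) p).symm y)⟫_ℝ := by
  rw [frame_eq p hy i, frame_eq p hy j]
  rfl

lemma chartMetric_symm (p : M) (y : E d) (i j : Fin d) :
    chartMetric p y i j = chartMetric p y j i := by
  unfold chartMetric
  rw [Matrix.of_apply, Matrix.of_apply, real_inner_comm]

lemma chartMetric_contDiffAt
    [IsContMDiffRiemannianBundle 𝓘(ℝ, E d) ∞ (E d) (fun x : M => TangentSpace 𝓘(ℝ, E d) x)]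
    (p : M) (i j : Fin d) :
    ContDiffAt ℝ ∞ (fun y => chartMetric p y i j) (chartAt (E d) p p) := by
  set y0 := chartAt (E d) p p with hy0
  have hy0t : y0 ∈ (chartAt (E d) p).target := (chartAt (E d) p).map_source (mem_chart_source _ p)
  have hsymm0 : (chartAt (E d) p).symm y0 = p := (chartAt (E d) p).left_inv (mem_chart_source _ p)
  set e := trivializationAt (E d) (TangentSpace 𝓘(ℝ, E d)) p with he
  have hp : p ∈ e.baseSet := by
    rw [he, TangentBundle.trivializationAt_baseSet]; exact mem_chart_source _ p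
  have hfr : ∀ i, ContMDiffAt 𝓘(ℝ, E d) (𝓘(ℝ, E d).prod 𝓘(ℝ, E d)) ∞
      (fun q : M => (⟨q, e.localFrame (sb d) i q⟩ : TotalSpace (E d) (TangentSpace 𝓘(ℝ, E d)))) p :=
    fun i => contMDiffAt_localFrame_of_mem ∞ e (sb d) i hp
  have hinner : ContMDiffAt 𝓘(ℝ, E d) 𝓘(ℝ, ℝ) ∞
      (fun q : M => ⟪e.localFrame (sb d) i q, e.localFrame (sb d) j q⟫_ℝ) p :=
    ContMDiffAt.inner_bundle (hfr i) (hfr j)
  have hchart : ContMDiffAt 𝓘(ℝ, E d) 𝓘(ℝ, E d) ∞ (chartAt (E d) p).symm y0 :=
    (contMDiffOn_chart_symm (x := p)).contMDiffAt ((chartAt (E d) p).open_target.mem_nhds hy0t)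
  have hcomp : ContMDiffAt 𝓘(ℝ, E d) 𝓘(ℝ, ℝ) ∞
      ((fun q : M => ⟪e.localFrame (sb d) i q, e.localFrame (sb d) j q⟫_ℝ) ∘
        (chartAt (E d) p).symm) y0 := by
    refine ContMDiffAt.comp y0 ?_ hchart
    rw [hsymm0]; exact hinner
  have hcd := hcomp.contDiffAt
  refine hcd.congr_of_eventuallyEq ?_
  filter_upwards [(chartAt (E d) p).open_target.mem_nhds hy0t] with y hy
  rw [chartMetric_eq p hy]
  rfl

lemma chartMetric_pos (p : M) (u : Fin d → ℝ) (hu : u ≠ 0) :
    0 < gip (chartMetric p (chartAt (E d) p p)) u u := by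
  set y0 := chartAt (E d) p p with hy0
  have hy0t : y0 ∈ (chartAt (E d) p).target := (chartAt (E d) p).map_source (mem_chart_source _ p)
  set e := trivializationAt (E d) (TangentSpace 𝓘(ℝ, E d)) p with he
  set q := (chartAt (E d) p).symm y0 with hq
  have hq' : q ∈ e.baseSet := by
    rw [he, TangentBundle.trivializationAt_baseSet]
    exact (chartAt (E d) p).map_target hy0t
  set w : TangentSpace 𝓘(ℝ, E d) q := ∑ i, u i • e.localFrame (sb d) i q with hw
  have hww : gip (chartMetric p y0) u u = ⟪w, w⟫_ℝ := by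
    unfold gip
    rw [hw, sum_inner]
    refine Finset.sum_congr rfl fun i _ => ?_
    rw [inner_sum]
    refine Finset.sum_congr rfl fun j _ => ?_
    rw [chartMetric_eq p hy0t, inner_smul_left, inner_smul_right]
    simp only [conj_trivial]
    ring
  rw [hww]
  apply real_inner_self_pos.mpr
  intro h0
  apply hu
  have hli := (e.basisAt (sb d) hq').linearIndependent
  rw [Fintype.linearIndependent_iff] at hli
  funext i
  apply hli u
  rw [← h0, hw]
  refine Finset.sum_congr rfl fun i _ => ?_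
  rw [Trivialization.localFrame_apply_of_mem_baseSet _ _ hq']

end upper

end Pool.Agent.Helper436.Pinch
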