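import Mathlib
import Pool.Agent.Helper436.PinchManifold

set_option autoImplicit false

namespace Pool.Agent.Helper436.Pinch

open scoped BigOperators Topology ContDiff Manifold InnerProductSpace
open Filter Bundle

variable {d : ℕ} (U : TopologicalSpace.Opens (E d))

lemma mem_source_opens (x y : U) : y ∈ (chartAt (E d) x).source := by
  have : chartAt (E d) x = chartAt (E d) y := rfl
  rw [this]; exact mem_chart_source _ y

lemma coordChange_opens (x y z : U) (v : E d) :
    (tangentBundleCore 𝓘(ℝ, E d) U).coordChange (achart (E d) x) (achart (E d) y) z v = v := by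
  have : achart (E d) x = achart (E d) y := rfl
  rw [this]
  apply (tangentBundleCore 𝓘(ℝ, E d) U).coordChange_self
  exact mem_source_opens U y z

lemma symmL_opens (x y : U) :
    (trivializationAt (E d) (TangentSpace 𝓘(ℝ, E d)) x).symmL ℝ y = (1 : E d →L[ℝ] E d) := by
  rw [TangentBundle.symmL_trivializationAt_eq_core (mem_source_opens U x y)]
  ext1 v
  exact coordChange_opens U x y y v

lemma clmAt_opens (x y : U) :
    (trivializationAt (E d) (TangentSpace 𝓘(ℝ, E d)) x).continuousLinearMapAt ℝ y =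
      (1 : E d →L[ℝ] E d) := by
  rw [TangentBundle.continuousLinearMapAt_trivializationAt_eq_core (mem_source_opens U x y)]
  ext1 v
  exact coordChange_opens U y x y v

/-- the bilinear map with coefficient matrix `G` -/
noncomputable def gCLM (G : Matrix (Fin d) (Fin d) ℝ) : E d →L[ℝ] E d →L[ℝ] ℝ :=
  ∑ i, ∑ j, G i j • ((EuclideanSpace.proj i : E d →L[ℝ] ℝ).smulRight
    (EuclideanSpace.proj j : E d →L[ℝ] ℝ))

lemma gCLM_apply (G : Matrix (Fin d) (Fin d) ℝ) (u v : E d) :
    gCLM G u v = gip G (fun i => u i) (fun i => v i) := by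
  unfold gCLM gip
  simp only [sum_apply, smul_apply,
    ContinuousLinearMap.smulRight_apply, smul_eq_mul]
  refine Finset.sum_congr rfl fun i _ => Finset.sum_congr rfl fun j _ => ?_
  simp
  ring

lemma smul_cd {F : Type*} [NormedAddCommGroup F] [NormedSpace ℝ F] (f : E d → ℝ)
    (hf : ContDiff ℝ ∞ f) (c : F) : ContDiff ℝ ∞ (fun y => f y • c) := 
  hf.smul contDiff_const

lemma gCLM_contDiff {g : E d → Matrix (Fin d) (Fin d) ℝ}
    (hg : ∀ i j, ContDiff ℝ ∞ (fun y => g y i j)) :
    ContDiff ℝ ∞ (fun y => gCLM (g y)) := by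
  unfold gCLM
  refine ContDiff.sum fun i _ => ContDiff.sum fun j _ => ?_
  exact smul_cd _ (hg i j) _

lemma gCLM_bounded {G : Matrix (Fin d) (Fin d) ℝ}
    (hp : ∀ u : Fin d → ℝ, u ≠ 0 → 0 < gip G u u) :
    Bornology.IsVonNBounded ℝ {v : E d | gCLM G v v < 1} := by
  have hpos : ∀ v : E d, v ≠ 0 → 0 < gCLM G v v := by
    intro v hv
    rw [gCLM_apply]
    apply hp
    intro h0
    apply hv
    ext i
    exact congrFun h0 i
  have hcont : Continuous (fun v : E d => gCLM G v v) := by fun_prop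
  have hex : ∃ c : ℝ, 0 < c ∧ ∀ v : E d, ‖v‖ = 1 → c ≤ gCLM G v v := by
    by_cases hne : (Metric.sphere (0 : E d) 1).Nonempty
    · obtain ⟨v0, hv0, hmin⟩ := (isCompact_sphere (0 : E d) 1).exists_isMinOn hne hcont.continuousOn
      refine ⟨gCLM G v0 v0, hpos v0 ?_, fun v hv => hmin (by simpa using hv)⟩
      rintro rfl
      simp at hv0
    · refine ⟨1, one_pos, fun v hv => ?_⟩
      exact absurd ⟨v, by simpa using hv⟩ hne
  obtain ⟨c, hc, hcv⟩ := hex
  have hbound : ∀ v : E d, c * ‖v‖ ^ 2 ≤ gCLM G v v := by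
    intro v
    by_cases hv : v = 0
    · subst hv; simp
    · have hn : 0 < ‖v‖ := norm_pos_iff.mpr hv
      have h1 := hcv (‖v‖⁻¹ • v) (by rw [norm_smul, norm_inv, norm_norm, inv_mul_cancel₀ hn.ne'])
      rw [map_smul, map_smul, smul_apply, smul_eq_mul, smul_eq_mul] at h1
      have h2 : c * ‖v‖ ^ 2 ≤ (‖v‖⁻¹ * (‖v‖⁻¹ * gCLM G v v)) * ‖v‖ ^ 2 :=
        mul_le_mul_of_nonneg_right h1 (by positivity)
      have h3 : (‖v‖⁻¹ * (‖v‖⁻¹ * gCLM G v v)) * ‖v‖ ^ 2 = gCLM G v v := by field_simp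
      rw [h3] at h2; exact h2
  refine (NormedSpace.isVonNBounded_ball ℝ (E d) (1 / c + 1)).subset ?_
  intro v hv
  rw [Set.mem_ofPred_eq] at hv
  have h1 := hbound v
  have h2 : ‖v‖ ^ 2 < 1 / c := by rw [lt_div_iff₀ hc]; linarith
  rw [Metric.mem_ball, dist_zero_right]
  by_contra hcon
  push Not at hcon
  have hc' : 0 < 1 / c := by positivity
  nlinarith

lemma gCLM_symm {G : Matrix (Fin d) (Fin d) ℝ} (hs : ∀ i j, G i j = G j i) (v w : E d) :
    gCLM G v w = gCLM G w v := by
  rw [gCLM_apply, gCLM_apply, gip_symm hs]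

lemma gCLM_pos {G : Matrix (Fin d) (Fin d) ℝ}
    (hp : ∀ u : Fin d → ℝ, u ≠ 0 → 0 < gip G u u) (v : E d) (hv : v ≠ 0) :
    0 < gCLM G v v := by
  rw [gCLM_apply]
  apply hp
  intro h0
  apply hv
  ext i
  exact congrFun h0 i

/-- The Riemannian metric on the open set `U` with coefficients `g`. -/
noncomputable def opensMetric (g : E d → Matrix (Fin d) (Fin d) ℝ)
    (hg : ∀ i j, ContDiff ℝ ∞ (fun y => g y i j))
    (hs : ∀ y i j, g y i j = g y j i)
    (hp : ∀ y ∈ U, ∀ u : Fin d → ℝ, u ≠ 0 → 0 < gip (g y) u u) :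
    ContMDiffRiemannianMetric 𝓘(ℝ, E d) ∞ (E d) (fun x : U => TangentSpace 𝓘(ℝ, E d) x) where
  inner x := gCLM (g x)
  symm x v w := gCLM_symm (hs x) v w
  pos x v hv := gCLM_pos (hp x x.2) v hv
  isVonNBounded x := gCLM_bounded (hp x x.2)
  contMDiff := by
    intro x
    rw [contMDiffAt_section]
    have hsm : ContMDiffAt 𝓘(ℝ, E d) 𝓘(ℝ, E d →L[ℝ] E d →L[ℝ] ℝ) ∞ (fun y : U => gCLM (g y)) x := by
      have h1 : ContMDiff 𝓘(ℝ, E d) 𝓘(ℝ, E d →L[ℝ] E d →L[ℝ] ℝ) ∞ (fun y : E d => gCLM (g y)) :=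
        (gCLM_contDiff hg).contMDiff
      have h2 : ContMDiff 𝓘(ℝ, E d) 𝓘(ℝ, E d) ∞ (Subtype.val : U → E d) := contMDiff_subtype_val
      exact (h1.comp h2) x
    refine hsm.congr_of_eventuallyEq (Filter.Eventually.of_forall fun y => ?_)
    simp only []
    rw [hom_trivializationAt_apply]
    ext v w
    simp [ContinuousLinearMap.inCoordinates, symmL_opens]
    have hb : y ∈ (trivializationAt (E d →L[ℝ] ℝ)
        (fun x : U => TangentSpace 𝓘(ℝ, E d) x →L[ℝ] ℝ) x).baseSet := by
      rw [hom_trivializationAt_baseSet]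
      refine ⟨?_, ?_⟩
      · rw [TangentBundle.trivializationAt_baseSet]; exact mem_source_opens U x y
      · exact Set.mem_univ _
    rw [Trivialization.coe_linearMapAt_of_mem _ hb]
    simp only []
    rw [hom_trivializationAt_apply]
    simp [ContinuousLinearMap.inCoordinates, symmL_opens]
    rfl

lemma christoffel_congr {g g' : E d → Matrix (Fin d) (Fin d) ℝ} {x : E d}
    (h : g =ᶠ[𝓝 x] g') (k i j : Fin d) : christoffel g k i j x = christoffel g' k i j x := by
  unfold christoffel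
  have h2 : ∀ i j, (fun y => g y i j) =ᶠ[𝓝 x] (fun y => g' y i j) := by
    intro i j
    filter_upwards [h] with y hy
    rw [hy]
  rw [h.eq_of_nhds]
  congr 1
  refine Finset.sum_congr rfl fun l _ => ?_
  rw [pd_congr (h2 j l), pd_congr (h2 i l), pd_congr (h2 i j)]

lemma christoffel_congr_ev {g g' : E d → Matrix (Fin d) (Fin d) ℝ} {x : E d}
    (h : g =ᶠ[𝓝 x] g') (k i j : Fin d) : christoffel g k i j =ᶠ[𝓝 x] christoffel g' k i j := by
  filter_upwards [h.eventuallyEq_nhds] with y hy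
  exact christoffel_congr hy k i j

lemma riemann_congr {g g' : E d → Matrix (Fin d) (Fin d) ℝ} {x : E d}
    (h : g =ᶠ[𝓝 x] g') (i j k l : Fin d) : riemann g i j k l x = riemann g' i j k l x := by
  unfold riemann riemannUp
  rw [h.eq_of_nhds]
  refine Finset.sum_congr rfl fun m _ => ?_
  rw [pd_congr (christoffel_congr_ev h m j k), pd_congr (christoffel_congr_ev h m i k)]
  congr 2
  refine Finset.sum_congr rfl fun a _ => ?_
  rw [christoffel_congr h, christoffel_congr h, christoffel_congr h, christoffel_congr h]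

lemma sec_congr {g g' : E d → Matrix (Fin d) (Fin d) ℝ} {x : E d}
    (h : g =ᶠ[𝓝 x] g') (u v : Fin d → ℝ) : sec g x u v = sec g' x u v := by
  unfold sec curv ip
  simp only [riemann_congr h, h.eq_of_nhds]

lemma curvOp_congr {g g' : E d → Matrix (Fin d) (Fin d) ℝ} {x : E d}
    (h : g =ᶠ[𝓝 x] g') (om : Matrix (Fin d) (Fin d) ℝ) : curvOp g x om = curvOp g' x om := by
  unfold curvOp
  simp only [riemann_congr h]

section final

variable (g : E d → Matrix (Fin d) (Fin d) ℝ)
    (hg : ∀ i j, ContDiff ℝ ∞ (fun y => g y i j))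
    (hs : ∀ y i j, g y i j = g y j i)
    (hp : ∀ y ∈ U, ∀ u : Fin d → ℝ, u ≠ 0 → 0 < gip (g y) u u)

lemma chartMetric_opens (p : U) {y : E d} (hy : y ∈ (chartAt (E d) p).target) (i j : Fin d) :
    letI : RiemannianBundle (fun x : U => TangentSpace 𝓘(ℝ, E d) x) :=
      ⟨(opensMetric U g hg hs hp).toRiemannianMetric⟩
    chartMetric p y i j = g y i j := by
  let _ : RiemannianBundle (fun x : U => TangentSpace 𝓘(ℝ, E d) x) :=
      ⟨(opensMetric U g hg hs hp).toRiemannianMetric⟩
  rw [chartMetric_eq p hy]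
  have hfr : ∀ (q : U) (i : Fin d), (trivializationAt (E d) (TangentSpace 𝓘(ℝ, E d)) p).localFrame (sb d) i q
      = (EuclideanSpace.single i (1 : ℝ) : E d) := by
    intro q i
    have hq' : q ∈ (trivializationAt (E d) (TangentSpace 𝓘(ℝ, E d)) p).baseSet := by
      rw [TangentBundle.trivializationAt_baseSet]; exact mem_source_opens U p q
    rw [Trivialization.localFrame_apply_of_mem_baseSet _ _ hq']
    rw [Trivialization.basisAt, Module.Basis.map_apply]
    have : sb d i = EuclideanSpace.single i (1 : ℝ) := by simp [sb]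
    rw [this, Trivialization.linearEquivAt_symm_apply, ← Trivialization.symmL_apply (R := ℝ) _ hq',
      symmL_opens]
    rfl
  have hval : ((chartAt (E d) p).symm y : E d) = y := by
    have : (chartAt (E d) p) ((chartAt (E d) p).symm y) = y := (chartAt (E d) p).right_inv hy
    exact this
  have h1 : gCLM (g ((chartAt (E d) p).symm y : E d)) (EuclideanSpace.single i (1 : ℝ))
      (EuclideanSpace.single j (1 : ℝ)) = g y i j := by
    rw [hval, gCLM_apply]
    unfold gip
    simp
  rw [← h1]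
  rw [hfr, hfr]
  rfl

lemma chartMetric_opens_ev (p : U) :
    letI : RiemannianBundle (fun x : U => TangentSpace 𝓘(ℝ, E d) x) :=
      ⟨(opensMetric U g hg hs hp).toRiemannianMetric⟩
    chartMetric p =ᶠ[𝓝 (chartAt (E d) p p)] g := by
  have hy0t : chartAt (E d) p p ∈ (chartAt (E d) p).target :=
    (chartAt (E d) p).map_source (mem_chart_source _ p)
  filter_upwards [(chartAt (E d) p).open_target.mem_nhds hy0t] with y hy
  ext i j
  exact chartMetric_opens U g hg hs hp p hy i j

end final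

/-- the threshold -/
theorem not_mem_of_lt {δ : ℝ} (hd : 4 ≤ d)
    (hδ : δ < (2 * ((d / 2 : ℕ) : ℝ) - 2) / (2 * ((d / 2 : ℕ) : ℝ) + 1)) :
    δ ∉ pinchingSet d := by
  rintro ⟨hδ0, hδ1, hall⟩
  obtain ⟨J, Q, hJ⟩ := exists_J d
  set m : ℝ := ((d / 2 : ℕ) : ℝ) with hm
  have hm2 : 2 ≤ m := by
    rw [hm]
    have : 2 ≤ d / 2 := by omega
    exact_mod_cast this
  set c : ℝ := 2 * m + 1 with hc
  have hc3 : 3 < c := by linarith
  have hδc : δ * c < c - 3 := by
    rw [lt_div_iff₀ (by linarith)] at hδ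
    rw [hc]; linarith
  have hev := example_nbhd hJ hc3 hδ0 hδc
  obtain ⟨W, hW, hWo, hW0⟩ := eventually_nhds_iff.mp hev
  set U : TopologicalSpace.Opens (E d) := ⟨W, hWo⟩ with hU
  have hg := fun i j => exG_contDiff J c i j (d := d)
  have hs := exG_symm J c (d := d)
  have hp : ∀ y ∈ U, ∀ u : Fin d → ℝ, u ≠ 0 → 0 < gip (exG J c y) u u := fun y hy => (hW y hy).2.1
  let _ : RiemannianBundle (fun x : U => TangentSpace 𝓘(ℝ, E d) x) :=
      ⟨(opensMetric U (exG J c) hg hs hp).toRiemannianMetric⟩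
  have hpin : PointwisePinched d U δ := by
    intro p
    have hcm := chartMetric_opens_ev U (exG J c) hg hs hp p
    have hpval : chartAt (E d) p p = (p : E d) := rfl
    have hWp := hW _ p.2
    constructor
    · intro u v h
      rw [sec_congr hcm, hpval]
      exact hWp.2.2.1 u v h
    · intro u v u' v' h h'
      rw [sec_congr hcm, sec_congr hcm, hpval]
      exact hWp.2.2.2 u v u' v' h h'
  have hpos := hall U hpin
  have hJne : J ≠ 0 := by
    intro h0
    have := hJ.jj
    rw [h0] at this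
    simp at this
    have h1 : (m : ℝ) = 0 := by rw [hm]; exact_mod_cast (by omega)
    linarith
  have hJt : J.transpose = -J := by
    ext i j
    rw [Matrix.transpose_apply, Matrix.neg_apply]
    exact hJ.skew j i
  have h1 := hpos ⟨0, hW0⟩ J hJt hJne
  have hcm := chartMetric_opens_ev U (exG J c) hg hs hp ⟨0, hW0⟩
  rw [curvOp_congr hcm] at h1
  have hpval : chartAt (E d) (⟨0, hW0⟩ : U) (⟨0, hW0⟩ : U) = (0 : E d) := rfl
  rw [hpval, curvOp_example hJ c] at h1
  rw [← hm] at h1
  have : m * (c - 2 * m - 1) = 0 := by rw [hc]; ring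
  rw [this] at h1
  exact lt_irrefl _ h1

end Pool.Agent.Helper436.Pinch
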