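import Mathlib
import Pool.Agent.Helper436.PinchOpens

set_option autoImplicit false

namespace Pool.Agent.Helper436.Pinch

open scoped BigOperators Topology ContDiff Manifold InnerProductSpace
open Filter Bundle

variable {d : ℕ}

lemma chartMetric_good {M : Type} [TopologicalSpace M] [ChartedSpace (E d) M]
    [IsManifold 𝓘(ℝ, E d) ∞ M]
    [RiemannianBundle (fun x : M => TangentSpace 𝓘(ℝ, E d) x)]
    [IsContMDiffRiemannianBundle 𝓘(ℝ, E d) ∞ (E d) (fun x : M => TangentSpace 𝓘(ℝ, E d) x)]
    (p : M) : GoodAt (chartMetric p) (chartAt (E d) p p) := by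
  have hpos := chartMetric_pos (M := M) (d := d) p
  have hsymm := chartMetric_symm (M := M) (d := d) p
  have hdet : (chartMetric p (chartAt (E d) p p)).det ≠ 0 := by
    intro h0
    obtain ⟨v, hv, hv0⟩ := Matrix.exists_mulVec_eq_zero_iff.mpr h0
    have := hpos v hv
    rw [gip_eq, hv0, dotProduct_zero] at this
    exact lt_irrefl _ this
  exact ⟨Filter.Eventually.of_forall hsymm, chartMetric_contDiffAt p, hdet⟩

theorem curvOp_decomposable {M : Type} [TopologicalSpace M] [ChartedSpace (E d) M]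
    [IsManifold 𝓘(ℝ, E d) ∞ M]
    [RiemannianBundle (fun x : M => TangentSpace 𝓘(ℝ, E d) x)]
    [IsContMDiffRiemannianBundle 𝓘(ℝ, E d) ∞ (E d) (fun x : M => TangentSpace 𝓘(ℝ, E d) x)]
    (p : M) (x y : Fin d → ℝ) :
    curvOp (chartMetric p) (chartAt (E d) p p) (Matrix.vecMulVec x y - Matrix.vecMulVec y x) =
      curv (chartMetric p) (chartAt (E d) p p) x y y x := by
  have hC : CurvForm (curv (chartMetric p) (chartAt (E d) p p)) := (chartMetric_good p).curvForm
  have h1 : curvOp (chartMetric p) (chartAt (E d) p p)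
      (Matrix.vecMulVec x y - Matrix.vecMulVec y x) = (1 / 4) *
      Phi (fun i j k l => riemann (chartMetric p) i j k l (chartAt (E d) p p))
        (Matrix.vecMulVec x y - Matrix.vecMulVec y x)
        (Matrix.vecMulVec x y - Matrix.vecMulVec y x) := rfl
  rw [h1]
  simp only [map_sub, LinearMap.sub_apply, Phi_vec]
  have e1 := hC.anti12 y x y x
  have e2 := hC.anti34 x y x y
  have e3 := hC.anti12 y x x y
  rw [curv_eq_cf] at *
  linarith

theorem mem_of_gt {δ : ℝ} (hd : 2 ≤ d) (hδ0 : 0 < δ) (hδ1 : δ ≤ 1)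
    (hδ : (2 * ((d / 2 : ℕ) : ℝ) - 2) / (2 * ((d / 2 : ℕ) : ℝ) + 1) < δ) :
    δ ∈ pinchingSet d := by
  refine ⟨hδ0, hδ1, ?_⟩
  intro M _ _ _ _ _ _ _ hpin p om hom hne
  have hpos := chartMetric_pos (M := M) (d := d) p
  have hsymm := chartMetric_symm (M := M) (d := d) p
  have hgood : GoodAt (chartMetric p) (chartAt (E d) p p) := chartMetric_good p
  have hs : (chartMetric p (chartAt (E d) p p)).transpose = chartMetric p (chartAt (E d) p p) := by
    ext i j
    exact hsymm _ j i
  have key := alg_main hd (chartMetric p (chartAt (E d) p p)) hs hpos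
    (fun i j k l => riemann (chartMetric p) i j k l (chartAt (E d) p p))
    hgood.riemann_anti12 hgood.riemann_anti34 hgood.riemann_bianchi hδ0 hδ1 hδ
    (hpin p).1 (hpin p).2 om hom hne
  unfold curvOp
  rw [Phi_apply] at key
  linarith

/-- The optimal pinching constant. -/
theorem main (hd : 2 ≤ d) :
    sInf (pinchingSet d) = (2 * ((d / 2 : ℕ) : ℝ) - 2) / (2 * ((d / 2 : ℕ) : ℝ) + 1) := by
  set m : ℝ := ((d / 2 : ℕ) : ℝ) with hm
  have hm1 : 1 ≤ m := by
    rw [hm]
    have : 1 ≤ d / 2 := by omega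
    exact_mod_cast this
  set t : ℝ := (2 * m - 2) / (2 * m + 1) with ht
  have ht0 : 0 ≤ t := div_nonneg (by linarith) (by linarith)
  have ht1 : t < 1 := by rw [ht, div_lt_one (by linarith)]; linarith
  have hmem : ∀ δ, t < δ → δ ≤ 1 → δ ∈ pinchingSet d := fun δ h1 h2 =>
    mem_of_gt (by omega) (by linarith) h2 h1
  apply le_antisymm
  · refine le_of_forall_pos_lt_add ?_
    intro ε hε
    set δ := min 1 (t + ε / 2) with hδ
    have h1 : t < δ := lt_min ht1 (by linarith)
    have h2 : δ ≤ 1 := min_le_left _ _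
    have h3 := hmem δ h1 h2
    have hb : BddBelow (pinchingSet d) := ⟨0, fun x hx => hx.1.le⟩
    have h4 := csInf_le hb h3
    have h5 : δ ≤ t + ε / 2 := min_le_right _ _
    linarith
  · refine le_csInf ⟨1, hmem 1 ht1 le_rfl⟩ ?_
    intro δ hδ
    by_cases h4 : 4 ≤ d
    · by_contra hcon
      push Not at hcon
      exact not_mem_of_lt h4 hcon hδ
    · have h2 : d / 2 = 1 := by omega
      have h3 : m = 1 := by rw [hm, h2]; norm_num
      have h5 : t = 0 := by rw [ht, h3]; norm_num
      rw [h5]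
      exact hδ.1.le

end Pool.Agent.Helper436.Pinch
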