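import Mathlib
import Pool.Agent.Helper436.CurvatureDefs
import Pool.Agent.Helper436.PinchFinal

set_option autoImplicit false

namespace Pool.Agent.Helper436.Bridge

open scoped BigOperators Topology ContDiff Manifold InnerProductSpace
open Filter Bundle

open Pool.Agent.Helper436

variable {d : ℕ}


lemma pd_eq (i : Fin d) (f : Pinch.E d → ℝ) (x : Pinch.E d) :
    Curvature.pd (Pinch.sb d) i f x = Pinch.pd i f x := by
  have : Pinch.sb d i = EuclideanSpace.single i (1 : ℝ) := by simp [Pinch.sb]
  unfold Curvature.pd Pinch.pd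
  rw [this]

lemma christoffel_eq (g : Pinch.E d → Matrix (Fin d) (Fin d) ℝ) (k i j : Fin d) (x : Pinch.E d) :
    Curvature.christoffel (Pinch.sb d) g k i j x = Pinch.christoffel g k i j x := by
  unfold Curvature.christoffel Pinch.christoffel
  simp only [pd_eq]

lemma christoffel_eq' (g : Pinch.E d → Matrix (Fin d) (Fin d) ℝ) (k i j : Fin d) :
    Curvature.christoffel (Pinch.sb d) g k i j = Pinch.christoffel g k i j := by
  funext x; exact christoffel_eq g k i j x

lemma riemannUp_eq (g : Pinch.E d → Matrix (Fin d) (Fin d) ℝ) (i j k m : Fin d) (x : Pinch.E d) :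
    Curvature.riemannUp (Pinch.sb d) g i j k m x = Pinch.riemannUp g i j k m x := by
  unfold Curvature.riemannUp Pinch.riemannUp
  simp only [pd_eq, christoffel_eq']

lemma riemann_eq (g : Pinch.E d → Matrix (Fin d) (Fin d) ℝ) (i j k l : Fin d) (x : Pinch.E d) :
    Curvature.riemann (Pinch.sb d) g i j k l x = Pinch.riemann g i j k l x := by
  unfold Curvature.riemann Pinch.riemann
  simp only [riemannUp_eq]

lemma curv_eq (g : Pinch.E d → Matrix (Fin d) (Fin d) ℝ) (x : Pinch.E d) (u v w z : Fin d → ℝ) :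
    Curvature.curv (Pinch.sb d) g x u v w z = Pinch.curv g x u v w z := by
  unfold Curvature.curv Pinch.curv
  simp only [riemann_eq]

lemma sec_eq (g : Pinch.E d → Matrix (Fin d) (Fin d) ℝ) (x : Pinch.E d) (u v : Fin d → ℝ) :
    Curvature.sec (Pinch.sb d) g x u v = Pinch.sec g x u v := by
  unfold Curvature.sec Pinch.sec
  rw [curv_eq]; rfl

lemma curvOp_eq (g : Pinch.E d → Matrix (Fin d) (Fin d) ℝ) (x : Pinch.E d)
    (om : Matrix (Fin d) (Fin d) ℝ) :
    Curvature.curvOp (Pinch.sb d) g x om = Pinch.curvOp g x om := by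
  unfold Curvature.curvOp Pinch.curvOp
  simp only [riemann_eq]

variable {M : Type} [TopologicalSpace M] [ChartedSpace (Pinch.E d) M]
  [RiemannianBundle (fun x : M => TangentSpace 𝓘(ℝ, Pinch.E d) x)]

lemma chartMetric_eq (p : M) (y : Pinch.E d) :
    Curvature.chartMetric (Pinch.sb d) p y = Pinch.chartMetric p y := by
  unfold Curvature.chartMetric Pinch.chartMetric
  ext i j
  have : ∀ i, Pinch.sb d i = EuclideanSpace.single i (1 : ℝ) := fun i => by simp [Pinch.sb]
  have h : ∀ i, Curvature.coordVec (Pinch.sb d) p y i =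
      mfderiv 𝓘(ℝ, Pinch.E d) 𝓘(ℝ, Pinch.E d) (chartAt (Pinch.E d) p).symm y
        (EuclideanSpace.single i (1 : ℝ)) := by
    intro i
    unfold Curvature.coordVec Curvature.chartDeriv
    rw [this]
    rfl
  rw [Matrix.of_apply, Matrix.of_apply, h, h]

lemma chartMetric_eq' (p : M) :
    Curvature.chartMetric (Pinch.sb d) p = (Pinch.chartMetric p : Pinch.E d → _) := by
  funext y; exact chartMetric_eq p y

variable (M)

lemma pinched_iff (δ : ℝ) :
    Curvature.PointwisePinched (Pinch.sb d) M δ ↔ Pinch.PointwisePinched d M δ := by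
  unfold Curvature.PointwisePinched Pinch.PointwisePinched
  simp only [sec_eq, chartMetric_eq']

lemma positive_iff :
    Curvature.PositiveCurvatureOperator (Pinch.sb d) M ↔ Pinch.PositiveCurvatureOperator d M := by
  unfold Curvature.PositiveCurvatureOperator Pinch.PositiveCurvatureOperator
  simp only [curvOp_eq, chartMetric_eq']

theorem pinchingSet_eq (d : ℕ) : Curvature.pinchingSet d = Pinch.pinchingSet d := by
  ext δ
  constructor
  · rintro ⟨h1, h2, h3⟩
    refine ⟨h1, h2, ?_⟩
    intro M _ _ _ _ _ _ _ hp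
    exact (positive_iff M).mp (h3 M ((pinched_iff M δ).mpr hp))
  · rintro ⟨h1, h2, h3⟩
    refine ⟨h1, h2, ?_⟩
    intro M _ _ _ _ _ _ _ hp
    exact (positive_iff M).mpr (h3 M ((pinched_iff M δ).mp hp))

end Pool.Agent.Helper436.Bridge
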