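import Mathlib

set_option autoImplicit false
set_option linter.unusedSectionVars false

open Filter Topology MeasureTheory
open scoped ENNReal NNReal BoundedContinuousFunction

namespace Pool.Agent.Helper436.TAPfull


section abstractpart
variable {X : Type*} [NormedAddCommGroup X] [NormedSpace ℂ X] [CompleteSpace X]

/-- weak convergence to zero inside a finite dimensional space is norm convergence -/
theorem fin_weak {Y : Type*} [NormedAddCommGroup Y] [NormedSpace ℂ Y] [FiniteDimensional ℂ Y]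
    {ι : Type*} {l : Filter ι} (y : ι → Y)
    (h : ∀ ψ : Y →L[ℂ] ℂ, Tendsto (fun k => ψ (y k)) l (𝓝 0)) : Tendsto y l (𝓝 0) := by
  let b := Module.finBasis ℂ Y
  have h1 : ∀ k, y k = ∑ i, (b.repr (y k) i) • b i := fun k => (b.sum_repr (y k)).symm
  have h2 : Tendsto (fun k => ∑ i, (b.repr (y k) i) • b i) l (𝓝 (∑ i, (0 : ℂ) • b i)) := by
    refine tendsto_finsetSum _ fun i _ => ?_
    refine Tendsto.smul_const ?_ _
    exact h (LinearMap.toContinuousLinearMap (b.coord i))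
  simp only [zero_smul, Finset.sum_const_zero] at h2
  exact h2.congr fun k => (h1 k).symm

theorem abs_inj {ι : Type*} {l : Filter ι} [l.NeBot] (T : X →L[ℂ] X) (V S : ι → X →L[ℂ] X)
    (ε : ι → ℝ) (hV : ∀ k x, ‖V k x‖ = ‖x‖)
    (hVw : ∀ (φ : X →L[ℂ] ℂ) x, Tendsto (fun k => φ (V k x)) l (𝓝 0))
    (hint : ∀ k x, T (V k x) = V k (S k x)) (hε : ∀ k x, ‖S k x - T x‖ ≤ ε k * ‖x‖)
    (hε0 : Tendsto ε l (𝓝 0)) (hcl : IsClosed (T.range : Set X))
    (hfin : FiniteDimensional ℂ T.ker) : Function.Injective T := by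
  obtain ⟨K, hK⟩ := Submodule.ClosedComplemented.of_finiteDimensional (T.ker)
  have hcomp : CompleteSpace T.range := hcl.completeSpace_coe
  let T' : X →L[ℂ] T.range := T.codRestrict T.range (fun x => ⟨x, rfl⟩)
  have hT's : Function.Surjective T' := by
    rintro ⟨y, x, rfl⟩
    exact ⟨x, rfl⟩
  obtain ⟨C, hC0, hC⟩ := T'.exists_preimage_norm_le hT's
  have hT'n : ∀ x, ‖T' x‖ = ‖T x‖ := fun x => rfl
  have hlow : ∀ x, ‖x - (K x : X)‖ ≤ (1 + ‖K‖) * C * ‖T x‖ := by
    intro x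
    obtain ⟨x', hx', hx'n⟩ := hC (T' x)
    rw [hT'n] at hx'n
    have hker : x - x' ∈ T.ker := by
      have : T x' = T x := congrArg Subtype.val hx'
      show T (x - x') = 0
      rw [map_sub, this, sub_self]
    have h1 := hK ⟨x - x', hker⟩
    have h2 : (K (x - x') : X) = x - x' := congrArg Subtype.val h1
    have h3 : x - (K x : X) = x' - (K x' : X) := by
      rw [map_sub, AddSubgroupClass.coe_sub] at h2
      have e : x - (K x : X) - (x' - (K x' : X)) = (x - x') - ((K x : X) - (K x' : X)) := by abel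
      rw [h2, sub_self] at e
      exact sub_eq_zero.1 e
    rw [h3]
    have h4 : ‖(K x' : X)‖ ≤ ‖K‖ * ‖x'‖ := K.le_opNorm x'
    calc ‖x' - (K x' : X)‖ ≤ ‖x'‖ + ‖(K x' : X)‖ := norm_sub_le _ _
      _ ≤ (1 + ‖K‖) * ‖x'‖ := by linarith
      _ ≤ (1 + ‖K‖) * (C * ‖T x‖) := by gcongr
      _ = _ := by ring
  rw [injective_iff_map_eq_zero]
  intro f hf
  by_contra hf0
  have h1 : Tendsto (fun k => V k f - (K (V k f) : X)) l (𝓝 0) := by
    rw [tendsto_zero_iff_norm_tendsto_zero]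
    have h2 : Tendsto (fun k => (1 + ‖K‖) * C * (ε k * ‖f‖)) l (𝓝 0) := by
      have := (hε0.mul_const ‖f‖).const_mul ((1 + ‖K‖) * C)
      simpa using this
    refine squeeze_zero (fun k => norm_nonneg _) (fun k => ?_) h2
    refine (hlow _).trans ?_
    have h3 : ‖T (V k f)‖ ≤ ε k * ‖f‖ := by
      rw [hint, hV]
      have := hε k f
      rwa [hf, sub_zero] at this
    have h4 : 0 ≤ (1 + ‖K‖) * C := by positivity
    exact mul_le_mul_of_nonneg_left h3 h4
  have h2 : Tendsto (fun k => K (V k f)) l (𝓝 0) := by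
    apply fin_weak
    intro ψ
    exact hVw (ψ.comp K) f
  have h3 : Tendsto (fun k => (K (V k f) : X)) l (𝓝 0) := by
    have := (continuous_subtype_val (p := fun x => x ∈ T.ker)).tendsto (0 : T.ker)
    exact this.comp h2
  have h4 : Tendsto (fun k => V k f) l (𝓝 0) := by
    have := h1.add h3
    simpa using this
  have h5 := h4.norm
  simp only [hV, norm_zero] at h5
  have h6 : ‖f‖ = 0 := tendsto_nhds_unique tendsto_const_nhds h5
  exact hf0 (norm_eq_zero.1 h6)

theorem abs_surj {ι : Type*} {l : Filter ι} [l.NeBot] (T : X →L[ℂ] X) (V S : ι → X →L[ℂ] X)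
    (ε : ι → ℝ) (hV : ∀ k x, ‖V k x‖ = ‖x‖) (hVs : ∀ k, Function.Surjective (V k))
    (hVw : ∀ (φ : X →L[ℂ] ℂ) x, Tendsto (fun k => φ (V k x)) l (𝓝 0))
    (hint : ∀ k x, T (V k x) = V k (S k x)) (hε : ∀ k x, ‖S k x - T x‖ ≤ ε k * ‖x‖)
    (hε0 : Tendsto ε l (𝓝 0)) (hcl : IsClosed (T.range : Set X))
    (hfin : FiniteDimensional ℂ (X ⧸ T.range)) : Function.Surjective T := by
  have hcc : Submodule.ClosedComplemented T.range :=
    Submodule.ClosedComplemented.of_finiteDimensional_quotient hcl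
  obtain ⟨K, hK⟩ := hcc
  have hcomp : CompleteSpace T.range := hcl.completeSpace_coe
  let T' : X →L[ℂ] T.range := T.codRestrict T.range (fun x => ⟨x, rfl⟩)
  have hT's : Function.Surjective T' := by
    rintro ⟨y, x, rfl⟩
    exact ⟨x, rfl⟩
  obtain ⟨C, hC0, hC⟩ := T'.exists_preimage_norm_le hT's
  -- the complementary projection
  let Q : X →L[ℂ] X := ContinuousLinearMap.id ℂ X - T.range.subtypeL.comp K
  have hQ : ∀ x, Q x = x - (K x : X) := fun x => rfl
  have hQT : ∀ x, Q (T x) = 0 := by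
    intro x
    have h1 := hK ⟨T x, ⟨x, rfl⟩⟩
    have h2 : (K (T x) : X) = T x := congrArg Subtype.val h1
    rw [hQ, h2, sub_self]
  have hKQ : ∀ x, K (Q x) = 0 := by
    intro x
    rw [hQ, map_sub]
    have h1 := hK (K x)
    rw [h1, sub_self]
  let Y := K.ker
  have hYfin : FiniteDimensional ℂ Y := by
    let q : Y →ₗ[ℂ] (X ⧸ T.range) := T.range.mkQ.comp Y.subtype
    refine FiniteDimensional.of_injective q ?_
    rw [injective_iff_map_eq_zero]
    rintro ⟨y, hy⟩ hqy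
    have h1 : y ∈ T.range := by
      have : T.range.mkQ y = 0 := hqy
      rwa [Submodule.mkQ_apply, Submodule.Quotient.mk_eq_zero] at this
    have h2 := hK ⟨y, h1⟩
    have h3 : K y = 0 := hy
    have h4 : (K y : X) = y := congrArg Subtype.val h2
    rw [h3] at h4
    exact Subtype.ext h4.symm
  let QY : X →L[ℂ] Y := Q.codRestrict Y (fun x => hKQ x)
  have hQYn : ∀ x, ‖QY x‖ = ‖Q x‖ := fun x => rfl
  -- pointwise convergence of Q V_k
  have hpt : ∀ x, Tendsto (fun k => Q (V k x)) l (𝓝 0) := by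
    intro x
    have h1 : Tendsto (fun k => QY (V k x)) l (𝓝 0) := by
      apply fin_weak
      intro ψ
      exact hVw (ψ.comp QY) x
    have := (continuous_subtype_val (p := fun x => x ∈ Y)).tendsto (0 : Y)
    exact this.comp h1
  let b := Module.finBasis ℂ Y
  -- a bound of ‖Q V_k x‖
  let cf : ∀ i, Y →L[ℂ] ℂ := fun i => LinearMap.toContinuousLinearMap (b.coord i)
  let δ : ι → ℝ := fun k => ‖Q‖ * (ε k * (C * ‖K‖)) + ∑ i, (‖cf i‖ * ‖QY‖) * ‖Q (V k (b i : X))‖
  have hδ : Tendsto δ l (𝓝 0) := by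
    have h1 : Tendsto (fun k => ‖Q‖ * (ε k * (C * ‖K‖))) l (𝓝 0) := by
      have := (hε0.mul_const (C * ‖K‖)).const_mul ‖Q‖
      simpa using this
    have h2 : Tendsto (fun k => ∑ i, (‖cf i‖ * ‖QY‖) * ‖Q (V k (b i : X))‖) l (𝓝 0) := by
      have : Tendsto (fun k => ∑ i, (‖cf i‖ * ‖QY‖) * ‖Q (V k (b i : X))‖) l
          (𝓝 (∑ i, (‖cf i‖ * ‖QY‖) * 0)) := by
        refine tendsto_finsetSum _ fun i _ => ?_
        refine Tendsto.const_mul _ ?_
        have := (hpt (b i : X)).norm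
        simpa using this
      simpa using this
    have := h1.add h2
    simpa using this
  have hbound : ∀ k x, 0 ≤ ε k → ‖Q (V k x)‖ ≤ δ k * ‖x‖ := by
    intro k x hεk
    obtain ⟨g, hg, hgn⟩ := hC (K x)
    have hTg : T g = (K x : X) := congrArg Subtype.val hg
    have hdec : x = T g + Q x := by rw [hTg, hQ]; abel
    have e1 : Q (V k (T g)) = - Q (V k (S k g - T g)) := by
      have h1 : V k (S k g - T g) = T (V k g) - V k (T g) := by rw [map_sub, hint]
      rw [h1, map_sub, hQT]; abel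
    have e2 : ‖Q (V k (T g))‖ ≤ ‖Q‖ * (ε k * (C * ‖K‖)) * ‖x‖ := by
      rw [e1, norm_neg]
      refine (Q.le_opNorm _).trans ?_
      rw [hV]
      have h1 : ‖g‖ ≤ C * (‖K‖ * ‖x‖) := hgn.trans (by gcongr; exact K.le_opNorm x)
      have h2 : ‖S k g - T g‖ ≤ ε k * (C * (‖K‖ * ‖x‖)) :=
        (hε k g).trans (mul_le_mul_of_nonneg_left h1 hεk)
      calc ‖Q‖ * ‖S k g - T g‖ ≤ ‖Q‖ * (ε k * (C * (‖K‖ * ‖x‖))) := by gcongr
        _ = _ := by ring
    have e3 : ‖Q (V k (Q x))‖ ≤ (∑ i, (‖cf i‖ * ‖QY‖) * ‖Q (V k (b i : X))‖) * ‖x‖ := by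
      have h1 : Q x = ∑ i, (cf i (QY x)) • (b i : X) := by
        have := b.sum_repr (QY x)
        have h2 := congrArg (Subtype.val) this
        have h3 : ((QY x : Y) : X) = Q x := rfl
        rw [h3] at h2
        calc Q x = ((∑ i, (b.repr (QY x) i) • b i : Y) : X) := h2.symm
          _ = ∑ i, (cf i (QY x)) • (b i : X) := by
              rw [Submodule.coe_sum]
              rfl
      conv_lhs => rw [h1]
      rw [map_sum, map_sum, Finset.sum_mul]
      refine (norm_sum_le _ _).trans (Finset.sum_le_sum fun i _ => ?_)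
      rw [map_smul, map_smul, norm_smul]
      have h4 : ‖cf i (QY x)‖ ≤ ‖cf i‖ * (‖QY‖ * ‖x‖) :=
        ((cf i).le_opNorm _).trans (by gcongr; exact QY.le_opNorm x)
      calc ‖cf i (QY x)‖ * ‖Q (V k (b i : X))‖ ≤ (‖cf i‖ * (‖QY‖ * ‖x‖)) * ‖Q (V k (b i : X))‖ := by
            gcongr
        _ = _ := by ring
    calc ‖Q (V k x)‖ = ‖Q (V k (T g)) + Q (V k (Q x))‖ := by
          conv_lhs => rw [hdec]
          rw [map_add, map_add]
      _ ≤ ‖Q (V k (T g))‖ + ‖Q (V k (Q x))‖ := norm_add_le _ _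
      _ ≤ ‖Q‖ * (ε k * (C * ‖K‖)) * ‖x‖ + (∑ i, (‖cf i‖ * ‖QY‖) * ‖Q (V k (b i : X))‖) * ‖x‖ :=
          add_le_add e2 e3
      _ = δ k * ‖x‖ := by ring
  -- conclusion : Q = 0
  have hQ0 : ∀ y, Q y = 0 := by
    intro y0
    set y := Q y0 with hy
    have hQy : Q y = y := by
      rw [hQ, hy, hKQ]; simp
    have hle : ∀ k, 0 ≤ ε k → ‖y‖ ≤ δ k * ‖y‖ := by
      intro k hk
      obtain ⟨x, hx⟩ := hVs k y
      have h1 := hbound k x hk
      rw [hx, hQy] at h1
      have h2 : ‖x‖ = ‖y‖ := by rw [← hx, hV]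
      rwa [h2] at h1
    by_contra hne
    have hypos : 0 < ‖y‖ := norm_pos_iff.2 hne
    have hεnn : ∀ k, 0 ≤ ε k := by
      intro k
      have h1 := hε k y
      have h2 : 0 ≤ ε k * ‖y‖ := (norm_nonneg _).trans h1
      exact nonneg_of_mul_nonneg_left h2 hypos
    obtain ⟨k, hk⟩ := (hδ.eventually (gt_mem_nhds (show (0 : ℝ) < 1 by norm_num))).exists
    have h1 := hle k (hεnn k)
    nlinarith
  intro x
  have h1 := hQ0 x
  rw [hQ, sub_eq_zero] at h1
  rw [h1]
  exact (K x).2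

end abstractpart
variable (p : ℝ≥0∞) [hp1 : Fact (1 ≤ p)]

/-- translation `f ↦ f(· - h)` on `L^p(ℝ)` -/
noncomputable def tr (h : ℝ) : Lp ℂ p (volume : Measure ℝ) →ₗᵢ[ℂ] Lp ℂ p (volume : Measure ℝ) :=
  Lp.compMeasurePreservingₗᵢ ℂ (fun x => x - h) (measurePreserving_sub_right volume h)

variable {p}

theorem tr_coe (h : ℝ) (f : Lp ℂ p (volume : Measure ℝ)) :
    (tr p h f : ℝ → ℂ) =ᵐ[volume] fun x => f (x - h) :=
  Lp.coeFn_compMeasurePreserving f (measurePreserving_sub_right volume h)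

theorem norm_add_disj (hp : p ≠ ∞) (F G : Lp ℂ p (volume : Measure ℝ))
    (h : ∀ᵐ x ∂(volume : Measure ℝ), F x = 0 ∨ G x = 0) :
    ‖F + G‖ ^ p.toReal = ‖F‖ ^ p.toReal + ‖G‖ ^ p.toReal := by
  have hp0 : p ≠ 0 := (lt_of_lt_of_le one_pos hp1.out).ne'
  have hpr : 0 < p.toReal := ENNReal.toReal_pos hp0 hp
  have key : ∀ A : Lp ℂ p (volume : Measure ℝ), ‖A‖ ^ p.toReal
      = (∫⁻ x, ‖A x‖ₑ ^ p.toReal).toReal := by
    intro A
    rw [Lp.norm_def, eLpNorm_eq_lintegral_rpow_enorm_toReal hp0 hp, ← ENNReal.toReal_rpow,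
      ← Real.rpow_mul ENNReal.toReal_nonneg, one_div, inv_mul_cancel₀ hpr.ne', Real.rpow_one]
  have hfin : ∀ A : Lp ℂ p (volume : Measure ℝ), ∫⁻ x, ‖A x‖ₑ ^ p.toReal ≠ ∞ := by
    intro A
    have := lintegral_rpow_enorm_lt_top_of_eLpNorm_lt_top hp0 hp (Lp.memLp A).2
    exact this.ne
  rw [key, key, key, ← ENNReal.toReal_add (hfin F) (hfin G), ← lintegral_add_left']
  · congr 1
    refine lintegral_congr_ae ?_
    filter_upwards [h, Lp.coeFn_add F G] with x hx hadd
    rw [hadd, Pi.add_apply]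
    rcases hx with hx | hx
    · rw [hx, zero_add]; simp [hpr]
    · rw [hx, add_zero]; simp [hpr]
  · exact (Lp.aestronglyMeasurable F).enorm.pow_const _

theorem tr_weak_bdd (hp1' : 1 < p) (hp : p ≠ ∞) (ψ : Lp ℂ p (volume : Measure ℝ) →L[ℂ] ℂ)
    (g : Lp ℂ p (volume : Measure ℝ)) (R : ℝ) (hg : ∀ᵐ x ∂(volume : Measure ℝ), R < |x| → g x = 0) :
    Tendsto (fun h : ℝ => ψ (tr p h g)) atTop (𝓝 0) := by
  have hp0 : p ≠ 0 := (lt_of_lt_of_le one_pos hp1.out).ne'
  have hpr : 0 < p.toReal := ENNReal.toReal_pos hp0 hp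
  have hpr1 : 1 < p.toReal := by
    rw [← ENNReal.toReal_one]
    exact (ENNReal.toReal_lt_toReal ENNReal.one_ne_top hp).2 hp1'
  rw [Metric.tendsto_atTop]
  intro δ hδ
  by_contra hcon
  push Not at hcon
  have hind : ∀ N : ℕ, ∃ (S : Lp ℂ p (volume : Measure ℝ)) (H : ℝ),
      ‖S‖ ^ p.toReal ≤ N * ‖g‖ ^ p.toReal ∧ (N : ℝ) * δ ≤ (ψ S).re ∧
      ∀ᵐ x ∂(volume : Measure ℝ), H ≤ x → S x = 0 := by
    intro N
    induction N with
    | zero =>
      refine ⟨0, 0, ?_, ?_, ?_⟩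
      · simp [hpr.ne']
      · simp
      · filter_upwards [Lp.coeFn_zero ℂ p (volume : Measure ℝ)] with x hx _
        rw [hx]; rfl
    | succ N ih =>
      obtain ⟨S, H, h1, h2, h3⟩ := ih
      obtain ⟨h, hh, hδh⟩ := hcon (H + |R|)
      have hRR : R ≤ |R| := le_abs_self R
      have hR0 : 0 ≤ |R| := abs_nonneg R
      rw [dist_zero_right] at hδh
      set z := ψ (tr p h g) with hz
      have hz0 : 0 < ‖z‖ := lt_of_lt_of_le hδ hδh
      let u : ℂ := (starRingEnd ℂ z) / ‖z‖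
      have hu : ‖u‖ = 1 := by
        simp only [u]
        rw [norm_div, RCLike.norm_conj, Complex.norm_real, norm_norm, div_self hz0.ne']
      have huz : u * z = (‖z‖ : ℂ) := by
        simp only [u]
        rw [div_mul_eq_mul_div, Complex.conj_mul', sq, mul_div_assoc, div_self, mul_one]
        exact_mod_cast hz0.ne'
      have htr := tr_coe h g
      have hgh : ∀ᵐ x ∂(volume : Measure ℝ), R < |x - h| → g (x - h) = 0 :=
        (measurePreserving_sub_right volume h).quasiMeasurePreserving.ae hg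
      refine ⟨S + u • tr p h g, h + |R| + 1, ?_, ?_, ?_⟩
      · rw [norm_add_disj hp]
        · rw [norm_smul, hu, one_mul, LinearIsometry.norm_map]
          push_cast
          linarith
        · filter_upwards [h3, htr, hgh, Lp.coeFn_smul u (tr p h g)] with x hx3 hxtr hxg hsm
          by_cases hxH : H ≤ x
          · exact Or.inl (hx3 hxH)
          · right
            rw [hsm, Pi.smul_apply, hxtr, hxg, smul_zero]
            rw [lt_abs]; right
            linarith [not_le.1 hxH]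
      · rw [map_add, map_smul, smul_eq_mul, huz, Complex.add_re, Complex.ofReal_re]
        push_cast
        linarith
      · filter_upwards [h3, htr, hgh, Lp.coeFn_smul u (tr p h g),
          Lp.coeFn_add S (u • tr p h g)] with x hx3 hxtr hxg hsm hadd hxH
        rw [hadd, Pi.add_apply, hsm, Pi.smul_apply, hxtr, hxg, smul_zero, add_zero]
        · exact hx3 (by linarith)
        · rw [lt_abs]; left; linarith
  -- contradiction for large N
  have hbd : ∀ N : ℕ, ((N : ℝ) * δ) ^ p.toReal ≤ ‖ψ‖ ^ p.toReal * (N * ‖g‖ ^ p.toReal) := by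
    intro N
    obtain ⟨S, H, h1, h2, -⟩ := hind N
    have h4 : (N : ℝ) * δ ≤ ‖ψ‖ * ‖S‖ :=
      h2.trans ((Complex.re_le_norm _).trans (ψ.le_opNorm S))
    calc ((N : ℝ) * δ) ^ p.toReal ≤ (‖ψ‖ * ‖S‖) ^ p.toReal :=
          Real.rpow_le_rpow (by positivity) h4 hpr.le
      _ = ‖ψ‖ ^ p.toReal * ‖S‖ ^ p.toReal := Real.mul_rpow (norm_nonneg _) (norm_nonneg _)
      _ ≤ _ := by gcongr
  have hbd2 : ∀ N : ℕ, 0 < N → (N : ℝ) ^ (p.toReal - 1) ≤ ‖ψ‖ ^ p.toReal * ‖g‖ ^ p.toReal / δ ^ p.toReal := by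
    intro N hN
    have hN' : (0 : ℝ) < N := by exact_mod_cast hN
    have h1 := hbd N
    rw [Real.mul_rpow hN'.le hδ.le] at h1
    rw [le_div_iff₀ (by positivity), Real.rpow_sub_one hN'.ne', div_mul_eq_mul_div,
      div_le_iff₀ hN']
    linarith
  have hlim : Tendsto (fun N : ℕ => (N : ℝ) ^ (p.toReal - 1)) atTop atTop :=
    (tendsto_rpow_atTop (by linarith)).comp tendsto_natCast_atTop_atTop
  obtain ⟨N, hN1, hN2⟩ := ((hlim.eventually_gt_atTop (‖ψ‖ ^ p.toReal * ‖g‖ ^ p.toReal / δ ^ p.toReal)).and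
    (eventually_gt_atTop 0)).exists
  exact absurd (hbd2 N hN2) (not_le.2 hN1)

theorem tr_weak (hp1' : 1 < p) (hp : p ≠ ∞) (ψ : Lp ℂ p (volume : Measure ℝ) →L[ℂ] ℂ)
    (f : Lp ℂ p (volume : Measure ℝ)) :
    Tendsto (fun h : ℝ => ψ (tr p h f)) atTop (𝓝 0) := by
  rw [Metric.tendsto_atTop]
  intro δ hδ
  set ε : ℝ := δ / (2 * (‖ψ‖ + 1)) with hε
  have hεpos : 0 < ε := by positivity
  obtain ⟨g, hgc, hgn, hgcont, hgmem⟩ := (Lp.memLp f).exists_hasCompactSupport_eLpNorm_sub_le hp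
    (ε := ENNReal.ofReal ε) (by simpa using hεpos)
  let G : Lp ℂ p (volume : Measure ℝ) := hgmem.toLp g
  have hfG : ‖f - G‖ ≤ ε := by
    have h1 : f - G = ((Lp.memLp f).sub hgmem).toLp _ := by
      rw [MemLp.toLp_sub (Lp.memLp f) hgmem, Lp.toLp_coeFn f (Lp.memLp f)]
    rw [h1, Lp.norm_toLp]
    exact ENNReal.toReal_le_of_le_ofReal hεpos.le hgn
  obtain ⟨R, hR⟩ := hgc.isCompact.isBounded.subset_closedBall (0 : ℝ)
  have hG : ∀ᵐ x ∂(volume : Measure ℝ), R < |x| → G x = 0 := by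
    filter_upwards [hgmem.coeFn_toLp] with x hx hRx
    rw [hx]
    by_contra hne
    have h1 : x ∈ tsupport g := subset_tsupport g hne
    have h2 := hR h1
    rw [Metric.mem_closedBall, dist_zero_right, Real.norm_eq_abs] at h2
    linarith
  have h1 := tr_weak_bdd hp1' hp ψ G R hG
  rw [Metric.tendsto_atTop] at h1
  obtain ⟨H, hH⟩ := h1 (δ / 2) (by positivity)
  refine ⟨H, fun h hh => ?_⟩
  have h2 := hH h hh
  rw [dist_zero_right] at h2 ⊢
  have h3 : ψ (tr p h f) = ψ (tr p h (f - G)) + ψ (tr p h G) := by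
    rw [← map_add, ← map_add, sub_add_cancel]
  have h4 : ‖ψ (tr p h (f - G))‖ ≤ ‖ψ‖ * ε := by
    refine (ψ.le_opNorm _).trans ?_
    rw [LinearIsometry.norm_map]
    gcongr
  have h5 : ‖ψ‖ * ε ≤ δ / 2 := by
    rw [hε, mul_div_assoc', div_le_div_iff₀ (by positivity) (by norm_num)]
    nlinarith [norm_nonneg ψ]
  rw [h3]
  calc ‖ψ (tr p h (f - G)) + ψ (tr p h G)‖ ≤ ‖ψ (tr p h (f - G))‖ + ‖ψ (tr p h G)‖ := norm_add_le _ _
    _ < δ := by linarith


/-! ### almost periodic functions -/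

theorem expo_cont (lam : ℝ) : Continuous fun t : ℝ => Complex.exp (Complex.I * ((lam * t : ℝ) : ℂ)) := by
  fun_prop

theorem expo_bd (lam : ℝ) (t : ℝ) : ‖Complex.exp (Complex.I * ((lam * t : ℝ) : ℂ))‖ ≤ 1 := by
  rw [mul_comm, Complex.norm_exp_ofReal_mul_I]

/-- the exponential `t ↦ e^{i lam t}` -/
noncomputable def expo (lam : ℝ) : ℝ →ᵇ ℂ :=
  BoundedContinuousFunction.ofNormedAddCommGroup
    (fun t : ℝ => Complex.exp (Complex.I * ((lam * t : ℝ) : ℂ))) (expo_cont lam) 1 (expo_bd lam)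

/-- almost periodic functions: the uniform closure of the trigonometric sums -/
noncomputable def AP : Submodule ℂ (ℝ →ᵇ ℂ) :=
  (Submodule.span ℂ (Set.range expo)).topologicalClosure

/-- the shifted function `t ↦ g (t + h)` -/
noncomputable def sh (h : ℝ) (g : ℝ →ᵇ ℂ) : ℝ →ᵇ ℂ :=
  g.compContinuous ⟨fun t => t + h, by fun_prop⟩

@[simp] theorem sh_apply (h : ℝ) (g : ℝ →ᵇ ℂ) (t : ℝ) : sh h g t = g (t + h) := rfl

theorem sh_norm_le (h : ℝ) (g : ℝ →ᵇ ℂ) : ‖sh h g‖ ≤ ‖g‖ :=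
  (BoundedContinuousFunction.norm_le (norm_nonneg _)).2 fun t => g.norm_coe_le_norm (t + h)

/-- the map into the Bohr compactification -/
noncomputable def bmap (h : ℝ) : ℝ → Circle := fun lam => Circle.exp (lam * h)

/-- neighbourhoods of zero in the Bohr topology -/
noncomputable def bohr : Filter ℝ := Filter.comap bmap (𝓝 1)

theorem ap_tendsto (g : ℝ →ᵇ ℂ) (hg : g ∈ AP) : Tendsto (fun h => ‖sh h g - g‖) bohr (𝓝 0) := by
  have hspan : ∀ q ∈ Submodule.span ℂ (Set.range expo),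
      Tendsto (fun h => ‖sh h q - q‖) bohr (𝓝 0) := by
    intro q hq
    induction hq using Submodule.span_induction with
    | mem q hq =>
      obtain ⟨lam, rfl⟩ := hq
      have h1 : Tendsto (fun h => ‖((bmap h lam : Circle) : ℂ) - 1‖) bohr (𝓝 0) := by
        have h2 : Tendsto bmap bohr (𝓝 1) := tendsto_comap
        have h3 : Tendsto (fun h => bmap h lam) bohr (𝓝 1) := (tendsto_pi_nhds.1 h2) lam
        have h4 : Tendsto (fun h => ((bmap h lam : Circle) : ℂ)) bohr (𝓝 ((1 : Circle) : ℂ)) :=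
          (continuous_subtype_val.tendsto _).comp h3
        have h5 := (h4.sub_const 1).norm
        simpa using h5
      refine squeeze_zero (fun _ => norm_nonneg _) (fun h => ?_) h1
      refine (BoundedContinuousFunction.norm_le (norm_nonneg _)).2 fun t => ?_
      have e1 : (sh h (expo lam) - expo lam) t
          = Complex.exp (Complex.I * ((lam * t : ℝ) : ℂ)) * (((bmap h lam : Circle) : ℂ) - 1) := by
        show Complex.exp (Complex.I * ((lam * (t + h) : ℝ) : ℂ))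
          - Complex.exp (Complex.I * ((lam * t : ℝ) : ℂ)) = _
        rw [bmap, Circle.coe_exp, mul_sub, mul_one, ← Complex.exp_add]
        congr 2
        push_cast
        ring
      rw [e1, norm_mul, mul_comm Complex.I, Complex.norm_exp_ofReal_mul_I, one_mul]
    | zero =>
      have : ∀ h, sh h (0 : ℝ →ᵇ ℂ) - 0 = 0 := by
        intro h; ext t; simp
      simp only [this, norm_zero]
      exact tendsto_const_nhds
    | add q r _ _ hq hr =>
      have h1 := hq.add hr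
      rw [add_zero] at h1
      refine squeeze_zero (fun _ => norm_nonneg _) (fun h => ?_) h1
      have e1 : sh h (q + r) - (q + r) = (sh h q - q) + (sh h r - r) := by
        ext t; simp; ring
      rw [e1]
      exact norm_add_le _ _
    | smul c q _ hq =>
      have h1 := hq.const_mul ‖c‖
      rw [mul_zero] at h1
      refine squeeze_zero (fun _ => norm_nonneg _) (fun h => ?_) h1
      have e1 : sh h (c • q) - c • q = c • (sh h q - q) := by
        ext t; simp; ring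
      rw [e1, norm_smul]
  rw [Metric.tendsto_nhds]
  intro ε hε
  have hg' : g ∈ closure (Submodule.span ℂ (Set.range expo) : Set (ℝ →ᵇ ℂ)) := hg
  obtain ⟨q, hq, hgq⟩ := Metric.mem_closure_iff.1 hg' (ε / 3) (by positivity)
  have h1 := (Metric.tendsto_nhds.1 (hspan q hq)) (ε / 3) (by positivity)
  filter_upwards [h1] with h hh
  rw [dist_zero_right, norm_norm] at hh ⊢
  rw [dist_eq_norm] at hgq
  have e1 : sh h g - g = sh h (g - q) + (sh h q - q) - (g - q) := by
    ext t; simp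
  have h2 := sh_norm_le h (g - q)
  rw [e1]
  calc ‖sh h (g - q) + (sh h q - q) - (g - q)‖ ≤ ‖sh h (g - q)‖ + ‖sh h q - q‖ + ‖g - q‖ :=
        (norm_sub_le _ _).trans (by gcongr; exact norm_add_le _ _)
    _ < ε := by linarith

instance bohr_neBot : (bohr ⊓ atTop).NeBot := by
  rw [Filter.inf_neBot_iff]
  intro U hU V hV
  obtain ⟨W, hW, hWU⟩ := Filter.mem_comap.1 hU
  obtain ⟨H, hH⟩ := Filter.mem_atTop_sets.1 hV
  obtain ⟨a, ha⟩ := exists_clusterPt_of_compactSpace (Filter.map (fun n : ℕ => bmap (n : ℝ)) atTop)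
  have hcont : Tendsto (fun q : (ℝ → Circle) × (ℝ → Circle) => q.1 * q.2⁻¹) (𝓝 (a, a)) (𝓝 1) := by
    have : Continuous (fun q : (ℝ → Circle) × (ℝ → Circle) => q.1 * q.2⁻¹) := by fun_prop
    have h1 := this.tendsto (a, a)
    simpa using h1
  have h2 := hcont hW
  rw [Filter.mem_map, nhds_prod_eq, Filter.mem_prod_iff] at h2
  obtain ⟨A, hA, B, hB, hAB⟩ := h2
  have hfr : ∃ᶠ n : ℕ in atTop, bmap (n : ℝ) ∈ A ∩ B := by
    have h3 : MapClusterPt a atTop (fun n : ℕ => bmap (n : ℝ)) := ha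
    exact mapClusterPt_iff_frequently.1 h3 _ (Filter.inter_mem hA hB)
  obtain ⟨n1, hn1⟩ := hfr.exists
  obtain ⟨n2, hn2, hn2m⟩ := (Filter.frequently_atTop.1 hfr) (n1 + ⌈|H|⌉₊)
  refine ⟨(n2 : ℝ) - n1, hWU ?_, hH _ ?_⟩
  · have h4 : bmap ((n2 : ℝ) - n1) = bmap n2 * (bmap n1)⁻¹ := by
      funext lam
      simp only [bmap, Pi.mul_apply, Pi.inv_apply]
      rw [mul_sub, Circle.exp_sub, div_eq_mul_inv]
    show bmap ((n2 : ℝ) - n1) ∈ W
    rw [h4]
    exact hAB (Set.mk_mem_prod hn2m.1 hn1.2)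
  · have h5 : (n1 : ℝ) + ⌈|H|⌉₊ ≤ n2 := by exact_mod_cast hn2
    have h6 : |H| ≤ ⌈|H|⌉₊ := Nat.le_ceil _
    have h7 := le_abs_self H
    linarith

/-! ### multiplication operators -/

theorem memLp_mul (g : ℝ →ᵇ ℂ) (f : Lp ℂ p (volume : Measure ℝ)) :
    MemLp (fun x => g x * f x) p volume := by
  refine (Lp.memLp f).of_le_mul (c := ‖g‖)
    (g.continuous.aestronglyMeasurable.mul (Lp.aestronglyMeasurable f)) ?_
  refine Eventually.of_forall fun x => ?_
  rw [norm_mul]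
  exact mul_le_mul_of_nonneg_right (g.norm_coe_le_norm x) (norm_nonneg _)

theorem mul_add_aux (g : ℝ →ᵇ ℂ) (f f' : Lp ℂ p (volume : Measure ℝ)) :
    (memLp_mul g (f + f')).toLp _ = (memLp_mul g f).toLp _ + (memLp_mul g f').toLp _ := by
  ext1
  filter_upwards [(memLp_mul g (f + f')).coeFn_toLp, (memLp_mul g f).coeFn_toLp,
    (memLp_mul g f').coeFn_toLp, Lp.coeFn_add f f',
    Lp.coeFn_add ((memLp_mul g f).toLp _) ((memLp_mul g f').toLp _)] with x h1 h2 h3 h4 h5
  rw [h1, h5, Pi.add_apply, h2, h3, h4, Pi.add_apply, mul_add]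

theorem mul_smul_aux (g : ℝ →ᵇ ℂ) (c : ℂ) (f : Lp ℂ p (volume : Measure ℝ)) :
    (memLp_mul g (c • f)).toLp _ = c • (memLp_mul g f).toLp _ := by
  ext1
  filter_upwards [(memLp_mul g (c • f)).coeFn_toLp, (memLp_mul g f).coeFn_toLp,
    Lp.coeFn_smul c f, Lp.coeFn_smul c ((memLp_mul g f).toLp _)] with x h1 h2 h3 h4
  rw [h1, h4, Pi.smul_apply, h2, h3, Pi.smul_apply, smul_eq_mul, smul_eq_mul]
  ring

theorem mul_norm_aux (g : ℝ →ᵇ ℂ) (f : Lp ℂ p (volume : Measure ℝ)) :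
    ‖(memLp_mul g f).toLp _‖ ≤ ‖g‖ * ‖f‖ := by
  refine Lp.norm_le_mul_norm_of_ae_le_mul (p := p) ?_
  filter_upwards [(memLp_mul g f).coeFn_toLp] with x h1
  rw [h1, norm_mul]
  exact mul_le_mul_of_nonneg_right (g.norm_coe_le_norm x) (norm_nonneg _)

/-- multiplication by a bounded continuous function on `L^p(ℝ)` -/
noncomputable def mulOp (g : ℝ →ᵇ ℂ) :
    Lp ℂ p (volume : Measure ℝ) →L[ℂ] Lp ℂ p (volume : Measure ℝ) :=
  LinearMap.mkContinuous
    { toFun := fun f => (memLp_mul g f).toLp _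
      map_add' := mul_add_aux g
      map_smul' := mul_smul_aux g }
    ‖g‖ (mul_norm_aux g)

theorem mulOp_coe (g : ℝ →ᵇ ℂ) (f : Lp ℂ p (volume : Measure ℝ)) :
    (mulOp g f : ℝ → ℂ) =ᵐ[volume] fun x => g x * f x :=
  (memLp_mul g f).coeFn_toLp

theorem mulOp_norm (g : ℝ →ᵇ ℂ) (f : Lp ℂ p (volume : Measure ℝ)) :
    ‖mulOp g f‖ ≤ ‖g‖ * ‖f‖ :=
  (ContinuousLinearMap.le_opNorm _ _).trans
    (mul_le_mul_of_nonneg_right (LinearMap.mkContinuous_norm_le _ (norm_nonneg _) _) (norm_nonneg _))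

theorem mulOp_sub (g g' : ℝ →ᵇ ℂ) (f : Lp ℂ p (volume : Measure ℝ)) :
    mulOp g f - mulOp g' f = mulOp (g - g') f := by
  ext1
  filter_upwards [mulOp_coe g f, mulOp_coe g' f, mulOp_coe (g - g') f,
    Lp.coeFn_sub (mulOp g f) (mulOp g' f)] with x h1 h2 h3 h4
  rw [h4, h3, Pi.sub_apply, h1, h2, BoundedContinuousFunction.coe_sub, Pi.sub_apply, sub_mul]

theorem mulOp_tr (g : ℝ →ᵇ ℂ) (h : ℝ) (f : Lp ℂ p (volume : Measure ℝ)) :
    mulOp g (tr p h f) = tr p h (mulOp (sh h g) f) := by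
  ext1
  have h5 : ∀ᵐ x ∂(volume : Measure ℝ), (mulOp (sh h g) f : ℝ → ℂ) (x - h)
      = (sh h g) (x - h) * f (x - h) :=
    (measurePreserving_sub_right volume h).quasiMeasurePreserving.ae (mulOp_coe (sh h g) f)
  filter_upwards [mulOp_coe g (tr p h f), tr_coe h f, tr_coe h (mulOp (sh h g) f), h5]
    with x h1 h2 h3 h4
  rw [h1, h2, h3, h4, sh_apply, sub_add_cancel]

/-! ### Hardy spaces of the half planes -/

/-- the open half plane: upper for `s = 1`, lower for `s = -1` -/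
def HP (s : ℝ) : Set ℂ := {z | 0 < s * z.im}

/-- `f ∈ L^p(ℝ)` is the boundary function of a function `F` of the Hardy class `H^p` of the upper
(`s = 1`) or lower (`s = -1`) half plane: `F` is holomorphic there, its `L^p` norms over the
horizontal lines are bounded, and `F(· + i s y) → f` in `L^p` as `y ↓ 0`. -/
def IsHardy (s : ℝ) (p : ℝ≥0∞) (f : Lp ℂ p (volume : Measure ℝ)) : Prop :=
  ∃ F : ℂ → ℂ, DifferentiableOn ℂ F (HP s) ∧
    (∃ C : ℝ≥0, ∀ y : ℝ, 0 < y →
      eLpNorm (fun x : ℝ => F ((x : ℂ) + ((s * y : ℝ) : ℂ) * Complex.I)) p volume ≤ C) ∧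
    Tendsto (fun y : ℝ =>
      eLpNorm (fun x : ℝ => F ((x : ℂ) + ((s * y : ℝ) : ℂ) * Complex.I) - f x) p volume)
      (𝓝[>] 0) (𝓝 0)

theorem line_meas {s : ℝ} (hs : s ^ 2 = 1) {F : ℂ → ℂ} (hF : DifferentiableOn ℂ F (HP s)) {y : ℝ}
    (hy : 0 < y) (c : ℝ) :
    Continuous (fun x : ℝ => F (((x - c : ℝ) : ℂ) + ((s * y : ℝ) : ℂ) * Complex.I)) := by
  refine hF.continuousOn.comp_continuous (by fun_prop) fun x => ?_
  show 0 < s * _
  have : ((((x - c : ℝ) : ℂ) + ((s * y : ℝ) : ℂ) * Complex.I)).im = s * y := by simp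
  rw [this]
  nlinarith

theorem isHardy_zero {s : ℝ} : IsHardy s p 0 := by
  refine ⟨0, differentiableOn_const 0, ⟨0, fun y _ => by simp⟩, ?_⟩
  have : ∀ y : ℝ, eLpNorm (fun x : ℝ => (0 : ℂ → ℂ) ((x : ℂ) + ((s * y : ℝ) : ℂ) * Complex.I)
      - (0 : Lp ℂ p (volume : Measure ℝ)) x) p volume = 0 := by
    intro y
    rw [eLpNorm_congr_ae (g := fun _ => (0 : ℂ))]
    · simp
    · filter_upwards [Lp.coeFn_zero ℂ p (volume : Measure ℝ)] with x hx
      rw [hx]; simp
  simp_rw [this]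
  exact tendsto_const_nhds

theorem isHardy_add {s : ℝ} (hs : s ^ 2 = 1) {f g : Lp ℂ p (volume : Measure ℝ)}
    (hf : IsHardy s p f) (hg : IsHardy s p g) : IsHardy s p (f + g) := by
  revert hf hg
  rintro ⟨F, hF, ⟨C, hC⟩, hFl⟩ ⟨K, hK, ⟨D, hD⟩, hKl⟩
  refine ⟨F + K, hF.add hK, ⟨C + D, fun y hy => ?_⟩, ?_⟩
  · have m1 := (line_meas hs hF hy 0).aestronglyMeasurable (μ := (volume : Measure ℝ))
    have m2 := (line_meas hs hK hy 0).aestronglyMeasurable (μ := (volume : Measure ℝ))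
    simp only [sub_zero] at m1 m2
    refine (eLpNorm_add_le m1 m2 (Fact.out : 1 ≤ p)).trans ?_
    rw [ENNReal.coe_add]
    exact add_le_add (hC y hy) (hD y hy)
  · have h1 := hFl.add hKl
    rw [add_zero] at h1
    refine tendsto_of_tendsto_of_tendsto_of_le_of_le' tendsto_const_nhds h1
      (Eventually.of_forall fun _ => zero_le) ?_
    filter_upwards [self_mem_nhdsWithin] with y hy
    have m1 := (line_meas hs hF hy 0).aestronglyMeasurable (μ := (volume : Measure ℝ))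
    have m2 := (line_meas hs hK hy 0).aestronglyMeasurable (μ := (volume : Measure ℝ))
    simp only [sub_zero] at m1 m2
    refine le_trans (le_of_eq ?_) (eLpNorm_add_le (m1.sub (Lp.aestronglyMeasurable f))
      (m2.sub (Lp.aestronglyMeasurable g)) (Fact.out : 1 ≤ p))
    refine eLpNorm_congr_ae ?_
    filter_upwards [Lp.coeFn_add f g] with x hx
    rw [hx]
    simp only [Pi.add_apply]
    ring

theorem isHardy_smul {s : ℝ} (c : ℂ) {f : Lp ℂ p (volume : Measure ℝ)}
    (hf : IsHardy s p f) : IsHardy s p (c • f) := by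
  revert hf
  rintro ⟨F, hF, ⟨C, hC⟩, hFl⟩
  refine ⟨fun z => c * F z, hF.const_mul c, ⟨‖c‖₊ * C, fun y hy => ?_⟩, ?_⟩
  · have : (fun x : ℝ => c * F ((x : ℂ) + ((s * y : ℝ) : ℂ) * Complex.I))
        = c • (fun x : ℝ => F ((x : ℂ) + ((s * y : ℝ) : ℂ) * Complex.I)) := rfl
    rw [this, eLpNorm_const_smul, ENNReal.coe_mul]
    exact mul_le_mul_right (hC y hy) _
  · have h1 := ENNReal.Tendsto.const_mul hFl (Or.inr (enorm_ne_top (x := c)))
    rw [mul_zero] at h1
    refine h1.congr fun y => ?_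
    rw [← eLpNorm_const_smul]
    refine eLpNorm_congr_ae ?_
    filter_upwards [Lp.coeFn_smul c f] with x hx
    rw [hx]
    simp only [Pi.smul_apply, smul_eq_mul]
    ring


/-- `H^p` of the upper (`s = 1`) or lower (`s = -1`) half plane as a subspace of `L^p(ℝ)` -/
def hardy (s : ℝ) (hs : s ^ 2 = 1) (p : ℝ≥0∞) [Fact (1 ≤ p)] :
    Submodule ℂ (Lp ℂ p (volume : Measure ℝ)) where
  carrier := {f | IsHardy s p f}
  zero_mem' := isHardy_zero
  add_mem' := isHardy_add hs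
  smul_mem' := fun c _ hf => isHardy_smul c hf

theorem isHardy_tr {s : ℝ} (hs : s ^ 2 = 1) (h : ℝ) {f : Lp ℂ p (volume : Measure ℝ)}
    (hf : IsHardy s p f) : IsHardy s p (tr p h f) := by
  obtain ⟨F, hF, ⟨C, hC⟩, hFl⟩ := hf
  have hmp := measurePreserving_sub_right (volume : Measure ℝ) h
  refine ⟨fun z => F (z - h), ?_, ⟨C, fun y hy => ?_⟩, ?_⟩
  · refine hF.comp (by fun_prop) fun z hz => ?_
    show 0 < s * (z - (h : ℂ)).im
    have : (z - (h : ℂ)).im = z.im := by simp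
    rw [this]
    exact hz
  · have m1 := (line_meas hs hF hy 0).aestronglyMeasurable (μ := (volume : Measure ℝ))
    simp only [sub_zero] at m1
    have e1 := eLpNorm_comp_measurePreserving (p := p) m1 hmp
    refine le_trans (le_of_eq ?_) (hC y hy)
    rw [← e1]
    congr 1
    funext x
    simp only [Function.comp_apply]
    congr 1
    push_cast
    ring
  · refine hFl.congr' ?_
    filter_upwards [self_mem_nhdsWithin] with y hy
    have m1 := (line_meas hs hF hy 0).aestronglyMeasurable (μ := (volume : Measure ℝ))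
    simp only [sub_zero] at m1
    have e1 := eLpNorm_comp_measurePreserving (p := p) (m1.sub (Lp.aestronglyMeasurable f)) hmp
    refine e1.symm.trans ?_
    refine eLpNorm_congr_ae ?_
    filter_upwards [tr_coe h f] with x hx
    rw [hx]
    simp only [Function.comp_apply, Pi.sub_apply]
    congr 2
    push_cast
    ring

/-- `H^p_-` -/
abbrev Hminus (p : ℝ≥0∞) [Fact (1 ≤ p)] : Submodule ℂ (Lp ℂ p (volume : Measure ℝ)) :=
  hardy (-1) (by norm_num) p

/-- `H^p_+` -/
abbrev Hplus (p : ℝ≥0∞) [Fact (1 ≤ p)] : Submodule ℂ (Lp ℂ p (volume : Measure ℝ)) :=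
  hardy 1 (by norm_num) p

/-- `P` is the Riesz projection `P_-` of `L^p(ℝ) = H^p_+ ⊕ H^p_-` onto `H^p_-` along `H^p_+`. -/
structure IsRieszMinus (p : ℝ≥0∞) [Fact (1 ≤ p)]
    (P : Lp ℂ p (volume : Measure ℝ) →L[ℂ] Lp ℂ p (volume : Measure ℝ)) : Prop where
  mem : ∀ f, P f ∈ Hminus p
  compl : ∀ f, f - P f ∈ Hplus p
  fix : ∀ f ∈ Hminus p, P f = f
  kill : ∀ f ∈ Hplus p, P f = 0

/-- there is at most one Riesz projection -/
theorem IsRieszMinus.unique {P P' : Lp ℂ p (volume : Measure ℝ) →L[ℂ] Lp ℂ p (volume : Measure ℝ)}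
    (hP : IsRieszMinus p P) (hP' : IsRieszMinus p P') : P = P' := by
  ext1 f
  have h1 : f = P f + (f - P f) := by abel
  have h2 : P' f = P' (P f) + P' (f - P f) := by rw [← map_add, ← h1]
  rw [h2, hP'.fix _ (hP.mem f), hP'.kill _ (hP.compl f), add_zero]

theorem riesz_tr {P : Lp ℂ p (volume : Measure ℝ) →L[ℂ] Lp ℂ p (volume : Measure ℝ)}
    (hP : IsRieszMinus p P) (h : ℝ) (f : Lp ℂ p (volume : Measure ℝ)) :
    P (tr p h f) = tr p h (P f) := by
  have h1 : tr p h f = tr p h (P f) + tr p h (f - P f) := by rw [← map_add]; congr 1; abel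
  rw [h1, map_add, hP.fix _ (isHardy_tr (by norm_num) h (hP.mem f)),
    hP.kill _ (isHardy_tr (by norm_num) h (hP.compl f)), add_zero]

/-- the Toeplitz operator `T_G = P_- G` on `(H^p_-)^n` -/
noncomputable def toeplitz {n : ℕ}
    (P : Lp ℂ p (volume : Measure ℝ) →L[ℂ] Lp ℂ p (volume : Measure ℝ)) (hP : IsRieszMinus p P)
    (G : Matrix (Fin n) (Fin n) (ℝ →ᵇ ℂ)) : (Fin n → Hminus p) →L[ℂ] (Fin n → Hminus p) :=
  ContinuousLinearMap.pi fun i => ∑ j,
    (P.codRestrict (Hminus p) hP.mem).comp ((mulOp (G i j)).comp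
      ((Hminus p).subtypeL.comp (ContinuousLinearMap.proj j)))

theorem toeplitz_apply {n : ℕ}
    (P : Lp ℂ p (volume : Measure ℝ) →L[ℂ] Lp ℂ p (volume : Measure ℝ)) (hP : IsRieszMinus p P)
    (G : Matrix (Fin n) (Fin n) (ℝ →ᵇ ℂ)) (f : Fin n → Hminus p) (i : Fin n) :
    ((toeplitz P hP G f i : Hminus p) : Lp ℂ p (volume : Measure ℝ))
      = P (∑ j, mulOp (G i j) (f j : Lp ℂ p (volume : Measure ℝ))) := by
  rw [map_sum]
  simp only [toeplitz, ContinuousLinearMap.pi_apply, _root_.sum_apply,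
    ContinuousLinearMap.comp_apply, Submodule.coe_sum]
  rfl

/-- `T` is left-Fredholm: closed range, finite dimensional kernel -/
def LeftFredholm {X : Type*} [NormedAddCommGroup X] [NormedSpace ℂ X] (T : X →L[ℂ] X) : Prop :=
  IsClosed (T.range : Set X) ∧ FiniteDimensional ℂ T.ker

/-- `T` is right-Fredholm: closed range of finite codimension -/
def RightFredholm {X : Type*} [NormedAddCommGroup X] [NormedSpace ℂ X] (T : X →L[ℂ] X) : Prop :=
  IsClosed (T.range : Set X) ∧ FiniteDimensional ℂ (X ⧸ T.range)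

/-- `T` is Fredholm -/
def IsFredholm {X : Type*} [NormedAddCommGroup X] [NormedSpace ℂ X] (T : X →L[ℂ] X) : Prop :=
  LeftFredholm T ∧ RightFredholm T

/-- translation on `(H^p_-)^n` -/
noncomputable def trX (n : ℕ) (h : ℝ) : (Fin n → Hminus p) →L[ℂ] (Fin n → Hminus p) :=
  ContinuousLinearMap.pi fun i =>
    (((tr p h).toContinuousLinearMap.comp (Hminus p).subtypeL).codRestrict (Hminus p)
      (fun f => isHardy_tr (by norm_num) h f.2)).comp (ContinuousLinearMap.proj i)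

theorem trX_apply (n : ℕ) (h : ℝ) (f : Fin n → Hminus p) (i : Fin n) :
    ((trX n h f i : Hminus p) : Lp ℂ p (volume : Measure ℝ)) = tr p h (f i) := rfl

theorem trX_norm (n : ℕ) (h : ℝ) (f : Fin n → Hminus p) : ‖trX n h f‖ = ‖f‖ := by
  have key : ∀ i, ‖trX n h f i‖ = ‖f i‖ := fun i => by
    rw [Submodule.coe_norm, trX_apply, LinearIsometry.norm_map, ← Submodule.coe_norm]
  apply le_antisymm
  · refine (pi_norm_le_iff_of_nonneg (norm_nonneg _)).2 fun i => ?_
    rw [key]; exact norm_le_pi_norm f i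
  · refine (pi_norm_le_iff_of_nonneg (norm_nonneg _)).2 fun i => ?_
    rw [← key]; exact norm_le_pi_norm (trX n h f) i

theorem tr_tr (h k : ℝ) (f : Lp ℂ p (volume : Measure ℝ)) : tr p h (tr p k f) = tr p (h + k) f := by
  ext1
  have h5 : ∀ᵐ x ∂(volume : Measure ℝ), (tr p k f : ℝ → ℂ) (x - h) = f (x - h - k) :=
    (measurePreserving_sub_right volume h).quasiMeasurePreserving.ae (tr_coe k f)
  filter_upwards [tr_coe h (tr p k f), h5, tr_coe (h + k) f] with x h1 h2 h3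
  rw [h1, h2, h3, sub_sub]

theorem tr_zero (f : Lp ℂ p (volume : Measure ℝ)) : tr p 0 f = f := by
  ext1
  filter_upwards [tr_coe 0 f] with x h1
  rw [h1, sub_zero]

theorem trX_surj (n : ℕ) (h : ℝ) : Function.Surjective (trX (p := p) n h) := by
  intro f
  refine ⟨trX n (-h) f, ?_⟩
  funext i
  apply Subtype.ext
  rw [trX_apply, trX_apply, tr_tr, add_neg_cancel, tr_zero]



theorem hminus_closed {P : Lp ℂ p (volume : Measure ℝ) →L[ℂ] Lp ℂ p (volume : Measure ℝ)}
    (hP : IsRieszMinus p P) : IsClosed (Hminus p : Set (Lp ℂ p (volume : Measure ℝ))) := by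
  have : (Hminus p : Set (Lp ℂ p (volume : Measure ℝ))) = {f | P f = f} := by
    ext f
    constructor
    · intro hf; exact hP.fix f hf
    · intro hf
      have := hP.mem f
      rwa [show P f = f from hf] at this
  rw [this]
  exact isClosed_eq P.continuous continuous_id

theorem trX_weak (hp1' : 1 < p) (hp : p ≠ ∞)
    {P : Lp ℂ p (volume : Measure ℝ) →L[ℂ] Lp ℂ p (volume : Measure ℝ)} (hP : IsRieszMinus p P)
    (n : ℕ) (φ : (Fin n → Hminus p) →L[ℂ] ℂ) (x : Fin n → Hminus p) :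
    Tendsto (fun k => φ (trX n k x)) atTop (𝓝 0) := by
  let ψ : Fin n → Lp ℂ p (volume : Measure ℝ) →L[ℂ] ℂ := fun i =>
    φ.comp ((ContinuousLinearMap.single ℂ (fun _ => Hminus p) i).comp
        (P.codRestrict (Hminus p) hP.mem))
  have h1 : ∀ k, φ (trX n k x) = ∑ i, ψ i (tr p k (x i)) := by
    intro k
    have h2 : trX n k x = ∑ i, Pi.single i (trX n k x i) :=
      (Finset.univ_sum_single (trX n k x)).symm
    conv_lhs => rw [h2]
    rw [map_sum]
    refine Finset.sum_congr rfl fun i _ => ?_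
    have h3 : (P.codRestrict (Hminus p) hP.mem) (tr p k (x i)) = trX n k x i := by
      apply Subtype.ext
      show P (tr p k (x i)) = _
      rw [hP.fix _ (isHardy_tr (by norm_num) k (x i).2)]
      rfl
    show φ (Pi.single i (trX n k x i)) = φ (Pi.single i ((P.codRestrict (Hminus p) hP.mem) (tr p k (x i))))
    rw [h3]
  have h4 : Tendsto (fun k : ℝ => ∑ i, ψ i (tr p k (x i))) atTop (𝓝 (∑ _i : Fin n, (0 : ℂ))) := by
    refine tendsto_finsetSum _ fun i _ => ?_
    exact tr_weak hp1' hp _ _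
  rw [Finset.sum_const_zero] at h4
  exact h4.congr fun k => (h1 k).symm

theorem toeplitz_tr {P : Lp ℂ p (volume : Measure ℝ) →L[ℂ] Lp ℂ p (volume : Measure ℝ)}
    (hP : IsRieszMinus p P) (n : ℕ) (G : Matrix (Fin n) (Fin n) (ℝ →ᵇ ℂ)) (k : ℝ)
    (x : Fin n → Hminus p) :
    toeplitz P hP G (trX n k x) = trX n k (toeplitz P hP (fun i j => sh k (G i j)) x) := by
  funext i
  apply Subtype.ext
  rw [toeplitz_apply, trX_apply, toeplitz_apply, ← riesz_tr hP]
  congr 1
  rw [map_sum]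
  refine Finset.sum_congr rfl fun j _ => ?_
  rw [trX_apply, mulOp_tr]

/-- modulus of the shift -/
noncomputable def eps (P : Lp ℂ p (volume : Measure ℝ) →L[ℂ] Lp ℂ p (volume : Measure ℝ)) {n : ℕ}
    (G : Matrix (Fin n) (Fin n) (ℝ →ᵇ ℂ)) (h : ℝ) : ℝ :=
  ∑ i, ∑ j, ‖P‖ * ‖sh h (G i j) - G i j‖

theorem toeplitz_diff {P : Lp ℂ p (volume : Measure ℝ) →L[ℂ] Lp ℂ p (volume : Measure ℝ)}
    (hP : IsRieszMinus p P) (n : ℕ) (G : Matrix (Fin n) (Fin n) (ℝ →ᵇ ℂ)) (k : ℝ)
    (x : Fin n → Hminus p) :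
    ‖toeplitz P hP (fun i j => sh k (G i j)) x - toeplitz P hP G x‖ ≤ eps P G k * ‖x‖ := by
  have hε0 : 0 ≤ eps P G k := by unfold eps; positivity
  refine (pi_norm_le_iff_of_nonneg (by positivity)).2 fun i => ?_
  rw [Submodule.coe_norm]
  have e1 : ((((toeplitz P hP (fun i j => sh k (G i j)) x - toeplitz P hP G x) i : Hminus p)) :
      Lp ℂ p (volume : Measure ℝ))
      = ∑ j, P (mulOp (sh k (G i j) - G i j) (x j : Lp ℂ p (volume : Measure ℝ))) := by
    rw [Pi.sub_apply, AddSubgroupClass.coe_sub, toeplitz_apply, toeplitz_apply, map_sum, map_sum,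
      ← Finset.sum_sub_distrib]
    refine Finset.sum_congr rfl fun j _ => ?_
    rw [← map_sub, mulOp_sub]
  rw [e1]
  calc ‖∑ j, P (mulOp (sh k (G i j) - G i j) (x j : Lp ℂ p (volume : Measure ℝ)))‖
      ≤ ∑ j, ‖P (mulOp (sh k (G i j) - G i j) (x j : Lp ℂ p (volume : Measure ℝ)))‖ :=
        norm_sum_le _ _
    _ ≤ ∑ j, (‖P‖ * ‖sh k (G i j) - G i j‖) * ‖x‖ := by
        refine Finset.sum_le_sum fun j _ => ?_
        refine (P.le_opNorm _).trans ?_
        rw [mul_assoc]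
        refine mul_le_mul_of_nonneg_left ((mulOp_norm _ _).trans ?_) (norm_nonneg _)
        refine mul_le_mul_of_nonneg_left ?_ (norm_nonneg _)
        exact norm_le_pi_norm x j
    _ = (∑ j, ‖P‖ * ‖sh k (G i j) - G i j‖) * ‖x‖ := by rw [Finset.sum_mul]
    _ ≤ eps P G k * ‖x‖ := by
        refine mul_le_mul_of_nonneg_right ?_ (norm_nonneg _)
        exact Finset.single_le_sum (f := fun i => ∑ j, ‖P‖ * ‖sh k (G i j) - G i j‖)
          (fun i _ => by positivity) (Finset.mem_univ i)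

theorem eps_tendsto (P : Lp ℂ p (volume : Measure ℝ) →L[ℂ] Lp ℂ p (volume : Measure ℝ)) {n : ℕ}
    (G : Matrix (Fin n) (Fin n) (ℝ →ᵇ ℂ)) (hG : ∀ i j, G i j ∈ AP) :
    Tendsto (eps P G) (bohr ⊓ atTop) (𝓝 0) := by
  have h1 : Tendsto (eps P G) (bohr ⊓ atTop) (𝓝 (∑ _i : Fin n, ∑ _j : Fin n, ‖P‖ * 0)) := by
    refine tendsto_finsetSum _ fun i _ => tendsto_finsetSum _ fun j _ => ?_
    exact ((ap_tendsto (G i j) (hG i j)).mono_left inf_le_left).const_mul _
  simpa using h1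



theorem main_inj (hp1' : 1 < p) (hp : p ≠ ∞)
    (P : Lp ℂ p (volume : Measure ℝ) →L[ℂ] Lp ℂ p (volume : Measure ℝ)) (hP : IsRieszMinus p P)
    (n : ℕ) (G : Matrix (Fin n) (Fin n) (ℝ →ᵇ ℂ)) (hG : ∀ i j, G i j ∈ AP) 
    (h : LeftFredholm (X := Fin n → Hminus p) (toeplitz P hP G)) :
    Function.Injective (toeplitz P hP G) := by
  have hcs : CompleteSpace (Hminus p) := (hminus_closed hP).completeSpace_coe
  have hcs2 : CompleteSpace (Fin n → Hminus p) := inferInstance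
  obtain ⟨h1, h2⟩ := h
  have key := abs_inj (X := Fin n → Hminus p) (l := bohr ⊓ atTop) (toeplitz P hP G)
    (fun k => trX n k) (fun k => toeplitz P hP (fun i j => sh k (G i j))) (eps P G)
  have key2 := key (by intro k x; exact trX_norm n k x)
  have key3 := key2 (by intro φ x; exact (trX_weak hp1' hp hP n φ x).mono_left inf_le_right)
  have key4 := key3 (by intro k x; exact toeplitz_tr hP n G k x)
  have key5 := key4 (by intro k x; exact toeplitz_diff hP n G k x)
  have key6 := key5 (eps_tendsto P G hG)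
  have key7 := key6 h1
  have key8 := key7 h2
  exact key8

theorem main_surj (hp1' : 1 < p) (hp : p ≠ ∞)
    (P : Lp ℂ p (volume : Measure ℝ) →L[ℂ] Lp ℂ p (volume : Measure ℝ)) (hP : IsRieszMinus p P)
    (n : ℕ) (G : Matrix (Fin n) (Fin n) (ℝ →ᵇ ℂ)) (hG : ∀ i j, G i j ∈ AP)
    (h : RightFredholm (X := Fin n → Hminus p) (toeplitz P hP G)) :
    Function.Surjective (toeplitz P hP G) := by
  have hcs : CompleteSpace (Hminus p) := (hminus_closed hP).completeSpace_coe
  have hcs2 : CompleteSpace (Fin n → Hminus p) := inferInstance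
  obtain ⟨h1, h2⟩ := h
  have key := abs_surj (X := Fin n → Hminus p) (l := bohr ⊓ atTop) (toeplitz P hP G)
    (fun k => trX n k) (fun k => toeplitz P hP (fun i j => sh k (G i j))) (eps P G)
  have key2 := key (by intro k x; exact trX_norm n k x) (by intro k; exact trX_surj n k)
  have key3 := key2 (by intro φ x; exact (trX_weak hp1' hp hP n φ x).mono_left inf_le_right)
  have key4 := key3 (by intro k x; exact toeplitz_tr hP n G k x)
  have key5 := key4 (by intro k x; exact toeplitz_diff hP n G k x)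
  have key6 := key5 (eps_tendsto P G hG)
  have key7 := key6 h1
  have key8 := key7 h2
  exact key8

theorem main_unit (hp1' : 1 < p) (hp : p ≠ ∞)
    (P : Lp ℂ p (volume : Measure ℝ) →L[ℂ] Lp ℂ p (volume : Measure ℝ)) (hP : IsRieszMinus p P)
    (n : ℕ) (G : Matrix (Fin n) (Fin n) (ℝ →ᵇ ℂ)) (hG : ∀ i j, G i j ∈ AP)
    (h : IsFredholm (X := Fin n → Hminus p) (toeplitz P hP G)) :
    IsUnit (toeplitz P hP G) := by
  have hcs : CompleteSpace (Hminus p) := (hminus_closed hP).completeSpace_coe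
  have hcs2 : CompleteSpace (Fin n → Hminus p) := inferInstance
  have h1 := main_inj hp1' hp P hP n G hG h.1
  have h2 := main_surj hp1' hp P hP n G hG h.2
  have key := (ContinuousLinearMap.isUnit_iff_bijective (E := Fin n → Hminus p) (𝕜 := ℂ)
    (f := toeplitz P hP G)).2 ⟨h1, h2⟩
  exact key


end Pool.Agent.Helper436.TAPfull
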