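import Pool.Agent.Helper436.TFWHyd

/-!
# TFW theory: basic integrability and bounds
-/

set_option autoImplicit false

open MeasureTheory

namespace Pool.Agent.Helper436.TFW

/-- Admissible functions. -/
structure Adm (ψ : E3 → ℝ) : Prop where
  cd : ContDiff ℝ 1 ψ
  cs : HasCompactSupport ψ

noncomputable def Kin (ψ : E3 → ℝ) : ℝ := ∫ x, ‖fderiv ℝ ψ x‖ ^ 2
noncomputable def Pot (a : E3) (ψ : E3 → ℝ) : ℝ := ∫ x, ψ x ^ 2 / ‖x - a‖
noncomputable def TFe (ψ : E3 → ℝ) : ℝ := ∫ x, |ψ x| ^ ((10 : ℝ) / 3)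
noncomputable def Mass (ψ : E3 → ℝ) : ℝ := ∫ x, ψ x ^ 2
/-- The Coulomb potential of `ψ²`. -/
noncomputable def U (ψ : E3 → ℝ) (x : E3) : ℝ := ∫ y, ψ y ^ 2 / ‖x - y‖
noncomputable def Dir (ψ : E3 → ℝ) : ℝ := ∫ x, ∫ y, ψ x ^ 2 * ψ y ^ 2 / ‖x - y‖

section basic

variable {ψ : E3 → ℝ}

lemma Adm.cont (h : Adm ψ) : Continuous ψ := h.cd.continuous

lemma Adm.sq_cs (h : Adm ψ) : HasCompactSupport (fun x => ψ x ^ 2) := by
  have : (fun x => ψ x ^ 2) = (fun t : ℝ => t ^ 2) ∘ ψ := rfl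
  rw [this]
  exact h.cs.comp_left (by norm_num)

lemma Adm.sq_cont (h : Adm ψ) : Continuous (fun x => ψ x ^ 2) := h.cont.pow 2

lemma Adm.sq_int (h : Adm ψ) : Integrable (fun x => ψ x ^ 2) :=
  h.sq_cont.integrable_of_hasCompactSupport h.sq_cs

/-- `ψ²` times a continuous function is integrable. -/
lemma Adm.sq_mul_int (h : Adm ψ) {g : E3 → ℝ} (hg : Continuous g) :
    Integrable (fun x => ψ x ^ 2 * g x) := by
  apply (h.sq_cont.mul hg).integrable_of_hasCompactSupport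
  exact h.sq_cs.mul_right

lemma Adm.fderiv_cont (h : Adm ψ) : Continuous (fderiv ℝ ψ) :=
  h.cd.continuous_fderiv (by norm_num)

lemma Adm.kin_int (h : Adm ψ) : Integrable (fun x => ‖fderiv ℝ ψ x‖ ^ 2) := by
  have hc : HasCompactSupport (fun x => ‖fderiv ℝ ψ x‖ ^ 2) := by
    have : (fun x => ‖fderiv ℝ ψ x‖ ^ 2) = (fun t : E3 →L[ℝ] ℝ => ‖t‖ ^ 2) ∘ fderiv ℝ ψ := rfl
    rw [this]
    exact (h.cs.fderiv (𝕜 := ℝ)).comp_left (by simp)
  exact Continuous.integrable_of_hasCompactSupport (h.fderiv_cont.norm.pow 2) hc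

lemma Adm.tf_int (h : Adm ψ) : Integrable (fun x => |ψ x| ^ ((10 : ℝ) / 3)) := by
  apply Continuous.integrable_of_hasCompactSupport
  · exact h.cont.abs.rpow_const (fun x => Or.inr (by norm_num))
  · have : (fun x => |ψ x| ^ ((10 : ℝ) / 3)) = (fun t : ℝ => |t| ^ ((10 : ℝ) / 3)) ∘ ψ := rfl
    rw [this]
    refine h.cs.comp_left ?_
    rw [abs_zero, Real.zero_rpow (by norm_num)]

lemma kin_nonneg : 0 ≤ Kin ψ := integral_nonneg fun _ => by positivity
lemma mass_nonneg : 0 ≤ Mass ψ := integral_nonneg fun _ => by positivity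
lemma tf_nonneg : 0 ≤ TFe ψ := integral_nonneg fun _ => by positivity
lemma pot_nonneg (a : E3) : 0 ≤ Pot a ψ := integral_nonneg fun _ => by positivity
lemma U_nonneg (x : E3) : 0 ≤ U ψ x := integral_nonneg fun _ => by positivity
lemma dir_nonneg : 0 ≤ Dir ψ :=
  integral_nonneg fun _ => integral_nonneg fun _ => by positivity

lemma Adm.pot_int (h : Adm ψ) (a : E3) : Integrable (fun x => ψ x ^ 2 / ‖x - a‖) :=
  (hydrogen h.cd h.cs a one_pos).1

lemma Adm.U_int (h : Adm ψ) (x : E3) : Integrable (fun y => ψ y ^ 2 / ‖x - y‖) := by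
  have := h.pot_int x
  simpa only [norm_sub_rev] using this

lemma U_eq_pot (x : E3) : U ψ x = Pot x ψ := by
  unfold U Pot
  simp only [norm_sub_rev]

/-- A bound of the potential. -/
noncomputable def UB (ψ : E3 → ℝ) : ℝ := Real.sqrt (Kin ψ) * Real.sqrt (Mass ψ) + (3 / 2) * Mass ψ

lemma Adm.wt_int (h : Adm ψ) (a : E3) {l : ℝ} (hl : 0 < l) :
    Integrable (fun x => ψ x ^ 2 / (l + ‖x - a‖)) := by
  have h1 : Continuous (fun x : E3 => (l + ‖x - a‖)⁻¹) := by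
    apply Continuous.inv₀ (by fun_prop)
    intro x
    have := norm_nonneg (x - a)
    positivity
  simpa only [div_eq_mul_inv] using h.sq_mul_int h1

lemma Adm.wt2_int (h : Adm ψ) (a : E3) {l : ℝ} (hl : 0 < l) :
    Integrable (fun x => ψ x ^ 2 / (1 + ‖x - a‖ / l) ^ 2) := by
  have h1 : Continuous (fun x : E3 => ((1 + ‖x - a‖ / l) ^ 2)⁻¹) := by
    apply Continuous.inv₀ (by fun_prop)
    intro x
    have := norm_nonneg (x - a)
    positivity
  simpa only [div_eq_mul_inv] using h.sq_mul_int h1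

lemma Adm.pot_le (h : Adm ψ) (a : E3) : Pot a ψ ≤ UB ψ := by
  refine (hydrogen h.cd h.cs a one_pos).2.trans ?_
  unfold UB
  have h1 : (∫ x, ψ x ^ 2 / (1 + ‖x - a‖ / 1) ^ 2) ≤ Mass ψ := by
    apply integral_mono (h.wt2_int a one_pos) h.sq_int
    intro x
    simp only
    apply div_le_self (by positivity)
    have := norm_nonneg (x - a)
    nlinarith
  have h2 : (∫ x, ψ x ^ 2 / (1 + ‖x - a‖)) ≤ Mass ψ := by
    apply integral_mono (h.wt_int a one_pos) h.sq_int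
    intro x
    simp only
    apply div_le_self (by positivity)
    have := norm_nonneg (x - a)
    linarith
  have h3 := Real.sqrt_le_sqrt h1
  have h4 : 0 ≤ Real.sqrt (∫ x, ‖fderiv ℝ ψ x‖ ^ 2) := Real.sqrt_nonneg _
  have h5 := mul_le_mul_of_nonneg_left h3 h4
  unfold Kin
  linarith

lemma Adm.U_le (h : Adm ψ) (x : E3) : U ψ x ≤ UB ψ := by
  rw [U_eq_pot]; exact h.pot_le x

lemma UB_nonneg : 0 ≤ UB ψ := by
  unfold UB
  have := mass_nonneg (ψ := ψ)
  positivity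

end basic

section pair

variable {ψ φ : E3 → ℝ}

/-- Integrability of the mutual Coulomb energy density. -/
lemma cross_int (h : Adm ψ) (h' : Adm φ) : Integrable (fun p : E3 × E3 =>
    ψ p.1 ^ 2 * φ p.2 ^ 2 / ‖p.1 - p.2‖) (volume.prod volume) := by
  have hm1 : Measurable ψ := h.cont.measurable
  have hm2 : Measurable φ := h'.cont.measurable
  have hm : Measurable (fun p : E3 × E3 => ψ p.1 ^ 2 * φ p.2 ^ 2 / ‖p.1 - p.2‖) := by fun_prop
  rw [integrable_prod_iff hm.aestronglyMeasurable]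
  constructor
  · refine Filter.Eventually.of_forall fun x => ?_
    have := (h'.U_int x).const_mul (ψ x ^ 2)
    refine this.congr (Filter.Eventually.of_forall fun y => ?_)
    simp only; ring
  · have h1 : (fun x => ∫ y, ‖ψ x ^ 2 * φ y ^ 2 / ‖x - y‖‖) = fun x => ψ x ^ 2 * U φ x := by
      funext x
      unfold U
      rw [← integral_const_mul]
      congr 1
      funext y
      rw [Real.norm_of_nonneg (by positivity)]
      ring
    simp only
    rw [h1]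
    have h2 : AEStronglyMeasurable (fun x => ψ x ^ 2 * U φ x) volume := by
      rw [← h1]
      exact (hm.norm.stronglyMeasurable.integral_prod_right' (ν := volume)).aestronglyMeasurable
    refine (h.sq_int.mul_const (UB φ)).mono' h2 (Filter.Eventually.of_forall fun x => ?_)
    rw [Real.norm_of_nonneg (mul_nonneg (by positivity) (U_nonneg x))]
    exact mul_le_mul_of_nonneg_left (h'.U_le x) (by positivity)

/-- Weighted version. -/
lemma cross_mul_int (h : Adm ψ) (h' : Adm φ) {g : E3 × E3 → ℝ} (hg : Continuous g) {C : ℝ}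
    (hC : ∀ p, |g p| ≤ C) : Integrable (fun p : E3 × E3 =>
    g p * (ψ p.1 ^ 2 * φ p.2 ^ 2 / ‖p.1 - p.2‖)) (volume.prod volume) := by
  exact (cross_int h h').bdd_mul hg.aestronglyMeasurable
    (Filter.Eventually.of_forall fun p => by rw [Real.norm_eq_abs]; exact hC p)

lemma U_mul_int (h : Adm ψ) (h' : Adm φ) {g : E3 → ℝ} (hg : Continuous g) :
    Integrable (fun x => g x * ψ x ^ 2 * U φ x) := by
  have hm1 : Measurable ψ := h.cont.measurable
  have hm2 : Measurable φ := h'.cont.measurable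
  have hU : Measurable (fun p : E3 × E3 => φ p.2 ^ 2 / ‖p.1 - p.2‖) := by fun_prop
  have h2 : AEStronglyMeasurable (U φ) volume :=
      (hU.stronglyMeasurable.integral_prod_right' (ν := volume)).aestronglyMeasurable
  have h3 := h.sq_mul_int hg
  have h4 : Integrable (fun x => g x * ψ x ^ 2) := by
    refine h3.congr (Filter.Eventually.of_forall fun x => ?_)
    simp only; ring
  refine (h4.norm.mul_const (UB φ)).mono' (h4.aestronglyMeasurable.mul h2)
    (Filter.Eventually.of_forall fun x => ?_)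
  simp only [norm_mul]
  rw [Real.norm_of_nonneg (U_nonneg (ψ := φ) x)]
  exact mul_le_mul_of_nonneg_left (h'.U_le x) (by positivity)

lemma dir_eq_prod (h : Adm ψ) : Dir ψ = ∫ p : E3 × E3, ψ p.1 ^ 2 * ψ p.2 ^ 2 / ‖p.1 - p.2‖
    ∂(volume.prod volume) := by
  rw [integral_prod _ (cross_int h h)]
  rfl

lemma dir_eq_U (ψ : E3 → ℝ) : Dir ψ = ∫ x, ψ x ^ 2 * U ψ x := by
  unfold Dir U
  congr 1
  funext x
  rw [← integral_const_mul]
  congr 1
  funext y
  ring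

end pair

section bounds

variable {ψ : E3 → ℝ}

/-- Weighted masses. -/
noncomputable def Wt (a : E3) (l : ℝ) (ψ : E3 → ℝ) : ℝ := ∫ x, ψ x ^ 2 / (l + ‖x - a‖)
noncomputable def M2 (a : E3) (l : ℝ) (ψ : E3 → ℝ) : ℝ := ∫ x, ψ x ^ 2 / (1 + ‖x - a‖ / l) ^ 2

lemma wt_nonneg (a : E3) {l : ℝ} (hl : 0 < l) : 0 ≤ Wt a l ψ :=
  integral_nonneg fun x => by have := norm_nonneg (x - a); positivity

lemma m2_nonneg (a : E3) {l : ℝ} : 0 ≤ M2 a l ψ :=
  integral_nonneg fun x => by positivity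

lemma Adm.pot_le2 (h : Adm ψ) (a : E3) {l : ℝ} (hl : 0 < l) :
    Pot a ψ ≤ Real.sqrt (Kin ψ) * Real.sqrt (M2 a l ψ) + (3 / 2) * Wt a l ψ :=
  (hydrogen h.cd h.cs a hl).2

lemma Adm.m2_le (h : Adm ψ) (a : E3) {l : ℝ} (hl : 0 < l) : M2 a l ψ ≤ l * Wt a l ψ := by
  unfold M2 Wt
  rw [← integral_const_mul]
  apply integral_mono (h.wt2_int a hl) ((h.wt_int a hl).const_mul l)
  intro x
  simp only
  have hn := norm_nonneg (x - a)
  have h1 : l * (ψ x ^ 2 / (l + ‖x - a‖)) = ψ x ^ 2 / (1 + ‖x - a‖ / l) := by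
    field_simp
  rw [h1]
  have h3 : 0 ≤ ‖x - a‖ / l := by positivity
  apply div_le_div_of_nonneg_left (by positivity) (by positivity)
  nlinarith

lemma ae_ne (x : E3) : ∀ᵐ y ∂(volume : Measure E3), y ≠ x := by
  rw [ae_iff]
  simp

lemma Adm.U_ge (h : Adm ψ) (x : E3) {g : E3 → ℝ} (hg : Integrable (fun y => ψ y ^ 2 * g y))
    (hle : ∀ y, y ≠ x → g y ≤ 1 / ‖x - y‖) : ∫ y, ψ y ^ 2 * g y ≤ U ψ x := by
  unfold U
  apply integral_mono_ae hg (h.U_int x)
  filter_upwards [ae_ne x] with y hy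
  have := mul_le_mul_of_nonneg_left (hle y hy) (sq_nonneg (ψ y))
  rwa [mul_one_div] at this

lemma Adm.U_lower (h : Adm ψ) (a x : E3) {r : ℝ} (hr : 0 < r) :
    r / (r + ‖x - a‖) * Wt a r ψ ≤ U ψ x := by
  have h1 : Integrable (fun y => ψ y ^ 2 * (r / (r + ‖x - a‖) / (r + ‖y - a‖))) := by
    have := (h.wt_int a hr).const_mul (r / (r + ‖x - a‖))
    refine this.congr (Filter.Eventually.of_forall fun y => ?_)
    simp only; ring
  have h2 := h.U_ge x h1 ?_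
  · refine le_trans (le_of_eq ?_) h2
    unfold Wt
    rw [← integral_const_mul]
    congr 1
    funext y
    ring
  · intro y hy
    have hx := norm_nonneg (x - a)
    have hy' := norm_nonneg (y - a)
    have hxy : 0 < ‖x - y‖ := norm_pos_iff.mpr (sub_ne_zero.mpr (Ne.symm hy))
    have htri : ‖x - y‖ ≤ ‖x - a‖ + ‖y - a‖ := by
      have : x - y = (x - a) - (y - a) := by abel
      rw [this]
      exact norm_sub_le _ _
    rw [div_div, div_le_div_iff₀ (by positivity) hxy]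
    nlinarith [mul_nonneg hx hy']

lemma Adm.K_ineq (h : Adm ψ) (a : E3) {r : ℝ} (hr : 0 < r) :
    r * Wt a r ψ ^ 2 ≤ Dir ψ := by
  rw [dir_eq_U]
  have h1 : r * Wt a r ψ ^ 2 = ∫ x, ψ x ^ 2 / (r + ‖x - a‖) * (r * Wt a r ψ) := by
    rw [integral_mul_const]
    unfold Wt
    ring
  rw [h1]
  apply integral_mono ((h.wt_int a hr).mul_const _)
  · have := U_mul_int h h (g := fun _ => 1) continuous_const
    simpa using this
  · intro x
    simp only
    have h2 := mul_le_mul_of_nonneg_left (h.U_lower a x hr) (sq_nonneg (ψ x))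
    refine le_trans (le_of_eq ?_) h2
    ring

lemma Adm.wt_le (h : Adm ψ) (a : E3) {r : ℝ} (hr : 0 < r) : Wt a r ψ ≤ Real.sqrt (Dir ψ / r) := by
  apply Real.le_sqrt_of_sq_le
  rw [le_div_iff₀ hr]
  have := h.K_ineq a hr
  linarith

/-- `|x| ≥ l` implies `U(x) ≥ M2/|x|`. -/
lemma Adm.U_outer (h : Adm ψ) {l : ℝ} (hl : 0 < l) {x : E3} (hx : l ≤ ‖x‖) :
    M2 0 l ψ / ‖x‖ ≤ U ψ x := by
  have hx0 : 0 < ‖x‖ := hl.trans_le hx
  have h1 : Integrable (fun y => ψ y ^ 2 * (1 / ((1 + ‖y‖ / l) ^ 2 * ‖x‖))) := by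
    have := (h.wt2_int 0 hl).mul_const (1 / ‖x‖)
    refine this.congr (Filter.Eventually.of_forall fun y => ?_)
    simp only [sub_zero]
    field_simp
  have h2 := h.U_ge x h1 ?_
  · refine le_trans (le_of_eq ?_) h2
    unfold M2
    rw [← integral_div]
    congr 1
    funext y
    simp only [sub_zero]
    field_simp
  · intro y hy
    have hy' := norm_nonneg y
    have hxy : 0 < ‖x - y‖ := norm_pos_iff.mpr (sub_ne_zero.mpr (Ne.symm hy))
    have htri : ‖x - y‖ ≤ ‖x‖ + ‖y‖ := norm_sub_le _ _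
    apply div_le_div_of_nonneg_left (by norm_num) hxy
    refine htri.trans ?_
    have h3 : ‖y‖ ≤ ‖y‖ / l * ‖x‖ := by
      rw [div_mul_eq_mul_div, le_div_iff₀ hl]
      nlinarith
    have h4 : 0 ≤ ‖y‖ / l := by positivity
    have h5 : 1 + ‖y‖ / l ≤ (1 + ‖y‖ / l) ^ 2 := by nlinarith
    nlinarith [mul_le_mul_of_nonneg_right h5 hx0.le]

lemma Adm.pot_le3 (h : Adm ψ) (a : E3) :
    Pot a ψ ≤ Kin ψ / 8 + (7 / 2) * Real.sqrt (Dir ψ) := by
  have h1 := h.pot_le2 a one_pos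
  have h2 : Wt a 1 ψ ≤ Real.sqrt (Dir ψ) := by simpa using h.wt_le a one_pos
  have h3 : M2 a 1 ψ ≤ Real.sqrt (Dir ψ) := by
    have := h.m2_le a one_pos
    linarith
  set K := Kin ψ with hK
  set d := Real.sqrt (Dir ψ) with hd
  have hd0 : 0 ≤ d := Real.sqrt_nonneg _
  have hK0 : 0 ≤ K := kin_nonneg
  have h4 : Real.sqrt K * Real.sqrt (M2 a 1 ψ) ≤ Real.sqrt K * Real.sqrt d :=
    mul_le_mul_of_nonneg_left (Real.sqrt_le_sqrt h3) (Real.sqrt_nonneg _)
  have h5 : Real.sqrt K * Real.sqrt d ≤ K / 8 + 2 * d := by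
    have e1 := Real.sq_sqrt hK0
    have e2 := Real.sq_sqrt hd0
    nlinarith [sq_nonneg (Real.sqrt K - 4 * Real.sqrt d)]
  linarith

/-- The TFW energy with nuclei of charge `1` at the origin and `z` at `b`. -/
noncomputable def En (c z : ℝ) (b : E3) (ψ : E3 → ℝ) : ℝ :=
  Kin ψ + c * TFe ψ - Pot 0 ψ - z * Pot b ψ + (1 / 2) * Dir ψ

lemma Adm.en_aux (h : Adm ψ) {c z : ℝ} (hc : 0 ≤ c) (hz : 0 ≤ z) (hz1 : z ≤ 1) (b : E3) :
    (3 / 4) * Kin ψ + (1 / 2) * Real.sqrt (Dir ψ) ^ 2 - 7 * Real.sqrt (Dir ψ) ≤ En c z b ψ := by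
  have h1 := h.pot_le3 0
  have h2 := h.pot_le3 b
  have h3 : z * Pot b ψ ≤ Kin ψ / 8 + (7 / 2) * Real.sqrt (Dir ψ) := by
    have := pot_nonneg (ψ := ψ) b
    nlinarith
  have h4 : 0 ≤ c * TFe ψ := mul_nonneg hc tf_nonneg
  rw [Real.sq_sqrt dir_nonneg]
  unfold En
  linarith

lemma Adm.en_lower (h : Adm ψ) {c z : ℝ} (hc : 0 ≤ c) (hz : 0 ≤ z) (hz1 : z ≤ 1) (b : E3) :
    -25 ≤ En c z b ψ := by
  have h1 := h.en_aux hc hz hz1 b
  have h2 := kin_nonneg (ψ := ψ)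
  nlinarith [sq_nonneg (Real.sqrt (Dir ψ) - 7)]

lemma Adm.kin_le (h : Adm ψ) {c z : ℝ} (hc : 0 ≤ c) (hz : 0 ≤ z) (hz1 : z ≤ 1) (b : E3)
    (hE : En c z b ψ ≤ 0) : Kin ψ ≤ 33 := by
  have h1 := h.en_aux hc hz hz1 b
  nlinarith [sq_nonneg (Real.sqrt (Dir ψ) - 7)]

lemma Adm.dir_le (h : Adm ψ) {c z : ℝ} (hc : 0 ≤ c) (hz : 0 ≤ z) (hz1 : z ≤ 1) (b : E3)
    (hE : En c z b ψ ≤ 0) : Real.sqrt (Dir ψ) ≤ 14 := by
  have h1 := h.en_aux hc hz hz1 b
  have h2 := kin_nonneg (ψ := ψ)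
  have h3 := Real.sqrt_nonneg (Dir ψ)
  by_contra hcon
  push Not at hcon
  nlinarith

lemma Adm.pot_le54 (h : Adm ψ) {c z : ℝ} (hc : 0 ≤ c) (hz : 0 ≤ z) (hz1 : z ≤ 1) (b : E3)
    (hE : En c z b ψ ≤ 0) (a : E3) : Pot a ψ ≤ 54 := by
  have h1 := h.pot_le3 a
  have h2 := h.kin_le hc hz hz1 b hE
  have h3 := h.dir_le hc hz hz1 b hE
  linarith

end bounds

end Pool.Agent.Helper436.TFW
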