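import Pool.Agent.Helper436.TFWBasic

/-!
# TFW theory: scaling and the virial bound
-/

set_option autoImplicit false

open MeasureTheory

namespace Pool.Agent.Helper436.TFW

lemma quad_aux {a b e : ℝ} (ha : 0 ≤ a) (hb : 0 < b) (he : 0 < e)
    (h : ∀ y : ℝ, 0 < y → -e ≤ y ^ 2 * a - y * b) : b ^ 2 ≤ 4 * a * e := by
  rcases ha.eq_or_lt with rfl | ha
  · have h1 := h (2 * e / b) (by positivity)
    have : 2 * e / b * b = 2 * e := by field_simp
    nlinarith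
  · have h1 := h (b / (2 * a)) (by positivity)
    have h2 : (b / (2 * a)) ^ 2 * a - b / (2 * a) * b = -(b ^ 2 / (4 * a)) := by
      field_simp
      ring
    rw [h2] at h1
    have h3 : b ^ 2 / (4 * a) ≤ e := by linarith
    rw [div_le_iff₀ (by positivity)] at h3
    linarith

lemma near_aux {X e η κ : ℝ} (hX : 0 ≤ X) (he : 0 < e) (hη : 0 ≤ η) (hη3 : η ≤ e / 8)
    (hκ : 0 ≤ κ) (hη2 : 8 * e * η ≤ κ ^ 2) (h : (X + e - η) ^ 2 ≤ 4 * X * e) :
    e - κ ≤ X ∧ X ≤ e + κ := by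
  have h1 : (X - e) ^ 2 ≤ 2 * η * (X + e) := by nlinarith [sq_nonneg η]
  have h2 : X ≤ 3 * e := by
    by_contra hc
    push Not at hc
    nlinarith
  have h3 : (X - e) ^ 2 ≤ κ ^ 2 := by
    refine h1.trans ?_
    nlinarith
  have h4 := abs_le_of_sq_le_sq' h3 hκ
  constructor <;> linarith [h4.1, h4.2]

lemma virial_alg {e K F P D η θ q m : ℝ} (he : 0 < e) (hq : 0 < q) (hq1 : q ≤ 1)
    (heq : 1 + q ≤ 9 * e) (hK : 0 ≤ K) (hF : 0 ≤ F) (hD : 0 ≤ D) (hm : 0 ≤ m)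
    (hη : 0 ≤ η) (hη1 : η ≤ q / 100) (hη2 : 8 * e * η ≤ (q / 100) ^ 2) (hη3 : η ≤ e / 8)
    (hθ : θ ≤ q / 100)
    (h1 : ∀ l : ℝ, 0 < l → -e ≤ l ^ 2 * (K + F) - l * (P - D))
    (h2 : ∀ t : ℝ, 0 < t → -e ≤ t ^ 2 * (K - P) + t ^ 4 * D + t ^ ((10 : ℝ) / 3) * F)
    (h3 : K + F - P + D ≤ -e + η) (h4 : P ≤ Real.sqrt K * Real.sqrt m + θ) : 1 + q / 2 ≤ m := by
  have hX := near_aux (X := K + F) (κ := q / 100) (by positivity) he hη hη3 (by positivity) hη2 (by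
    have := quad_aux (a := K + F) (b := P - D) (by positivity) (by linarith) he h1
    have h5 : K + F + e - η ≤ P - D := by linarith
    have h6 : 0 ≤ K + F + e - η := by linarith
    exact (pow_le_pow_left₀ h6 h5 2).trans this)
  have hD' := near_aux (X := D + 2 / 3 * F) (κ := q / 100) (by positivity) he hη hη3
    (by positivity) hη2 (by
    have h5 : D + 2 / 3 * F + e - η ≤ P - K - F / 3 := by linarith
    have h6 : 0 ≤ D + 2 / 3 * F + e - η := by linarith [mul_nonneg (show (0 : ℝ) ≤ 2 / 3 by norm_num) hF]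
    have h6' : 0 < P - K - F / 3 := by
      have : 0 < D + 2 / 3 * F + e - η := by
        have := mul_nonneg (show (0 : ℝ) ≤ 2 / 3 by norm_num) hF
        linarith
      linarith
    have := quad_aux (a := D + 2 / 3 * F) (b := P - K - F / 3) (by positivity) h6' he (by
      intro y hy
      have h7 := h2 (Real.sqrt y) (Real.sqrt_pos.mpr hy)
      have e1 : Real.sqrt y ^ 2 = y := Real.sq_sqrt hy.le
      have e2 : Real.sqrt y ^ 4 = y ^ 2 := by
        have : Real.sqrt y ^ 4 = (Real.sqrt y ^ 2) ^ 2 := by ring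
        rw [this, e1]
      have e3 : Real.sqrt y ^ ((10 : ℝ) / 3) = y ^ ((5 : ℝ) / 3) := by
        rw [Real.sqrt_eq_rpow, ← Real.rpow_mul hy.le]
        norm_num
      have e4 : y ^ ((5 : ℝ) / 3) ≤ 1 / 3 * y + 2 / 3 * y ^ 2 := by
        have h8 := Real.geom_mean_le_arith_mean2_weighted (w₁ := 1 / 3) (w₂ := 2 / 3)
          (p₁ := y) (p₂ := y ^ 2) (by norm_num) (by norm_num) hy.le (by positivity) (by norm_num)
        refine le_trans (le_of_eq ?_) h8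
        have : (y ^ 2 : ℝ) = y ^ (2 : ℝ) := by norm_num
        rw [this, ← Real.rpow_mul hy.le, ← Real.rpow_add hy]
        norm_num
      rw [e1, e2, e3] at h7
      nlinarith [mul_le_mul_of_nonneg_right e4 hF])
    exact (pow_le_pow_left₀ h6 h5 2).trans this)
  set κ := q / 100 with hκ
  have hκ0 : 0 < κ := by positivity
  have hP : 3 * e - 2 / 3 * F - 2 * κ - η ≤ P := by linarith [hX.1, hD'.1]
  have hK' : K ≤ e + κ - F := by linarith [hX.2]
  have hF' : F ≤ e + κ := by linarith [hX.2]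
  by_contra hcon
  push Not at hcon
  -- `G - κ₂ ≤ P - θ`
  have hG : 0 ≤ 3 * e - 2 / 3 * F - (2 * κ + η + θ) := by
    have : q ≤ 9 * e - 1 := by linarith
    have : κ = q / 100 := hκ
    nlinarith
  have hPθ : 3 * e - 2 / 3 * F - (2 * κ + η + θ) ≤ P - θ := by linarith
  have h5 : P - θ ≤ Real.sqrt K * Real.sqrt m := by linarith
  have h6 : (3 * e - 2 / 3 * F - (2 * κ + η + θ)) ^ 2 ≤ K * m := by
    have h7 := pow_le_pow_left₀ hG (hPθ.trans h5) 2
    rwa [mul_pow, Real.sq_sqrt hK, Real.sq_sqrt hm] at h7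
  have h7 : K * m ≤ (e + κ - F) * m := mul_le_mul_of_nonneg_right hK' hm
  set w := 2 * κ + η + θ with hw
  have hw1 : w ≤ 4 * κ := by linarith
  have h8 : 9 * e ^ 2 - 4 * e * F - 6 * e * w ≤ (e - F) * m + κ * m := by
    have h9 : (3 * e - 2 / 3 * F - w) ^ 2 = 9 * e ^ 2 - 4 * e * F - 6 * e * w
        + ((2 / 3 * F) ^ 2 + w ^ 2 + 4 / 3 * F * w) := by ring
    have h10 : 0 ≤ (2 / 3 * F) ^ 2 + w ^ 2 + 4 / 3 * F * w := by
      nlinarith [sq_nonneg (2 / 3 * F + w)]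
    nlinarith
  have hm9 : m ≤ 9 * e - q / 2 := by linarith
  by_cases hFe : F ≤ e
  · have h9 : (e - F) * m ≤ (e - F) * (9 * e - q / 2) :=
      mul_le_mul_of_nonneg_left hm9 (by linarith)
    have h10 : κ * m ≤ κ * (9 * e) := mul_le_mul_of_nonneg_left (by linarith) hκ0.le
    have h11 : 0 ≤ (5 * e - q / 2) * F := mul_nonneg (by linarith) hF
    have h12 : q / 2 * e ≤ 6 * e * w + κ * (9 * e) := by nlinarith
    have h13 : 6 * e * w ≤ 6 * e * (4 * κ) := mul_le_mul_of_nonneg_left hw1 (by positivity)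
    have h14 : q / 2 * e ≤ 33 * κ * e := by nlinarith
    have h15 : q / 2 ≤ 33 * κ := le_of_mul_le_mul_right h14 he
    rw [hκ] at h15
    linarith
  · push Not at hFe
    have h9 : (e - F) * m ≤ 0 := by
      have : e - F ≤ 0 := by linarith
      nlinarith
    have h10 : κ * m ≤ κ * (9 * e) := mul_le_mul_of_nonneg_left (by linarith) hκ0.le
    have h13 : 6 * e * w ≤ 6 * e * (4 * κ) := mul_le_mul_of_nonneg_left hw1 (by positivity)
    have h14 : e * F ≤ e * (e + κ) := mul_le_mul_of_nonneg_left hF' he.le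
    have h15 : 5 * e * e ≤ 37 * κ * e := by nlinarith
    have h16 : 5 * e ≤ 37 * κ := le_of_mul_le_mul_right h15 he
    rw [hκ] at h16
    linarith

section scaling

variable {ψ : E3 → ℝ}

lemma scale_adm (h : Adm ψ) (s : ℝ) {l : ℝ} (hl : 0 < l) : Adm (fun x => s * ψ (l • x)) := by
  constructor
  · exact contDiff_const.mul (h.cd.comp (contDiff_const_smul l))
  · have h1 : HasCompactSupport (fun x : E3 => ψ (l • x)) := h.cs.comp_smul hl.ne'
    exact h1.mul_left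

lemma int_scale (g : E3 → ℝ) {l : ℝ} (hl : 0 < l) : ∫ x, g (l • x) = (l ^ 3)⁻¹ * ∫ x, g x := by
  rw [Measure.integral_comp_smul]
  simp only [finrank_euclideanSpace, Fintype.card_fin, smul_eq_mul]
  rw [abs_of_pos (by positivity)]

lemma scale_kin (h : Adm ψ) (s : ℝ) {l : ℝ} (hl : 0 < l) :
    Kin (fun x => s * ψ (l • x)) = s ^ 2 * l⁻¹ * Kin ψ := by
  unfold Kin
  have h1 : ∀ x : E3, ‖fderiv ℝ (fun x => s * ψ (l • x)) x‖ ^ 2 =
      s ^ 2 * l ^ 2 * ‖fderiv ℝ ψ (l • x)‖ ^ 2 := by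
    intro x
    have hd : HasFDerivAt ψ (fderiv ℝ ψ (l • x)) (l • x) :=
      (h.cd.differentiable (by norm_num) _).hasFDerivAt
    have h2 : HasFDerivAt (fun x : E3 => l • x) (l • ContinuousLinearMap.id ℝ E3) x :=
      (hasFDerivAt_id x).const_smul l
    have h3 := (hd.comp x h2).const_mul s
    have h4 : fderiv ℝ (fun x => s * ψ (l • x)) x =
      s • ((fderiv ℝ ψ (l • x)).comp (l • ContinuousLinearMap.id ℝ E3)) := h3.fderiv
    rw [h4, ContinuousLinearMap.comp_smul, ContinuousLinearMap.comp_id, norm_smul, norm_smul,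
      mul_pow, mul_pow, Real.norm_eq_abs, Real.norm_eq_abs, sq_abs, sq_abs]
    ring
  simp_rw [h1]
  rw [integral_const_mul, int_scale (fun x => ‖fderiv ℝ ψ x‖ ^ 2) hl]
  field_simp

lemma scale_pot (ψ : E3 → ℝ) (s : ℝ) {l : ℝ} (hl : 0 < l) :
    Pot 0 (fun x => s * ψ (l • x)) = s ^ 2 * (l ^ 2)⁻¹ * Pot 0 ψ := by
  unfold Pot
  have h1 : ∀ x : E3, (s * ψ (l • x)) ^ 2 / ‖x - 0‖ =
      s ^ 2 * l * (ψ (l • x) ^ 2 / ‖l • x - 0‖) := by
    intro x
    rw [sub_zero, sub_zero, norm_smul, Real.norm_of_nonneg hl.le]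
    by_cases hx : ‖x‖ = 0
    · rw [hx]; simp
    · field_simp
  simp_rw [h1]
  rw [integral_const_mul, int_scale (fun x => ψ x ^ 2 / ‖x - 0‖) hl]
  field_simp

lemma scale_dir (ψ : E3 → ℝ) (s : ℝ) {l : ℝ} (hl : 0 < l) :
    Dir (fun x => s * ψ (l • x)) = s ^ 4 * (l ^ 5)⁻¹ * Dir ψ := by
  unfold Dir
  have h1 : ∀ x y : E3, (s * ψ (l • x)) ^ 2 * (s * ψ (l • y)) ^ 2 / ‖x - y‖ =
      s ^ 4 * l * (ψ (l • x) ^ 2 * ψ (l • y) ^ 2 / ‖l • x - l • y‖) := by
    intro x y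
    rw [← smul_sub, norm_smul, Real.norm_of_nonneg hl.le]
    by_cases hx : ‖x - y‖ = 0
    · rw [hx]; simp
    · field_simp
  simp_rw [h1]
  have h2 : ∀ x : E3, ∫ y, s ^ 4 * l * (ψ (l • x) ^ 2 * ψ (l • y) ^ 2 / ‖l • x - l • y‖) =
      s ^ 4 * l * ((l ^ 3)⁻¹ * ∫ y, ψ (l • x) ^ 2 * ψ y ^ 2 / ‖l • x - y‖) := by
    intro x
    rw [integral_const_mul, int_scale (fun y => ψ (l • x) ^ 2 * ψ y ^ 2 / ‖l • x - y‖) hl]
  simp_rw [h2]
  rw [integral_const_mul, integral_const_mul,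
    int_scale (fun x => ∫ y, ψ x ^ 2 * ψ y ^ 2 / ‖x - y‖) hl]
  field_simp

lemma scale_tf (ψ : E3 → ℝ) {s : ℝ} (hs : 0 ≤ s) {l : ℝ} (hl : 0 < l) :
    TFe (fun x => s * ψ (l • x)) = s ^ ((10 : ℝ) / 3) * (l ^ 3)⁻¹ * TFe ψ := by
  unfold TFe
  have h1 : ∀ x : E3, |s * ψ (l • x)| ^ ((10 : ℝ) / 3) =
      s ^ ((10 : ℝ) / 3) * |ψ (l • x)| ^ ((10 : ℝ) / 3) := by
    intro x
    rw [abs_mul, abs_of_nonneg hs, Real.mul_rpow hs (abs_nonneg _)]
  simp_rw [h1]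
  rw [integral_const_mul, int_scale (fun x => |ψ x| ^ ((10 : ℝ) / 3)) hl]
  ring

/-- The energy of the atom. -/
lemma en0 (c : ℝ) (b : E3) (ψ : E3 → ℝ) :
    En c 0 b ψ = Kin ψ + c * TFe ψ - Pot 0 ψ + (1 / 2) * Dir ψ := by
  unfold En; ring

lemma scale_A (h : Adm ψ) (c : ℝ) (b : E3) {l : ℝ} (hl : 0 < l) :
    En c 0 b (fun x => (l * Real.sqrt l) * ψ (l • x)) =
      l ^ 2 * (Kin ψ + c * TFe ψ) - l * (Pot 0 ψ - (1 / 2) * Dir ψ) := by
  have hs : 0 ≤ l * Real.sqrt l := by positivity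
  rw [en0, scale_kin h _ hl, scale_pot _ _ hl, scale_dir _ _ hl, scale_tf _ hs hl]
  have e1 : (l * Real.sqrt l) ^ 2 = l ^ 3 := by
    rw [mul_pow, Real.sq_sqrt hl.le]; ring
  have e2 : (l * Real.sqrt l) ^ 4 = l ^ 6 := by
    have : (l * Real.sqrt l) ^ 4 = ((l * Real.sqrt l) ^ 2) ^ 2 := by ring
    rw [this, e1]; ring
  have e3 : (l * Real.sqrt l) ^ ((10 : ℝ) / 3) = l ^ 5 := by
    have h1 : l * Real.sqrt l = l ^ ((3 : ℝ) / 2) := by
      rw [Real.sqrt_eq_rpow]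
      nth_rewrite 1 [← Real.rpow_one l]
      rw [← Real.rpow_add hl]
      norm_num
    rw [h1, ← Real.rpow_mul hl.le, ← Real.rpow_natCast]
    norm_num
  rw [e1, e2, e3]
  field_simp
  ring

lemma scale_B (h : Adm ψ) (c : ℝ) (b : E3) {t : ℝ} (ht : 0 < t) :
    En c 0 b (fun x => t * ψ ((1 : ℝ) • x)) =
      t ^ 2 * (Kin ψ - Pot 0 ψ) + t ^ 4 * ((1 / 2) * Dir ψ) + t ^ ((10 : ℝ) / 3) * (c * TFe ψ) := by
  rw [en0, scale_kin h _ one_pos, scale_pot _ _ one_pos, scale_dir _ _ one_pos,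
    scale_tf _ ht.le one_pos]
  simp only [inv_one, one_pow, mul_one]
  ring

/-- Near-minimisers of the atomic functional carry more than the nuclear charge. -/
theorem inner_mass {c e q : ℝ} (b : E3) (hc : 0 ≤ c) (he : 0 < e) (hq : 0 < q) (hq1 : q ≤ 1)
    (heq : 1 + q ≤ 9 * e)
    (hmin : ∀ u : E3 → ℝ, Adm u → -e ≤ En c 0 b u) :
    ∃ η : ℝ, 0 < η ∧ ∃ l : ℝ, 0 < l ∧ ∀ ψ : E3 → ℝ, Adm ψ → En c 0 b ψ ≤ -e + η →
      1 + q / 2 ≤ M2 0 l ψ := by
  set η : ℝ := min (min (q / 100) (e / 8)) ((q / 100) ^ 2 / (8 * e)) with hη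
  have hη0 : 0 < η := by positivity
  have hη1 : η ≤ q / 100 := (min_le_left _ _).trans (min_le_left _ _)
  have hη3 : η ≤ e / 8 := (min_le_left _ _).trans (min_le_right _ _)
  have hη2 : 8 * e * η ≤ (q / 100) ^ 2 := by
    have := min_le_right (min (q / 100) (e / 8)) ((q / 100) ^ 2 / (8 * e))
    rw [← hη, le_div_iff₀ (by positivity)] at this
    linarith
  set l : ℝ := (2100 / q) ^ 2 with hl
  have hl0 : 0 < l := by positivity
  refine ⟨η, hη0, l, hl0, fun ψ h hE => ?_⟩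
  have hneg : En c 0 b ψ ≤ 0 := by linarith
  have hdir := h.dir_le hc le_rfl zero_le_one b hneg
  have hwt : (3 / 2) * Wt 0 l ψ ≤ q / 100 := by
    have h1 := h.wt_le 0 hl0
    have h2 : Real.sqrt (Dir ψ / l) = Real.sqrt (Dir ψ) / (2100 / q) := by
      rw [Real.sqrt_div' _ hl0.le, hl, Real.sqrt_sq (by positivity)]
    rw [h2] at h1
    have h3 : Real.sqrt (Dir ψ) / (2100 / q) ≤ 14 / (2100 / q) :=
      div_le_div_of_nonneg_right hdir (by positivity)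
    have h4 : (14 : ℝ) / (2100 / q) = q / 150 := by
      field_simp
      norm_num
    linarith
  refine virial_alg (K := Kin ψ) (F := c * TFe ψ) (P := Pot 0 ψ) (D := (1 / 2) * Dir ψ)
    (θ := (3 / 2) * Wt 0 l ψ) he hq hq1 heq kin_nonneg (mul_nonneg hc tf_nonneg)
    (mul_nonneg (by norm_num) dir_nonneg) (m2_nonneg 0) hη0.le hη1 hη2 hη3 hwt ?_ ?_ ?_ ?_
  · intro t ht
    rw [← scale_A h c b ht]
    exact hmin _ (scale_adm h _ ht)
  · intro t ht
    rw [← scale_B h c b ht]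
    exact hmin _ (scale_adm h _ one_pos)
  · rw [en0] at hE
    linarith
  · exact h.pot_le2 0 hl0

end scaling

end Pool.Agent.Helper436.TFW
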