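import Pool.Agent.Helper436.TFWVar
import Pool.Agent.Helper436.TFWVirial

/-!
# TFW theory: closeness of near-minimisers, moment bounds
-/

set_option autoImplicit false

open MeasureTheory

namespace Pool.Agent.Helper436.TFW

section close

variable {ψ φ : E3 → ℝ}

lemma midf_admL {κ Λ : ℝ} (hκ : 0 < κ) (h : AdmL Λ ψ) (h' : AdmL Λ φ) :
    AdmL Λ (midf κ ψ φ) :=
  ⟨midf_adm hκ h.adm h'.adm, fun x hx => midf_zero hκ (h.van x hx) (h'.van x hx)⟩

theorem closeness {c ε z : ℝ} (hc : 0 ≤ c) (hε : 0 ≤ ε) (hεz : ε ≤ z) (b : E3) {Λ : ℝ}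
    (hψ : AdmL Λ ψ) (hφ : AdmL Λ φ) {δ₁ δ : ℝ}
    (h1 : ∀ u, AdmL Λ u → En c ε b ψ ≤ En c ε b u + δ₁)
    (h2 : ∀ u, AdmL Λ u → En c z b φ ≤ En c z b u + δ) :
    (1 / 2) * DirH (fun x => ψ x ^ 2 - φ x ^ 2) ≤ 2 * (δ + δ₁) + z * Pot b φ := by
  obtain ⟨C0, hC0⟩ := midf_pot hψ.adm hφ.adm 0
  obtain ⟨Cb, hCb⟩ := midf_pot hψ.adm hφ.adm b
  have key : ∀ κ : ℝ, 0 < κ → (1 / 2) * DirH (fun x => ψ x ^ 2 - φ x ^ 2) ≤
      2 * (δ + δ₁) + z * Pot b φ + κ * (4 * C0 + 2 * (ε + z) * Cb) := by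
    intro κ hκ
    have hm := midf_admL hκ hψ hφ
    have e1 := midf_kin hκ hψ.adm hφ.adm
    have e2 := mul_le_mul_of_nonneg_left (midf_tf hκ hψ.adm hφ.adm) hc
    have e3 := hC0 κ hκ
    have e4 := mul_le_mul_of_nonneg_left (hCb κ hκ) hε
    have e5 := mul_le_mul_of_nonneg_left (hCb κ hκ) (hε.trans hεz)
    have e6 := midf_dir hκ hψ.adm hφ.adm
    have f1 := h1 _ hm
    have f2 := h2 _ hm
    have p1 : 0 ≤ (z - ε) * Pot b ψ := mul_nonneg (by linarith) (pot_nonneg b)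
    have p2 : 0 ≤ ε * Pot b φ := mul_nonneg hε (pot_nonneg b)
    unfold En at f1 f2
    linarith
  by_contra hcon
  push Not at hcon
  set D := (1 / 2) * DirH (fun x => ψ x ^ 2 - φ x ^ 2) - (2 * (δ + δ₁) + z * Pot b φ) with hD
  have hDpos : 0 < D := by linarith
  set A := 4 * C0 + 2 * (ε + z) * Cb with hA
  have h3 := key (D / (2 * (|A| + 1))) (by positivity)
  have h4 : D / (2 * (|A| + 1)) * A ≤ D / 2 := by
    rw [div_mul_eq_mul_div, div_le_div_iff₀ (by positivity) (by norm_num)]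
    nlinarith [le_abs_self A, abs_nonneg A]
  linarith

end close

section moment

variable {ψ : E3 → ℝ}

/-- The weight `|x|²`. -/
noncomputable def sg (x : E3) : ℝ := ‖x‖ ^ 2

lemma sg_cd : ContDiff ℝ 1 sg := contDiff_norm_sq ℝ

lemma sg_fderiv (x : E3) : ‖fderiv ℝ sg x‖ ^ 2 = 4 * ‖x‖ ^ 2 := by
  have h1 : HasFDerivAt (fun x : E3 => ‖x‖ ^ 2) (2 • innerSL ℝ x) x := by
    have := (hasFDerivAt_id x).norm_sq
    simpa using this
  have h3 : fderiv ℝ sg x = 2 • innerSL ℝ x := h1.fderiv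
  rw [h3]
  have h2 : (2 • innerSL ℝ x : E3 →L[ℝ] ℝ) = (2 : ℝ) • innerSL ℝ x := by
    rw [← Nat.cast_smul_eq_nsmul ℝ 2]; norm_num
  rw [h2, norm_smul, mul_pow, innerSL_apply_norm]
  norm_num

lemma wt_le14 (h : Adm ψ) (hd : Real.sqrt (Dir ψ) ≤ 14) {r : ℝ} (hr : 0 < r) :
    Wt 0 r ψ ≤ 14 / Real.sqrt r := by
  have h2 := h.wt_le 0 hr
  rw [Real.sqrt_div' _ hr.le] at h2
  exact h2.trans (div_le_div_of_nonneg_right hd (Real.sqrt_nonneg _))

/-- Moment bounds of near-minimisers. -/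
theorem moments {q l : ℝ} (hq : 0 < q) (hl : 0 < l) :
    ∃ C : ℝ, 0 < C ∧ ∀ (z R : ℝ) (b : E3) (ψ : E3 → ℝ), 0 ≤ z → 1 ≤ R → ‖b‖ = R →
      z ^ 2 * R / 2 + (3 / 2) * z ≤ q / 8 → Adm ψ → Real.sqrt (Dir ψ) ≤ 14 →
      1 + q / 2 ≤ M2 0 l ψ → QQ z b sg ψ ≤ 1 →
      Mass ψ ≤ C ∧ (∫ x, ψ x ^ 2 * ‖x‖ ^ 2) ≤ C ∧ Pot b ψ ≤ C / R := by
  set r : ℝ := 32 / q with hr
  have hr0 : 0 < r := by positivity
  set C0 : ℝ := 1 + (1 + q / 2) * (2 * l ^ 4 * (14 / Real.sqrt l)) +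
    8 * r ^ 3 * (14 / Real.sqrt r) with hC0
  have hC0pos : 0 < C0 := by positivity
  set X0 : ℝ := 4 * C0 / q with hX0
  have hX0pos : 0 < X0 := by positivity
  refine ⟨2 * (28 + X0) + 16 * (C0 + X0 + 2 * X0), by positivity, ?_⟩
  intro z R b ψ hz hR hb hcond h hd hM hQ
  have hR0 : 0 < R := by linarith
  set g : E3 → ℝ := fun x => sg x * ψ x with hgdef
  have hg : Adm g := mul_adm h sg_cd
  set X : ℝ := Pot 0 g with hX
  have hXnn : 0 ≤ X := pot_nonneg 0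
  have hKnn : 0 ≤ Kin g := kin_nonneg
  -- the Coulomb singularity at b
  have hwt : Wt b R g ≤ X := by
    rw [hX]
    unfold Wt Pot
    apply integral_mono (hg.wt_int b hR0) (hg.pot_int 0)
    intro x
    simp only [sub_zero]
    by_cases hx : x = 0
    · rw [hx, hgdef]; simp [sg]
    · have hx0 : 0 < ‖x‖ := norm_pos_iff.mpr hx
      apply div_le_div_of_nonneg_left (sq_nonneg _) hx0
      have : ‖x‖ ≤ ‖x - b‖ + ‖b‖ := by
        have := norm_add_le (x - b) b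
        simpa using this
      linarith
  have hm2 : M2 b R g ≤ R * X :=
    (hg.m2_le b hR0).trans (mul_le_mul_of_nonneg_left hwt hR0.le)
  have hpot : Pot b g ≤ Real.sqrt (Kin g) * Real.sqrt (R * X) + (3 / 2) * X := by
    have h1 := hg.pot_le2 b hR0
    have h2 := mul_le_mul_of_nonneg_left (Real.sqrt_le_sqrt hm2) (Real.sqrt_nonneg (Kin g))
    linarith
  have hRX : 0 ≤ R * X := by positivity
  have hzpot : z * Pot b g ≤ Kin g / 2 + (q / 8) * X := by
    have h1 := mul_le_mul_of_nonneg_left hpot hz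
    have h2 : z * (Real.sqrt (Kin g) * Real.sqrt (R * X)) ≤ Kin g / 2 + z ^ 2 * (R * X) / 2 := by
      have e1 := Real.sq_sqrt hKnn
      have e2 := Real.sq_sqrt hRX
      have e3 := sq_nonneg (Real.sqrt (Kin g) - z * Real.sqrt (R * X))
      have e4 : (Real.sqrt (Kin g) - z * Real.sqrt (R * X)) ^ 2 = Real.sqrt (Kin g) ^ 2 -
        2 * (z * (Real.sqrt (Kin g) * Real.sqrt (R * X))) + z ^ 2 * Real.sqrt (R * X) ^ 2 := by ring
      rw [e4, e1, e2] at e3
      linarith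
    have h3 : (z ^ 2 * R / 2 + (3 / 2) * z) * X ≤ q / 8 * X :=
      mul_le_mul_of_nonneg_right hcond hXnn
    linarith
  -- the repulsion
  have hU : (1 + q / 2) * X - (1 + q / 2) * (2 * l ^ 4 * Wt 0 l ψ) ≤
      ∫ x, g x ^ 2 * U ψ x := by
    have i1 := hg.pot_int 0
    have i2 := h.wt_int 0 hl
    have e : (1 + q / 2) * X - (1 + q / 2) * (2 * l ^ 4 * Wt 0 l ψ) =
        ∫ x, ((1 + q / 2) * (g x ^ 2 / ‖x - 0‖) -
          (1 + q / 2) * (2 * l ^ 4) * (ψ x ^ 2 / (l + ‖x - 0‖))) := by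
      rw [integral_sub (i1.const_mul _) (i2.const_mul _), integral_const_mul, integral_const_mul]
      rw [hX]
      unfold Pot Wt
      ring
    rw [e]
    have i3 : Integrable (fun x => g x ^ 2 * U ψ x) := by
      have := U_mul_int hg h (g := fun _ => 1) continuous_const
      simpa using this
    apply integral_mono ((i1.const_mul _).sub (i2.const_mul _)) i3
    intro x
    simp only [Pi.sub_apply, sub_zero]
    have hUn := U_nonneg (ψ := ψ) x
    have hn := norm_nonneg x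
    by_cases hx : l ≤ ‖x‖
    · have h1 := h.U_outer hl hx
      have hx0 : 0 < ‖x‖ := hl.trans_le hx
      have h2 : (1 + q / 2) / ‖x‖ ≤ U ψ x := (div_le_div_of_nonneg_right hM hn).trans h1
      have h3 := mul_le_mul_of_nonneg_left h2 (sq_nonneg (g x))
      have h4 : 0 ≤ (1 + q / 2) * (2 * l ^ 4) * (ψ x ^ 2 / (l + ‖x‖)) := by positivity
      have h5 : g x ^ 2 * ((1 + q / 2) / ‖x‖) = (1 + q / 2) * (g x ^ 2 / ‖x‖) := by ring
      linarith
    · push Not at hx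
      have h1 : g x ^ 2 / ‖x‖ ≤ 2 * l ^ 4 * (ψ x ^ 2 / (l + ‖x‖)) := by
        by_cases hx0 : ‖x‖ = 0
        · rw [hx0]; simp only [div_zero, add_zero]; positivity
        · have hx1 : 0 < ‖x‖ := lt_of_le_of_ne hn (Ne.symm hx0)
          have e1 : g x ^ 2 / ‖x‖ = ψ x ^ 2 * ‖x‖ ^ 3 := by
            rw [hgdef]; simp only [sg]; field_simp
          rw [e1, ← mul_div_assoc, le_div_iff₀ (by positivity)]
          have h2 : ‖x‖ ^ 3 ≤ l ^ 3 := pow_le_pow_left₀ hn hx.le 3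
          have h3 : ‖x‖ ^ 3 * (l + ‖x‖) ≤ l ^ 3 * (2 * l) :=
            mul_le_mul h2 (by linarith) (by positivity) (by positivity)
          have h4 := mul_le_mul_of_nonneg_left h3 (sq_nonneg (ψ x))
          linarith
      have h2 := mul_le_mul_of_nonneg_left h1 (show (0 : ℝ) ≤ 1 + q / 2 by positivity)
      have h3 : 0 ≤ g x ^ 2 * U ψ x := by positivity
      linarith
  -- the localisation error
  have hgr : (∫ x, ψ x ^ 2 * ‖fderiv ℝ sg x‖ ^ 2) ≤ (q / 8) * X + 8 * r ^ 3 * Wt 0 r ψ := by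
    have i1 := hg.pot_int 0
    have i2 := h.wt_int 0 hr0
    have e : (q / 8) * X + 8 * r ^ 3 * Wt 0 r ψ =
        ∫ x, ((q / 8) * (g x ^ 2 / ‖x - 0‖) + 8 * r ^ 3 * (ψ x ^ 2 / (r + ‖x - 0‖))) := by
      rw [integral_add (i1.const_mul _) (i2.const_mul _), integral_const_mul, integral_const_mul]
      rw [hX]
      unfold Pot Wt
      ring
    rw [e]
    apply integral_mono (grad_int h sg_cd) ((i1.const_mul _).add (i2.const_mul _))
    intro x
    simp only [Pi.add_apply, sub_zero]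
    rw [sg_fderiv]
    have hn := norm_nonneg x
    by_cases hx0 : ‖x‖ = 0
    · rw [hx0]
      simp only [div_zero, add_zero]
      have : 0 ≤ 8 * r ^ 3 * (ψ x ^ 2 / r) := by positivity
      nlinarith
    · have hx1 : 0 < ‖x‖ := lt_of_le_of_ne hn (Ne.symm hx0)
      have e1 : g x ^ 2 / ‖x‖ = ψ x ^ 2 * ‖x‖ ^ 3 := by
        rw [hgdef]; simp only [sg]; field_simp
      rw [e1]
      by_cases hx : r ≤ ‖x‖
      · have h1 : 4 * ‖x‖ ^ 2 ≤ q / 8 * ‖x‖ ^ 3 := by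
          have : 32 ≤ q * ‖x‖ := by
            rw [hr, div_le_iff₀ hq] at hx
            linarith
          have h9 := mul_le_mul_of_nonneg_right this (sq_nonneg ‖x‖)
          linarith
        have h2 := mul_le_mul_of_nonneg_left h1 (sq_nonneg (ψ x))
        have h3 : 0 ≤ 8 * r ^ 3 * (ψ x ^ 2 / (r + ‖x‖)) := by positivity
        linarith
      · push Not at hx
        have h1 : ψ x ^ 2 * (4 * ‖x‖ ^ 2) ≤ 8 * r ^ 3 * (ψ x ^ 2 / (r + ‖x‖)) := by
          rw [← mul_div_assoc, le_div_iff₀ (by positivity)]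
          have h2 : ‖x‖ ^ 2 ≤ r ^ 2 := pow_le_pow_left₀ hn hx.le 2
          have h3 : ‖x‖ ^ 2 * (r + ‖x‖) ≤ r ^ 2 * (2 * r) :=
            mul_le_mul h2 (by linarith) (by positivity) (by positivity)
          have h4 := mul_le_mul_of_nonneg_left h3 (sq_nonneg (ψ x))
          linarith
        have h3 : 0 ≤ q / 8 * (ψ x ^ 2 * ‖x‖ ^ 3) := by positivity
        linarith
  have hW1 := wt_le14 h hd hl
  have hW2 := wt_le14 h hd hr0
  have hmain : Kin g / 2 + (q / 4) * X ≤ C0 := by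
    unfold QQ at hQ
    rw [← hX] at hQ
    have h1 := mul_le_mul_of_nonneg_left hW1 (show (0 : ℝ) ≤ (1 + q / 2) * (2 * l ^ 4) by positivity)
    have h2 := mul_le_mul_of_nonneg_left hW2 (show (0 : ℝ) ≤ 8 * r ^ 3 by positivity)
    rw [hC0]
    linarith
  have hqX : 0 ≤ q * X := mul_nonneg hq.le hXnn
  have hX1 : X ≤ X0 := by
    rw [hX0, le_div_iff₀ hq]
    linarith
  have hK1 : Kin g ≤ 2 * C0 := by linarith
  have hX2 : X = ∫ x, ψ x ^ 2 * ‖x‖ ^ 3 := by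
    rw [hX]
    unfold Pot
    congr 1
    funext x
    rw [hgdef]
    simp only [sg, sub_zero]
    by_cases hx0 : ‖x‖ = 0
    · rw [hx0]; simp
    · field_simp
  have hW3 : Wt 0 1 ψ ≤ 14 := by simpa using wt_le14 h hd one_pos
  have i3 : Integrable (fun x => ψ x ^ 2 * ‖x‖ ^ 3) := h.sq_mul_int (by fun_prop)
  have i4 : Integrable (fun x => ψ x ^ 2 * ‖x‖ ^ 2) := h.sq_mul_int (by fun_prop)
  have hbd : ∀ (F : E3 → ℝ), Integrable F → (∀ x, F x ≤ 2 * (ψ x ^ 2 / (1 + ‖x - 0‖)) +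
      ψ x ^ 2 * ‖x‖ ^ 3) → ∫ x, F x ≤ 28 + X0 := by
    intro F hF hle
    have h1 : ∫ x, F x ≤ ∫ x, (2 * (ψ x ^ 2 / (1 + ‖x - 0‖)) + ψ x ^ 2 * ‖x‖ ^ 3) :=
      integral_mono hF (((h.wt_int 0 one_pos).const_mul 2).add i3) hle
    rw [integral_add ((h.wt_int 0 one_pos).const_mul 2) i3, integral_const_mul, ← hX2] at h1
    have h2 : (∫ x, ψ x ^ 2 / (1 + ‖x - 0‖)) ≤ 14 := hW3
    linarith
  have hmass : Mass ψ ≤ 28 + X0 := by
    apply hbd _ h.sq_int
    intro x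
    simp only [sub_zero]
    have hn := norm_nonneg x
    have h1 : 1 ≤ 2 * (1 / (1 + ‖x‖)) + ‖x‖ ^ 3 := by
      by_cases hx : ‖x‖ ≤ 1
      · have h2 : (1 : ℝ) ≤ 2 * (1 / (1 + ‖x‖)) := by
          rw [mul_one_div, le_div_iff₀ (by positivity)]
          linarith
        have h3 : 0 ≤ ‖x‖ ^ 3 := by positivity
        linarith
      · push Not at hx
        have h2 : 1 ≤ ‖x‖ ^ 3 := one_le_pow₀ hx.le
        have h3 : 0 ≤ 2 * (1 / (1 + ‖x‖)) := by positivity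
        linarith
    have h2 := mul_le_mul_of_nonneg_left h1 (sq_nonneg (ψ x))
    have e1 : ψ x ^ 2 * (2 * (1 / (1 + ‖x‖)) + ‖x‖ ^ 3) =
      2 * (ψ x ^ 2 / (1 + ‖x‖)) + ψ x ^ 2 * ‖x‖ ^ 3 := by ring
    linarith
  have hsec : (∫ x, ψ x ^ 2 * ‖x‖ ^ 2) ≤ 28 + X0 := by
    apply hbd _ i4
    intro x
    simp only [sub_zero]
    have hn := norm_nonneg x
    have h1 : ‖x‖ ^ 2 ≤ 2 * (1 / (1 + ‖x‖)) + ‖x‖ ^ 3 := by
      by_cases hx : ‖x‖ ≤ 1
      · have h2 : (1 : ℝ) ≤ 2 * (1 / (1 + ‖x‖)) := by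
          rw [mul_one_div, le_div_iff₀ (by positivity)]
          linarith
        have h3 : 0 ≤ ‖x‖ ^ 3 := by positivity
        have h4 : ‖x‖ ^ 2 ≤ 1 := pow_le_one₀ hn hx
        linarith
      · push Not at hx
        have h2 : ‖x‖ ^ 2 ≤ ‖x‖ ^ 3 := pow_le_pow_right₀ hx.le (by norm_num)
        have h3 : 0 ≤ 2 * (1 / (1 + ‖x‖)) := by positivity
        linarith
    have h2 := mul_le_mul_of_nonneg_left h1 (sq_nonneg (ψ x))
    have e1 : ψ x ^ 2 * (2 * (1 / (1 + ‖x‖)) + ‖x‖ ^ 3) =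
      2 * (ψ x ^ 2 / (1 + ‖x‖)) + ψ x ^ 2 * ‖x‖ ^ 3 := by ring
    linarith
  -- the potential at b
  have hpotb : Pot b ψ ≤ 2 / R * Mass ψ + 16 / R ^ 4 * Pot b g := by
    unfold Pot Mass
    rw [← integral_const_mul, ← integral_const_mul,
      ← integral_add (h.sq_int.const_mul _) ((hg.pot_int b).const_mul _)]
    apply integral_mono (h.pot_int b) ((h.sq_int.const_mul _).add ((hg.pot_int b).const_mul _))
    intro x
    simp only [Pi.add_apply]
    have hxb := norm_nonneg (x - b)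
    have hn := norm_nonneg x
    by_cases hx : R / 2 ≤ ‖x - b‖
    · have h1 : ψ x ^ 2 / ‖x - b‖ ≤ ψ x ^ 2 / (R / 2) :=
        div_le_div_of_nonneg_left (sq_nonneg _) (by positivity) hx
      have h2 : ψ x ^ 2 / (R / 2) = 2 / R * ψ x ^ 2 := by field_simp
      have h3 : 0 ≤ 16 / R ^ 4 * (g x ^ 2 / ‖x - b‖) := by positivity
      linarith
    · push Not at hx
      have h1 : R / 2 ≤ ‖x‖ := by
        have : ‖b‖ ≤ ‖x‖ + ‖x - b‖ := by
          have := norm_sub_le x (x - b)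
          simpa using this
        linarith
      have h2 : ψ x ^ 2 ≤ 16 / R ^ 4 * g x ^ 2 := by
        rw [hgdef]
        simp only [sg]
        have h3 : (R / 2) ^ 4 ≤ ‖x‖ ^ 4 := pow_le_pow_left₀ (by positivity) h1 4
        have h4 : 1 ≤ 16 / R ^ 4 * ‖x‖ ^ 4 := by
          rw [div_mul_eq_mul_div, le_div_iff₀ (by positivity)]
          linarith
        have h5 := mul_le_mul_of_nonneg_right h4 (sq_nonneg (ψ x))
        linarith
      have h3 := div_le_div_of_nonneg_right h2 hxb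
      have h4 : 0 ≤ 2 / R * ψ x ^ 2 := by positivity
      have h5 : 16 / R ^ 4 * g x ^ 2 / ‖x - b‖ = 16 / R ^ 4 * (g x ^ 2 / ‖x - b‖) := by ring
      linarith
  refine ⟨?_, ?_, ?_⟩
  · linarith
  · linarith
  · have h1 : Pot b g ≤ R * (C0 + X0 + 2 * X0) := by
      have h2 : Real.sqrt (Kin g) * Real.sqrt (R * X) ≤ Kin g / 2 + R * X / 2 := by
        have e1 := Real.sq_sqrt hKnn
        have e2 := Real.sq_sqrt hRX
        have e3 := sq_nonneg (Real.sqrt (Kin g) - Real.sqrt (R * X))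
        have e4 : (Real.sqrt (Kin g) - Real.sqrt (R * X)) ^ 2 = Real.sqrt (Kin g) ^ 2 -
          2 * (Real.sqrt (Kin g) * Real.sqrt (R * X)) + Real.sqrt (R * X) ^ 2 := by ring
        rw [e4, e1, e2] at e3
        linarith
      have h3 : R * X ≤ R * X0 := mul_le_mul_of_nonneg_left hX1 hR0.le
      have h4 : C0 ≤ R * C0 := le_mul_of_one_le_left hC0pos.le hR
      have h5 : X0 ≤ R * X0 := le_mul_of_one_le_left hX0pos.le hR
      linarith
    have h2 : 16 / R ^ 4 * Pot b g ≤ 16 * (C0 + X0 + 2 * X0) / R := by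
      have h3 : 16 / R ^ 4 * Pot b g ≤ 16 / R ^ 4 * (R * (C0 + X0 + 2 * X0)) :=
        mul_le_mul_of_nonneg_left h1 (by positivity)
      refine h3.trans ?_
      have h4 : 16 / R ^ 4 * (R * (C0 + X0 + 2 * X0)) = 16 * (C0 + X0 + 2 * X0) / R ^ 3 := by
        field_simp
      rw [h4]
      apply div_le_div_of_nonneg_left (by positivity) hR0
      exact le_self_pow₀ hR (by norm_num)
    have h3 : 2 / R * Mass ψ ≤ 2 * (28 + X0) / R := by
      have := mul_le_mul_of_nonneg_left hmass (show (0 : ℝ) ≤ 2 / R by positivity)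
      refine this.trans (le_of_eq ?_)
      ring
    rw [add_div]
    linarith

end moment

end Pool.Agent.Helper436.TFW
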