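import Pool.Agent.Helper436.TFWMain

/-!
# TFW theory: translation to the form of the problem statement
-/

set_option autoImplicit false

open MeasureTheory

namespace Pool.Agent.Helper436.TFW

/-- The energy functional in the form of the problem statement. -/
noncomputable def Efr (K : ℕ) (R : Fin K → E3) (cW cTF : ℝ) (z : Fin K → ℝ) (ψ : E3 → ℝ) : ℝ :=
  cW * (∫ x, ‖fderiv ℝ ψ x‖ ^ 2)
        + cTF * (∫ x, |ψ x| ^ ((10 : ℝ) / 3))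
        - (∫ x, (∑ j, z j / ‖x - R j‖) * ψ x ^ 2)
        + (1 / 2) * ∫ x, ∫ y, ψ x ^ 2 * ψ y ^ 2 / ‖x - y‖

lemma efr_eq {ψ : E3 → ℝ} (h : Adm ψ) (c w : ℝ) (b : E3) :
    Efr 2 ![0, b] 1 c ![1, w] ψ = En c w b ψ := by
  unfold Efr En Kin TFe Dir
  have h1 : (∫ x, (∑ j, (![1, w] : Fin 2 → ℝ) j / ‖x - (![0, b] : Fin 2 → E3) j‖) * ψ x ^ 2) =
      Pot 0 ψ + w * Pot b ψ := by
    unfold Pot
    rw [← integral_const_mul, ← integral_add (h.pot_int 0) ((h.pot_int b).const_mul w)]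
    congr 1
    funext x
    simp only [Fin.sum_univ_two, Matrix.cons_val_zero, Matrix.cons_val_one]
    ring
  rw [h1]
  ring

lemma good_iff {c w : ℝ} (hc : 0 ≤ c) (hw : 0 ≤ w) (hw1 : w ≤ 1) (b : E3)
    (F : (E3 → ℝ) → ℝ) (hF : ∀ ψ, Adm ψ → F ψ = En c w b ψ) (N : ℝ) :
    (0 ≤ N ∧ sInf (F '' {ψ : E3 → ℝ | ContDiff ℝ 1 ψ ∧ HasCompactSupport ψ ∧ ∫ x, ψ x ^ 2 ≤ N})
        = sInf (F '' {ψ : E3 → ℝ | ContDiff ℝ 1 ψ ∧ HasCompactSupport ψ})) ↔ Good c w b N := by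
  have hb : ∀ u : E3 → ℝ, Adm u → -25 ≤ F u := fun u hu => by
    rw [hF u hu]; exact hu.en_lower hc hw hw1 b
  have hbdd : BddBelow (F '' {ψ : E3 → ℝ | ContDiff ℝ 1 ψ ∧ HasCompactSupport ψ}) :=
    ⟨-25, by rintro _ ⟨u, hu, rfl⟩; exact hb u ⟨hu.1, hu.2⟩⟩
  have hsub : F '' {ψ : E3 → ℝ | ContDiff ℝ 1 ψ ∧ HasCompactSupport ψ ∧ ∫ x, ψ x ^ 2 ≤ N} ⊆
      F '' {ψ : E3 → ℝ | ContDiff ℝ 1 ψ ∧ HasCompactSupport ψ} := by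
    rintro _ ⟨u, hu, rfl⟩
    exact ⟨u, ⟨hu.1, hu.2.1⟩, rfl⟩
  constructor
  · rintro ⟨hN, heq⟩
    refine ⟨hN, fun δ hδ u hu => ?_⟩
    have hne : (F '' {ψ : E3 → ℝ | ContDiff ℝ 1 ψ ∧ HasCompactSupport ψ ∧
        ∫ x, ψ x ^ 2 ≤ N}).Nonempty := by
      refine ⟨_, ⟨fun _ => 0, ⟨adm_zero.cd, adm_zero.cs, ?_⟩, rfl⟩⟩
      simpa using hN
    have hlt : sInf (F '' {ψ : E3 → ℝ | ContDiff ℝ 1 ψ ∧ HasCompactSupport ψ ∧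
        ∫ x, ψ x ^ 2 ≤ N}) < sInf (F '' {ψ : E3 → ℝ | ContDiff ℝ 1 ψ ∧ HasCompactSupport ψ}) + δ := by
      rw [heq]; linarith
    obtain ⟨_, ⟨ψ, ⟨h1, h2, h3⟩, rfl⟩, h4⟩ := exists_lt_of_csInf_lt hne hlt
    refine ⟨ψ, ⟨h1, h2⟩, h3, ?_⟩
    have h5 := csInf_le hbdd ⟨u, ⟨hu.1, hu.2⟩, rfl⟩
    rw [← hF ψ ⟨h1, h2⟩, ← hF u hu]
    linarith
  · rintro ⟨hN, hgood⟩
    refine ⟨hN, le_antisymm ?_ ?_⟩
    · apply le_csInf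
      · exact ⟨_, ⟨fun _ => 0, ⟨adm_zero.cd, adm_zero.cs⟩, rfl⟩⟩
      · rintro _ ⟨u, hu, rfl⟩
        apply le_of_forall_pos_le_add
        intro δ hδ
        obtain ⟨ψ, h1, h2, h3⟩ := hgood δ hδ u ⟨hu.1, hu.2⟩
        rw [← hF ψ h1, ← hF u ⟨hu.1, hu.2⟩] at h3
        refine le_trans (csInf_le (hbdd.mono hsub) ⟨ψ, ⟨h1.cd, h1.cs, h2⟩, rfl⟩) h3
    · apply csInf_le_csInf hbdd _ hsub
      refine ⟨_, ⟨fun _ => 0, ⟨adm_zero.cd, adm_zero.cs, ?_⟩, rfl⟩⟩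
      simpa using hN

lemma inj_aux {b : E3} (hb : b ≠ 0) : Function.Injective (![0, b] : Fin 2 → E3) := by
  intro i j hij
  fin_cases i <;> fin_cases j <;> simp_all

theorem final :
    ¬ (∀ (K : ℕ) (R : Fin K → EuclideanSpace ℝ (Fin 3)), Function.Injective R →
  ∀ (cW cTF : ℝ), 0 < cW → 0 < cTF →
  ∀ (E : (Fin K → ℝ) → (EuclideanSpace ℝ (Fin 3) → ℝ) → ℝ),
    (∀ (z : Fin K → ℝ) (ψ : EuclideanSpace ℝ (Fin 3) → ℝ),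
      E z ψ = cW * (∫ x, ‖fderiv ℝ ψ x‖ ^ 2)
        + cTF * (∫ x, |ψ x| ^ ((10 : ℝ) / 3))
        - (∫ x, (∑ j, z j / ‖x - R j‖) * ψ x ^ 2)
        + (1 / 2) * ∫ x, ∫ y, ψ x ^ 2 * ψ y ^ 2 / ‖x - y‖) →
  ∀ (Nc : (Fin K → ℝ) → ℝ),
    (∀ z : Fin K → ℝ, Nc z = sInf {N : ℝ | 0 ≤ N ∧
      sInf (E z '' {ψ : EuclideanSpace ℝ (Fin 3) → ℝ |
          ContDiff ℝ 1 ψ ∧ HasCompactSupport ψ ∧ ∫ x, ψ x ^ 2 ≤ N})
        = sInf (E z '' {ψ : EuclideanSpace ℝ (Fin 3) → ℝ |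
          ContDiff ℝ 1 ψ ∧ HasCompactSupport ψ})}) →
  ∀ z z' : Fin K → ℝ, (∀ j, 0 < z j) → z ≤ z' →
    Nc z - ∑ j, z j ≤ Nc z' - ∑ j, z' j) := by
  intro H
  obtain ⟨c, ε, w, b, hc, hb, hε, hεw, hw1, hεeq, ⟨N0, hN0⟩, hstep⟩ := main
  have h := H 2 ![0, b] (inj_aux hb) 1 c one_pos hc (Efr 2 ![0, b] 1 c) (fun z ψ => rfl)
    (fun z => sInf {N : ℝ | 0 ≤ N ∧
      sInf (Efr 2 ![0, b] 1 c z '' {ψ : EuclideanSpace ℝ (Fin 3) → ℝ |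
          ContDiff ℝ 1 ψ ∧ HasCompactSupport ψ ∧ ∫ x, ψ x ^ 2 ≤ N})
        = sInf (Efr 2 ![0, b] 1 c z '' {ψ : EuclideanSpace ℝ (Fin 3) → ℝ |
          ContDiff ℝ 1 ψ ∧ HasCompactSupport ψ})}) (fun z => rfl) ![1, ε] ![1, w]
    (by intro j; fin_cases j <;> simp [hε]) (by
      intro j
      fin_cases j
      · simp
      · simpa using hεw)
  simp only [Fin.sum_univ_two, Matrix.cons_val_zero, Matrix.cons_val_one] at h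
  have e1 : {N : ℝ | 0 ≤ N ∧
      sInf (Efr 2 ![0, b] 1 c ![1, ε] '' {ψ : EuclideanSpace ℝ (Fin 3) → ℝ |
          ContDiff ℝ 1 ψ ∧ HasCompactSupport ψ ∧ ∫ x, ψ x ^ 2 ≤ N})
        = sInf (Efr 2 ![0, b] 1 c ![1, ε] '' {ψ : EuclideanSpace ℝ (Fin 3) → ℝ |
          ContDiff ℝ 1 ψ ∧ HasCompactSupport ψ})} = {N | Good c ε b N} := by
    ext N
    exact good_iff hc.le hε.le (hεw.trans hw1) b _ (fun ψ hψ => efr_eq hψ c ε b) N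
  have e2 : {N : ℝ | 0 ≤ N ∧
      sInf (Efr 2 ![0, b] 1 c ![1, w] '' {ψ : EuclideanSpace ℝ (Fin 3) → ℝ |
          ContDiff ℝ 1 ψ ∧ HasCompactSupport ψ ∧ ∫ x, ψ x ^ 2 ≤ N})
        = sInf (Efr 2 ![0, b] 1 c ![1, w] '' {ψ : EuclideanSpace ℝ (Fin 3) → ℝ |
          ContDiff ℝ 1 ψ ∧ HasCompactSupport ψ})} = {N | Good c w b N} := by
    ext N
    exact good_iff hc.le (hε.le.trans hεw) hw1 b _ (fun ψ hψ => efr_eq hψ c w b) N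
  rw [e1, e2] at h
  have h3 : sInf {N | Good c w b N} - w / 4 ≤ sInf {N | Good c ε b N} := by
    apply le_csInf ⟨N0, hN0⟩
    intro N hN
    have h4 := csInf_le (⟨0, fun y hy => hy.1⟩ : BddBelow {N | Good c w b N}) (hstep N hN)
    linarith
  have hw0 : 0 < w := hε.trans_le hεw
  rw [hεeq] at h h3
  linarith

end Pool.Agent.Helper436.TFW
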