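import Mathlib

set_option autoImplicit false

open MeasureTheory

namespace Pool.Agent.Helper436.TFWJ1

abbrev E3 := EuclideanSpace ℝ (Fin 3)

lemma ball_real : (volume : Measure E3).real (Metric.ball 0 1) = Real.pi * 4 / 3 := by
  unfold Measure.real
  rw [EuclideanSpace.volume_ball_fin_three]
  simp only [ENNReal.ofReal_one, one_pow, one_mul]
  rw [ENNReal.toReal_ofReal]
  positivity

lemma fr3 : Module.finrank ℝ E3 = 3 := by simp

lemma int_line1 (p : ℝ) (hp : 0 < p) :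
    IntegrableOn (fun y : ℝ => y * Real.exp (-p * y ^ 2)) (Set.Ioi 0) ∧
    ∫ y in Set.Ioi (0 : ℝ), y * Real.exp (-p * y ^ 2) = 1 / (2 * p) := by
  have h1 := integral_rpow_mul_exp_neg_mul_rpow (p := 2) (q := 1) (b := p) (by norm_num) (by norm_num) hp
  have h2 := integrableOn_rpow_mul_exp_neg_mul_sq (b := p) hp (s := 1) (by norm_num)
  have e : ∀ y : ℝ, y ^ (1 : ℝ) * Real.exp (-p * y ^ 2) = y * Real.exp (-p * y ^ 2) := by
    intro y; rw [Real.rpow_one]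
  simp only [e] at h2
  refine ⟨h2, ?_⟩
  have e2 : ∀ y : ℝ, y ^ (1 : ℝ) * Real.exp (-p * y ^ (2 : ℝ)) = y * Real.exp (-p * y ^ 2) := by
    intro y; rw [Real.rpow_one, Real.rpow_ofNat]
  simp only [e2] at h1
  rw [h1]
  norm_num
  rw [Real.rpow_neg_one]

lemma int_line4 (p : ℝ) (hp : 0 < p) :
    IntegrableOn (fun y : ℝ => y ^ 4 * Real.exp (-p * y ^ 2)) (Set.Ioi 0) ∧
    ∫ y in Set.Ioi (0 : ℝ), y ^ 4 * Real.exp (-p * y ^ 2) = 3 * √Real.pi / (8 * p ^ 2 * √p) := by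
  have h1 := integral_rpow_mul_exp_neg_mul_rpow (p := 2) (q := 4) (b := p) (by norm_num) (by norm_num) hp
  have h2 := integrableOn_rpow_mul_exp_neg_mul_sq (b := p) hp (s := 4) (by norm_num)
  have e : ∀ y : ℝ, y ^ (4 : ℝ) * Real.exp (-p * y ^ 2) = y ^ 4 * Real.exp (-p * y ^ 2) := by
    intro y; rw [Real.rpow_ofNat]
  simp only [e] at h2
  refine ⟨h2, ?_⟩
  have e2 : ∀ y : ℝ, y ^ (4 : ℝ) * Real.exp (-p * y ^ (2 : ℝ)) = y ^ 4 * Real.exp (-p * y ^ 2) := by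
    intro y; rw [Real.rpow_ofNat, Real.rpow_ofNat]
  simp only [e2] at h1
  rw [h1]
  have hG : Real.Gamma ((4 + 1) / 2) = 3 / 4 * √Real.pi := by
    have a1 : Real.Gamma ((4 + 1) / 2) = (3 / 2) * Real.Gamma (3 / 2) := by
      rw [← Real.Gamma_add_one (by norm_num)]
      norm_num
    have a2 : Real.Gamma (3 / 2) = (1 / 2) * Real.Gamma (1 / 2) := by
      rw [← Real.Gamma_add_one (by norm_num)]
      norm_num
    rw [a1, a2, Real.Gamma_one_half_eq]
    ring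
  rw [hG]
  have hP : p ^ (-(4 + 1) / 2 : ℝ) = 1 / (p ^ 2 * √p) := by
    have : (-(4 + 1) / 2 : ℝ) = -(2 + 1 / 2) := by norm_num
    rw [this, Real.rpow_neg hp.le, Real.rpow_add hp, ← Real.sqrt_eq_rpow, Real.rpow_ofNat, one_div]
  rw [hP]
  field_simp
  norm_num

/-- `∫ exp(-p|x|²)/|x| = 2π/p` -/
lemma rad0 (p : ℝ) (hp : 0 < p) :
    Integrable (fun x : E3 => Real.exp (-p * ‖x‖ ^ 2) / ‖x‖) ∧
    ∫ x : E3, Real.exp (-p * ‖x‖ ^ 2) / ‖x‖ = 2 * Real.pi / p := by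
  have key : ∀ y ∈ Set.Ioi (0 : ℝ), y ^ (Module.finrank ℝ E3 - 1) • (Real.exp (-p * y ^ 2) / y) =
      y * Real.exp (-p * y ^ 2) := by
    intro y hy
    have : y ≠ 0 := (Set.mem_Ioi.mp hy).ne'
    rw [fr3, smul_eq_mul]
    field_simp
  constructor
  · rw [integrable_fun_norm_addHaar volume (f := fun y => Real.exp (-p * y ^ 2) / y)]
    rw [integrableOn_congr_fun key measurableSet_Ioi]
    exact (int_line1 p hp).1
  · rw [integral_fun_norm_addHaar volume (fun y => Real.exp (-p * y ^ 2) / y)]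
    rw [setIntegral_congr_fun measurableSet_Ioi key, (int_line1 p hp).2, ball_real, fr3]
    simp only [smul_eq_mul, nsmul_eq_mul]
    push_cast
    field_simp
    ring

lemma rad2 (p : ℝ) (hp : 0 < p) :
    Integrable (fun x : E3 => ‖x‖ ^ 2 * Real.exp (-p * ‖x‖ ^ 2)) ∧
    ∫ x : E3, ‖x‖ ^ 2 * Real.exp (-p * ‖x‖ ^ 2) = 3 / 2 * (Real.pi * √Real.pi) / (p ^ 2 * √p) := by
  have key : ∀ y ∈ Set.Ioi (0 : ℝ), y ^ (Module.finrank ℝ E3 - 1) • (y ^ 2 * Real.exp (-p * y ^ 2)) =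
      y ^ 4 * Real.exp (-p * y ^ 2) := by
    intro y hy
    rw [fr3, smul_eq_mul]
    ring
  constructor
  · rw [integrable_fun_norm_addHaar volume (f := fun y => y ^ 2 * Real.exp (-p * y ^ 2))]
    rw [integrableOn_congr_fun key measurableSet_Ioi]
    exact (int_line4 p hp).1
  · rw [integral_fun_norm_addHaar volume (fun y => y ^ 2 * Real.exp (-p * y ^ 2))]
    rw [setIntegral_congr_fun measurableSet_Ioi key, (int_line4 p hp).2, ball_real, fr3]
    simp only [smul_eq_mul, nsmul_eq_mul]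
    push_cast
    field_simp
    ring

lemma gau (p : ℝ) (hp : 0 < p) :
    Integrable (fun x : E3 => Real.exp (-p * ‖x‖ ^ 2)) ∧
    ∫ x : E3, Real.exp (-p * ‖x‖ ^ 2) = Real.pi / p * √(Real.pi / p) := by
  have h1 : ∫ x : E3, Real.exp (-p * ‖x‖ ^ 2) = Real.pi / p * √(Real.pi / p) := by
    rw [GaussianFourier.integral_rexp_neg_mul_sq_norm hp, fr3]
    have : ((3 : ℕ) : ℝ) / 2 = 1 + 1 / 2 := by norm_num
    rw [this, Real.rpow_add (by positivity), Real.rpow_one, ← Real.sqrt_eq_rpow]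
  refine ⟨?_, h1⟩
  by_contra hni
  rw [integral_undef hni] at h1
  have : 0 < Real.pi / p * √(Real.pi / p) := by positivity
  linarith


lemma conv_exp (p q : ℝ) (hp : 0 < p) (hq : 0 < q) (x z : E3) :
    Real.exp (-p * ‖x‖ ^ 2) * Real.exp (-q * ‖x - z‖ ^ 2) =
      Real.exp (-(p * q / (p + q)) * ‖z‖ ^ 2) *
        Real.exp (-(p + q) * ‖x - (q / (p + q)) • z‖ ^ 2) := by
  rw [← Real.exp_add, ← Real.exp_add]
  congr 1
  rw [norm_sub_sq_real, norm_sub_sq_real, norm_smul, inner_smul_right, mul_pow, Real.norm_eq_abs,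
    sq_abs]
  have : p + q ≠ 0 := by positivity
  field_simp
  ring

lemma conv_int (p q : ℝ) (hp : 0 < p) (hq : 0 < q) (z : E3) :
    Integrable (fun x : E3 => Real.exp (-p * ‖x‖ ^ 2) * Real.exp (-q * ‖x - z‖ ^ 2)) ∧
    ∫ x : E3, Real.exp (-p * ‖x‖ ^ 2) * Real.exp (-q * ‖x - z‖ ^ 2) =
      Real.exp (-(p * q / (p + q)) * ‖z‖ ^ 2) * (Real.pi / (p + q) * √(Real.pi / (p + q))) := by
  have hpq : 0 < p + q := by positivity
  simp only [conv_exp p q hp hq]
  constructor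
  · apply Integrable.const_mul
    exact (gau (p + q) hpq).1.comp_sub_right ((q / (p + q)) • z)
  · rw [integral_const_mul, integral_sub_right_eq_self (fun x : E3 => Real.exp (-(p + q) * ‖x‖ ^ 2)),
      (gau (p + q) hpq).2]

/-- the Coulomb kernel for two Gaussians -/
noncomputable def FF (p q : ℝ) (x y : E3) : ℝ :=
  Real.exp (-p * ‖x‖ ^ 2) * Real.exp (-q * ‖y‖ ^ 2) / ‖x - y‖

lemma FF_nonneg (p q : ℝ) (x y : E3) : 0 ≤ FF p q x y := by
  unfold FF; positivity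

lemma FF_meas (p q : ℝ) : Measurable (Function.uncurry (FF p q)) := by
  unfold FF Function.uncurry
  fun_prop

lemma coul_l (p q : ℝ) (hp : 0 < p) (hq : 0 < q) :
    ∫⁻ x : E3, ∫⁻ y : E3, ENNReal.ofReal (FF p q x y) =
      ENNReal.ofReal (2 * (Real.pi ^ 2 * √Real.pi) / (p * q * √(p + q))) := by
  have hpq : 0 < p + q := by positivity
  have e1 : ∀ x : E3, ∫⁻ y : E3, ENNReal.ofReal (FF p q x y) =
      ∫⁻ z : E3, ENNReal.ofReal (Real.exp (-p * ‖x‖ ^ 2) * Real.exp (-q * ‖x - z‖ ^ 2) / ‖z‖) := by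
    intro x
    rw [← lintegral_sub_left_eq_self (μ := (volume : Measure E3)) (fun z : E3 => ENNReal.ofReal
      (Real.exp (-p * ‖x‖ ^ 2) * Real.exp (-q * ‖x - z‖ ^ 2) / ‖z‖)) x]
    simp only [sub_sub_cancel]
    rfl
  simp only [e1]
  rw [lintegral_lintegral_swap]
  swap
  · apply Measurable.aemeasurable
    unfold Function.uncurry
    fun_prop
  have e2 : ∀ z : E3, ∫⁻ x : E3, ENNReal.ofReal
      (Real.exp (-p * ‖x‖ ^ 2) * Real.exp (-q * ‖x - z‖ ^ 2) / ‖z‖) =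
      ENNReal.ofReal ((Real.pi / (p + q) * √(Real.pi / (p + q))) *
        (Real.exp (-(p * q / (p + q)) * ‖z‖ ^ 2) / ‖z‖)) := by
    intro z
    rw [← ofReal_integral_eq_lintegral_ofReal ((conv_int p q hp hq z).1.div_const _)
      (Filter.Eventually.of_forall (fun x => by positivity)), integral_div, (conv_int p q hp hq z).2]
    congr 1
    ring
  simp only [e2]
  have hr := rad0 (p * q / (p + q)) (by positivity)
  rw [← ofReal_integral_eq_lintegral_ofReal (hr.1.const_mul _)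
    (Filter.Eventually.of_forall (fun x => by positivity)), integral_const_mul, hr.2]
  congr 1
  rw [Real.sqrt_div Real.pi_pos.le]
  field_simp

lemma coul (p q : ℝ) (hp : 0 < p) (hq : 0 < q) :
    Integrable (Function.uncurry (FF p q)) ((volume : Measure E3).prod (volume : Measure E3)) ∧
    ∫ z, Function.uncurry (FF p q) z ∂((volume : Measure E3).prod (volume : Measure E3)) =
      2 * (Real.pi ^ 2 * √Real.pi) / (p * q * √(p + q)) := by
  have hm := FF_meas p q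
  have hl : ∫⁻ z, ENNReal.ofReal (Function.uncurry (FF p q) z)
      ∂((volume : Measure E3).prod (volume : Measure E3)) =
      ENNReal.ofReal (2 * (Real.pi ^ 2 * √Real.pi) / (p * q * √(p + q))) := by
    rw [lintegral_prod _ (hm.ennreal_ofReal.aemeasurable)]
    exact coul_l p q hp hq
  have hn : 0 ≤ᵐ[(volume : Measure E3).prod (volume : Measure E3)] Function.uncurry (FF p q) :=
    Filter.Eventually.of_forall (fun z => FF_nonneg p q z.1 z.2)
  constructor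
  · refine ⟨hm.aestronglyMeasurable, ?_⟩
    rw [hasFiniteIntegral_iff_ofReal hn, hl]
    exact ENNReal.ofReal_lt_top
  · rw [integral_eq_lintegral_of_nonneg_ae hn hm.aestronglyMeasurable, hl, ENNReal.toReal_ofReal]
    positivity


/-- the trial function without cutoff -/
noncomputable def gg (x : E3) : ℝ := Real.exp (-(1 / 2) * ‖x‖ ^ 2) + 2 * Real.exp (-(9 / 2) * ‖x‖ ^ 2)

lemma gg_pos (x : E3) : 0 < gg x := by unfold gg; positivity

lemma gg_sq (x : E3) : gg x ^ 2 = Real.exp (-1 * ‖x‖ ^ 2) + 4 * Real.exp (-5 * ‖x‖ ^ 2)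
    + 4 * Real.exp (-9 * ‖x‖ ^ 2) := by
  unfold gg
  have e1 : Real.exp (-1 * ‖x‖ ^ 2) = Real.exp (-(1 / 2) * ‖x‖ ^ 2) * Real.exp (-(1 / 2) * ‖x‖ ^ 2) := by
    rw [← Real.exp_add]; congr 1; ring
  have e2 : Real.exp (-5 * ‖x‖ ^ 2) = Real.exp (-(1 / 2) * ‖x‖ ^ 2) * Real.exp (-(9 / 2) * ‖x‖ ^ 2) := by
    rw [← Real.exp_add]; congr 1; ring
  have e3 : Real.exp (-9 * ‖x‖ ^ 2) = Real.exp (-(9 / 2) * ‖x‖ ^ 2) * Real.exp (-(9 / 2) * ‖x‖ ^ 2) := by
    rw [← Real.exp_add]; congr 1; ring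
  rw [e1, e2, e3]
  ring

lemma hasF (c : ℝ) (x : E3) : HasFDerivAt (fun x : E3 => Real.exp (-c * ‖x‖ ^ 2))
    ((-(2 * c) * Real.exp (-c * ‖x‖ ^ 2)) • innerSL ℝ x) x := by
  have h1 := (hasStrictFDerivAt_norm_sq x).hasFDerivAt
  have h2 := (h1.const_mul (-c)).exp
  refine h2.congr_fderiv ?_
  rw [← Nat.cast_smul_eq_nsmul ℝ, smul_smul, smul_smul]
  congr 1
  push_cast
  ring

lemma hasG (x : E3) : HasFDerivAt gg
    ((-(Real.exp (-(1 / 2) * ‖x‖ ^ 2) + 18 * Real.exp (-(9 / 2) * ‖x‖ ^ 2))) • innerSL ℝ x) x := by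
  have h := (hasF (1 / 2) x).add ((hasF (9 / 2) x).const_mul 2)
  refine h.congr_fderiv ?_
  rw [smul_smul, ← add_smul]
  congr 1
  ring

lemma gg_fd_norm (x : E3) : ‖fderiv ℝ gg x‖ ^ 2 = ‖x‖ ^ 2 * Real.exp (-1 * ‖x‖ ^ 2)
    + 36 * (‖x‖ ^ 2 * Real.exp (-5 * ‖x‖ ^ 2)) + 324 * (‖x‖ ^ 2 * Real.exp (-9 * ‖x‖ ^ 2)) := by
  rw [(hasG x).fderiv, norm_smul, innerSL_apply_norm, mul_pow, Real.norm_eq_abs, sq_abs]
  have e1 : Real.exp (-1 * ‖x‖ ^ 2) = Real.exp (-(1 / 2) * ‖x‖ ^ 2) * Real.exp (-(1 / 2) * ‖x‖ ^ 2) := by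
    rw [← Real.exp_add]; congr 1; ring
  have e2 : Real.exp (-5 * ‖x‖ ^ 2) = Real.exp (-(1 / 2) * ‖x‖ ^ 2) * Real.exp (-(9 / 2) * ‖x‖ ^ 2) := by
    rw [← Real.exp_add]; congr 1; ring
  have e3 : Real.exp (-9 * ‖x‖ ^ 2) = Real.exp (-(9 / 2) * ‖x‖ ^ 2) * Real.exp (-(9 / 2) * ‖x‖ ^ 2) := by
    rw [← Real.exp_add]; congr 1; ring
  rw [e1, e2, e3]
  ring

lemma gg_contDiff : ContDiff ℝ 1 gg := by
  unfold gg
  have : ContDiff ℝ 1 (fun x : E3 => ‖x‖ ^ 2) := contDiff_norm_sq ℝ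
  fun_prop

lemma comb2 {α : Type*} [MeasurableSpace α] {μ : Measure α} {f g : α → ℝ} {a b : ℝ} (c : ℝ)
    (hf : Integrable f μ ∧ ∫ x, f x ∂μ = a) (hg : Integrable g μ ∧ ∫ x, g x ∂μ = b) :
    Integrable (fun x => f x + c * g x) μ ∧ ∫ x, (f x + c * g x) ∂μ = a + c * b := by
  refine ⟨hf.1.add (hg.1.const_mul c), ?_⟩
  rw [integral_add hf.1 (hg.1.const_mul c), integral_const_mul, hf.2, hg.2]

lemma T_int : Integrable (fun x : E3 => ‖fderiv ℝ gg x‖ ^ 2) ∧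
    ∫ x : E3, ‖fderiv ℝ gg x‖ ^ 2 =
      3 / 2 * (Real.pi * √Real.pi) * (1 + 36 / (25 * √5) + 4 / 3) := by
  simp only [gg_fd_norm]
  have h := comb2 324 (comb2 36 (rad2 1 (by norm_num)) (rad2 5 (by norm_num))) (rad2 9 (by norm_num))
  refine ⟨h.1, h.2.trans ?_⟩
  have : √(9 : ℝ) = 3 := by
    rw [show (9 : ℝ) = 3 ^ 2 by norm_num]; exact Real.sqrt_sq (by norm_num)
  rw [this, Real.sqrt_one]
  field_simp
  ring

lemma P_int : Integrable (fun x : E3 => gg x ^ 2 / ‖x‖) ∧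
    ∫ x : E3, gg x ^ 2 / ‖x‖ = 2 * Real.pi * (101 / 45) := by
  have e : ∀ x : E3, gg x ^ 2 / ‖x‖ = Real.exp (-1 * ‖x‖ ^ 2) / ‖x‖ + 4 * (Real.exp (-5 * ‖x‖ ^ 2) / ‖x‖)
      + 4 * (Real.exp (-9 * ‖x‖ ^ 2) / ‖x‖) := by
    intro x; rw [gg_sq]; ring
  simp only [e]
  have h := comb2 4 (comb2 4 (rad0 1 (by norm_num)) (rad0 5 (by norm_num))) (rad0 9 (by norm_num))
  refine ⟨h.1, h.2.trans ?_⟩
  ring

lemma S_int : Integrable (fun x : E3 => gg x ^ 2) := by
  simp only [gg_sq]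
  exact (comb2 4 (comb2 4 (gau 1 (by norm_num)) (gau 5 (by norm_num))) (gau 9 (by norm_num))).1

/-- the Coulomb integrand of the trial function -/
noncomputable def CC (z : E3 × E3) : ℝ := gg z.1 ^ 2 * gg z.2 ^ 2 / ‖z.1 - z.2‖

/-- the value of the double integral -/
noncomputable def DV : ℝ := 2 * (Real.pi ^ 2 * √Real.pi) *
  (1 / √2 + 8 / (5 * √6) + 8 / (9 * √10) + 16 / (25 * √10) + 32 / (45 * √14) + 16 / (81 * √18))

lemma D_int : Integrable CC ((volume : Measure E3).prod (volume : Measure E3)) ∧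
    ∫ z, CC z ∂((volume : Measure E3).prod (volume : Measure E3)) = DV := by
  have e : CC = fun z => Function.uncurry (FF 1 1) z + 4 * Function.uncurry (FF 1 5) z
      + 4 * Function.uncurry (FF 1 9) z + 4 * Function.uncurry (FF 5 1) z
      + 16 * Function.uncurry (FF 5 5) z + 16 * Function.uncurry (FF 5 9) z
      + 4 * Function.uncurry (FF 9 1) z + 16 * Function.uncurry (FF 9 5) z
      + 16 * Function.uncurry (FF 9 9) z := by
    funext z
    unfold CC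
    rw [gg_sq, gg_sq]
    simp only [Function.uncurry, FF]
    ring
  rw [e]
  have h := comb2 16 (comb2 16 (comb2 4 (comb2 16 (comb2 16 (comb2 4 (comb2 4 (comb2 4
    (coul 1 1 (by norm_num) (by norm_num)) (coul 1 5 (by norm_num) (by norm_num)))
    (coul 1 9 (by norm_num) (by norm_num))) (coul 5 1 (by norm_num) (by norm_num)))
    (coul 5 5 (by norm_num) (by norm_num))) (coul 5 9 (by norm_num) (by norm_num)))
    (coul 9 1 (by norm_num) (by norm_num))) (coul 9 5 (by norm_num) (by norm_num)))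
    (coul 9 9 (by norm_num) (by norm_num))
  refine ⟨h.1, h.2.trans ?_⟩
  unfold DV
  have a1 : (1 : ℝ) + 1 = 2 := by norm_num
  have a2 : (1 : ℝ) + 5 = 6 := by norm_num
  have a3 : (1 : ℝ) + 9 = 10 := by norm_num
  have a4 : (5 : ℝ) + 1 = 6 := by norm_num
  have a5 : (5 : ℝ) + 5 = 10 := by norm_num
  have a6 : (5 : ℝ) + 9 = 14 := by norm_num
  have a7 : (9 : ℝ) + 1 = 10 := by norm_num
  have a8 : (9 : ℝ) + 5 = 14 := by norm_num
  have a9 : (9 : ℝ) + 9 = 18 := by norm_num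
  rw [a1, a2, a3, a4, a5, a6, a7, a8, a9]
  ring

lemma num_ineq : 3 * (3 / 2 * (Real.pi * √Real.pi) * (1 + 36 / (25 * √5) + 4 / 3)) *
    ((1 / 2) * DV) < (2 * Real.pi * (101 / 45)) ^ 3 := by
  have hpi : Real.pi < 3.1416 := Real.pi_lt_d4
  have hpi0 := Real.pi_pos
  have hs : √Real.pi * √Real.pi = Real.pi := Real.mul_self_sqrt hpi0.le
  have lb : ∀ (a b : ℝ), 0 < b → b ^ 2 ≤ a → b ≤ √a := fun a b hb h => Real.le_sqrt_of_sq_le h
  have s5 := lb 5 2.236 (by norm_num) (by norm_num)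
  have s2 := lb 2 1.4142 (by norm_num) (by norm_num)
  have s6 := lb 6 2.449 (by norm_num) (by norm_num)
  have s10 := lb 10 3.162 (by norm_num) (by norm_num)
  have s14 := lb 14 3.741 (by norm_num) (by norm_num)
  have s18 := lb 18 4.242 (by norm_num) (by norm_num)
  have A : 1 + 36 / (25 * √5) + 4 / 3 ≤ (4.4666 / 1.5 : ℝ) := by
    have : 36 / (25 * √5) ≤ 36 / (25 * 2.236) := by gcongr
    refine le_trans (add_le_add_left (add_le_add_right this _) _) ?_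
    norm_num
  have B : (1 / √2 + 8 / (5 * √6) + 8 / (9 * √10) + 16 / (25 * √10) + 32 / (45 * √14) + 16 / (81 * √18))
      ≤ 2.081 := by
    have b1 : 1 / √2 ≤ 1 / 1.4142 := by gcongr
    have b2 : 8 / (5 * √6) ≤ 8 / (5 * 2.449) := by gcongr
    have b3 : 8 / (9 * √10) ≤ 8 / (9 * 3.162) := by gcongr
    have b4 : 16 / (25 * √10) ≤ 16 / (25 * 3.162) := by gcongr
    have b5 : 32 / (45 * √14) ≤ 32 / (45 * 3.741) := by gcongr
    have b6 : 16 / (81 * √18) ≤ 16 / (81 * 4.242) := by gcongr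
    have : (1 / 1.4142 + 8 / (5 * 2.449) + 8 / (9 * 3.162) + 16 / (25 * 3.162) + 32 / (45 * 3.741)
      + 16 / (81 * 4.242) : ℝ) ≤ 2.081 := by norm_num
    linarith
  obtain ⟨a, ha⟩ : ∃ a, a = 1 + 36 / (25 * √5) + (4 / 3 : ℝ) := ⟨_, rfl⟩
  obtain ⟨b, hb⟩ : ∃ b, b = (1 / √2 + 8 / (5 * √6) + 8 / (9 * √10) + 16 / (25 * √10)
    + 32 / (45 * √14) + 16 / (81 * √18)) := ⟨_, rfl⟩
  unfold DV
  rw [← ha, ← hb]
  rw [← ha] at A
  rw [← hb] at B
  have ha0 : 0 < a := by rw [ha]; positivity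
  have hb0 : 0 < b := by rw [hb]; positivity
  have e1 : 3 * (3 / 2 * (Real.pi * √Real.pi) * a) * (1 / 2 * (2 * (Real.pi ^ 2 * √Real.pi) * b)) =
      Real.pi ^ 3 * (9 / 2 * Real.pi * (a * b)) := by
    linear_combination (9 / 2 * Real.pi ^ 3 * a * b) * hs
  have e2 : (2 * Real.pi * (101 / 45)) ^ 3 = Real.pi ^ 3 * (8 * (101 / 45) ^ 3) := by ring
  rw [e1, e2]
  apply mul_lt_mul_of_pos_left _ (by positivity)
  have hab : a * b ≤ (4.4666 / 1.5) * 2.081 := by gcongr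
  have : Real.pi * (a * b) ≤ 3.1416 * ((4.4666 / 1.5) * 2.081) := by gcongr
  have h3 : (9 / 2 * (3.1416 * ((4.4666 / 1.5) * 2.081)) : ℝ) < 8 * (101 / 45) ^ 3 := by norm_num
  linarith


/-- smooth cutoff -/
noncomputable def chi : ContDiffBump (0 : E3) := ⟨1, 2, by norm_num, by norm_num⟩

/-- the cut-off trial functions -/
noncomputable def ps (n : ℕ) (x : E3) : ℝ := chi ((1 / ((n : ℝ) + 1)) • x) * gg x

lemma chi_cd : ContDiff ℝ 1 (fun x : E3 => chi x) := chi.contDiff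

lemma inv_pos' (n : ℕ) : 0 < 1 / ((n : ℝ) + 1) := by positivity

lemma ps_contDiff (n : ℕ) : ContDiff ℝ 1 (ps n) := by
  have h : ContDiff ℝ 1 (fun x : E3 => chi ((1 / ((n : ℝ) + 1)) • x)) :=
    chi_cd.comp (contDiff_const_smul _)
  exact h.mul gg_contDiff

lemma ps_supp (n : ℕ) : HasCompactSupport (ps n) := by
  have h : HasCompactSupport (fun x : E3 => chi ((1 / ((n : ℝ) + 1)) • x)) :=
    HasCompactSupport.comp_smul chi.hasCompactSupport (inv_pos' n).ne'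
  exact h.mul_right

lemma arg_tendsto (x : E3) : Filter.Tendsto (fun n : ℕ => (1 / ((n : ℝ) + 1)) • x) Filter.atTop
    (nhds 0) := by
  have := (tendsto_one_div_add_atTop_nhds_zero_nat (𝕜 := ℝ)).smul_const x
  rwa [zero_smul] at this

lemma chi_tendsto (x : E3) : Filter.Tendsto (fun n : ℕ => chi ((1 / ((n : ℝ) + 1)) • x)) Filter.atTop
    (nhds 1) := by
  have h1 := (chi.continuous.tendsto 0).comp (arg_tendsto x)
  have h2 : chi 0 = 1 := chi.one_of_mem_closedBall (by simp [chi])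
  rw [h2] at h1
  exact h1

lemma ps_tendsto (x : E3) : Filter.Tendsto (fun n : ℕ => ps n x) Filter.atTop (nhds (gg x)) := by
  have := (chi_tendsto x).mul_const (gg x)
  rwa [one_mul] at this

lemma ps_nonneg (n : ℕ) (x : E3) : 0 ≤ ps n x := mul_nonneg chi.nonneg (gg_pos x).le

lemma ps_le (n : ℕ) (x : E3) : ps n x ≤ gg x := by
  have := mul_le_mul_of_nonneg_right (chi.le_one (x := (1 / ((n : ℝ) + 1)) • x)) (gg_pos x).le
  rwa [one_mul] at this

lemma ps_sq_le (n : ℕ) (x : E3) : ps n x ^ 2 ≤ gg x ^ 2 :=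
  pow_le_pow_left₀ (ps_nonneg n x) (ps_le n x) 2

lemma ps_fderiv (n : ℕ) (x : E3) : fderiv ℝ (ps n) x =
    chi ((1 / ((n : ℝ) + 1)) • x) • fderiv ℝ gg x +
      gg x • ((1 / ((n : ℝ) + 1)) • fderiv ℝ (fun x : E3 => chi x) ((1 / ((n : ℝ) + 1)) • x)) := by
  have h : ContDiff ℝ 1 (fun x : E3 => chi ((1 / ((n : ℝ) + 1)) • x)) :=
    chi_cd.comp (contDiff_const_smul _)
  have h1 : DifferentiableAt ℝ (fun x : E3 => chi ((1 / ((n : ℝ) + 1)) • x)) x :=
    (h.differentiable (by norm_num)) x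
  have h2 : DifferentiableAt ℝ gg x := (gg_contDiff.differentiable (by norm_num)) x
  have h3 := fderiv_mul h1 h2
  have h4 := fderiv_comp_smul (𝕜 := ℝ) (f := fun x : E3 => chi x) (x := x) (1 / ((n : ℝ) + 1))
  rw [← h4]
  exact h3

lemma chi_bd : ∃ C : ℝ, 0 ≤ C ∧ ∀ x : E3, ‖fderiv ℝ (fun x : E3 => chi x) x‖ ≤ C := by
  have h1 : Continuous (fderiv ℝ (fun x : E3 => chi x)) := chi_cd.continuous_fderiv (by norm_num)
  have h2 : HasCompactSupport (fderiv ℝ (fun x : E3 => chi x)) := chi.hasCompactSupport.fderiv ℝ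
  obtain ⟨C, hC⟩ := h1.bounded_above_of_compact_support h2
  exact ⟨C, (norm_nonneg _).trans (hC 0), hC⟩

lemma T_lim : Filter.Tendsto (fun n : ℕ => ∫ x : E3, ‖fderiv ℝ (ps n) x‖ ^ 2) Filter.atTop
    (nhds (∫ x : E3, ‖fderiv ℝ gg x‖ ^ 2)) := by
  obtain ⟨C, hC0, hC⟩ := chi_bd
  apply tendsto_integral_of_dominated_convergence
    (fun x : E3 => 2 * ‖fderiv ℝ gg x‖ ^ 2 + (2 * C ^ 2) * gg x ^ 2)
  · intro n
    have : Continuous (fun x : E3 => ‖fderiv ℝ (ps n) x‖ ^ 2) :=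
      (((ps_contDiff n).continuous_fderiv (by norm_num)).norm).pow 2
    exact this.aestronglyMeasurable
  · exact (T_int.1.const_mul 2).add (S_int.const_mul _)
  · intro n
    apply Filter.Eventually.of_forall
    intro x
    rw [Real.norm_of_nonneg (by positivity)]
    have hb : ‖fderiv ℝ (ps n) x‖ ≤ ‖fderiv ℝ gg x‖ + C * gg x := by
      rw [ps_fderiv]
      refine (norm_add_le _ _).trans ?_
      apply add_le_add
      · rw [norm_smul, Real.norm_of_nonneg chi.nonneg]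
        exact mul_le_of_le_one_left (norm_nonneg _) chi.le_one
      · rw [norm_smul, norm_smul, Real.norm_of_nonneg (gg_pos x).le,
          Real.norm_of_nonneg (inv_pos' n).le, mul_comm C]
        apply mul_le_mul_of_nonneg_left _ (gg_pos x).le
        have h1 : 1 / ((n : ℝ) + 1) ≤ 1 := by
          rw [div_le_one (by positivity)]
          linarith [Nat.cast_nonneg (α := ℝ) n]
        calc 1 / ((n : ℝ) + 1) * ‖fderiv ℝ (fun x : E3 => chi x) ((1 / ((n : ℝ) + 1)) • x)‖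
            ≤ 1 * C := mul_le_mul h1 (hC _) (norm_nonneg _) zero_le_one
          _ = C := one_mul C
    have h0 := norm_nonneg (fderiv ℝ (ps n) x)
    have hg := (gg_pos x).le
    have h1 := norm_nonneg (fderiv ℝ gg x)
    calc ‖fderiv ℝ (ps n) x‖ ^ 2 ≤ (‖fderiv ℝ gg x‖ + C * gg x) ^ 2 := pow_le_pow_left₀ h0 hb 2
      _ ≤ 2 * ‖fderiv ℝ gg x‖ ^ 2 + (2 * C ^ 2) * gg x ^ 2 := by
        nlinarith [sq_nonneg (‖fderiv ℝ gg x‖ - C * gg x)]
  · apply Filter.Eventually.of_forall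
    intro x
    have h1 : Filter.Tendsto (fun n : ℕ => chi ((1 / ((n : ℝ) + 1)) • x) • fderiv ℝ gg x)
        Filter.atTop (nhds ((1 : ℝ) • fderiv ℝ gg x)) := (chi_tendsto x).smul_const _
    have hc : Continuous (fderiv ℝ (fun x : E3 => chi x)) := chi_cd.continuous_fderiv (by norm_num)
    have h2 : Filter.Tendsto (fun n : ℕ => gg x • ((1 / ((n : ℝ) + 1)) •
        fderiv ℝ (fun x : E3 => chi x) ((1 / ((n : ℝ) + 1)) • x))) Filter.atTop
        (nhds (gg x • ((0 : ℝ) • fderiv ℝ (fun x : E3 => chi x) 0))) := by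
      apply Filter.Tendsto.const_smul
      exact (tendsto_one_div_add_atTop_nhds_zero_nat (𝕜 := ℝ)).smul
        ((hc.tendsto 0).comp (arg_tendsto x))
    have h3 := h1.add h2
    rw [one_smul, zero_smul, smul_zero, add_zero] at h3
    have h4 : (fun n : ℕ => fderiv ℝ (ps n) x) = fun n : ℕ =>
        chi ((1 / ((n : ℝ) + 1)) • x) • fderiv ℝ gg x + gg x • ((1 / ((n : ℝ) + 1)) •
        fderiv ℝ (fun x : E3 => chi x) ((1 / ((n : ℝ) + 1)) • x)) := by
      funext n; exact ps_fderiv n x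
    rw [← h4] at h3
    exact (h3.norm).pow 2

lemma P_lim : Filter.Tendsto (fun n : ℕ => ∫ x : E3, ps n x ^ 2 / ‖x‖) Filter.atTop
    (nhds (∫ x : E3, gg x ^ 2 / ‖x‖)) := by
  apply tendsto_integral_of_dominated_convergence (fun x : E3 => gg x ^ 2 / ‖x‖)
  · intro n
    have h1 : Measurable (ps n) := (ps_contDiff n).continuous.measurable
    have : Measurable (fun x : E3 => ps n x ^ 2 / ‖x‖) := by fun_prop
    exact this.aestronglyMeasurable
  · exact P_int.1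
  · intro n
    apply Filter.Eventually.of_forall
    intro x
    rw [Real.norm_of_nonneg (by positivity)]
    exact div_le_div_of_nonneg_right (ps_sq_le n x) (norm_nonneg x)
  · apply Filter.Eventually.of_forall
    intro x
    exact ((ps_tendsto x).pow 2).div_const _

lemma D_aux (n : ℕ) : AEStronglyMeasurable (fun z : E3 × E3 => ps n z.1 ^ 2 * ps n z.2 ^ 2 / ‖z.1 - z.2‖)
    ((volume : Measure E3).prod (volume : Measure E3)) := by
  have h1 : Measurable (ps n) := (ps_contDiff n).continuous.measurable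
  have : Measurable (fun z : E3 × E3 => ps n z.1 ^ 2 * ps n z.2 ^ 2 / ‖z.1 - z.2‖) := by fun_prop
  exact this.aestronglyMeasurable

lemma D_bd (n : ℕ) (z : E3 × E3) : ‖ps n z.1 ^ 2 * ps n z.2 ^ 2 / ‖z.1 - z.2‖‖ ≤ CC z := by
  rw [Real.norm_of_nonneg (by positivity)]
  unfold CC
  apply div_le_div_of_nonneg_right _ (norm_nonneg _)
  exact mul_le_mul (ps_sq_le n _) (ps_sq_le n _) (by positivity) (by positivity)

lemma D_lim : Filter.Tendsto (fun n : ℕ => ∫ x : E3, ∫ y : E3, ps n x ^ 2 * ps n y ^ 2 / ‖x - y‖)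
    Filter.atTop (nhds DV) := by
  have h1 : Filter.Tendsto (fun n : ℕ => ∫ z : E3 × E3, ps n z.1 ^ 2 * ps n z.2 ^ 2 / ‖z.1 - z.2‖
      ∂((volume : Measure E3).prod (volume : Measure E3))) Filter.atTop
      (nhds (∫ z, CC z ∂((volume : Measure E3).prod (volume : Measure E3)))) := by
    apply tendsto_integral_of_dominated_convergence CC D_aux D_int.1
    · intro n
      exact Filter.Eventually.of_forall (D_bd n)
    · apply Filter.Eventually.of_forall
      intro z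
      exact (((ps_tendsto z.1).pow 2).mul ((ps_tendsto z.2).pow 2)).div_const _
  rw [D_int.2] at h1
  refine h1.congr ?_
  intro n
  have hi : Integrable (fun z : E3 × E3 => ps n z.1 ^ 2 * ps n z.2 ^ 2 / ‖z.1 - z.2‖)
      ((volume : Measure E3).prod (volume : Measure E3)) :=
    D_int.1.mono' (D_aux n) (Filter.Eventually.of_forall (D_bd n))
  exact integral_prod _ hi

/-- A trial function: with `T = ∫ |∇ψ|²`, `P = ∫ ψ²/|x|`, `D = (1/2) ∬ ψ²ψ²/|x-y|`
one has `P³ > 3 T D`. -/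
theorem trial : ∃ ψ : EuclideanSpace ℝ (Fin 3) → ℝ, ContDiff ℝ 1 ψ ∧ HasCompactSupport ψ ∧
    0 < (∫ x, ‖fderiv ℝ ψ x‖ ^ 2) ∧ 0 < (∫ x, ψ x ^ 2 / ‖x‖) ∧
    0 < (∫ x, ∫ y, ψ x ^ 2 * ψ y ^ 2 / ‖x - y‖) ∧
    3 * (∫ x, ‖fderiv ℝ ψ x‖ ^ 2) * ((1 / 2) * ∫ x, ∫ y, ψ x ^ 2 * ψ y ^ 2 / ‖x - y‖)
      < (∫ x, ψ x ^ 2 / ‖x‖) ^ 3 := by
  have hT := T_lim
  have hP := P_lim
  have hD := D_lim
  rw [T_int.2] at hT
  rw [P_int.2] at hP
  have hT0 : 0 < 3 / 2 * (Real.pi * √Real.pi) * (1 + 36 / (25 * √5) + 4 / 3) := by positivity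
  have hP0 : 0 < 2 * Real.pi * (101 / 45) := by positivity
  have hD0 : 0 < DV := by unfold DV; positivity
  have e1 := hT.eventually (lt_mem_nhds hT0)
  have e2 := hP.eventually (lt_mem_nhds hP0)
  have e3 := hD.eventually (lt_mem_nhds hD0)
  have hL := (hT.const_mul 3).mul (hD.const_mul (1 / 2))
  have e4 := hL.eventually_lt (hP.pow 3) num_ineq
  obtain ⟨n, h1, h2, h3, h4⟩ := (e1.and (e2.and (e3.and e4))).exists
  exact ⟨ps n, ps_contDiff n, ps_supp n, h1, h2, h3, h4⟩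

end Pool.Agent.Helper436.TFWJ1
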