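import Mathlib

set_option autoImplicit false

open MeasureTheory

namespace Pool.Agent.Helper436.TFWJ2

abbrev VV := EuclideanSpace ℝ (Fin 3)

lemma int_gauss {b : ℝ} (hb : 0 < b) : Integrable (fun x : VV => Real.exp (-(b * ‖x‖ ^ 2))) := by
  have h := (GaussianFourier.integrable_cexp_neg_mul_sq_norm_add (V := VV) (b := (b : ℂ))
    (by simpa using hb) 0 0).norm
  refine h.congr (Filter.Eventually.of_forall fun x => ?_)
  simp only [Complex.norm_exp]
  congr 1
  simp
  left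
  norm_cast

lemma int_gauss_pos {b : ℝ} (hb : 0 < b) : 0 < ∫ x : VV, Real.exp (-(b * ‖x‖ ^ 2)) := by
  have h := GaussianFourier.integral_rexp_neg_mul_sq_norm (V := VV) hb
  have h2 : (∫ x : VV, Real.exp (-(b * ‖x‖ ^ 2))) = ∫ v : VV, Real.exp (-b * ‖v‖^2) := by
    congr 1; funext x; congr 1; ring
  rw [h2, h]
  positivity

lemma par (t : ℝ) (x y z : VV) :
    2 * t ^ 2 * ‖x - z‖ ^ 2 + 2 * t ^ 2 * ‖y - z‖ ^ 2
      = t ^ 2 * ‖x - y‖ ^ 2 + 4 * t ^ 2 * ‖z - (1 / 2 : ℝ) • (x + y)‖ ^ 2 := by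
  have h := parallelogram_law_with_norm ℝ (x - z) (y - z)
  have h1 : (x - z) - (y - z) = x - y := by abel
  have h2 : (x - z) + (y - z) = (-2 : ℝ) • (z - (1 / 2 : ℝ) • (x + y)) := by
    rw [smul_sub, smul_smul]
    norm_num
    rw [two_smul]; abel
  rw [h1, h2, norm_smul] at h
  have h3 : ‖(-2 : ℝ)‖ = 2 := by norm_num
  rw [h3] at h
  linear_combination (-(t ^ 2)) * h

/-- The Gaussian factor. -/
noncomputable def gf (t : ℝ) (x z : VV) : ℝ := Real.exp (-(2 * t ^ 2 * ‖x - z‖ ^ 2))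

lemma gf_cont (t : ℝ) : Continuous (fun p : VV × VV => gf t p.1 p.2) := by
  unfold gf; fun_prop

lemma gf_pos (t : ℝ) (x z : VV) : 0 < gf t x z := Real.exp_pos _

lemma kernel_int (t : ℝ) (x y : VV) :
    (∫ z : VV, gf t x z * gf t y z)
      = Real.exp (-(t ^ 2 * ‖x - y‖ ^ 2)) * ∫ z : VV, Real.exp (-(4 * t ^ 2 * ‖z‖ ^ 2)) := by
  have h1 : ∀ z : VV, gf t x z * gf t y z
      = Real.exp (-(t ^ 2 * ‖x - y‖ ^ 2)) *
        Real.exp (-(4 * t ^ 2 * ‖z - (1 / 2 : ℝ) • (x + y)‖ ^ 2)) := by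
    intro z
    unfold gf
    rw [← Real.exp_add, ← Real.exp_add]
    congr 1
    have := par t x y z
    linarith
  simp_rw [h1]
  rw [integral_const_mul]
  congr 1
  exact integral_sub_right_eq_self (fun z : VV => Real.exp (-(4 * t ^ 2 * ‖z‖ ^ 2)))
    ((1 / 2 : ℝ) • (x + y))

lemma kernel_integrable {t : ℝ} (ht : 0 < t) (x y : VV) :
    Integrable (fun z : VV => gf t x z * gf t y z) := by
  have h1 : ∀ z : VV, gf t x z * gf t y z
      = Real.exp (-(t ^ 2 * ‖x - y‖ ^ 2)) *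
        Real.exp (-(4 * t ^ 2 * ‖z - (1 / 2 : ℝ) • (x + y)‖ ^ 2)) := by
    intro z
    unfold gf
    rw [← Real.exp_add, ← Real.exp_add]
    congr 1
    have := par t x y z
    linarith
  simp_rw [h1]
  apply Integrable.const_mul
  have := (int_gauss (b := 4 * t ^ 2) (by positivity)).comp_sub_right ((1 / 2 : ℝ) • (x + y))
  exact this

/-- Fubini part. -/
lemma fub {h : VV → ℝ} (hh : Continuous h) (hc : HasCompactSupport h) {t : ℝ} (ht : 0 < t) :
    Integrable (fun q : VV × (VV × VV) => (h q.2.1 * gf t q.2.1 q.1) * (h q.2.2 * gf t q.2.2 q.1))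
      (volume.prod (volume.prod volume)) := by
  rw [integrable_prod_iff']
  · refine ⟨Filter.Eventually.of_forall fun p => ?_, ?_⟩
    · have := (kernel_integrable ht p.1 p.2).const_mul (h p.1 * h p.2)
      refine this.congr (Filter.Eventually.of_forall fun z => ?_)
      simp only
      ring
    · have : ∀ p : VV × VV, (∫ z, ‖(h p.1 * gf t p.1 z) * (h p.2 * gf t p.2 z)‖)
          = |h p.1| * |h p.2| * (Real.exp (-(t ^ 2 * ‖p.1 - p.2‖ ^ 2)) *
            ∫ z : VV, Real.exp (-(4 * t ^ 2 * ‖z‖ ^ 2))) := by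
        intro p
        rw [← kernel_int, ← integral_const_mul]
        congr 1
        funext z
        rw [Real.norm_eq_abs, abs_mul, abs_mul, abs_mul, abs_of_pos (gf_pos t p.1 z),
          abs_of_pos (gf_pos t p.2 z)]
        ring
      simp only [this]
      apply Continuous.integrable_of_hasCompactSupport
      · fun_prop
      · have h1 : HasCompactSupport (fun p : VV × VV => |h p.1| * |h p.2|) := by
          have hK := hc.isCompact.prod hc.isCompact
          apply HasCompactSupport.intro hK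
          intro p hp
          simp only [Set.mem_prod, not_and_or] at hp
          rcases hp with hp | hp
          · simp [image_eq_zero_of_notMem_tsupport hp]
          · simp [image_eq_zero_of_notMem_tsupport hp]
        exact h1.mul_right
  · apply Continuous.aestronglyMeasurable
    unfold gf
    fun_prop

lemma fub1 {h : VV → ℝ} (hh : Continuous h) (hc : HasCompactSupport h) {t : ℝ} (ht : 0 < t) :
    Integrable (fun q : VV × VV => (h q.2 * gf t q.2 q.1) * gf t 0 q.1)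
      (volume.prod volume) := by
  rw [integrable_prod_iff']
  · refine ⟨Filter.Eventually.of_forall fun p => ?_, ?_⟩
    · have := (kernel_integrable ht p 0).const_mul (h p)
      refine this.congr (Filter.Eventually.of_forall fun z => ?_)
      simp only
      ring
    · have : ∀ p : VV, (∫ z, ‖(h p * gf t p z) * gf t 0 z‖)
          = |h p| * (Real.exp (-(t ^ 2 * ‖p - 0‖ ^ 2)) *
            ∫ z : VV, Real.exp (-(4 * t ^ 2 * ‖z‖ ^ 2))) := by
        intro p
        rw [← kernel_int, ← integral_const_mul]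
        congr 1
        funext z
        rw [Real.norm_eq_abs, abs_mul, abs_mul, abs_of_pos (gf_pos t p z),
          abs_of_pos (gf_pos t 0 z)]
        ring
      simp only [this]
      apply Continuous.integrable_of_hasCompactSupport
      · fun_prop
      · have h1 : HasCompactSupport (fun p : VV => |h p|) := by
          apply HasCompactSupport.intro hc.isCompact
          intro p hp
          simp [image_eq_zero_of_notMem_tsupport hp]
        exact h1.mul_right
  · apply Continuous.aestronglyMeasurable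
    unfold gf
    fun_prop

lemma A_sq {h : VV → ℝ} (hh : Continuous h) (hc : HasCompactSupport h) {t : ℝ} (ht : 0 < t) :
    Integrable (fun z : VV => (∫ x, h x * gf t x z) ^ 2) ∧
    (∫ z : VV, (∫ x, h x * gf t x z) ^ 2) =
      (∫ z : VV, Real.exp (-(4 * t ^ 2 * ‖z‖ ^ 2))) *
      ∫ p : VV × VV, h p.1 * h p.2 * Real.exp (-(t ^ 2 * ‖p.1 - p.2‖ ^ 2)) := by
  have hf := fub hh hc ht
  have h1 : ∀ z : VV, (∫ x, h x * gf t x z) ^ 2
      = ∫ p : VV × VV, (h p.1 * gf t p.1 z) * (h p.2 * gf t p.2 z) := by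
    intro z
    rw [pow_two]
    exact (integral_prod_mul (μ := volume) (ν := volume) (fun x : VV => h x * gf t x z)
      (fun x : VV => h x * gf t x z)).symm
  refine ⟨?_, ?_⟩
  · refine hf.integral_prod_left.congr (Filter.Eventually.of_forall fun z => ?_)
    exact (h1 z).symm
  · calc (∫ z : VV, (∫ x, h x * gf t x z) ^ 2)
        = ∫ z : VV, ∫ p : VV × VV, (h p.1 * gf t p.1 z) * (h p.2 * gf t p.2 z) := by
          congr 1; funext z; exact h1 z
      _ = ∫ p : VV × VV, ∫ z : VV, (h p.1 * gf t p.1 z) * (h p.2 * gf t p.2 z) :=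
          integral_integral_swap hf
      _ = ∫ p : VV × VV, (∫ z : VV, Real.exp (-(4 * t ^ 2 * ‖z‖ ^ 2))) *
            (h p.1 * h p.2 * Real.exp (-(t ^ 2 * ‖p.1 - p.2‖ ^ 2))) := by
          congr 1; funext p
          have h2 : (∫ z : VV, (h p.1 * gf t p.1 z) * (h p.2 * gf t p.2 z))
            = h p.1 * h p.2 * ∫ z : VV, gf t p.1 z * gf t p.2 z := by
            rw [← integral_const_mul]
            congr 1; funext z; ring
          rw [h2, kernel_int]; ring
      _ = _ := integral_const_mul _ _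

lemma A_one {h : VV → ℝ} (hh : Continuous h) (hc : HasCompactSupport h) {t : ℝ} (ht : 0 < t) :
    Integrable (fun z : VV => (∫ x, h x * gf t x z) * gf t 0 z) ∧
    (∫ z : VV, (∫ x, h x * gf t x z) * gf t 0 z) =
      (∫ z : VV, Real.exp (-(4 * t ^ 2 * ‖z‖ ^ 2))) *
      ∫ x : VV, Real.exp (-(t ^ 2 * ‖x‖ ^ 2)) * h x := by
  have hf := fub1 hh hc ht
  have h1 : ∀ z : VV, (∫ x, h x * gf t x z) * gf t 0 z
      = ∫ p : VV, (h p * gf t p z) * gf t 0 z := by
    intro z
    rw [integral_mul_const]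
  refine ⟨?_, ?_⟩
  · refine hf.integral_prod_left.congr (Filter.Eventually.of_forall fun z => ?_)
    exact (h1 z).symm
  · calc (∫ z : VV, (∫ x, h x * gf t x z) * gf t 0 z)
        = ∫ z : VV, ∫ p : VV, (h p * gf t p z) * gf t 0 z := by
          congr 1; funext z; exact h1 z
      _ = ∫ p : VV, ∫ z : VV, (h p * gf t p z) * gf t 0 z :=
          integral_integral_swap hf
      _ = ∫ p : VV, (∫ z : VV, Real.exp (-(4 * t ^ 2 * ‖z‖ ^ 2))) *
            (Real.exp (-(t ^ 2 * ‖p‖ ^ 2)) * h p) := by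
          congr 1; funext p
          have h2 : (∫ z : VV, (h p * gf t p z) * gf t 0 z)
            = h p * ∫ z : VV, gf t p z * gf t 0 z := by
            rw [← integral_const_mul]
            congr 1; funext z; ring
          rw [h2, kernel_int, sub_zero]; ring
      _ = _ := integral_const_mul _ _

/-- Test function bound at a fixed scale. -/
lemma test_bound {h : VV → ℝ} (hh : Continuous h) (hc : HasCompactSupport h) {t : ℝ}
    (ht : 0 < t) :
    (∫ x : VV, Real.exp (-(t ^ 2 * ‖x‖ ^ 2)) * h x) ^ 2 ≤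
      ∫ p : VV × VV, h p.1 * h p.2 * Real.exp (-(t ^ 2 * ‖p.1 - p.2‖ ^ 2)) := by
  obtain ⟨i1, e1⟩ := A_sq hh hc ht
  obtain ⟨i2, e2⟩ := A_one hh hc ht
  have hK := int_gauss_pos (b := 4 * t ^ 2) (by positivity)
  have i3 := kernel_integrable ht 0 0
  have e3 := kernel_int t 0 0
  set K := ∫ z : VV, Real.exp (-(4 * t ^ 2 * ‖z‖ ^ 2)) with hKdef
  set J := ∫ x : VV, Real.exp (-(t ^ 2 * ‖x‖ ^ 2)) * h x with hJ
  set I := ∫ p : VV × VV, h p.1 * h p.2 * Real.exp (-(t ^ 2 * ‖p.1 - p.2‖ ^ 2)) with hI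
  have e3' : (∫ z : VV, gf t 0 z * gf t 0 z) = K := by
    rw [e3]; simp
  have h0 : 0 ≤ ∫ z : VV, ((∫ x, h x * gf t x z) - J * gf t 0 z) ^ 2 :=
    integral_nonneg fun z => sq_nonneg _
  have h1 : (∫ z : VV, ((∫ x, h x * gf t x z) - J * gf t 0 z) ^ 2)
      = K * I - 2 * J * (K * J) + J ^ 2 * K := by
    calc (∫ z : VV, ((∫ x, h x * gf t x z) - J * gf t 0 z) ^ 2)
        = ∫ z : VV, (((∫ x, h x * gf t x z) ^ 2
            - 2 * J * ((∫ x, h x * gf t x z) * gf t 0 z)) + J ^ 2 * (gf t 0 z * gf t 0 z)) := by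
          congr 1; funext z; ring
      _ = (∫ z : VV, ((∫ x, h x * gf t x z) ^ 2
            - 2 * J * ((∫ x, h x * gf t x z) * gf t 0 z)))
            + ∫ z : VV, J ^ 2 * (gf t 0 z * gf t 0 z) :=
          integral_add (i1.sub (i2.const_mul _)) (i3.const_mul _)
      _ = ((∫ z : VV, (∫ x, h x * gf t x z) ^ 2)
            - ∫ z : VV, 2 * J * ((∫ x, h x * gf t x z) * gf t 0 z))
            + ∫ z : VV, J ^ 2 * (gf t 0 z * gf t 0 z) := by
          rw [integral_sub i1 (i2.const_mul _)]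
      _ = K * I - 2 * J * (K * J) + J ^ 2 * K := by
          rw [integral_const_mul, integral_const_mul, e1, e2, e3']
  rw [h1] at h0
  have h2 : 0 ≤ K * (I - J ^ 2) := by nlinarith
  have h3 : 0 ≤ I - J ^ 2 := by
    by_contra hcon
    push Not at hcon
    have := mul_neg_of_pos_of_neg hK hcon
    linarith
  linarith


lemma ae_ne : ∀ᵐ p : VV × VV ∂(volume.prod volume), p.1 ≠ p.2 := by
  have hm : MeasurableSet {p : VV × VV | p.1 = p.2} :=
    (isClosed_eq continuous_fst continuous_snd).measurableSet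
  have h0 : (volume.prod volume) {p : VV × VV | p.1 = p.2} = 0 := by
    rw [Measure.measure_prod_null hm]
    refine Filter.Eventually.of_forall fun x => ?_
    have : Prod.mk x ⁻¹' {p : VV × VV | p.1 = p.2} = {x} := by
      ext y; simp [eq_comm]
    show volume (Prod.mk x ⁻¹' {p : VV × VV | p.1 = p.2}) = 0
    rw [this]
    simp
  have := measure_eq_zero_iff_ae_notMem.mp h0
  filter_upwards [this] with p hp
  exact hp

lemma gaussIoi {r : ℝ} (hr : 0 < r) :
    (∫ t in Set.Ioi (0 : ℝ), Real.exp (-(t ^ 2 * r ^ 2))) = Real.sqrt Real.pi / 2 * (1 / r) := by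
  have h := integral_gaussian_Ioi (r ^ 2)
  have h2 : (∫ t in Set.Ioi (0 : ℝ), Real.exp (-(t ^ 2 * r ^ 2)))
      = ∫ t in Set.Ioi (0 : ℝ), Real.exp (-(r ^ 2) * t ^ 2) := by
    congr 1; funext t; congr 1; ring
  rw [h2, h, Real.sqrt_div' _ (sq_nonneg r), Real.sqrt_sq hr.le]
  ring

lemma fubt {h : VV → ℝ} (hh : Continuous h)
    (hint : Integrable (fun p : VV × VV => h p.1 * h p.2 / ‖p.1 - p.2‖) (volume.prod volume)) :
    Integrable (fun q : (VV × VV) × ℝ =>
      h q.1.1 * h q.1.2 * Real.exp (-(q.2 ^ 2 * ‖q.1.1 - q.1.2‖ ^ 2)))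
      ((volume.prod volume).prod (volume.restrict (Set.Ioi (0 : ℝ)))) := by
  rw [integrable_prod_iff]
  · refine ⟨?_, ?_⟩
    · filter_upwards [ae_ne] with p hp
      have hr : 0 < ‖p.1 - p.2‖ ^ 2 := by
        have : 0 < ‖p.1 - p.2‖ := norm_pos_iff.mpr (sub_ne_zero.mpr hp)
        positivity
      apply Integrable.const_mul
      have := (integrable_exp_neg_mul_sq hr).restrict (s := Set.Ioi (0 : ℝ))
      refine this.congr (Filter.Eventually.of_forall fun t => ?_)
      simp only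
      congr 1; ring
    · have h2 := (hint.norm).const_mul (Real.sqrt Real.pi / 2)
      refine h2.congr ?_
      filter_upwards [ae_ne] with p hp
      have hr : 0 < ‖p.1 - p.2‖ := norm_pos_iff.mpr (sub_ne_zero.mpr hp)
      have h3 : ∀ t : ℝ, ‖h p.1 * h p.2 * Real.exp (-(t ^ 2 * ‖p.1 - p.2‖ ^ 2))‖
          = |h p.1 * h p.2| * Real.exp (-(t ^ 2 * ‖p.1 - p.2‖ ^ 2)) := by
        intro t
        rw [Real.norm_eq_abs, abs_mul, abs_of_pos (Real.exp_pos _)]
      simp only [h3]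
      rw [integral_const_mul, gaussIoi hr, Real.norm_eq_abs, abs_div, abs_of_pos hr]
      ring
  · apply Continuous.aestronglyMeasurable
    fun_prop

lemma D_eq {h : VV → ℝ} (hh : Continuous h)
    (hint : Integrable (fun p : VV × VV => h p.1 * h p.2 / ‖p.1 - p.2‖) (volume.prod volume)) :
    Integrable (fun t : ℝ => ∫ p : VV × VV, h p.1 * h p.2 * Real.exp (-(t ^ 2 * ‖p.1 - p.2‖ ^ 2)))
      (volume.restrict (Set.Ioi (0 : ℝ))) ∧
    (∫ t in Set.Ioi (0 : ℝ), ∫ p : VV × VV,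
      h p.1 * h p.2 * Real.exp (-(t ^ 2 * ‖p.1 - p.2‖ ^ 2)))
      = Real.sqrt Real.pi / 2 * ∫ x, ∫ y, h x * h y / ‖x - y‖ := by
  have hf := fubt hh hint
  refine ⟨hf.integral_prod_right, ?_⟩
  have h1 : (∫ x, ∫ y, h x * h y / ‖x - y‖)
      = ∫ p : VV × VV, h p.1 * h p.2 / ‖p.1 - p.2‖ := (integral_prod _ hint).symm
  rw [h1, ← integral_const_mul]
  have h2 : (∫ t in Set.Ioi (0 : ℝ), ∫ p : VV × VV,
      h p.1 * h p.2 * Real.exp (-(t ^ 2 * ‖p.1 - p.2‖ ^ 2)))
      = ∫ p : VV × VV, ∫ t in Set.Ioi (0 : ℝ),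
        h p.1 * h p.2 * Real.exp (-(t ^ 2 * ‖p.1 - p.2‖ ^ 2)) :=
    (integral_integral_swap hf).symm
  rw [h2]
  apply integral_congr_ae
  have hae : ∀ᵐ p : VV × VV, p.1 ≠ p.2 := ae_ne
  filter_upwards [hae] with p hp
  have hr : 0 < ‖p.1 - p.2‖ := norm_pos_iff.mpr (sub_ne_zero.mpr hp)
  rw [integral_const_mul, gaussIoi hr]
  ring

/-- Positivity of the Coulomb kernel, in the quantitative form of a Gaussian test function.
`hpot` (integrability of the Coulomb energy density) is available as a hypothesis. -/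
theorem gauss {h : EuclideanSpace ℝ (Fin 3) → ℝ} (hh : Continuous h)
    (hc : HasCompactSupport h)
    (hint : Integrable (fun p : EuclideanSpace ℝ (Fin 3) × EuclideanSpace ℝ (Fin 3) =>
      h p.1 * h p.2 / ‖p.1 - p.2‖) (volume.prod volume))
    {t₀ : ℝ} (ht₀ : 0 < t₀) :
    0 ≤ (∫ x, ∫ y, h x * h y / ‖x - y‖) ∧
    ∃ t : ℝ, t₀ ≤ t ∧ t ≤ 2 * t₀ ∧
      (∫ x, Real.exp (-(t ^ 2 * ‖x‖ ^ 2)) * h x) ^ 2 ≤
        Real.sqrt Real.pi / (2 * t₀) * ∫ x, ∫ y, h x * h y / ‖x - y‖ := by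
  obtain ⟨hi, he⟩ := D_eq hh hint
  set D := ∫ x, ∫ y, h x * h y / ‖x - y‖ with hD
  have hpi : 0 < Real.sqrt Real.pi := Real.sqrt_pos.mpr Real.pi_pos
  have hI0 : ∀ t : ℝ, 0 < t →
      0 ≤ ∫ p : VV × VV, h p.1 * h p.2 * Real.exp (-(t ^ 2 * ‖p.1 - p.2‖ ^ 2)) :=
    fun t ht => le_trans (sq_nonneg _) (test_bound hh hc ht)
  have hnn : 0 ≤ ∫ t in Set.Ioi (0 : ℝ), ∫ p : VV × VV,
      h p.1 * h p.2 * Real.exp (-(t ^ 2 * ‖p.1 - p.2‖ ^ 2)) :=
    setIntegral_nonneg measurableSet_Ioi fun t ht => hI0 t ht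
  rw [he] at hnn
  have hD0 : 0 ≤ D := by
    by_contra hcon
    push Not at hcon
    have := mul_neg_of_pos_of_neg (half_pos hpi) hcon
    linarith
  refine ⟨hD0, ?_⟩
  have hsub : Set.Ioc t₀ (2 * t₀) ⊆ Set.Ioi (0 : ℝ) := fun t ht => lt_trans ht₀ ht.1
  have hle : (∫ t in Set.Ioc t₀ (2 * t₀), ∫ p : VV × VV,
      h p.1 * h p.2 * Real.exp (-(t ^ 2 * ‖p.1 - p.2‖ ^ 2)))
      ≤ Real.sqrt Real.pi / 2 * D := by
    rw [← he]
    refine setIntegral_mono_set hi ?_ (LE.le.eventuallyLE hsub)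
    filter_upwards [ae_restrict_mem measurableSet_Ioi] with t ht
    exact hI0 t ht
  have hvol : volume.real (Set.Ioc t₀ (2 * t₀)) = t₀ := by
    rw [Measure.real, Real.volume_Ioc, ENNReal.toReal_ofReal (by linarith)]; ring
  have hv0 : volume (Set.Ioc t₀ (2 * t₀)) ≠ 0 := by
    rw [Real.volume_Ioc]
    simp only [ne_eq, ENNReal.ofReal_eq_zero, not_le]
    linarith
  have hv1 : volume (Set.Ioc t₀ (2 * t₀)) ≠ ⊤ := by
    rw [Real.volume_Ioc]
    exact ENNReal.ofReal_ne_top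
  have hi' : IntegrableOn (fun t : ℝ => ∫ p : VV × VV,
      h p.1 * h p.2 * Real.exp (-(t ^ 2 * ‖p.1 - p.2‖ ^ 2))) (Set.Ioc t₀ (2 * t₀)) :=
    IntegrableOn.mono_set hi hsub
  obtain ⟨t, ht, htle⟩ := exists_le_setAverage hv0 hv1 hi'
  rw [setAverage_eq, hvol, smul_eq_mul] at htle
  refine ⟨t, ht.1.le, ht.2, ?_⟩
  calc (∫ x, Real.exp (-(t ^ 2 * ‖x‖ ^ 2)) * h x) ^ 2
      ≤ ∫ p : VV × VV, h p.1 * h p.2 * Real.exp (-(t ^ 2 * ‖p.1 - p.2‖ ^ 2)) :=
        test_bound hh hc (lt_trans ht₀ ht.1)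
    _ ≤ t₀⁻¹ * ∫ t in Set.Ioc t₀ (2 * t₀), ∫ p : VV × VV,
      h p.1 * h p.2 * Real.exp (-(t ^ 2 * ‖p.1 - p.2‖ ^ 2)) := htle
    _ ≤ t₀⁻¹ * (Real.sqrt Real.pi / 2 * D) :=
        mul_le_mul_of_nonneg_left hle (inv_nonneg.mpr ht₀.le)
    _ = Real.sqrt Real.pi / (2 * t₀) * D := by
        field_simp

end Pool.Agent.Helper436.TFWJ2
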