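import Mathlib

set_option autoImplicit false

open MeasureTheory

namespace Pool.Agent.Helper436.TFWJ3

section aux
variable (a : EuclideanSpace ℝ (Fin 3)) (l e : ℝ)

noncomputable def ss (x : EuclideanSpace ℝ (Fin 3)) : ℝ := Real.sqrt (‖x - a‖ ^ 2 + e ^ 2)

noncomputable def kk (x : EuclideanSpace ℝ (Fin 3)) : ℝ := (ss a e x)⁻¹ - (ss a e x + l)⁻¹

noncomputable def kd (x : EuclideanSpace ℝ (Fin 3)) : EuclideanSpace ℝ (Fin 3) →L[ℝ] ℝ :=
  (-((ss a e x) ^ 2)⁻¹ + ((ss a e x + l) ^ 2)⁻¹) • ((1 / ss a e x) • innerSL ℝ (x - a))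

lemma ss_pos (he : 0 < e) (x) : 0 < ss a e x := Real.sqrt_pos.2 (by positivity)

lemma ss_sq (x) : ss a e x ^ 2 = ‖x - a‖ ^ 2 + e ^ 2 := Real.sq_sqrt (by positivity)

lemma norm_le_ss (x) : ‖x - a‖ ≤ ss a e x := Real.le_sqrt_of_sq_le (by nlinarith [sq_nonneg e])

lemma ss_hasFDerivAt (he : 0 < e) (x) :
    HasFDerivAt (ss a e) ((1 / ss a e x) • innerSL ℝ (x - a)) x := by
  have h1 : HasFDerivAt (fun x : EuclideanSpace ℝ (Fin 3) => ‖x - a‖ ^ 2 + e ^ 2)
      (2 • innerSL ℝ (x - a)) x := by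
    have h2 : HasFDerivAt (fun x : EuclideanSpace ℝ (Fin 3) => x - a)
      (ContinuousLinearMap.id ℝ _) x := (hasFDerivAt_id x).sub_const a
    have h3 := h2.norm_sq
    simpa using h3.add_const (e ^ 2)
  have h2 := h1.sqrt (by positivity)
  have e1 : (1 / (2 * Real.sqrt (‖x - a‖ ^ 2 + e ^ 2))) • (2 • innerSL ℝ (x - a)) =
      (1 / ss a e x) • innerSL ℝ (x - a) := by
    have h3 := (ss_pos a e he x).ne'
    unfold ss at *
    rw [← Nat.cast_smul_eq_nsmul ℝ 2, smul_smul]
    congr 1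
    push_cast
    field_simp
  rw [← e1]
  exact h2

lemma kk_hasFDerivAt (he : 0 < e) (hl : 0 < l) (x) : HasFDerivAt (kk a l e) (kd a l e x) x := by
  have hs := ss_pos a e he x
  have h1 := ss_hasFDerivAt a e he x
  have h2 := (hasDerivAt_inv hs.ne').comp_hasFDerivAt x h1
  have h3 := (hasDerivAt_inv (by positivity : ss a e x + l ≠ 0)).comp_hasFDerivAt x
    (h1.add_const l)
  have h4 := h2.sub h3
  refine HasFDerivAt.congr_fderiv (f' := _) h4 ?_
  ext v
  simp only [kd, sub_apply, smul_apply, smul_eq_mul]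
  ring

lemma ss_cont : Continuous (ss a e) := by
  unfold ss
  fun_prop

lemma kk_cont (he : 0 < e) (hl : 0 < l) : Continuous (kk a l e) := by
  rw [continuous_iff_continuousAt]
  exact fun x => (kk_hasFDerivAt a l e he hl x).continuousAt

lemma kd_cont (he : 0 < e) (hl : 0 < l) (v : EuclideanSpace ℝ (Fin 3) → EuclideanSpace ℝ (Fin 3))
    (hv : Continuous v) : Continuous fun x => kd a l e x (v x) := by
  have hs := ss_cont a e
  have h1 : ∀ x, (ss a e x) ^ 2 ≠ 0 := fun x => (pow_pos (ss_pos a e he x) 2).ne'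
  have h2 : ∀ x, (ss a e x + l) ^ 2 ≠ 0 := fun x =>
    (pow_pos (add_pos (ss_pos a e he x) hl) 2).ne'
  have h3 : ∀ x, ss a e x ≠ 0 := fun x => (ss_pos a e he x).ne'
  simp only [kd, smul_apply, smul_eq_mul, innerSL_apply_apply]
  refine Continuous.mul ?_ (Continuous.mul ?_ ?_)
  · exact ((hs.pow 2).inv₀ h1).neg.add (((hs.add continuous_const).pow 2).inv₀ h2)
  · exact continuous_const.div hs h3
  · exact (continuous_id.sub continuous_const).inner hv

lemma sum_coord (L : EuclideanSpace ℝ (Fin 3) →L[ℝ] ℝ) (w : EuclideanSpace ℝ (Fin 3)) :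
    L w = ∑ i, w i * L (EuclideanSpace.single i 1) := by
  conv_lhs => rw [← (EuclideanSpace.basisFun (Fin 3) ℝ).sum_repr w]
  rw [map_sum]
  refine Finset.sum_congr rfl (fun i _ => ?_)
  rw [map_smul, smul_eq_mul]
  simp

lemma ibp {u : EuclideanSpace ℝ (Fin 3) → ℝ} (hu : ContDiff ℝ 1 u)
    (hc : HasCompactSupport u) (he : 0 < e) (hl : 0 < l) :
    ∫ x, u x ^ 2 * (3 * kk a l e x + kd a l e x (x - a)) =
      - ∫ x, 2 * u x * (fderiv ℝ u x (x - a)) * kk a l e x := by
  have hud : Differentiable ℝ u := hu.differentiable one_ne_zero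
  have huc : Continuous u := hu.continuous
  have hfc : Continuous (fderiv ℝ u) := hu.continuous_fderiv one_ne_zero
  have hcs : ∀ g : EuclideanSpace ℝ (Fin 3) → ℝ, Continuous g → (∀ x, u x = 0 → g x = 0) →
      Integrable g := by
    intro g hg h0
    refine hg.integrable_of_hasCompactSupport (hc.mono ?_)
    intro x hx hux
    exact hx (h0 x hux)
  have hi : ∀ i : Fin 3, ∫ x, u x ^ 2 * (kk a l e x + (x i - a i) *
      kd a l e x (EuclideanSpace.single i 1)) =
      - ∫ x, 2 * u x * fderiv ℝ u x (EuclideanSpace.single i 1) * (kk a l e x * (x i - a i)) := by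
    intro i
    have hcoord : Continuous fun x : EuclideanSpace ℝ (Fin 3) => x i - a i := by fun_prop
    have hdc : Continuous fun x => fderiv ℝ u x (EuclideanSpace.single i 1) :=
      hfc.clm_apply continuous_const
    have hkd := kd_cont a l e he hl (fun _ => EuclideanSpace.single i 1) continuous_const
    have hkk := kk_cont a l e he hl
    have key := integral_bilinear_hasFDerivAt_right_eq_neg_left_of_integrable
      (μ := (volume : Measure (EuclideanSpace ℝ (Fin 3))))
      (f := fun x => u x ^ 2) (f' := fun x => (2 * u x) • fderiv ℝ u x)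
      (g := fun x => kk a l e x * (x i - a i))
      (g' := fun x => kk a l e x • (EuclideanSpace.proj i : EuclideanSpace ℝ (Fin 3) →L[ℝ] ℝ) +
        (x i - a i) • kd a l e x)
      (v := EuclideanSpace.single i 1) (B := ContinuousLinearMap.mul ℝ ℝ)
      (hcs _ (by
        simp only [ContinuousLinearMap.mul_apply', smul_apply, smul_eq_mul]
        exact ((continuous_const.mul huc).mul hdc).mul (hkk.mul hcoord)) (by
        intro x hx; simp [hx]))
      (hcs _ (by
        simp only [ContinuousLinearMap.mul_apply', add_apply, smul_apply, smul_eq_mul,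
          PiLp.proj_apply]
        exact (huc.pow 2).mul ((hkk.mul continuous_const).add (hcoord.mul hkd))) (by
        intro x hx; simp [hx]))
      (hcs _ (by
        simp only [ContinuousLinearMap.mul_apply']
        exact (huc.pow 2).mul (hkk.mul hcoord)) (by
        intro x hx; simp [hx]))
      (fun x _ => by
        have h1 := (hud x).hasFDerivAt.pow 2
        refine HasFDerivAt.congr_fderiv (f' := _) h1 ?_
        ext v
        simp)
      (fun x _ => by
        have h1 := kk_hasFDerivAt a l e he hl x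
        have h2 : HasFDerivAt (fun x : EuclideanSpace ℝ (Fin 3) => x i - a i)
            (EuclideanSpace.proj i : EuclideanSpace ℝ (Fin 3) →L[ℝ] ℝ) x :=
          ((EuclideanSpace.proj i : EuclideanSpace ℝ (Fin 3) →L[ℝ] ℝ).hasFDerivAt).sub_const _
        exact h1.mul h2)
    simp only [ContinuousLinearMap.mul_apply', add_apply, smul_apply, smul_eq_mul,
      PiLp.proj_apply] at key
    simpa using key
  have hsumL : ∫ x, u x ^ 2 * (3 * kk a l e x + kd a l e x (x - a)) =
      ∑ i : Fin 3, ∫ x, u x ^ 2 * (kk a l e x + (x i - a i) *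
        kd a l e x (EuclideanSpace.single i 1)) := by
    rw [← integral_finsetSum]
    · congr 1
      funext x
      rw [← Finset.mul_sum, Finset.sum_add_distrib, sum_coord (kd a l e x) (x - a)]
      simp
    · intro i _
      refine hcs _ ?_ (by intro x hx; simp [hx])
      have hcoord : Continuous fun x : EuclideanSpace ℝ (Fin 3) => x i - a i := by fun_prop
      exact (huc.pow 2).mul ((kk_cont a l e he hl).add (hcoord.mul
        (kd_cont a l e he hl (fun _ => EuclideanSpace.single i 1) continuous_const)))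
  have hsumR : ∫ x, 2 * u x * (fderiv ℝ u x (x - a)) * kk a l e x =
      ∑ i : Fin 3, ∫ x, 2 * u x * fderiv ℝ u x (EuclideanSpace.single i 1) *
        (kk a l e x * (x i - a i)) := by
    rw [← integral_finsetSum]
    · congr 1
      funext x
      rw [sum_coord (fderiv ℝ u x) (x - a), Finset.mul_sum, Finset.sum_mul]
      refine Finset.sum_congr rfl (fun i _ => ?_)
      simp only [PiLp.sub_apply]
      ring
    · intro i _
      refine hcs _ ?_ (by intro x hx; simp [hx])
      have hcoord : Continuous fun x : EuclideanSpace ℝ (Fin 3) => x i - a i := by fun_prop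
      exact ((continuous_const.mul huc).mul (hfc.clm_apply continuous_const)).mul
        ((kk_cont a l e he hl).mul hcoord)
  rw [hsumL, hsumR, ← Finset.sum_neg_distrib]
  exact Finset.sum_congr rfl (fun i _ => hi i)

lemma kd_self (x : EuclideanSpace ℝ (Fin 3)) : kd a l e x (x - a) =
    (-((ss a e x) ^ 2)⁻¹ + ((ss a e x + l) ^ 2)⁻¹) * (1 / ss a e x * ‖x - a‖ ^ 2) := by
  simp only [kd, smul_apply, smul_eq_mul, innerSL_apply_apply, real_inner_self_eq_norm_sq]

lemma div_lower (he : 0 < e) (hl : 0 < l) (x : EuclideanSpace ℝ (Fin 3)) :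
    2 / ss a e x - 3 / (l + ‖x - a‖) ≤ 3 * kk a l e x + kd a l e x (x - a) := by
  rw [kd_self]
  unfold kk
  have hs := ss_pos a e he x
  have hns := norm_le_ss a e x
  have hn := norm_nonneg (x - a)
  set s := ss a e x with hsdef
  set r := ‖x - a‖ with hr
  have h1 : 3 / (s + l) ≤ 3 / (l + r) := by
    apply div_le_div_of_nonneg_left (by norm_num) (by positivity) (by linarith)
  have h2 : (-(s ^ 2)⁻¹ + ((s + l) ^ 2)⁻¹) * (1 / s * s ^ 2) ≤
      (-(s ^ 2)⁻¹ + ((s + l) ^ 2)⁻¹) * (1 / s * r ^ 2) := by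
    have h3 : -(s ^ 2)⁻¹ + ((s + l) ^ 2)⁻¹ ≤ 0 := by
      have : ((s + l) ^ 2)⁻¹ ≤ (s ^ 2)⁻¹ := by
        apply inv_anti₀ (by positivity)
        nlinarith
      linarith
    apply mul_le_mul_of_nonpos_left _ h3
    apply mul_le_mul_of_nonneg_left _ (by positivity)
    exact pow_le_pow_left₀ hn hns 2
  have h4 : 2 / s - 3 / (s + l) ≤ 3 * (s⁻¹ - (s + l)⁻¹) +
      (-(s ^ 2)⁻¹ + ((s + l) ^ 2)⁻¹) * (1 / s * s ^ 2) := by
    have h5 : 3 * (s⁻¹ - (s + l)⁻¹) + (-(s ^ 2)⁻¹ + ((s + l) ^ 2)⁻¹) * (1 / s * s ^ 2) -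
        (2 / s - 3 / (s + l)) = s / (s + l) ^ 2 := by
      field_simp
      ring
    have h6 : 0 ≤ s / (s + l) ^ 2 := by positivity
    linarith
  linarith

lemma kk_upper (he : 0 < e) (hl : 0 < l) (x : EuclideanSpace ℝ (Fin 3)) :
    0 ≤ kk a l e x ∧ ‖x - a‖ * kk a l e x ≤ 1 / (1 + ‖x - a‖ / l) := by
  unfold kk
  have hs := ss_pos a e he x
  have hns := norm_le_ss a e x
  have hn := norm_nonneg (x - a)
  set s := ss a e x with hsdef
  set r := ‖x - a‖ with hr
  have e1 : s⁻¹ - (s + l)⁻¹ = l / (s * (s + l)) := by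
    field_simp
    ring
  rw [e1]
  refine ⟨by positivity, ?_⟩
  have e2 : 1 / (1 + r / l) = l / (l + r) := by
    field_simp
  rw [e2, mul_div_assoc', div_le_div_iff₀ (by positivity) (by positivity)]
  have h1 : r * (l + r) ≤ s * (s + l) := by nlinarith
  nlinarith

end aux

lemma cs {α : Type*} [MeasurableSpace α] {μ : Measure α} (f g : α → ℝ)
    (hf : Integrable (fun x => f x ^ 2) μ) (hg : Integrable (fun x => g x ^ 2) μ)
    (hfg : Integrable (fun x => f x * g x) μ) :
    ∫ x, f x * g x ∂μ ≤ Real.sqrt (∫ x, f x ^ 2 ∂μ) * Real.sqrt (∫ x, g x ^ 2 ∂μ) := by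
  have hA : 0 ≤ ∫ x, f x ^ 2 ∂μ := integral_nonneg fun x => sq_nonneg _
  have key : ∀ t : ℝ, 0 ≤ (∫ x, g x ^ 2 ∂μ) * (t * t) + (-2 * ∫ x, f x * g x ∂μ) * t +
      ∫ x, f x ^ 2 ∂μ := by
    intro t
    have h1 : ∫ x, (f x - t * g x) ^ 2 ∂μ = (∫ x, g x ^ 2 ∂μ) * (t * t) +
        (-2 * ∫ x, f x * g x ∂μ) * t + ∫ x, f x ^ 2 ∂μ := by
      have e : (fun x => (f x - t * g x) ^ 2) =
          fun x => (t * t) * g x ^ 2 + (-2 * t) * (f x * g x) + f x ^ 2 := by
        funext x; ring
      have j1 : Integrable (fun x => (t * t) * g x ^ 2) μ := hg.const_mul _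
      have j2 : Integrable (fun x => (-2 * t) * (f x * g x)) μ := hfg.const_mul _
      have j3 : Integrable (fun x => (t * t) * g x ^ 2 + (-2 * t) * (f x * g x)) μ := j1.add j2
      rw [e, integral_add j3 hf, integral_add j1 j2, integral_const_mul, integral_const_mul]
      ring
    rw [← h1]
    exact integral_nonneg fun x => sq_nonneg _
  have hd := discrim_le_zero key
  unfold discrim at hd
  rw [← Real.sqrt_mul hA]
  apply Real.le_sqrt_of_sq_le
  nlinarith

/-- Hydrogen type inequality in `ℝ³` with a sharp leading constant and a decaying weight. -/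
theorem hydrogen {u : EuclideanSpace ℝ (Fin 3) → ℝ} (hu : ContDiff ℝ 1 u)
    (hc : HasCompactSupport u) (a : EuclideanSpace ℝ (Fin 3)) {l : ℝ} (hl : 0 < l) :
    Integrable (fun x => u x ^ 2 / ‖x - a‖) ∧
    ∫ x, u x ^ 2 / ‖x - a‖ ≤
      Real.sqrt (∫ x, ‖fderiv ℝ u x‖ ^ 2) * Real.sqrt (∫ x, u x ^ 2 / (1 + ‖x - a‖ / l) ^ 2)
        + (3 / 2) * ∫ x, u x ^ 2 / (l + ‖x - a‖) := by
  have huc : Continuous u := hu.continuous
  have hfc : Continuous (fderiv ℝ u) := hu.continuous_fderiv one_ne_zero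
  have hcs : ∀ g : EuclideanSpace ℝ (Fin 3) → ℝ, Continuous g → (∀ x, u x = 0 → g x = 0) →
      Integrable g := by
    intro g hg h0
    refine hg.integrable_of_hasCompactSupport (hc.mono ?_)
    intro x hx hux
    exact hx (h0 x hux)
  have hnc : Continuous fun x : EuclideanSpace ℝ (Fin 3) => ‖x - a‖ := by fun_prop
  have hw1 : ∀ x : EuclideanSpace ℝ (Fin 3), 1 + ‖x - a‖ / l ≠ 0 := fun x => by positivity
  have hw2 : ∀ x : EuclideanSpace ℝ (Fin 3), l + ‖x - a‖ ≠ 0 := fun x => by positivity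
  have hw1c : Continuous fun x : EuclideanSpace ℝ (Fin 3) => 1 + ‖x - a‖ / l :=
    continuous_const.add (hnc.div_const l)
  set RHS : ℝ := Real.sqrt (∫ x, ‖fderiv ℝ u x‖ ^ 2) *
    Real.sqrt (∫ x, u x ^ 2 / (1 + ‖x - a‖ / l) ^ 2) + (3 / 2) * ∫ x, u x ^ 2 / (l + ‖x - a‖)
    with hRHS
  have hie : ∀ e : ℝ, 0 < e → Integrable fun x => u x ^ 2 / ss a e x := fun e he =>
    hcs _ ((huc.pow 2).div (ss_cont a e) (fun x => (ss_pos a e he x).ne'))
      (by intro x hx; simp [hx])
  have hstep : ∀ e : ℝ, 0 < e → ∫ x, u x ^ 2 / ss a e x ≤ RHS := by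
    intro e he
    have i1 := hie e he
    have i2 : Integrable fun x => u x ^ 2 / (l + ‖x - a‖) :=
      hcs _ ((huc.pow 2).div (continuous_const.add hnc) hw2) (by intro x hx; simp [hx])
    have hxa : Continuous fun x : EuclideanSpace ℝ (Fin 3) => x - a := by fun_prop
    have i3 : Integrable fun x => u x ^ 2 * (3 * kk a l e x + kd a l e x (x - a)) :=
      hcs _ ((huc.pow 2).mul ((continuous_const.mul (kk_cont a l e he hl)).add
        (kd_cont a l e he hl _ hxa))) (by intro x hx; simp [hx])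
    have i4 : Integrable fun x => -(2 * u x * (fderiv ℝ u x (x - a)) * kk a l e x) :=
      hcs _ ((((continuous_const.mul huc).mul (hfc.clm_apply hxa)).mul
        (kk_cont a l e he hl)).neg) (by intro x hx; simp [hx])
    have i5 : Integrable fun x => ‖fderiv ℝ u x‖ * (|u x| / (1 + ‖x - a‖ / l)) :=
      hcs _ (hfc.norm.mul (huc.abs.div hw1c hw1)) (by intro x hx; simp [hx])
    have i6 : Integrable fun x => ‖fderiv ℝ u x‖ ^ 2 := by
      refine (hfc.norm.pow 2).integrable_of_hasCompactSupport ?_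
      refine (hc.fderiv ℝ).mono ?_
      intro x hx h0
      exact hx (by simp [h0])
    have i7 : Integrable fun x => (|u x| / (1 + ‖x - a‖ / l)) ^ 2 :=
      hcs _ ((huc.abs.div hw1c hw1).pow 2) (by intro x hx; simp [hx])
    have h1 : ∫ x, (2 * (u x ^ 2 / ss a e x) - 3 * (u x ^ 2 / (l + ‖x - a‖))) ≤
        ∫ x, u x ^ 2 * (3 * kk a l e x + kd a l e x (x - a)) := by
      refine integral_mono ((i1.const_mul 2).sub (i2.const_mul 3)) i3 (fun x => ?_)
      have h2 := mul_le_mul_of_nonneg_left (div_lower a l e he hl x) (sq_nonneg (u x))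
      refine le_trans (le_of_eq ?_) h2
      ring
    rw [integral_sub (i1.const_mul 2) (i2.const_mul 3), integral_const_mul,
      integral_const_mul] at h1
    have h2 := ibp a l e hu hc he hl
    rw [← integral_neg] at h2
    have h3 : ∫ x, -(2 * u x * (fderiv ℝ u x (x - a)) * kk a l e x) ≤
        ∫ x, 2 * (‖fderiv ℝ u x‖ * (|u x| / (1 + ‖x - a‖ / l))) := by
      refine integral_mono i4 (i5.const_mul 2) (fun x => ?_)
      obtain ⟨k0, k1⟩ := kk_upper a l e he hl x
      have h4 : |fderiv ℝ u x (x - a)| ≤ ‖fderiv ℝ u x‖ * ‖x - a‖ := by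
        have := (fderiv ℝ u x).le_opNorm (x - a)
        rwa [Real.norm_eq_abs] at this
      have h5 : -(2 * u x * (fderiv ℝ u x (x - a)) * kk a l e x) ≤
          2 * |u x| * |fderiv ℝ u x (x - a)| * kk a l e x := by
        refine (neg_le_abs _).trans (le_of_eq ?_)
        rw [abs_mul, abs_mul, abs_mul, abs_of_nonneg k0, abs_of_nonneg (by norm_num : (0 : ℝ) ≤ 2)]
      refine h5.trans ?_
      have h6 : 2 * |u x| * |fderiv ℝ u x (x - a)| * kk a l e x ≤
          2 * |u x| * (‖fderiv ℝ u x‖ * ‖x - a‖) * kk a l e x := by gcongr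
      refine h6.trans ?_
      have h7 : 2 * |u x| * (‖fderiv ℝ u x‖ * ‖x - a‖) * kk a l e x =
          2 * |u x| * ‖fderiv ℝ u x‖ * (‖x - a‖ * kk a l e x) := by ring
      have h8 : 2 * (‖fderiv ℝ u x‖ * (|u x| / (1 + ‖x - a‖ / l))) =
          2 * |u x| * ‖fderiv ℝ u x‖ * (1 / (1 + ‖x - a‖ / l)) := by ring
      rw [h7]
      show _ ≤ 2 * (‖fderiv ℝ u x‖ * (|u x| / (1 + ‖x - a‖ / l)))
      rw [h8]
      exact mul_le_mul_of_nonneg_left k1 (by positivity)
    rw [integral_const_mul] at h3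
    have h4 := cs (μ := volume) (fun x => ‖fderiv ℝ u x‖) (fun x => |u x| / (1 + ‖x - a‖ / l))
      i6 i7 i5
    have h5 : (fun x => (|u x| / (1 + ‖x - a‖ / l)) ^ 2) =
        fun x => u x ^ 2 / (1 + ‖x - a‖ / l) ^ 2 := by
      funext x
      rw [div_pow, sq_abs]
    simp only [h5] at h4
    rw [hRHS]
    linarith
  -- Fatou
  have hmeas : ∀ n : ℕ, Measurable fun x => ENNReal.ofReal (u x ^ 2 / ss a (1 / ((n : ℝ) + 1)) x) :=
    fun n => by
      have h1 : Continuous (fun x => u x ^ 2 / ss a (1 / ((n : ℝ) + 1)) x) :=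
        (huc.pow 2).div (ss_cont a _) (fun x => (ss_pos a _ (by positivity) x).ne')
      exact h1.measurable.ennreal_ofReal
  have hlim : ∀ᵐ x ∂(volume : Measure (EuclideanSpace ℝ (Fin 3))),
      ENNReal.ofReal (u x ^ 2 / ‖x - a‖) ≤
      Filter.liminf (fun n : ℕ => ENNReal.ofReal (u x ^ 2 / ss a (1 / ((n : ℝ) + 1)) x))
        Filter.atTop := by
    refine Filter.Eventually.of_forall (fun x => ?_)
    rcases eq_or_ne x a with rfl | hx
    · simp
    have hpos : 0 < ‖x - a‖ := norm_pos_iff.2 (sub_ne_zero.2 hx)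
    have ht : Filter.Tendsto (fun n : ℕ => ENNReal.ofReal (u x ^ 2 / ss a (1 / ((n : ℝ) + 1)) x))
        Filter.atTop (nhds (ENNReal.ofReal (u x ^ 2 / ‖x - a‖))) := by
      refine (ENNReal.continuous_ofReal.tendsto _).comp ?_
      refine Filter.Tendsto.div tendsto_const_nhds ?_ hpos.ne'
      have h1 : Filter.Tendsto (fun n : ℕ => Real.sqrt (‖x - a‖ ^ 2 + (1 / ((n : ℝ) + 1)) ^ 2))
          Filter.atTop (nhds (Real.sqrt (‖x - a‖ ^ 2 + 0 ^ 2))) :=
        (Real.continuous_sqrt.tendsto _).comp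
          (tendsto_const_nhds.add (tendsto_one_div_add_atTop_nhds_zero_nat.pow 2))
      rw [zero_pow two_ne_zero, add_zero, Real.sqrt_sq hpos.le] at h1
      exact h1
    exact ht.liminf_eq.ge
  have hfin : ∫⁻ x, ENNReal.ofReal (u x ^ 2 / ‖x - a‖) ≤ ENNReal.ofReal RHS := by
    refine (lintegral_mono_ae hlim).trans ?_
    refine (lintegral_liminf_le hmeas).trans ?_
    have hb : ∀ n : ℕ, ∫⁻ x, ENNReal.ofReal (u x ^ 2 / ss a (1 / ((n : ℝ) + 1)) x) ≤
        ENNReal.ofReal RHS := by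
      intro n
      have hpos : (0 : ℝ) < 1 / ((n : ℝ) + 1) := by positivity
      rw [← ofReal_integral_eq_lintegral_ofReal (hie _ hpos)
        (Filter.Eventually.of_forall fun x => by
          have := ss_pos a _ hpos x
          positivity)]
      exact ENNReal.ofReal_le_ofReal (hstep _ hpos)
    refine Filter.liminf_le_of_le (by isBoundedDefault) (fun b hbb => ?_)
    obtain ⟨n, hn⟩ := hbb.exists
    exact hn.trans (hb n)
  have hm : AEStronglyMeasurable (fun x => u x ^ 2 / ‖x - a‖)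
      (volume : Measure (EuclideanSpace ℝ (Fin 3))) :=
    ((huc.measurable.pow_const 2).div hnc.measurable).aestronglyMeasurable
  have hnn : 0 ≤ᵐ[(volume : Measure (EuclideanSpace ℝ (Fin 3)))] fun x => u x ^ 2 / ‖x - a‖ :=
    Filter.Eventually.of_forall fun x => by positivity
  refine ⟨(lintegral_ofReal_ne_top_iff_integrable hm hnn).1
    (ne_of_lt (hfin.trans_lt ENNReal.ofReal_lt_top)), ?_⟩
  rw [integral_eq_lintegral_of_nonneg_ae hnn hm]
  have hR0 : 0 ≤ RHS := by
    have h1 : 0 ≤ ∫ x, u x ^ 2 / (l + ‖x - a‖) := integral_nonneg fun x => by positivity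
    positivity
  exact ENNReal.toReal_le_of_le_ofReal hR0 hfin

end Pool.Agent.Helper436.TFWJ3
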