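import Mathlib
import Pool.Agent.Helper436.TFWJ3
import Pool.Agent.Helper436.TFWJ2
import Pool.Agent.Helper436.TFWJ1

set_option autoImplicit false

open MeasureTheory

namespace Pool.Agent.Helper436.TFW

abbrev E3 := EuclideanSpace ℝ (Fin 3)

/-- Hydrogen type inequality in `ℝ³` with a sharp leading constant and a decaying weight. -/
theorem hydrogen {u : E3 → ℝ} (hu : ContDiff ℝ 1 u)
    (hc : HasCompactSupport u) (a : E3) {l : ℝ} (hl : 0 < l) :
    Integrable (fun x => u x ^ 2 / ‖x - a‖) ∧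
    ∫ x, u x ^ 2 / ‖x - a‖ ≤
      Real.sqrt (∫ x, ‖fderiv ℝ u x‖ ^ 2) * Real.sqrt (∫ x, u x ^ 2 / (1 + ‖x - a‖ / l) ^ 2)
        + (3 / 2) * ∫ x, u x ^ 2 / (l + ‖x - a‖) :=
  TFWJ3.hydrogen hu hc a hl

end Pool.Agent.Helper436.TFW
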