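import Pool.Agent.Helper436.TFWVirial

/-!
# TFW theory: the atomic energy is below `-1/9`
-/

set_option autoImplicit false

open MeasureTheory

namespace Pool.Agent.Helper436.TFW

theorem trial_energy : ∃ c q : ℝ, 0 < c ∧ 0 < q ∧ q ≤ 1 ∧ ∃ ψ : E3 → ℝ, Adm ψ ∧
    ∀ b : E3, En c 0 b ψ < -(1 + q) / 9 := by
  obtain ⟨φ, h1, h2, hT, hP, hD, hlt⟩ := TFWJ1.trial
  have h : Adm φ := ⟨h1, h2⟩
  have hT' : 0 < Kin φ := hT
  have hP' : 0 < Pot 0 φ := by
    unfold Pot; simpa using hP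
  have hD' : 0 < Dir φ := hD
  have hlt' : 3 * Kin φ * ((1 / 2) * Dir φ) < Pot 0 φ ^ 3 := by
    unfold Pot Kin Dir; simpa using hlt
  set T := Kin φ with hTd
  set P := Pot 0 φ with hPd
  set D := (1 / 2) * Dir φ with hDd
  have hD0 : 0 < D := by positivity
  -- the energy after scaling
  set l : ℝ := P / (3 * T) with hl
  have hl0 : 0 < l := by positivity
  set t : ℝ := Real.sqrt (P / (3 * D)) with ht
  have ht2 : t ^ 2 = P / (3 * D) := Real.sq_sqrt (by positivity)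
  have ht0 : 0 ≤ t := Real.sqrt_nonneg _
  set s : ℝ := t * (l * Real.sqrt l) with hs
  have hs0 : 0 ≤ s := by positivity
  set ψ : E3 → ℝ := fun x => s * φ (l • x) with hψ
  have hψa : Adm ψ := scale_adm h s hl0
  set A : ℝ := P ^ 3 / (27 * T * D) with hA
  have hA9 : 1 / 9 < A := by
    rw [hA, div_lt_div_iff₀ (by norm_num) (by positivity)]
    nlinarith
  have e1 : s ^ 2 = t ^ 2 * l ^ 3 := by
    rw [hs, mul_pow, mul_pow, Real.sq_sqrt hl0.le]; ring
  have e2 : s ^ 4 = (t ^ 2) ^ 2 * l ^ 6 := by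
    have : s ^ 4 = (s ^ 2) ^ 2 := by ring
    rw [this, e1]; ring
  have hE : ∀ c : ℝ, ∀ b : E3, En c 0 b ψ = -A + c * TFe ψ := by
    intro c b
    rw [en0, hψ, scale_kin h s hl0, scale_pot φ s hl0, scale_dir φ s hl0, ← hTd, ← hPd, e1, e2,
      ht2]
    have e3 : Dir φ = 2 * D := by rw [hDd]; ring
    rw [e3, hA, hl]
    field_simp
    ring
  set q : ℝ := min 1 ((9 * A - 1) / 2) with hq
  have hq0 : 0 < q := lt_min one_pos (by linarith)
  have hq1 : q ≤ 1 := min_le_left _ _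
  have hq2 : q ≤ (9 * A - 1) / 2 := min_le_right _ _
  set c : ℝ := (9 * A - 1) / (36 * (TFe ψ + 1)) with hc
  have htf := tf_nonneg (ψ := ψ)
  have hc0 : 0 < c := div_pos (by linarith) (by positivity)
  refine ⟨c, q, hc0, hq0, hq1, ψ, hψa, fun b => ?_⟩
  rw [hE]
  have h3 : c * TFe ψ ≤ (9 * A - 1) / 36 := by
    have h4 : c * (TFe ψ + 1) = (9 * A - 1) / 36 := by
      rw [hc]; field_simp
    nlinarith
  linarith

end Pool.Agent.Helper436.TFW
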