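import Pool.Agent.Helper436.TFWClose
import Pool.Agent.Helper436.TFWTrial

/-!
# TFW theory: the excess charge is not monotone
-/

set_option autoImplicit false

open MeasureTheory

namespace Pool.Agent.Helper436.TFW

/-- Near-minimisers in the ball of radius `Λ`. -/
structure NearMin (c z : ℝ) (b : E3) (Λ δ : ℝ) (ψ : E3 → ℝ) : Prop where
  adm : AdmL Λ ψ
  min : ∀ u, AdmL Λ u → En c z b ψ ≤ En c z b u + δ

lemma adm_zero : Adm (fun _ => 0) := ⟨contDiff_const, HasCompactSupport.zero⟩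

lemma exists_near {S : Set (E3 → ℝ)} (hne : S.Nonempty) {F : (E3 → ℝ) → ℝ} {B : ℝ}
    (hB : ∀ u ∈ S, B ≤ F u) {δ : ℝ} (hδ : 0 < δ) : ∃ ψ ∈ S, ∀ u ∈ S, F ψ ≤ F u + δ := by
  have hbdd : BddBelow (F '' S) := ⟨B, by rintro _ ⟨u, hu, rfl⟩; exact hB u hu⟩
  have hlt : sInf (F '' S) < sInf (F '' S) + δ := by linarith
  obtain ⟨_, ⟨ψ, hψ, rfl⟩, h1⟩ := exists_lt_of_csInf_lt (hne.image F) hlt
  refine ⟨ψ, hψ, fun u hu => ?_⟩
  have := csInf_le hbdd ⟨u, hu, rfl⟩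
  linarith

lemma exists_nearMin {c z : ℝ} (hc : 0 ≤ c) (hz : 0 ≤ z) (hz1 : z ≤ 1) (b : E3) (Λ : ℝ)
    {δ : ℝ} (hδ : 0 < δ) : ∃ ψ, NearMin c z b Λ δ ψ := by
  obtain ⟨ψ, h1, h2⟩ := exists_near (S := {u | AdmL Λ u}) ⟨fun _ => 0, adm_zero, fun _ _ => rfl⟩
    (F := En c z b) (B := -25) (fun u hu => hu.adm.en_lower hc hz hz1 b) hδ
  exact ⟨ψ, h1, h2⟩

lemma en_le_en0 {c z : ℝ} (hz : 0 ≤ z) (b : E3) (ψ : E3 → ℝ) :
    En c z b ψ = En c 0 0 ψ - z * Pot b ψ := by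
  unfold En; ring

theorem near_min {c q : ℝ} (hc : 0 ≤ c) (hq : 0 < q) (hq1 : q ≤ 1) {ψ₁ : E3 → ℝ}
    (hψ₁ : Adm ψ₁) (hE₁ : ∀ b : E3, En c 0 b ψ₁ < -(1 + q) / 9) :
    ∃ C : ℝ, 1 ≤ C ∧ ∃ z₀ : ℝ, 0 < z₀ ∧ ∀ (z R : ℝ) (b : E3), 0 ≤ z → z ≤ z₀ → z ≤ 1 → 1 ≤ R →
      ‖b‖ = R → z ^ 2 * R / 2 + (3 / 2) * z ≤ q / 8 →
      ∃ Λ₀ : ℝ, 0 < Λ₀ ∧ ∀ Λ : ℝ, Λ₀ ≤ Λ → ∃ δ₀ : ℝ, 0 < δ₀ ∧ ∀ (δ : ℝ) (ψ : E3 → ℝ), δ ≤ δ₀ →
        NearMin c z b Λ δ ψ → Mass ψ ≤ C ∧ (∫ x, ψ x ^ 2 * ‖x‖ ^ 2) ≤ C ∧ Pot b ψ ≤ C / R := by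
  -- the atomic ground state energy
  set S : Set ℝ := En c 0 0 '' {u | Adm u} with hS
  have hbdd : BddBelow S := ⟨-25, by
    rintro _ ⟨u, hu, rfl⟩
    exact Adm.en_lower hu hc le_rfl zero_le_one 0⟩
  set e : ℝ := -sInf S with he
  have hmin : ∀ u : E3 → ℝ, Adm u → -e ≤ En c 0 0 u := by
    intro u hu
    have := csInf_le hbdd ⟨u, hu, rfl⟩
    rw [he]; linarith
  have heq : 1 + q ≤ 9 * e := by
    have h1 := hmin ψ₁ hψ₁
    have h2 := hE₁ 0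
    linarith
  have he0 : 0 < e := by linarith
  obtain ⟨η₁, hη₁, l, hl, hinner⟩ := inner_mass 0 hc he0 hq hq1 heq hmin
  obtain ⟨C, hC, hmom⟩ := moments hq hl
  set η : ℝ := min η₁ e with hη
  have hη0 : 0 < η := lt_min hη₁ he0
  have hη1 : η ≤ η₁ := min_le_left _ _
  have hηe : η ≤ e := min_le_right _ _
  obtain ⟨ψ₂, hψ₂, hmin₂⟩ := exists_near (S := {u | Adm u}) ⟨fun _ => 0, adm_zero⟩
    (F := En c 0 0) (B := -25) (fun u hu => Adm.en_lower hu hc le_rfl zero_le_one 0)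
    (show 0 < η / 3 by positivity)
  have hE₂ : En c 0 0 ψ₂ ≤ -e + η / 3 := by
    have h1 : En c 0 0 ψ₂ - η / 3 ≤ sInf S := by
      apply le_csInf (⟨_, ⟨ψ₁, hψ₁, rfl⟩⟩ : S.Nonempty)
      rintro _ ⟨u, hu, rfl⟩
      have := hmin₂ u hu
      linarith
    rw [he]; linarith
  obtain ⟨Λ₂, hΛ₂, hvan₂⟩ := Adm.exists_radius hψ₂
  refine ⟨max C 1, le_max_right _ _, η / 162, by positivity, ?_⟩
  intro z R b hz hz0 hz1 hR hb hcond
  refine ⟨Λ₂, hΛ₂, fun Λ hΛ => ?_⟩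
  have hΛ0 : 0 < Λ := hΛ₂.trans_le hΛ
  obtain ⟨δ₁, hδ₁, hvar⟩ := variation hc hz hz1 b hΛ0 sg_cd (κ := 1) one_pos
  refine ⟨min (η / 3) δ₁, lt_min (by positivity) hδ₁, fun δ ψ hδ hnm => ?_⟩
  have hδa : δ ≤ η / 3 := hδ.trans (min_le_left _ _)
  have hδb : δ ≤ δ₁ := hδ.trans (min_le_right _ _)
  have hψ₂L : AdmL Λ ψ₂ := ⟨hψ₂, fun x hx => hvan₂ x (hΛ.trans hx)⟩
  have h1 := hnm.min ψ₂ hψ₂L
  have h2 : En c z b ψ₂ ≤ En c 0 0 ψ₂ := by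
    rw [en_le_en0 hz]
    have := mul_nonneg hz (pot_nonneg (ψ := ψ₂) b)
    linarith
  have hneg : En c z b ψ ≤ 0 := by linarith
  have hp54 := hnm.adm.adm.pot_le54 hc hz hz1 b hneg b
  have hE0 : En c 0 0 ψ ≤ -e + η₁ := by
    have h3 := en_le_en0 (c := c) hz b ψ
    have h4 : z * Pot b ψ ≤ η / 162 * 54 := mul_le_mul hz0 hp54 (pot_nonneg b) (by positivity)
    linarith
  have hM := hinner ψ hnm.adm.adm hE0
  have hQ := hvar ψ hnm.adm hneg (fun u hu => (hnm.min u hu).trans (by linarith))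
  have hd := hnm.adm.adm.dir_le hc hz hz1 b hneg
  obtain ⟨m1, m2, m3⟩ := hmom z R b ψ hz hR hb hcond hnm.adm.adm hd hM hQ
  refine ⟨m1.trans (le_max_left _ _), m2.trans (le_max_left _ _), m3.trans ?_⟩
  exact div_le_div_of_nonneg_right (le_max_left _ _) (by linarith)

/-- The comparison of masses. -/
theorem mass_compare {c ε z R C t₀ : ℝ} (hc : 0 ≤ c) (hε : 0 ≤ ε) (hεz : ε ≤ z)
    (hR : 0 < R) (b : E3) {Λ : ℝ} {ψ φ : E3 → ℝ} (hψ : AdmL Λ ψ)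
    (hφ : AdmL Λ φ) {δ N : ℝ}
    (h1 : ∀ u, AdmL Λ u → En c ε b ψ ≤ En c ε b u + δ)
    (h2 : ∀ u, AdmL Λ u → En c z b φ ≤ En c z b u + δ)
    (hN : Mass ψ ≤ N) (hC : 0 < C) (hm2 : (∫ x, φ x ^ 2 * ‖x‖ ^ 2) ≤ C) (hpot : Pot b φ ≤ C / R)
    (ht₀ : 0 < t₀) (hδ : 4 * δ ≤ z * (C / R))
    (ht1 : 4 * t₀ ^ 2 * C ≤ z / 8) (ht2 : 4 * (z * (C / R)) ≤ t₀ * (z / 8) ^ 2) :
    Mass φ ≤ N + z / 4 := by
  have hz : 0 ≤ z := hε.trans hεz
  set h : E3 → ℝ := fun x => ψ x ^ 2 - φ x ^ 2 with hh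
  have hcont : Continuous h := hψ.adm.sq_cont.sub hφ.adm.sq_cont
  have hcs : HasCompactSupport h := hψ.adm.sq_cs.sub hφ.adm.sq_cs
  have i1 := cross_int hψ.adm hψ.adm
  have i2 := cross_int hφ.adm hφ.adm
  have i3 := cross_int hψ.adm hφ.adm
  have i4 := cross_int hφ.adm hψ.adm
  have hint : Integrable (fun p : E3 × E3 => h p.1 * h p.2 / ‖p.1 - p.2‖)
      (volume.prod volume) := by
    refine (((i1.sub i3).sub i4).add i2).congr (Filter.Eventually.of_forall fun p => ?_)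
    simp only [Pi.add_apply, Pi.sub_apply, hh]
    ring
  obtain ⟨-, t, ht0t, htle, hJ⟩ := TFWJ2.gauss hcont hcs hint ht₀
  have ht0 : 0 < t := ht₀.trans_le ht0t
  have hcl := closeness hc hε hεz b hψ hφ h1 h2
  have hD : (∫ x, ∫ y, h x * h y / ‖x - y‖) ≤ 4 * (z * (C / R)) := by
    have e1 : (∫ x, ∫ y, h x * h y / ‖x - y‖) = DirH (fun x => ψ x ^ 2 - φ x ^ 2) := rfl
    have e2 := mul_le_mul_of_nonneg_left hpot hz
    rw [e1]
    linarith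
  have hpi : Real.sqrt Real.pi ≤ 2 := by
    rw [Real.sqrt_le_left (by norm_num)]
    linarith [Real.pi_le_four]
  have hJ2 : (∫ x, Real.exp (-(t ^ 2 * ‖x‖ ^ 2)) * h x) ^ 2 ≤ (z / 8) ^ 2 := by
    refine hJ.trans ?_
    have e1 : Real.sqrt Real.pi / (2 * t₀) * (∫ x, ∫ y, h x * h y / ‖x - y‖) ≤
        Real.sqrt Real.pi / (2 * t₀) * (4 * (z * (C / R))) :=
      mul_le_mul_of_nonneg_left hD (by positivity)
    have e2 : Real.sqrt Real.pi / (2 * t₀) * (4 * (z * (C / R))) ≤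
        2 / (2 * t₀) * (t₀ * (z / 8) ^ 2) := by
      apply mul_le_mul _ ht2 (by positivity) (by positivity)
      exact div_le_div_of_nonneg_right hpi (by positivity)
    have e3 : 2 / (2 * t₀) * (t₀ * (z / 8) ^ 2) = (z / 8) ^ 2 := by
      field_simp
    linarith
  have hJ3 := abs_le_of_sq_le_sq' hJ2 (by positivity)
  have hec : Continuous (fun x : E3 => Real.exp (-(t ^ 2 * ‖x‖ ^ 2))) := by fun_prop
  have j1 : Integrable (fun x => ψ x ^ 2 * Real.exp (-(t ^ 2 * ‖x‖ ^ 2))) :=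
    hψ.adm.sq_mul_int hec
  have j2 : Integrable (fun x => φ x ^ 2 * Real.exp (-(t ^ 2 * ‖x‖ ^ 2))) :=
    hφ.adm.sq_mul_int hec
  have j3 : Integrable (fun x => φ x ^ 2 * ‖x‖ ^ 2) := hφ.adm.sq_mul_int (by fun_prop)
  have e1 : (∫ x, Real.exp (-(t ^ 2 * ‖x‖ ^ 2)) * h x) =
      (∫ x, ψ x ^ 2 * Real.exp (-(t ^ 2 * ‖x‖ ^ 2))) -
        ∫ x, φ x ^ 2 * Real.exp (-(t ^ 2 * ‖x‖ ^ 2)) := by
    rw [← integral_sub j1 j2]
    congr 1
    funext x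
    simp only [hh]
    ring
  have e2 : (∫ x, ψ x ^ 2 * Real.exp (-(t ^ 2 * ‖x‖ ^ 2))) ≤ Mass ψ := by
    apply integral_mono j1 hψ.adm.sq_int
    intro x
    simp only
    apply mul_le_of_le_one_right (sq_nonneg _)
    rw [Real.exp_le_one_iff]
    have : 0 ≤ t ^ 2 * ‖x‖ ^ 2 := by positivity
    linarith
  have e3 : Mass φ ≤ (∫ x, φ x ^ 2 * Real.exp (-(t ^ 2 * ‖x‖ ^ 2))) +
      t ^ 2 * ∫ x, φ x ^ 2 * ‖x‖ ^ 2 := by
    unfold Mass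
    rw [← integral_const_mul, ← integral_add j2 (j3.const_mul _)]
    apply integral_mono hφ.adm.sq_int (j2.add (j3.const_mul _))
    intro x
    simp only [Pi.add_apply]
    have h3 := Real.add_one_le_exp (-(t ^ 2 * ‖x‖ ^ 2))
    have h4 := mul_le_mul_of_nonneg_left h3 (sq_nonneg (φ x))
    nlinarith
  have e4 : t ^ 2 * (∫ x, φ x ^ 2 * ‖x‖ ^ 2) ≤ z / 8 := by
    have h3 : t ^ 2 ≤ (2 * t₀) ^ 2 := pow_le_pow_left₀ ht0.le htle 2
    have h4 : 0 ≤ ∫ x, φ x ^ 2 * ‖x‖ ^ 2 := integral_nonneg fun _ => by positivity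
    have h5 : t ^ 2 * (∫ x, φ x ^ 2 * ‖x‖ ^ 2) ≤ (2 * t₀) ^ 2 * C :=
      mul_le_mul h3 hm2 h4 (by positivity)
    nlinarith
  rw [e1] at hJ3
  linarith [hJ3.1]

/-- Masses at which the constrained infimum equals the unconstrained one. -/
def Good (c z : ℝ) (b : E3) (N : ℝ) : Prop :=
  0 ≤ N ∧ ∀ δ : ℝ, 0 < δ → ∀ u, Adm u → ∃ ψ, Adm ψ ∧ Mass ψ ≤ N ∧ En c z b ψ ≤ En c z b u + δ

theorem main : ∃ (c ε z : ℝ) (b : E3), 0 < c ∧ b ≠ 0 ∧ 0 < ε ∧ ε ≤ z ∧ z ≤ 1 ∧ ε = z / 2 ∧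
    (∃ N, Good c ε b N) ∧ ∀ N, Good c ε b N → Good c z b (N + z / 4) := by
  obtain ⟨c, q, hc, hq, hq1, ψ₁, hψ₁, hE₁⟩ := trial_energy
  obtain ⟨C, hC, z₀, hz₀, hnear⟩ := near_min hc.le hq hq1 hψ₁ hE₁
  have hC0 : 0 < C := by linarith
  -- the parameters
  set s : ℝ := Real.sqrt (32 * C) with hs
  have hs0 : 0 < s := Real.sqrt_pos.mpr (by positivity)
  have hs2 : s ^ 2 = 32 * C := Real.sq_sqrt (by positivity)
  have hs1 : 1 ≤ s := by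
    rw [hs]; apply Real.one_le_sqrt.mpr; linarith
  set A : ℝ := 256 * C * s with hA
  have hA1 : 1 ≤ A := by nlinarith
  set w : ℝ := min 1 (min z₀ (q / (8 * (A + 2)))) with hw
  have hw0 : 0 < w := lt_min one_pos (lt_min hz₀ (by positivity))
  have hw1 : w ≤ 1 := min_le_left _ _
  have hwz : w ≤ z₀ := (min_le_right _ _).trans (min_le_left _ _)
  have hwq : w * (A + 2) ≤ q / 8 := by
    have h1 : w ≤ q / (8 * (A + 2)) := (min_le_right _ _).trans (min_le_right _ _)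
    rw [le_div_iff₀ (by positivity)] at h1
    linarith
  set z : ℝ := w ^ 2 with hz
  have hz0 : 0 < z := by positivity
  have hzw : z ≤ w := by nlinarith
  set R : ℝ := A / w ^ 3 with hR
  have hR1 : 1 ≤ R := by
    rw [hR, le_div_iff₀ (by positivity)]
    have : w ^ 3 ≤ 1 := pow_le_one₀ hw0.le hw1
    linarith
  have hR0 : 0 < R := by linarith
  have hzR : z ^ 2 * R = A * w := by
    rw [hz, hR]; field_simp
  set b : E3 := EuclideanSpace.single 0 R with hb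
  have hbn : ‖b‖ = R := by
    rw [hb, PiLp.norm_single, Real.norm_of_nonneg hR0.le]
  have hb0 : b ≠ 0 := by
    intro h
    rw [h, norm_zero] at hbn
    linarith
  set t₀ : ℝ := w / s with ht₀
  have ht00 : 0 < t₀ := by positivity
  have ht1 : 4 * t₀ ^ 2 * C ≤ z / 8 := by
    rw [ht₀, div_pow, hs2, hz]
    apply le_of_eq
    field_simp
    ring
  have ht2 : 4 * (z * (C / R)) ≤ t₀ * (z / 8) ^ 2 := by
    apply le_of_eq
    rw [ht₀, hz, hR, hA]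
    field_simp
    ring
  have hcondz : z ^ 2 * R / 2 + (3 / 2) * z ≤ q / 8 := by
    rw [hzR]
    nlinarith
  have hcondε : (z / 2) ^ 2 * R / 2 + (3 / 2) * (z / 2) ≤ q / 8 := by
    have : (z / 2) ^ 2 * R = z ^ 2 * R / 4 := by ring
    rw [this]
    have : 0 ≤ z ^ 2 * R := by positivity
    linarith
  refine ⟨c, z / 2, z, b, hc, hb0, by positivity, by linarith, hzw.trans hw1, rfl, ?_, ?_⟩
  · obtain ⟨Λ₀, hΛ₀, hfin⟩ := hnear (z / 2) R b (by positivity) (by linarith) (by linarith) hR1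
      hbn hcondε
    refine ⟨C, hC0.le, fun δ hδ u hu => ?_⟩
    obtain ⟨Λu, hΛu, hvu⟩ := hu.exists_radius
    obtain ⟨δ₀, hδ₀, hfin2⟩ := hfin (max Λ₀ Λu) (le_max_left _ _)
    obtain ⟨ψ, hψ⟩ := exists_nearMin (c := c) (z := z / 2) hc.le (by positivity) (by linarith) b
      (max Λ₀ Λu) (show 0 < min δ₀ δ from lt_min hδ₀ hδ)
    have h1 := hfin2 _ ψ (min_le_left _ _) hψ
    refine ⟨ψ, hψ.adm.adm, h1.1, ?_⟩
    have h2 := hψ.min u ⟨hu, fun x hx => hvu x ((le_max_right _ _).trans hx)⟩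
    have h3 := min_le_right δ₀ δ
    linarith
  · obtain ⟨Λ₀, hΛ₀, hfin⟩ := hnear z R b hz0.le (by linarith) (by linarith) hR1 hbn hcondz
    rintro N ⟨hN0, hN⟩
    refine ⟨by positivity, fun δ hδ u hu => ?_⟩
    -- near-minimiser of the first problem
    set δ₁ : ℝ := z * (C / R) / 4 with hδ₁
    have hδ₁0 : 0 < δ₁ := by positivity
    obtain ⟨u₁, hu₁, hmin₁⟩ := exists_near (S := {u | Adm u}) ⟨fun _ => 0, adm_zero⟩
      (F := En c (z / 2) b) (B := -25)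
      (fun u hu => Adm.en_lower hu hc.le (by positivity) (by linarith) b)
      (show 0 < δ₁ / 2 by positivity)
    obtain ⟨ψ, hψ, hψN, hψE⟩ := hN (δ₁ / 2) (by positivity) u₁ hu₁
    have hψmin : ∀ v, Adm v → En c (z / 2) b ψ ≤ En c (z / 2) b v + δ₁ := by
      intro v hv
      have := hmin₁ v hv
      linarith
    obtain ⟨Λu, hΛu, hvu⟩ := hu.exists_radius
    obtain ⟨Λψ, hΛψ, hvψ⟩ := hψ.exists_radius
    set Λ : ℝ := max Λ₀ (max Λu Λψ) with hΛ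
    obtain ⟨δ₀, hδ₀, hfin2⟩ := hfin Λ (le_max_left _ _)
    obtain ⟨φ, hφ⟩ := exists_nearMin (c := c) (z := z) hc.le hz0.le (by linarith) b
      Λ (show 0 < min δ₀ (min δ δ₁) from lt_min hδ₀ (lt_min hδ hδ₁0))
    obtain ⟨m1, m2, m3⟩ := hfin2 _ φ (min_le_left _ _) hφ
    have hd1 : min δ₀ (min δ δ₁) ≤ δ := (min_le_right _ _).trans (min_le_left _ _)
    have hd2 : min δ₀ (min δ δ₁) ≤ δ₁ := (min_le_right _ _).trans (min_le_right _ _)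
    refine ⟨φ, hφ.adm.adm, ?_, ?_⟩
    · have hψL : AdmL Λ ψ := ⟨hψ, fun x hx => hvψ x (((le_max_right _ _).trans
        (le_max_right _ _)).trans hx)⟩
      exact mass_compare (ε := z / 2) (δ := δ₁) hc.le (by positivity) (by linarith) hR0 b hψL
        hφ.adm (fun v hv => hψmin v hv.adm)
        (fun v hv => (hφ.min v hv).trans (by linarith)) hψN hC0 m2 m3 ht00
        (by rw [hδ₁]; linarith) ht1 ht2
    · have h2 := hφ.min u ⟨hu, fun x hx => hvu x (((le_max_left _ _).trans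
        (le_max_right _ _)).trans hx)⟩
      linarith

end Pool.Agent.Helper436.TFW
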