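import Pool.Agent.Helper436.TFWBasic

/-!
# TFW theory: midpoints and closeness of near-minimisers
-/

set_option autoImplicit false

open MeasureTheory

namespace Pool.Agent.Helper436.TFW

/-- Coulomb energy of a general density. -/
noncomputable def DirH (h : E3 → ℝ) : ℝ := ∫ x, ∫ y, h x * h y / ‖x - y‖

lemma rpow_aux (t : ℝ) : |t| ^ ((10 : ℝ) / 3) = (t ^ 2) ^ ((5 : ℝ) / 3) := by
  rw [← sq_abs t, ← Real.rpow_natCast |t| 2, ← Real.rpow_mul (abs_nonneg t)]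
  norm_num

section

variable {ψ φ : E3 → ℝ}

/-- The regularised midpoint. -/
noncomputable def midf (κ : ℝ) (ψ φ : E3 → ℝ) (x : E3) : ℝ :=
  Real.sqrt (κ ^ 2 + (ψ x ^ 2 + φ x ^ 2) / 2) - κ

lemma midf_nonneg {κ : ℝ} (hκ : 0 < κ) (x : E3) : 0 ≤ midf κ ψ φ x := by
  unfold midf
  have : κ ≤ Real.sqrt (κ ^ 2 + (ψ x ^ 2 + φ x ^ 2) / 2) := by
    apply Real.le_sqrt_of_sq_le
    nlinarith [sq_nonneg (ψ x), sq_nonneg (φ x)]
  linarith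

lemma midf_sq {κ : ℝ} (x : E3) :
    midf κ ψ φ x ^ 2 = (ψ x ^ 2 + φ x ^ 2) / 2 - 2 * κ * midf κ ψ φ x := by
  unfold midf
  have h := Real.sq_sqrt (x := κ ^ 2 + (ψ x ^ 2 + φ x ^ 2) / 2) (by positivity)
  nlinarith

lemma midf_sq_le {κ : ℝ} (hκ : 0 < κ) (x : E3) :
    midf κ ψ φ x ^ 2 ≤ (ψ x ^ 2 + φ x ^ 2) / 2 := by
  rw [midf_sq]
  have := midf_nonneg (ψ := ψ) (φ := φ) hκ x
  nlinarith

lemma midf_zero {κ : ℝ} (hκ : 0 < κ) {x : E3} (h1 : ψ x = 0) (h2 : φ x = 0) :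
    midf κ ψ φ x = 0 := by
  unfold midf
  rw [h1, h2]
  have : κ ^ 2 + ((0 : ℝ) ^ 2 + 0 ^ 2) / 2 = κ ^ 2 := by ring
  rw [this, Real.sqrt_sq hκ.le, sub_self]

lemma midf_adm {κ : ℝ} (hκ : 0 < κ) (h : Adm ψ) (h' : Adm φ) : Adm (midf κ ψ φ) := by
  constructor
  · unfold midf
    apply ContDiff.sub _ contDiff_const
    apply ContDiff.sqrt
    · exact contDiff_const.add (((h.cd.pow 2).add (h'.cd.pow 2)).div_const 2)
    · intro x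
      positivity
  · obtain ⟨K1, hK1, hz1⟩ := exists_compact_iff_hasCompactSupport.mpr h.cs
    obtain ⟨K2, hK2, hz2⟩ := exists_compact_iff_hasCompactSupport.mpr h'.cs
    refine exists_compact_iff_hasCompactSupport.mp ⟨K1 ∪ K2, hK1.union hK2, fun x hx => ?_⟩
    rw [Set.mem_union, not_or] at hx
    exact midf_zero hκ (hz1 x hx.1) (hz2 x hx.2)

lemma midf_fderiv {κ : ℝ} (hκ : 0 < κ) (h : Adm ψ) (h' : Adm φ) (x : E3) :
    ‖fderiv ℝ (midf κ ψ φ) x‖ ^ 2 ≤ (‖fderiv ℝ ψ x‖ ^ 2 + ‖fderiv ℝ φ x‖ ^ 2) / 2 := by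
  set s : ℝ := κ ^ 2 + (ψ x ^ 2 + φ x ^ 2) / 2 with hs
  have hs0 : 0 < s := by positivity
  have hd1 : HasFDerivAt ψ (fderiv ℝ ψ x) x := (h.cd.differentiable (by norm_num) x).hasFDerivAt
  have hd2 : HasFDerivAt φ (fderiv ℝ φ x) x := (h'.cd.differentiable (by norm_num) x).hasFDerivAt
  have hd3 : HasFDerivAt (fun x => κ ^ 2 + (ψ x ^ 2 + φ x ^ 2) / 2)
      (ψ x • fderiv ℝ ψ x + φ x • fderiv ℝ φ x) x := by
    have h1 := hd1.pow 2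
    have h2 := hd2.pow 2
    have h3 := ((h1.add h2).mul_const (1 / 2 : ℝ)).const_add (κ ^ 2)
    have h4 : HasFDerivAt (fun x => κ ^ 2 + (ψ x ^ 2 + φ x ^ 2) * (1 / 2))
      (ψ x • fderiv ℝ ψ x + φ x • fderiv ℝ φ x) x := by
      refine h3.congr_fderiv ?_
      ext v
      simp
      ring
    have h5 : (fun x => κ ^ 2 + (ψ x ^ 2 + φ x ^ 2) / 2) =
        (fun x => κ ^ 2 + (ψ x ^ 2 + φ x ^ 2) * (1 / 2)) := by
      funext x; ring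
    rw [h5]
    exact h4
  have hd4 : HasFDerivAt (midf κ ψ φ)
      ((1 / (2 * Real.sqrt s)) • (ψ x • fderiv ℝ ψ x + φ x • fderiv ℝ φ x)) x := by
    have := (hd3.sqrt hs0.ne').sub_const κ
    exact this
  rw [hd4.fderiv, norm_smul, mul_pow]
  have hn : ‖ψ x • fderiv ℝ ψ x + φ x • fderiv ℝ φ x‖ ≤
      |ψ x| * ‖fderiv ℝ ψ x‖ + |φ x| * ‖fderiv ℝ φ x‖ := by
    refine (norm_add_le _ _).trans ?_
    rw [norm_smul, norm_smul, Real.norm_eq_abs, Real.norm_eq_abs]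
  have hn2 : ‖ψ x • fderiv ℝ ψ x + φ x • fderiv ℝ φ x‖ ^ 2 ≤
      (ψ x ^ 2 + φ x ^ 2) * (‖fderiv ℝ ψ x‖ ^ 2 + ‖fderiv ℝ φ x‖ ^ 2) := by
    have h1 := pow_le_pow_left₀ (norm_nonneg _) hn 2
    refine h1.trans ?_
    have e1 := sq_abs (ψ x)
    have e2 := sq_abs (φ x)
    rw [← e1, ← e2]
    nlinarith [sq_nonneg (|ψ x| * ‖fderiv ℝ φ x‖ - |φ x| * ‖fderiv ℝ ψ x‖)]
  have hc : ‖(1 / (2 * Real.sqrt s) : ℝ)‖ ^ 2 = 1 / (4 * s) := by
    rw [Real.norm_eq_abs, sq_abs, div_pow, mul_pow, Real.sq_sqrt hs0.le]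
    norm_num
  rw [hc]
  have h6 : ψ x ^ 2 + φ x ^ 2 ≤ 2 * s := by
    rw [hs]; nlinarith [sq_nonneg κ]
  calc 1 / (4 * s) * ‖ψ x • fderiv ℝ ψ x + φ x • fderiv ℝ φ x‖ ^ 2
      ≤ 1 / (4 * s) * ((2 * s) * (‖fderiv ℝ ψ x‖ ^ 2 + ‖fderiv ℝ φ x‖ ^ 2)) := by
        apply mul_le_mul_of_nonneg_left _ (by positivity)
        exact hn2.trans (mul_le_mul_of_nonneg_right h6 (by positivity))
    _ = (‖fderiv ℝ ψ x‖ ^ 2 + ‖fderiv ℝ φ x‖ ^ 2) / 2 := by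
        field_simp
        ring

lemma midf_kin {κ : ℝ} (hκ : 0 < κ) (h : Adm ψ) (h' : Adm φ) :
    Kin (midf κ ψ φ) ≤ (Kin ψ + Kin φ) / 2 := by
  unfold Kin
  rw [← integral_add h.kin_int h'.kin_int, ← integral_div]
  apply integral_mono (midf_adm hκ h h').kin_int ((h.kin_int.add h'.kin_int).div_const 2)
  intro x
  exact midf_fderiv hκ h h' x

lemma midf_tf {κ : ℝ} (hκ : 0 < κ) (h : Adm ψ) (h' : Adm φ) :
    TFe (midf κ ψ φ) ≤ (TFe ψ + TFe φ) / 2 := by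
  unfold TFe
  rw [← integral_add h.tf_int h'.tf_int, ← integral_div]
  apply integral_mono (midf_adm hκ h h').tf_int ((h.tf_int.add h'.tf_int).div_const 2)
  intro x
  simp only [Pi.add_apply]
  rw [rpow_aux, rpow_aux, rpow_aux]
  have h1 := Real.rpow_le_rpow (sq_nonneg _) (midf_sq_le (ψ := ψ) (φ := φ) hκ x)
    (show (0 : ℝ) ≤ 5 / 3 by norm_num)
  refine h1.trans ?_
  have h2 := (convexOn_rpow (show (1 : ℝ) ≤ 5 / 3 by norm_num)).2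
    (Set.mem_Ici.mpr (sq_nonneg (ψ x))) (Set.mem_Ici.mpr (sq_nonneg (φ x)))
    (show (0 : ℝ) ≤ 1 / 2 by norm_num) (show (0 : ℝ) ≤ 1 / 2 by norm_num) (by norm_num)
  simp only [smul_eq_mul] at h2
  have h3 : (ψ x ^ 2 + φ x ^ 2) / 2 = 1 / 2 * ψ x ^ 2 + 1 / 2 * φ x ^ 2 := by ring
  rw [h3]
  linarith

lemma midf_dir {κ : ℝ} (hκ : 0 < κ) (h : Adm ψ) (h' : Adm φ) :
    Dir (midf κ ψ φ) ≤ (Dir ψ + Dir φ) / 2 - (1 / 4) * DirH (fun x => ψ x ^ 2 - φ x ^ 2) := by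
  have i1 := cross_int h h
  have i2 := cross_int h' h'
  have i3 := cross_int h h'
  have i4 := cross_int h' h
  have e1 : Dir ψ = ∫ p : E3 × E3, ψ p.1 ^ 2 * ψ p.2 ^ 2 / ‖p.1 - p.2‖ ∂(volume.prod volume) :=
    dir_eq_prod h
  have e2 : Dir φ = ∫ p : E3 × E3, φ p.1 ^ 2 * φ p.2 ^ 2 / ‖p.1 - p.2‖ ∂(volume.prod volume) :=
    dir_eq_prod h'
  have i5 : Integrable (fun p : E3 × E3 => (ψ p.1 ^ 2 - φ p.1 ^ 2) * (ψ p.2 ^ 2 - φ p.2 ^ 2) /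
      ‖p.1 - p.2‖) (volume.prod volume) := by
    refine (((i1.sub i3).sub i4).add i2).congr (Filter.Eventually.of_forall fun p => ?_)
    simp only [Pi.add_apply, Pi.sub_apply]
    ring
  have e3 : DirH (fun x => ψ x ^ 2 - φ x ^ 2) = ∫ p : E3 × E3, (ψ p.1 ^ 2 - φ p.1 ^ 2) *
      (ψ p.2 ^ 2 - φ p.2 ^ 2) / ‖p.1 - p.2‖ ∂(volume.prod volume) := by
    rw [integral_prod _ i5]
    rfl
  have i6 : Integrable (fun p : E3 × E3 => (ψ p.1 ^ 2 * ψ p.2 ^ 2 / ‖p.1 - p.2‖ +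
      φ p.1 ^ 2 * φ p.2 ^ 2 / ‖p.1 - p.2‖) / 2) (volume.prod volume) := (i1.add i2).div_const 2
  rw [dir_eq_prod (midf_adm hκ h h'), e1, e2, e3, ← integral_add i1 i2, ← integral_div,
    ← integral_const_mul, ← integral_sub i6 (i5.const_mul (1 / 4))]
  apply integral_mono (cross_int (midf_adm hκ h h') (midf_adm hκ h h'))
    (i6.sub (i5.const_mul (1 / 4)))
  intro p
  simp only [Pi.sub_apply]
  have h1 := midf_sq_le (ψ := ψ) (φ := φ) hκ p.1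
  have h2 := midf_sq_le (ψ := ψ) (φ := φ) hκ p.2
  have h3 := mul_le_mul h1 h2 (sq_nonneg _) (by positivity)
  have h4 := div_le_div_of_nonneg_right h3 (norm_nonneg (p.1 - p.2))
  refine h4.trans (le_of_eq ?_)
  ring

/-- A cutoff function. -/
lemma exists_cutoff (Λ : ℝ) : ∃ χ : E3 → ℝ, Adm χ ∧ ∀ x, ‖x‖ ≤ Λ → χ x = 1 := by
  let f : ContDiffBump (0 : E3) := ⟨max Λ 1, max Λ 1 + 1, by positivity, by linarith⟩
  refine ⟨f, ⟨f.contDiff, f.hasCompactSupport⟩, fun x hx => ?_⟩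
  apply f.one_of_mem_closedBall
  simp only [Metric.mem_closedBall, dist_zero_right]
  exact hx.trans (le_max_left _ _)

lemma Adm.exists_radius (h : Adm ψ) : ∃ Λ : ℝ, 0 < Λ ∧ ∀ x, Λ ≤ ‖x‖ → ψ x = 0 := by
  obtain ⟨K, hK, hz⟩ := exists_compact_iff_hasCompactSupport.mpr h.cs
  obtain ⟨C, hC⟩ := hK.isBounded.exists_norm_le
  refine ⟨max C 0 + 1, by positivity, fun x hx => hz x fun hxK => ?_⟩
  have := hC x hxK
  have := le_max_left C 0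
  linarith

lemma Adm.exists_bound (h : Adm ψ) : ∃ C : ℝ, ∀ x, |ψ x| ≤ C := by
  obtain ⟨C, hC⟩ := h.cs.exists_bound_of_continuous h.cont
  exact ⟨C, fun x => by simpa using hC x⟩

lemma midf_pot (h : Adm ψ) (h' : Adm φ) (a : E3) :
    ∃ C : ℝ, ∀ κ : ℝ, 0 < κ → (Pot a ψ + Pot a φ) / 2 - κ * C ≤ Pot a (midf κ ψ φ) := by
  obtain ⟨Λ1, -, hz1⟩ := h.exists_radius
  obtain ⟨Λ2, -, hz2⟩ := h'.exists_radius
  obtain ⟨C1, hC1⟩ := h.exists_bound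
  obtain ⟨C2, hC2⟩ := h'.exists_bound
  obtain ⟨χ, hχ, hχ1⟩ := exists_cutoff (max Λ1 Λ2)
  refine ⟨2 * (|C1| + |C2|) * Pot a χ, fun κ hκ => ?_⟩
  have hm := midf_adm hκ h h'
  have i6 : Integrable (fun x => (ψ x ^ 2 / ‖x - a‖ + φ x ^ 2 / ‖x - a‖) / 2) :=
    ((h.pot_int a).add (h'.pot_int a)).div_const 2
  have e : (Pot a ψ + Pot a φ) / 2 - κ * (2 * (|C1| + |C2|) * Pot a χ) =
      ∫ x, ((ψ x ^ 2 / ‖x - a‖ + φ x ^ 2 / ‖x - a‖) / 2 -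
        κ * (2 * (|C1| + |C2|)) * (χ x ^ 2 / ‖x - a‖)) := by
    rw [integral_sub i6 ((hχ.pot_int a).const_mul _), integral_div,
      integral_add (h.pot_int a) (h'.pot_int a), integral_const_mul]
    unfold Pot
    ring
  rw [e]
  unfold Pot
  apply integral_mono (i6.sub ((hχ.pot_int a).const_mul _)) (hm.pot_int a)
  intro x
  simp only [Pi.sub_apply]
  have h1 : (ψ x ^ 2 / ‖x - a‖ + φ x ^ 2 / ‖x - a‖) / 2 - κ * (2 * (|C1| + |C2|)) *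
      (χ x ^ 2 / ‖x - a‖) = ((ψ x ^ 2 + φ x ^ 2) / 2 - 2 * κ * ((|C1| + |C2|) * χ x ^ 2)) /
        ‖x - a‖ := by ring
  rw [h1]
  apply div_le_div_of_nonneg_right _ (norm_nonneg _)
  rw [midf_sq]
  have h2 : midf κ ψ φ x ≤ (|C1| + |C2|) * χ x ^ 2 := by
    by_cases hx : ‖x‖ ≤ max Λ1 Λ2
    · rw [hχ1 x hx]
      have h3 : midf κ ψ φ x ≤ |ψ x| + |φ x| := by
        apply abs_le_of_sq_le_sq' _ (by positivity) |>.2
        have := midf_sq_le (ψ := ψ) (φ := φ) hκ x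
        nlinarith [sq_abs (ψ x), sq_abs (φ x), abs_nonneg (ψ x), abs_nonneg (φ x),
          mul_nonneg (abs_nonneg (ψ x)) (abs_nonneg (φ x)), sq_nonneg (ψ x), sq_nonneg (φ x)]
      have h4 := (hC1 x).trans (le_abs_self _)
      have h5 := (hC2 x).trans (le_abs_self _)
      nlinarith
    · push Not at hx
      rw [midf_zero hκ (hz1 x ((le_max_left _ _).trans hx.le))
        (hz2 x ((le_max_right _ _).trans hx.le))]
      positivity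
  nlinarith

end

end Pool.Agent.Helper436.TFW
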