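import Pool.Agent.Helper436.TFWMid

/-!
# TFW theory: the variational inequality for near-minimisers
-/

set_option autoImplicit false

open MeasureTheory

namespace Pool.Agent.Helper436.TFW

/-- Admissible functions vanishing outside the ball of radius `Λ`. -/
structure AdmL (Λ : ℝ) (ψ : E3 → ℝ) : Prop where
  adm : Adm ψ
  van : ∀ x, Λ ≤ ‖x‖ → ψ x = 0

section ident

variable {V : Type*} [NormedAddCommGroup V] [InnerProductSpace ℝ V]

lemma ident_aux (P R : V) (s a w : ℝ) :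
    ‖(1 - s * a ^ 2) • P - (2 * s * a * w) • R‖ ^ 2 =
      ‖P‖ ^ 2 - 2 * s * (‖a • P + w • R‖ ^ 2 - w ^ 2 * ‖R‖ ^ 2) +
        s ^ 2 * ‖a ^ 2 • P + (2 * a * w) • R‖ ^ 2 := by
  simp only [← real_inner_self_eq_norm_sq, inner_add_left, inner_add_right, inner_sub_left,
    inner_sub_right, inner_smul_left, inner_smul_right, real_inner_comm P R]
  simp only [conj_trivial]
  ring

end ident

lemma ident_dual (P R : E3 →L[ℝ] ℝ) (s a w : ℝ) :
    ‖(1 - s * a ^ 2) • P - (2 * s * a * w) • R‖ ^ 2 =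
      ‖P‖ ^ 2 - 2 * s * (‖a • P + w • R‖ ^ 2 - w ^ 2 * ‖R‖ ^ 2) +
        s ^ 2 * ‖a ^ 2 • P + (2 * a * w) • R‖ ^ 2 := by
  obtain ⟨P', rfl⟩ := (InnerProductSpace.toDual ℝ E3).surjective P
  obtain ⟨R', rfl⟩ := (InnerProductSpace.toDual ℝ E3).surjective R
  have h := ident_aux P' R' s a w
  have e1 : (1 - s * a ^ 2) • (InnerProductSpace.toDual ℝ E3) P' -
      (2 * s * a * w) • (InnerProductSpace.toDual ℝ E3) R' =
      (InnerProductSpace.toDual ℝ E3) ((1 - s * a ^ 2) • P' - (2 * s * a * w) • R') := by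
    simp [map_sub, map_smul]
  have e2 : a • (InnerProductSpace.toDual ℝ E3) P' + w • (InnerProductSpace.toDual ℝ E3) R' =
      (InnerProductSpace.toDual ℝ E3) (a • P' + w • R') := by
    simp [map_add, map_smul]
  have e3 : a ^ 2 • (InnerProductSpace.toDual ℝ E3) P' +
      (2 * a * w) • (InnerProductSpace.toDual ℝ E3) R' =
      (InnerProductSpace.toDual ℝ E3) (a ^ 2 • P' + (2 * a * w) • R') := by
    simp [map_add, map_smul]
  rw [e1, e2, e3]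
  simp only [LinearIsometryEquiv.norm_map]
  exact h

section var

variable {ψ σ : E3 → ℝ}

lemma mul_adm (h : Adm ψ) (hσ : ContDiff ℝ 1 σ) : Adm (fun x => σ x * ψ x) :=
  ⟨hσ.mul h.cd, h.cs.mul_left⟩

lemma fderiv_mul_aux (h : Adm ψ) (hσ : ContDiff ℝ 1 σ) (x : E3) :
    fderiv ℝ (fun x => σ x * ψ x) x = σ x • fderiv ℝ ψ x + ψ x • fderiv ℝ σ x := by
  have hd1 : HasFDerivAt ψ (fderiv ℝ ψ x) x := (h.cd.differentiable (by norm_num) x).hasFDerivAt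
  have hd2 : HasFDerivAt σ (fderiv ℝ σ x) x := (hσ.differentiable (by norm_num) x).hasFDerivAt
  exact (hd2.mul hd1).fderiv

lemma fderiv_sq_mul_aux (h : Adm ψ) (hσ : ContDiff ℝ 1 σ) (x : E3) :
    fderiv ℝ (fun x => σ x ^ 2 * ψ x) x =
      σ x ^ 2 • fderiv ℝ ψ x + (2 * σ x * ψ x) • fderiv ℝ σ x := by
  have hd1 : HasFDerivAt ψ (fderiv ℝ ψ x) x := (h.cd.differentiable (by norm_num) x).hasFDerivAt
  have hd2 : HasFDerivAt σ (fderiv ℝ σ x) x := (hσ.differentiable (by norm_num) x).hasFDerivAt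
  have h3 := ((hd2.pow 2).mul hd1).fderiv
  rw [show (fun x => σ x ^ 2 * ψ x) = (fun x => σ x ^ 2) * ψ from rfl]
  rw [h3]
  ext v
  simp
  ring

lemma fderiv_u_aux (h : Adm ψ) (hσ : ContDiff ℝ 1 σ) (s : ℝ) (x : E3) :
    fderiv ℝ (fun x => (1 - s * σ x ^ 2) * ψ x) x =
      (1 - s * σ x ^ 2) • fderiv ℝ ψ x - (2 * s * σ x * ψ x) • fderiv ℝ σ x := by
  have hd1 : HasFDerivAt ψ (fderiv ℝ ψ x) x := (h.cd.differentiable (by norm_num) x).hasFDerivAt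
  have hd2 : HasFDerivAt σ (fderiv ℝ σ x) x := (hσ.differentiable (by norm_num) x).hasFDerivAt
  have h3 := ((((hd2.pow 2).const_mul s).const_sub 1).mul hd1).fderiv
  rw [show (fun x => (1 - s * σ x ^ 2) * ψ x) = (fun x => (1 - s * σ x ^ 2)) * ψ from rfl]
  rw [h3]
  ext v
  simp
  ring

lemma grad_int (h : Adm ψ) (hσ : ContDiff ℝ 1 σ) :
    Integrable (fun x => ψ x ^ 2 * ‖fderiv ℝ σ x‖ ^ 2) :=
  h.sq_mul_int ((hσ.continuous_fderiv (by norm_num)).norm.pow 2)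

lemma kin_u (h : Adm ψ) (hσ : ContDiff ℝ 1 σ) (s : ℝ) :
    Kin (fun x => (1 - s * σ x ^ 2) * ψ x) = Kin ψ -
      2 * s * (Kin (fun x => σ x * ψ x) - ∫ x, ψ x ^ 2 * ‖fderiv ℝ σ x‖ ^ 2) +
        s ^ 2 * Kin (fun x => σ x ^ 2 * ψ x) := by
  have i1 := h.kin_int
  have i2 := (mul_adm h hσ).kin_int
  have i3 := grad_int h hσ
  have i4 := (mul_adm h (hσ.pow 2)).kin_int
  have i5 : Integrable (fun x => ‖fderiv ℝ (fun x => σ x * ψ x) x‖ ^ 2 -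
      ψ x ^ 2 * ‖fderiv ℝ σ x‖ ^ 2) := i2.sub i3
  have i6 : Integrable (fun x => ‖fderiv ℝ ψ x‖ ^ 2 - 2 * s * (‖fderiv ℝ (fun x => σ x * ψ x) x‖ ^ 2
      - ψ x ^ 2 * ‖fderiv ℝ σ x‖ ^ 2)) := i1.sub (i5.const_mul (2 * s))
  unfold Kin
  rw [← integral_sub i2 i3, ← integral_const_mul, ← integral_const_mul,
    ← integral_sub i1 (i5.const_mul (2 * s)), ← integral_add i6 (i4.const_mul (s ^ 2))]
  congr 1
  funext x
  rw [fderiv_u_aux h hσ s x, fderiv_mul_aux h hσ x, fderiv_sq_mul_aux h hσ x]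
  exact ident_dual _ _ _ _ _

lemma pot_u (h : Adm ψ) (hσ : ContDiff ℝ 1 σ) (s : ℝ) (a : E3) :
    Pot a ψ - 2 * s * Pot a (fun x => σ x * ψ x) ≤
      Pot a (fun x => (1 - s * σ x ^ 2) * ψ x) := by
  have hu : Adm (fun x => (1 - s * σ x ^ 2) * ψ x) :=
    mul_adm h (contDiff_const.sub (contDiff_const.mul (hσ.pow 2)))
  unfold Pot
  rw [← integral_const_mul, ← integral_sub (h.pot_int a) (((mul_adm h hσ).pot_int a).const_mul _)]
  apply integral_mono ((h.pot_int a).sub (((mul_adm h hσ).pot_int a).const_mul _)) (hu.pot_int a)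
  intro x
  simp only [Pi.sub_apply]
  have h1 : ψ x ^ 2 / ‖x - a‖ - 2 * s * ((σ x * ψ x) ^ 2 / ‖x - a‖) =
      (ψ x ^ 2 * (1 - 2 * s * σ x ^ 2)) / ‖x - a‖ := by ring
  rw [h1]
  apply div_le_div_of_nonneg_right _ (norm_nonneg _)
  rw [mul_pow, mul_comm ((1 - s * σ x ^ 2) ^ 2)]
  apply mul_le_mul_of_nonneg_left _ (sq_nonneg _)
  nlinarith [sq_nonneg (s * σ x ^ 2)]

lemma tf_u (h : Adm ψ) (hσ : ContDiff ℝ 1 σ) {s : ℝ} (hs : 0 ≤ s)
    (hB : ∀ x, ψ x ≠ 0 → s * σ x ^ 2 ≤ 1) :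
    TFe (fun x => (1 - s * σ x ^ 2) * ψ x) ≤ TFe ψ := by
  have hu : Adm (fun x => (1 - s * σ x ^ 2) * ψ x) :=
    mul_adm h (contDiff_const.sub (contDiff_const.mul (hσ.pow 2)))
  unfold TFe
  apply integral_mono hu.tf_int h.tf_int
  intro x
  simp only
  apply Real.rpow_le_rpow (abs_nonneg _) _ (by norm_num)
  by_cases hx : ψ x = 0
  · rw [hx]; simp
  · rw [abs_mul]
    have h1 := hB x hx
    have h2 : 0 ≤ s * σ x ^ 2 := by positivity
    have h3 : |1 - s * σ x ^ 2| ≤ 1 := by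
      rw [abs_le]; constructor <;> linarith
    nlinarith [abs_nonneg (ψ x)]

lemma cross_symm (h : Adm ψ) {g : E3 → ℝ} (hg : Adm g) :
    ∫ p : E3 × E3, ψ p.1 ^ 2 * g p.2 ^ 2 / ‖p.1 - p.2‖ ∂(volume.prod volume) =
      ∫ x, g x ^ 2 * U ψ x := by
  have h1 : ∫ p : E3 × E3, ψ p.1 ^ 2 * g p.2 ^ 2 / ‖p.1 - p.2‖ ∂(volume.prod volume) =
      ∫ p : E3 × E3, g p.1 ^ 2 * ψ p.2 ^ 2 / ‖p.1 - p.2‖ ∂(volume.prod volume) := by
    rw [← integral_prod_swap]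
    congr 1
    funext p
    simp only [Prod.fst_swap, Prod.snd_swap]
    rw [norm_sub_rev]
    ring
  rw [h1, integral_prod _ (cross_int hg h)]
  congr 1
  funext x
  unfold U
  rw [← integral_const_mul]
  congr 1
  funext y
  ring

lemma cross_eq (h : Adm ψ) {g : E3 → ℝ} (hg : Adm g) :
    ∫ p : E3 × E3, g p.1 ^ 2 * ψ p.2 ^ 2 / ‖p.1 - p.2‖ ∂(volume.prod volume) =
      ∫ x, g x ^ 2 * U ψ x := by
  rw [integral_prod _ (cross_int hg h)]
  congr 1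
  funext x
  unfold U
  rw [← integral_const_mul]
  congr 1
  funext y
  ring

lemma dir_u (h : Adm ψ) (hσ : ContDiff ℝ 1 σ) {s B : ℝ} (hs : 0 ≤ s) (hB0 : 0 ≤ B)
    (hsB : s * B ≤ 1) (hB : ∀ x, ψ x ≠ 0 → σ x ^ 2 ≤ B) :
    Dir (fun x => (1 - s * σ x ^ 2) * ψ x) ≤ Dir ψ -
      4 * s * (∫ x, (σ x * ψ x) ^ 2 * U ψ x) + 8 * s ^ 2 * B ^ 2 * Dir ψ := by
  have hu : Adm (fun x => (1 - s * σ x ^ 2) * ψ x) :=
    mul_adm h (contDiff_const.sub (contDiff_const.mul (hσ.pow 2)))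
  have hg : Adm (fun x => σ x * ψ x) := mul_adm h hσ
  have i1 := cross_int h h
  have i2 := cross_int hg h
  have i3 := cross_int h hg
  have e1 := cross_eq h hg
  have e2 := cross_symm h hg
  have i4 : Integrable (fun p : E3 × E3 =>
      (1 + 8 * s ^ 2 * B ^ 2) * (ψ p.1 ^ 2 * ψ p.2 ^ 2 / ‖p.1 - p.2‖) - 2 * s *
      ((σ p.1 * ψ p.1) ^ 2 * ψ p.2 ^ 2 / ‖p.1 - p.2‖)) (volume.prod volume) :=
    (i1.const_mul _).sub (i2.const_mul _)
  have e3 : Dir ψ - 4 * s * (∫ x, (σ x * ψ x) ^ 2 * U ψ x) + 8 * s ^ 2 * B ^ 2 * Dir ψ =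
      ∫ p : E3 × E3, ((1 + 8 * s ^ 2 * B ^ 2) * (ψ p.1 ^ 2 * ψ p.2 ^ 2 / ‖p.1 - p.2‖) - 2 * s *
      ((σ p.1 * ψ p.1) ^ 2 * ψ p.2 ^ 2 / ‖p.1 - p.2‖) - 2 * s *
      (ψ p.1 ^ 2 * (σ p.2 * ψ p.2) ^ 2 / ‖p.1 - p.2‖)) ∂(volume.prod volume) := by
    rw [integral_sub i4 (i3.const_mul _), integral_sub (i1.const_mul _) (i2.const_mul _),
      integral_const_mul, integral_const_mul, integral_const_mul, e1, e2, ← dir_eq_prod h]
    ring
  rw [e3, dir_eq_prod hu]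
  apply integral_mono (cross_int hu hu) (i4.sub (i3.const_mul _))
  intro p
  simp only [Pi.sub_apply]
  by_cases h1 : ψ p.1 = 0
  · rw [h1]; simp
  by_cases h2 : ψ p.2 = 0
  · rw [h2]; simp
  set a := s * σ p.1 ^ 2 with ha
  set b := s * σ p.2 ^ 2 with hb
  have ha0 : 0 ≤ a := by positivity
  have hb0 : 0 ≤ b := by positivity
  have ha1 : a ≤ s * B := mul_le_mul_of_nonneg_left (hB _ h1) hs
  have hb1 : b ≤ s * B := mul_le_mul_of_nonneg_left (hB _ h2) hs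
  have hkey : (1 - a) ^ 2 * (1 - b) ^ 2 ≤ 1 + 8 * s ^ 2 * B ^ 2 - 2 * a - 2 * b := by
    have h3 : (1 - a) ^ 2 * (1 - b) ^ 2 ≤ 1 - 2 * (a + b) + 2 * (a + b) ^ 2 := by
      have e : (1 - a) ^ 2 * (1 - b) ^ 2 = (1 - (a + b - a * b)) ^ 2 := by ring
      rw [e]
      have hab : 0 ≤ a * b := mul_nonneg ha0 hb0
      have hab2 : a * b ≤ a + b := by nlinarith
      nlinarith [sq_nonneg (a - b)]
    have h4 : (a + b) ^ 2 ≤ (2 * (s * B)) ^ 2 := by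
      apply pow_le_pow_left₀ (by positivity)
      linarith
    nlinarith
  have h5 : ((1 - a) * ψ p.1) ^ 2 * ((1 - b) * ψ p.2) ^ 2 / ‖p.1 - p.2‖ =
      ((1 - a) ^ 2 * (1 - b) ^ 2) * (ψ p.1 ^ 2 * ψ p.2 ^ 2 / ‖p.1 - p.2‖) := by ring
  rw [h5]
  have h6 : 0 ≤ ψ p.1 ^ 2 * ψ p.2 ^ 2 / ‖p.1 - p.2‖ := by positivity
  refine (mul_le_mul_of_nonneg_right hkey h6).trans (le_of_eq ?_)
  rw [ha, hb]
  ring

lemma AdmL.mass_le {Λ : ℝ} (hΛ : 0 < Λ) (h : AdmL Λ ψ) (hd : Real.sqrt (Dir ψ) ≤ 14) :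
    Mass ψ ≤ 28 * Real.sqrt Λ := by
  have h1 : Mass ψ ≤ 2 * Λ * Wt 0 Λ ψ := by
    unfold Mass Wt
    rw [← integral_const_mul]
    apply integral_mono h.adm.sq_int ((h.adm.wt_int 0 hΛ).const_mul _)
    intro x
    simp only [sub_zero]
    by_cases hx : Λ ≤ ‖x‖
    · rw [h.van x hx]; simp
    · push Not at hx
      have hn := norm_nonneg x
      rw [← mul_div_assoc, le_div_iff₀ (by positivity)]
      nlinarith [sq_nonneg (ψ x)]
  have h2 := h.adm.wt_le 0 hΛ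
  rw [Real.sqrt_div' _ hΛ.le] at h2
  have h3 : Real.sqrt (Dir ψ) / Real.sqrt Λ ≤ 14 / Real.sqrt Λ :=
    div_le_div_of_nonneg_right hd (Real.sqrt_nonneg _)
  have h4 : 2 * Λ * (14 / Real.sqrt Λ) = 28 * Real.sqrt Λ := by
    have : Real.sqrt Λ ≠ 0 := (Real.sqrt_pos.mpr hΛ).ne'
    field_simp
    rw [Real.sq_sqrt hΛ.le]
    ring
  have h5 : 2 * Λ * Wt 0 Λ ψ ≤ 2 * Λ * (14 / Real.sqrt Λ) :=
    mul_le_mul_of_nonneg_left (h2.trans h3) (by positivity)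
  linarith

/-- The quantity controlled by the first variation. -/
noncomputable def QQ (z : ℝ) (b : E3) (σ ψ : E3 → ℝ) : ℝ :=
  Kin (fun x => σ x * ψ x) - (∫ x, ψ x ^ 2 * ‖fderiv ℝ σ x‖ ^ 2) - Pot 0 (fun x => σ x * ψ x)
    - z * Pot b (fun x => σ x * ψ x) + ∫ x, (σ x * ψ x) ^ 2 * U ψ x

theorem variation {c z : ℝ} (hc : 0 ≤ c) (hz : 0 ≤ z) (hz1 : z ≤ 1) (b : E3) {Λ : ℝ}
    (hΛ : 0 < Λ) (hσ : ContDiff ℝ 1 σ) {κ : ℝ} (hκ : 0 < κ) :
    ∃ δ : ℝ, 0 < δ ∧ ∀ ψ : E3 → ℝ, AdmL Λ ψ → En c z b ψ ≤ 0 →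
      (∀ u, AdmL Λ u → En c z b ψ ≤ En c z b u + δ) → QQ z b σ ψ ≤ κ := by
  -- bounds on the ball
  have hcomp : IsCompact (Metric.closedBall (0 : E3) Λ) := isCompact_closedBall _ _
  obtain ⟨B0, hB0⟩ := hcomp.exists_bound_of_continuousOn (f := fun x => σ x ^ 2)
    (hσ.continuous.pow 2).continuousOn
  obtain ⟨B1, hB1⟩ := hcomp.exists_bound_of_continuousOn (f := fun x => ‖fderiv ℝ σ x‖ ^ 2)
    ((hσ.continuous_fderiv (by norm_num)).norm.pow 2).continuousOn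
  set B : ℝ := max B0 1 with hBdef
  have hB : ∀ x : E3, ‖x‖ ≤ Λ → σ x ^ 2 ≤ B := fun x hx => by
    have := hB0 x (by simpa using hx)
    rw [Real.norm_of_nonneg (sq_nonneg _)] at this
    exact this.trans (le_max_left _ _)
  have hB' : ∀ x : E3, ‖x‖ ≤ Λ → ‖fderiv ℝ σ x‖ ^ 2 ≤ |B1| := fun x hx => by
    have := hB1 x (by simpa using hx)
    rw [Real.norm_of_nonneg (sq_nonneg _)] at this
    exact this.trans (le_abs_self _)
  have hBpos : 1 ≤ B := le_max_right _ _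
  set C : ℝ := 2 * B ^ 2 * 33 + 8 * B * |B1| * (28 * Real.sqrt Λ) + 4 * B ^ 2 * 196 with hC
  have hCpos : 0 < C := by
    have : 0 ≤ 8 * B * |B1| * (28 * Real.sqrt Λ) := by positivity
    nlinarith
  set s : ℝ := min (1 / B) (κ / C) with hs
  have hs0 : 0 < s := by positivity
  have hs1 : s * B ≤ 1 := by
    have := min_le_left (1 / B) (κ / C)
    rw [← hs, le_div_iff₀ (by positivity)] at this
    exact this
  have hs2 : s * C ≤ κ := by
    have := min_le_right (1 / B) (κ / C)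
    rw [← hs, le_div_iff₀ hCpos] at this
    exact this
  refine ⟨s * κ, by positivity, fun ψ h hE hmin => ?_⟩
  have hsupp : ∀ x, ψ x ≠ 0 → ‖x‖ ≤ Λ := fun x hx => by
    by_contra hcon
    push Not at hcon
    exact hx (h.van x hcon.le)
  have hkin := h.adm.kin_le hc hz hz1 b hE
  have hdir := h.adm.dir_le hc hz hz1 b hE
  have hdir2 : Dir ψ ≤ 196 := by
    have := Real.sq_sqrt (dir_nonneg (ψ := ψ))
    nlinarith [Real.sqrt_nonneg (Dir ψ)]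
  have hmass := h.mass_le hΛ hdir
  have hu : AdmL Λ (fun x => (1 - s * σ x ^ 2) * ψ x) :=
    ⟨mul_adm h.adm (contDiff_const.sub (contDiff_const.mul (hσ.pow 2))), fun x hx => by
      rw [h.van x hx, mul_zero]⟩
  have h1 := hmin _ hu
  have e1 := kin_u h.adm hσ s
  have e2 := tf_u h.adm hσ hs0.le (fun x hx =>
    (mul_le_mul_of_nonneg_left (hB x (hsupp x hx)) hs0.le).trans hs1)
  have e3 := pot_u h.adm hσ s 0
  have e4 := pot_u h.adm hσ s b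
  have e5 := dir_u h.adm hσ hs0.le (by linarith : (0 : ℝ) ≤ B) hs1
    (fun x hx => hB x (hsupp x hx))
  -- bound of the second order kinetic term
  have e6 : Kin (fun x => σ x ^ 2 * ψ x) ≤ 2 * B ^ 2 * Kin ψ + 8 * B * |B1| * Mass ψ := by
    unfold Kin Mass
    rw [← integral_const_mul, ← integral_const_mul,
      ← integral_add (h.adm.kin_int.const_mul _) (h.adm.sq_int.const_mul _)]
    apply integral_mono (mul_adm h.adm (hσ.pow 2)).kin_int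
      ((h.adm.kin_int.const_mul _).add (h.adm.sq_int.const_mul _))
    intro x
    simp only [Pi.add_apply]
    rw [fderiv_sq_mul_aux h.adm hσ x]
    by_cases hx : ‖x‖ ≤ Λ
    · have h2 : ‖σ x ^ 2 • fderiv ℝ ψ x + (2 * σ x * ψ x) • fderiv ℝ σ x‖ ≤
          σ x ^ 2 * ‖fderiv ℝ ψ x‖ + 2 * |σ x| * |ψ x| * ‖fderiv ℝ σ x‖ := by
        refine (norm_add_le _ _).trans ?_
        rw [norm_smul, norm_smul, Real.norm_eq_abs, Real.norm_eq_abs, abs_mul, abs_mul,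
          abs_of_nonneg (sq_nonneg (σ x)), abs_two]
      have h3 := pow_le_pow_left₀ (norm_nonneg _) h2 2
      refine h3.trans ?_
      have h4 := hB x hx
      have h5 := hB' x hx
      have h6 : (σ x ^ 2 * ‖fderiv ℝ ψ x‖ + 2 * |σ x| * |ψ x| * ‖fderiv ℝ σ x‖) ^ 2 ≤
          2 * ((σ x ^ 2) ^ 2 * ‖fderiv ℝ ψ x‖ ^ 2) +
          8 * (σ x ^ 2 * (‖fderiv ℝ σ x‖ ^ 2 * ψ x ^ 2)) := by
        have e7 : (2 * |σ x| * |ψ x| * ‖fderiv ℝ σ x‖) ^ 2 =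
            4 * (σ x ^ 2 * (‖fderiv ℝ σ x‖ ^ 2 * ψ x ^ 2)) := by
          rw [mul_pow, mul_pow, mul_pow, sq_abs, sq_abs]; ring
        nlinarith [sq_nonneg (σ x ^ 2 * ‖fderiv ℝ ψ x‖ - 2 * |σ x| * |ψ x| * ‖fderiv ℝ σ x‖)]
      refine h6.trans ?_
      have h7 : (σ x ^ 2) ^ 2 ≤ B ^ 2 := pow_le_pow_left₀ (sq_nonneg _) h4 2
      have h8 : (σ x ^ 2) ^ 2 * ‖fderiv ℝ ψ x‖ ^ 2 ≤ B ^ 2 * ‖fderiv ℝ ψ x‖ ^ 2 :=
        mul_le_mul_of_nonneg_right h7 (sq_nonneg _)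
      have h9 : ‖fderiv ℝ σ x‖ ^ 2 * ψ x ^ 2 ≤ |B1| * ψ x ^ 2 :=
        mul_le_mul_of_nonneg_right h5 (sq_nonneg _)
      have h10 : σ x ^ 2 * (‖fderiv ℝ σ x‖ ^ 2 * ψ x ^ 2) ≤ B * (|B1| * ψ x ^ 2) :=
        mul_le_mul h4 h9 (by positivity) (by linarith)
      nlinarith
    · push Not at hx
      have h2 : ψ x = 0 := h.van x hx.le
      have h3 : fderiv ℝ ψ x = 0 := by
        have hev : ψ =ᶠ[nhds x] fun _ => 0 := by
          have : {y : E3 | Λ < ‖y‖} ∈ nhds x :=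
            (isOpen_lt continuous_const continuous_norm).mem_nhds hx
          filter_upwards [this] with y hy
          exact h.van y (le_of_lt hy)
        rw [hev.fderiv_eq]
        simp
      rw [h2, h3]
      simp
  have e7 : Kin (fun x => σ x ^ 2 * ψ x) + 4 * B ^ 2 * Dir ψ ≤ C := by
    have h2 : 2 * B ^ 2 * Kin ψ ≤ 2 * B ^ 2 * 33 := mul_le_mul_of_nonneg_left hkin (by positivity)
    have h3 : 8 * B * |B1| * Mass ψ ≤ 8 * B * |B1| * (28 * Real.sqrt Λ) :=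
      mul_le_mul_of_nonneg_left hmass (by positivity)
    have h4 : 4 * B ^ 2 * Dir ψ ≤ 4 * B ^ 2 * 196 :=
      mul_le_mul_of_nonneg_left hdir2 (by positivity)
    linarith
  -- conclusion
  have h2 : 2 * s * QQ z b σ ψ ≤ s * κ + s ^ 2 * C := by
    unfold QQ
    have h3 : c * TFe (fun x => (1 - s * σ x ^ 2) * ψ x) ≤ c * TFe ψ :=
      mul_le_mul_of_nonneg_left e2 hc
    have h4 := mul_le_mul_of_nonneg_left e4 hz
    have h5 := mul_le_mul_of_nonneg_left e7 (sq_nonneg s)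
    unfold En at h1
    rw [e1] at h1
    nlinarith
  have h3 : s * (2 * QQ z b σ ψ) ≤ s * (κ + κ) := by
    have : s ^ 2 * C ≤ s * κ := by
      have := mul_le_mul_of_nonneg_left hs2 hs0.le
      nlinarith
    nlinarith
  have h4 := le_of_mul_le_mul_left h3 hs0
  linarith

end var

end Pool.Agent.Helper436.TFW
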